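import Pool.Agent.Lib.MP_570bef_ntP.CSd

/-!
# The bound for complete sums (job CSe)

`C q = ∏_{p ∣ q} c p`, `c p = p^(2k)` if `p ≤ k^4`, `1` otherwise; `C q ≤ ∏_{p ≤ k^4} p^(2k) ≤ ((k^4)!)^(2k) =: C`.  Prove
`‖cS k q a‖^(2k) q ≤ (∏_{p ∈ q.primeFactors} c p) q^(2k)` for all `q ≥ 1` and all `a` coprime to `q` by induction over coprime factors
(`Nat.recOnPosPrimePosCoprime`: prime powers by `cS_pp_any`, `cS_pp_large`; `q = 1`: `cS_one`; products: `cS_mul`, `a q2^(k-1)` is coprime to `q1`,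
`Nat.Coprime.primeFactors_mul`).
-/

set_option autoImplicit false

namespace Pool.Agent.Lib.MP_570bef_ntP

open Finset
open Pool.Agent.Lib.MP_2a816b_nt (e nn D)

/-- the constant of a prime -/
private noncomputable def CSe_c (k p : ℕ) : ℝ := if p ≤ k ^ 4 then (p : ℝ) ^ (2 * k) else 1

private theorem CSe_c_pos (k p : ℕ) (hp : p.Prime) : 1 ≤ CSe_c k p := by
  unfold CSe_c
  split_ifs
  · exact one_le_pow₀ (by exact_mod_cast hp.one_lt.le)
  · exact le_rfl

private theorem CSe_prod (k : ℕ) (hk : 2 ≤ k) (q : ℕ) :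
    1 ≤ q → ∀ a : ℤ, IsCoprime a (q : ℤ) →
      ‖cS k q a‖ ^ (2 * k) * q ≤ (∏ p ∈ q.primeFactors, CSe_c k p) * (q : ℝ) ^ (2 * k) := by
  induction q using Nat.recOnPosPrimePosCoprime with
  | zero => intro h; omega
  | one =>
    intro _ a _
    rw [cS_one k a (by omega)]
    simp
  | prime_pow p n hp hn =>
    intro _ a ha
    have ha' : IsCoprime a (p : ℤ) := by
      push_cast at ha
      exact (IsCoprime.pow_right_iff hn).1 ha
    rw [Nat.primeFactors_prime_pow hn.ne' hp, prod_singleton]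
    push_cast
    unfold CSe_c
    split_ifs with h
    · exact cS_pp_any k p n a hk hp ha'
    · rw [one_mul]
      exact cS_pp_large k p n a hk hp ha' (not_le.1 h)
  | coprime q1 q2 h1 h2 hcop ih1 ih2 =>
    intro _ a ha
    have hq1 : 1 ≤ q1 := by omega
    have hq2 : 1 ≤ q2 := by omega
    have hc : IsCoprime (q1 : ℤ) (q2 : ℤ) := Nat.isCoprime_iff_coprime.2 hcop
    push_cast at ha
    have ha1 : IsCoprime (a * (q2 : ℤ) ^ (k - 1)) (q1 : ℤ) :=
      IsCoprime.mul_left (IsCoprime.of_mul_right_left ha) (hc.symm.pow_left)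
    have ha2 : IsCoprime (a * (q1 : ℤ) ^ (k - 1)) (q2 : ℤ) :=
      IsCoprime.mul_left (IsCoprime.of_mul_right_right ha) (hc.pow_left)
    have i1 := ih1 hq1 _ ha1
    have i2 := ih2 hq2 _ ha2
    rw [cS_mul k q1 q2 a (by omega) hq1 hq2 hcop, norm_mul, hcop.primeFactors_mul,
      prod_union hcop.disjoint_primeFactors]
    push_cast
    have hnn : ∀ q : ℕ, 0 ≤ ∏ p ∈ q.primeFactors, CSe_c k p := fun q =>
      prod_nonneg fun p hp => zero_le_one.trans (CSe_c_pos k p (Nat.prime_of_mem_primeFactors hp))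
    calc (‖cS k q1 (a * (q2 : ℤ) ^ (k - 1))‖ * ‖cS k q2 (a * (q1 : ℤ) ^ (k - 1))‖) ^ (2 * k) *
          ((q1 : ℝ) * q2)
        = (‖cS k q1 (a * (q2 : ℤ) ^ (k - 1))‖ ^ (2 * k) * q1) *
          (‖cS k q2 (a * (q1 : ℤ) ^ (k - 1))‖ ^ (2 * k) * q2) := by
          rw [mul_pow]
          ring
      _ ≤ ((∏ p ∈ q1.primeFactors, CSe_c k p) * (q1 : ℝ) ^ (2 * k)) *
          ((∏ p ∈ q2.primeFactors, CSe_c k p) * (q2 : ℝ) ^ (2 * k)) :=
          mul_le_mul i1 i2 (by positivity) (mul_nonneg (hnn q1) (by positivity))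
      _ = _ := by
          rw [mul_pow]
          ring

theorem cS_bound (k : ℕ) (hk : 2 ≤ k) : ∃ C : ℝ, 1 ≤ C ∧ ∀ (q : ℕ) (a : ℤ), 1 ≤ q →
    IsCoprime a (q : ℤ) → ‖cS k q a‖ ^ (2 * k) * q ≤ C * (q : ℝ) ^ (2 * k) := by
  classical
  refine ⟨∏ p ∈ (range (k ^ 4 + 1)).filter Nat.Prime, CSe_c k p, ?_, ?_⟩
  · exact Finset.one_le_prod fun p hp => CSe_c_pos k p (mem_filter.1 hp).2
  · intro q a hq ha
    refine (CSe_prod k hk q hq a ha).trans (mul_le_mul_of_nonneg_right ?_ (by positivity))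
    have h1 : ∏ p ∈ q.primeFactors, CSe_c k p =
        ∏ p ∈ q.primeFactors.filter (fun p => p ≤ k ^ 4), CSe_c k p := by
      rw [prod_filter]
      refine prod_congr rfl fun p _ => ?_
      split_ifs with h
      · rfl
      · unfold CSe_c
        rw [if_neg h]
    rw [h1]
    apply Finset.prod_le_prod_of_subset_of_one_le
    · intro p hp
      rw [mem_filter] at hp
      rw [mem_filter, mem_range]
      exact ⟨by omega, Nat.prime_of_mem_primeFactors hp.1⟩
    · intro p hp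
      exact zero_le_one.trans (CSe_c_pos k p (Nat.prime_of_mem_primeFactors (mem_filter.1 hp).1))
    · intro p hp _
      exact CSe_c_pos k p (mem_filter.1 hp).2

end Pool.Agent.Lib.MP_570bef_ntP
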