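import Pool.Agent.Lib.MP_570bef_ntP.Bas

/-!
# Splitting into residue classes (job Tq)

`split_classes`: for `x ≡ r mod q` `e ((a/q + β) x^k) = e (a r^k / q) e (β x^k)` (`e_add`, `a x^k / q - a r^k / q` is an integer).
`t_main`: let `T r` be the sum of `e (β x^k)` over `x < P`, `x ≡ r mod q`, and `T' = ∑_{j < J} e (β (q j)^k)`, `J = P / q` (natural division).  The class of
`r < q` is `{r + q j : j < J}` or `{r + q j : j < J + 1}`; `|(r + q j)^k - (q j)^k| ≤ k q P^(k-1)` (mean value or `geom_sum₂`), so by `norm_e_sub_le`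
`‖T r - T'‖ ≤ 1 + J * 2 π |β| k q P^(k-1) ≤ 1 + 2 π k |β| P^k ≤ 7 k (1 + P^k |β|)` (`J q ≤ P`).  So
`‖f‖ = ‖∑_r e (a r^k/q) T r‖ ≤ ‖cS k q a‖ ‖T'‖ + q 7 k (1 + P^k|β|)` and `‖T'‖ ≤ J ≤ P / q`.
-/

set_option autoImplicit false

namespace Pool.Agent.Lib.MP_570bef_ntP

open Finset
open Pool.Agent.Lib.MP_2a816b_nt (e nn D e_add e_int norm_e)

private theorem Tq_class (k q x r : ℕ) (a : ℤ) (β : ℝ) (hq : 1 ≤ q) (h : x ≡ r [MOD q]) :
    e ((a / q + β) * (x : ℝ) ^ k) = e ((a : ℝ) * (r : ℝ) ^ k / q) * e (β * (x : ℝ) ^ k) := by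
  have hq0 : (q : ℝ) ≠ 0 := by positivity
  have h1 : ((r : ℤ) ^ k : ℤ) ≡ (x : ℤ) ^ k [ZMOD q] := by
    have h2 : (x : ℤ) ≡ (r : ℤ) [ZMOD q] := by exact_mod_cast (Int.natCast_modEq_iff.2 h)
    exact (h2.pow k).symm
  obtain ⟨m, hm⟩ := h1.dvd
  have hm' : (x : ℝ) ^ k - (r : ℝ) ^ k = (q : ℝ) * m := by exact_mod_cast hm
  have h3 : ((a : ℝ) / q + β) * (x : ℝ) ^ k =
      (a : ℝ) * (r : ℝ) ^ k / q + β * (x : ℝ) ^ k + ((a * m : ℤ) : ℝ) := by
    have h4 : (x : ℝ) ^ k = (r : ℝ) ^ k + (q : ℝ) * m := by linarith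
    rw [add_mul]
    push_cast
    have h5 : (a : ℝ) / q * (x : ℝ) ^ k = (a : ℝ) * (r : ℝ) ^ k / q + a * m := by
      rw [h4]
      field_simp
    rw [h5]
    ring
  rw [h3, e_add, e_int, mul_one, e_add]

theorem split_classes (k P q : ℕ) (a : ℤ) (β : ℝ) (hq : 1 ≤ q) :
    ∑ x ∈ range P, e ((a / q + β) * (x : ℝ) ^ k) =
      ∑ r ∈ range q, e ((a : ℝ) * (r : ℝ) ^ k / q) *
        ∑ x ∈ (range P).filter (fun x => x ≡ r [MOD q]), e (β * (x : ℝ) ^ k) := by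
  rw [← sum_fiberwise_of_maps_to (s := range P) (t := range q) (g := fun x => x % q)
    (fun x _ => mem_range.2 (Nat.mod_lt _ hq))]
  apply sum_congr rfl
  intro r hr
  rw [mul_sum]
  have hr' := mem_range.1 hr
  have hset : (range P).filter (fun x => x % q = r) = (range P).filter (fun x => x ≡ r [MOD q]) := by
    apply filter_congr
    intro x _
    unfold Nat.ModEq
    rw [Nat.mod_eq_of_lt hr']
  rw [hset]
  apply sum_congr rfl
  intro x hx
  exact Tq_class k q x r a β hq (mem_filter.1 hx).2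

private theorem Tq_sum_mul (f : ℕ → ℂ) (q J : ℕ) :
    ∑ x ∈ range (q * J), f x = ∑ j ∈ range J, ∑ r ∈ range q, f (q * j + r) := by
  induction J with
  | zero => simp
  | succ J ih =>
    rw [Nat.mul_succ, sum_range_add, ih, sum_range_succ]

theorem t_main (k P q : ℕ) (a : ℤ) (β : ℝ) (hk : 1 ≤ k) (hq : 1 ≤ q) (hqP : q ≤ P) :
    ‖∑ x ∈ range P, e ((a / q + β) * (x : ℝ) ^ k)‖ ≤
      2 * (P / q) * ‖cS k q a‖ + 16 * k * (q * (1 + (P : ℝ) ^ k * |β|)) := by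
  set J := P / q with hJ
  have hqr : (0 : ℝ) < q := by exact_mod_cast hq
  have hPr : (0 : ℝ) < P := by exact_mod_cast (lt_of_lt_of_le hq hqP)
  have hkr : (1 : ℝ) ≤ k := by exact_mod_cast hk
  have hdm : q * J + P % q = P := Nat.div_add_mod P q
  have hmod : P % q < q := Nat.mod_lt _ hq
  have hJq : (q : ℝ) * J ≤ P := by
    have : q * J ≤ P := by omega
    exact_mod_cast this
  have hJP : (J : ℝ) ≤ P / q := by
    rw [le_div_iff₀ hqr]
    linarith
  have h1 : ∑ x ∈ range P, e ((a / q + β) * (x : ℝ) ^ k) =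
      ∑ x ∈ range (q * J), e ((a / q + β) * (x : ℝ) ^ k) +
        ∑ x ∈ range (P % q), e ((a / q + β) * ((q * J + x : ℕ) : ℝ) ^ k) := by
    conv_lhs => rw [← hdm]
    rw [sum_range_add]
  have h2 : ‖∑ x ∈ range (P % q), e ((a / q + β) * ((q * J + x : ℕ) : ℝ) ^ k)‖ ≤ q := by
    calc _ ≤ ∑ x ∈ range (P % q), ‖e ((a / q + β) * ((q * J + x : ℕ) : ℝ) ^ k)‖ := norm_sum_le _ _
      _ = (P % q : ℕ) := by simp [norm_e]
      _ ≤ q := by exact_mod_cast hmod.le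
  have h3 : ∑ x ∈ range (q * J), e ((a / q + β) * (x : ℝ) ^ k) =
      ∑ j ∈ range J, ∑ r ∈ range q, e ((a : ℝ) * (r : ℝ) ^ k / q) *
        e (β * ((q * j + r : ℕ) : ℝ) ^ k) := by
    rw [Tq_sum_mul]
    apply sum_congr rfl
    intro j _
    apply sum_congr rfl
    intro r _
    apply Tq_class k q (q * j + r) r a β hq
    unfold Nat.ModEq
    rw [Nat.mul_add_mod]
  have h4 : cS k q a * ∑ j ∈ range J, e (β * ((q * j : ℕ) : ℝ) ^ k) =
      ∑ j ∈ range J, ∑ r ∈ range q, e ((a : ℝ) * (r : ℝ) ^ k / q) *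
        e (β * ((q * j : ℕ) : ℝ) ^ k) := by
    unfold cS
    rw [sum_mul_sum, sum_comm]
  have h5 : ‖∑ j ∈ range J, e (β * ((q * j : ℕ) : ℝ) ^ k)‖ ≤ J := by
    calc _ ≤ ∑ j ∈ range J, ‖e (β * ((q * j : ℕ) : ℝ) ^ k)‖ := norm_sum_le _ _
      _ = J := by simp [norm_e]
  have h6 : ‖∑ x ∈ range (q * J), e ((a / q + β) * (x : ℝ) ^ k) -
      cS k q a * ∑ j ∈ range J, e (β * ((q * j : ℕ) : ℝ) ^ k)‖ ≤
      J * (q * (2 * Real.pi * (|β| * (q * k * (P : ℝ) ^ (k - 1))))) := by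
    rw [h3, h4, ← sum_sub_distrib]
    refine (norm_sum_le _ _).trans ?_
    have h7 : ∀ j ∈ range J, ‖∑ r ∈ range q, e ((a : ℝ) * (r : ℝ) ^ k / q) *
        e (β * ((q * j + r : ℕ) : ℝ) ^ k) - ∑ r ∈ range q, e ((a : ℝ) * (r : ℝ) ^ k / q) *
        e (β * ((q * j : ℕ) : ℝ) ^ k)‖ ≤
        q * (2 * Real.pi * (|β| * (q * k * (P : ℝ) ^ (k - 1)))) := by
      intro j hj
      have hj' := mem_range.1 hj
      rw [← sum_sub_distrib]
      refine (norm_sum_le _ _).trans ?_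
      have h8 : ∀ r ∈ range q, ‖e ((a : ℝ) * (r : ℝ) ^ k / q) *
          e (β * ((q * j + r : ℕ) : ℝ) ^ k) - e ((a : ℝ) * (r : ℝ) ^ k / q) *
          e (β * ((q * j : ℕ) : ℝ) ^ k)‖ ≤ 2 * Real.pi * (|β| * (q * k * (P : ℝ) ^ (k - 1))) := by
        intro r hr
        have hr' := mem_range.1 hr
        rw [← mul_sub, norm_mul, norm_e, one_mul]
        refine (norm_e_sub_le _ _).trans ?_
        have h9 : |β * ((q * j + r : ℕ) : ℝ) ^ k - β * ((q * j : ℕ) : ℝ) ^ k| ≤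
            |β| * (q * k * (P : ℝ) ^ (k - 1)) := by
          rw [← mul_sub, abs_mul]
          apply mul_le_mul_of_nonneg_left _ (abs_nonneg _)
          refine (abs_pow_sub_pow_le _ _ _).trans ?_
          have e1 : |((q * j + r : ℕ) : ℝ) - ((q * j : ℕ) : ℝ)| ≤ q := by
            push_cast
            rw [add_sub_cancel_left, abs_of_nonneg (by positivity)]
            exact_mod_cast hr'.le
          have e2 : q * j + r ≤ P := by
            have : q * (j + 1) ≤ q * J := Nat.mul_le_mul_left _ hj'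
            rw [Nat.mul_succ] at this
            omega
          have e3 : max |((q * j + r : ℕ) : ℝ)| |((q * j : ℕ) : ℝ)| ≤ P := by
            apply max_le
            · rw [abs_of_nonneg (by positivity)]
              exact_mod_cast e2
            · rw [abs_of_nonneg (by positivity)]
              have : q * j ≤ P := by omega
              exact_mod_cast this
          have e4 : (0 : ℝ) ≤ max |((q * j + r : ℕ) : ℝ)| |((q * j : ℕ) : ℝ)| :=
            (abs_nonneg _).trans (le_max_left _ _)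
          gcongr
        have : (0 : ℝ) ≤ 2 * Real.pi := by positivity
        exact mul_le_mul_of_nonneg_left h9 this
      refine (sum_le_sum h8).trans (le_of_eq ?_)
      simp
    refine (sum_le_sum h7).trans (le_of_eq ?_)
    simp
  have h10 : (J : ℝ) * (q * (2 * Real.pi * (|β| * (q * k * (P : ℝ) ^ (k - 1))))) ≤
      7 * k * (q * ((P : ℝ) ^ k * |β|)) := by
    have hpow : (P : ℝ) ^ k = P * (P : ℝ) ^ (k - 1) := by
      rw [← pow_succ']
      congr 1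
      omega
    have hpi : 2 * Real.pi ≤ 7 := by linarith [Real.pi_lt_d2]
    calc (J : ℝ) * (q * (2 * Real.pi * (|β| * (q * k * (P : ℝ) ^ (k - 1)))))
        = (2 * Real.pi) * ((q * J) * (|β| * (q * k * (P : ℝ) ^ (k - 1)))) := by ring
      _ ≤ 7 * (P * (|β| * (q * k * (P : ℝ) ^ (k - 1)))) := by gcongr
      _ = 7 * k * (q * ((P : ℝ) ^ k * |β|)) := by rw [hpow]; ring
  have h11 : ‖cS k q a * ∑ j ∈ range J, e (β * ((q * j : ℕ) : ℝ) ^ k)‖ ≤ P / q * ‖cS k q a‖ := by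
    rw [norm_mul, mul_comm]
    exact mul_le_mul_of_nonneg_right (h5.trans hJP) (norm_nonneg _)
  have h12 : ‖∑ x ∈ range P, e ((a / q + β) * (x : ℝ) ^ k)‖ ≤
      ‖cS k q a * ∑ j ∈ range J, e (β * ((q * j : ℕ) : ℝ) ^ k)‖ +
      ‖∑ x ∈ range (q * J), e ((a / q + β) * (x : ℝ) ^ k) -
      cS k q a * ∑ j ∈ range J, e (β * ((q * j : ℕ) : ℝ) ^ k)‖ +
      ‖∑ x ∈ range (P % q), e ((a / q + β) * ((q * J + x : ℕ) : ℝ) ^ k)‖ := by
    rw [h1]
    refine (norm_add_le _ _).trans ?_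
    apply add_le_add_left
    have e5 : ∑ x ∈ range (q * J), e ((a / q + β) * (x : ℝ) ^ k) =
        cS k q a * ∑ j ∈ range J, e (β * ((q * j : ℕ) : ℝ) ^ k) +
        (∑ x ∈ range (q * J), e ((a / q + β) * (x : ℝ) ^ k) -
          cS k q a * ∑ j ∈ range J, e (β * ((q * j : ℕ) : ℝ) ^ k)) := by ring
    conv_lhs => rw [e5]
    exact norm_add_le _ _
  have hb : (0 : ℝ) ≤ (P : ℝ) ^ k * |β| := by positivity
  have hc0 : 0 ≤ (P : ℝ) / q * ‖cS k q a‖ := by positivity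
  have h13 : (q : ℝ) ≤ k * q := by nlinarith
  have h14 : (0 : ℝ) ≤ k * (q * ((P : ℝ) ^ k * |β|)) := by positivity
  have h15 : 16 * k * (q * (1 + (P : ℝ) ^ k * |β|)) =
      16 * (k * q) + 16 * (k * (q * ((P : ℝ) ^ k * |β|))) := by ring
  have h16 : 2 * (P / q) * ‖cS k q a‖ = P / q * ‖cS k q a‖ + P / q * ‖cS k q a‖ := by ring
  rw [h15, h16]
  have h17 : 7 * k * (q * ((P : ℝ) ^ k * |β|)) = 7 * (k * (q * ((P : ℝ) ^ k * |β|))) := by ring
  rw [h17] at h10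
  have h18 : (0 : ℝ) ≤ k * q := by positivity
  linarith

end Pool.Agent.Lib.MP_570bef_ntP
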