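import Pool.Agent.Lib.MP_570bef_ntP.Tb
import Pool.Agent.Lib.MP_570bef_ntP.Tq
import Pool.Agent.Lib.MP_570bef_ntP.CSe

/-!
# The bound for the sum over all `x < P` (job Fz)

`β = α - a/q`, `L = 1 + P^k |β|`, `Q = q L`, `Q² ≤ P`, so `q ≤ Q ≤ √P ≤ P`, `L ≤ Q`.  Let `F = ‖∑_{x<P} e (α x^k)‖ ≤ P`.
If `P < 4 k²`: `F^(4k) Q ≤ P^(4k) P ≤ 4 k² P^(4k)`.  Let `P ≥ 4 k²`.
(1) `t_main`: `F ≤ 2 (P/q) S + 16 k Q`, `S = ‖cS k q a‖`, `S^(2k) q ≤ C q^(2k)`; `Q ≤ P / Q ≤ P / q`; `(x + y)^(2k) ≤ 4^k (x^(2k) + y^(2k))`: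
`F^(2k) q ≤ 4^k (2^(2k) P^(2k) C + (16k)^(2k) P^(2k))` (as `(Q)^(2k) q ≤ P^(2k) q^(1-2k) ≤ P^(2k)`).  So `F^(2k) q ≤ C₁ P^(2k)`.
(2) If `1 ≤ P^k |β|`: `x₀ = |β|^(-1/k)` (real power), `|β| x₀^k = 1`; `split_classes` and `t_beta` for each of the `q` classes: `F ≤ 16 x₀`,
`F^(2k) |β|² ≤ 16^(2k)`, i.e. `F^(2k) (P^k |β|)² ≤ 16^(2k) P^(2k)`; `L ≤ L² ≤ 4 (P^k |β|)²`, `F^(2k) L ≤ 4 * 16^(2k) P^(2k)`.  Otherwise `L < 2` and
`F^(2k) L ≤ 2 P^(2k)` trivially.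
Multiply (1) and (2): `F^(4k) Q ≤ C₂ P^(4k)`.
-/

set_option autoImplicit false

namespace Pool.Agent.Lib.MP_570bef_ntP

open Finset
open Pool.Agent.Lib.MP_2a816b_nt (e nn D)

private theorem Fz_pow (k : ℕ) {x y : ℝ} (hx : 0 ≤ x) (hy : 0 ≤ y) :
    (x + y) ^ (2 * k) ≤ 4 ^ k * (x ^ (2 * k) + y ^ (2 * k)) := by
  have h4 : (4 : ℝ) ^ k = 2 ^ (2 * k) := by
    rw [pow_mul]
    norm_num
  rcases le_total x y with h | h
  · calc (x + y) ^ (2 * k) ≤ (2 * y) ^ (2 * k) := by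
          apply pow_le_pow_left₀ (by positivity)
          linarith
      _ = 4 ^ k * y ^ (2 * k) := by rw [mul_pow, h4]
      _ ≤ 4 ^ k * (x ^ (2 * k) + y ^ (2 * k)) := by
          apply mul_le_mul_of_nonneg_left _ (by positivity)
          linarith [pow_nonneg hx (2 * k)]
  · calc (x + y) ^ (2 * k) ≤ (2 * x) ^ (2 * k) := by
          apply pow_le_pow_left₀ (by positivity)
          linarith
      _ = 4 ^ k * x ^ (2 * k) := by rw [mul_pow, h4]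
      _ ≤ 4 ^ k * (x ^ (2 * k) + y ^ (2 * k)) := by
          apply mul_le_mul_of_nonneg_left _ (by positivity)
          linarith [pow_nonneg hy (2 * k)]

private theorem Fz_one {k : ℕ} (hk : 2 ≤ k) {C F P q L S : ℝ} (hC : 1 ≤ C) (hF0 : 0 ≤ F) (hP : 1 ≤ P)
    (hq : 1 ≤ q) (hL : 1 ≤ L) (hS0 : 0 ≤ S) (hQ : (q * L) ^ 2 ≤ P)
    (hS : S ^ (2 * k) * q ≤ C * q ^ (2 * k))
    (hF : F ≤ 2 * (P / q) * S + 16 * k * (q * L)) :
    F ^ (2 * k) * q ≤ 4 ^ k * (2 ^ (2 * k) * C + (16 * k) ^ (2 * k)) * P ^ (2 * k) := by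
  have hq0 : 0 < q := by linarith
  have hP0 : 0 < P := by linarith
  have hL0 : 0 < L := by linarith
  have h1 : F ^ (2 * k) ≤ 4 ^ k * ((2 * (P / q) * S) ^ (2 * k) + (16 * k * (q * L)) ^ (2 * k)) :=
    (pow_le_pow_left₀ hF0 hF _).trans (Fz_pow k (by positivity) (by positivity))
  have h2 : (2 * (P / q) * S) ^ (2 * k) * q ≤ 2 ^ (2 * k) * C * P ^ (2 * k) := by
    have e1 : (2 * (P / q) * S) ^ (2 * k) * q =
        2 ^ (2 * k) * (P ^ (2 * k) / q ^ (2 * k)) * (S ^ (2 * k) * q) := by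
      rw [mul_pow, mul_pow, div_pow]
      ring
    rw [e1]
    calc 2 ^ (2 * k) * (P ^ (2 * k) / q ^ (2 * k)) * (S ^ (2 * k) * q)
        ≤ 2 ^ (2 * k) * (P ^ (2 * k) / q ^ (2 * k)) * (C * q ^ (2 * k)) :=
          mul_le_mul_of_nonneg_left hS (by positivity)
      _ = 2 ^ (2 * k) * C * P ^ (2 * k) := by
          field_simp
  have h3 : (16 * k * (q * L)) ^ (2 * k) * q ≤ (16 * k) ^ (2 * k) * P ^ (2 * k) := by
    have e1 : (16 * (k : ℝ) * (q * L)) ^ (2 * k) * q = (16 * k) ^ (2 * k) * ((q * L) ^ (2 * k) * q) := by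
      rw [mul_pow]
      ring
    rw [e1]
    apply mul_le_mul_of_nonneg_left _ (by positivity)
    have h4 : q ≤ q ^ (2 * k) := le_self_pow₀ hq (by omega)
    have h5 : (q * L) * q ≤ P := by
      refine le_trans ?_ hQ
      rw [sq]
      apply mul_le_mul_of_nonneg_left _ (by positivity)
      nlinarith
    calc (q * L) ^ (2 * k) * q ≤ (q * L) ^ (2 * k) * q ^ (2 * k) :=
          mul_le_mul_of_nonneg_left h4 (by positivity)
      _ = ((q * L) * q) ^ (2 * k) := by rw [mul_pow (q * L) q]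
      _ ≤ P ^ (2 * k) := pow_le_pow_left₀ (by positivity) h5 _
  calc F ^ (2 * k) * q
      ≤ 4 ^ k * ((2 * (P / q) * S) ^ (2 * k) + (16 * k * (q * L)) ^ (2 * k)) * q :=
        mul_le_mul_of_nonneg_right h1 hq0.le
    _ = 4 ^ k * ((2 * (P / q) * S) ^ (2 * k) * q + (16 * k * (q * L)) ^ (2 * k) * q) := by ring
    _ ≤ 4 ^ k * (2 ^ (2 * k) * C * P ^ (2 * k) + (16 * k) ^ (2 * k) * P ^ (2 * k)) := by
        apply mul_le_mul_of_nonneg_left _ (by positivity)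
        exact add_le_add h2 h3
    _ = _ := by ring

private theorem Fz_two {k : ℕ} {F P b x₀ : ℝ} (hF0 : 0 ≤ F) (hP : 0 < P) (hb : 0 ≤ b)
    (h1 : 1 ≤ P ^ k * b) (hx : b * x₀ ^ k = 1) (hF : F ≤ 16 * x₀) :
    F ^ (2 * k) * (1 + P ^ k * b) ≤ 4 * 16 ^ (2 * k) * P ^ (2 * k) := by
  have h2 : F ^ (2 * k) ≤ (16 * x₀) ^ (2 * k) := pow_le_pow_left₀ hF0 hF _
  have h3 : F ^ (2 * k) * (P ^ k * b) ^ 2 ≤ 16 ^ (2 * k) * P ^ (2 * k) := by
    calc F ^ (2 * k) * (P ^ k * b) ^ 2 ≤ (16 * x₀) ^ (2 * k) * (P ^ k * b) ^ 2 :=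
          mul_le_mul_of_nonneg_right h2 (by positivity)
      _ = 16 ^ (2 * k) * P ^ (2 * k) * (b * x₀ ^ k) ^ 2 := by
          rw [mul_pow, mul_pow, mul_pow, ← pow_mul, ← pow_mul, mul_comm k 2]
          ring
      _ = 16 ^ (2 * k) * P ^ (2 * k) := by rw [hx, one_pow, mul_one]
  have h4 : 1 + P ^ k * b ≤ 4 * (P ^ k * b) ^ 2 := by nlinarith
  calc F ^ (2 * k) * (1 + P ^ k * b) ≤ F ^ (2 * k) * (4 * (P ^ k * b) ^ 2) :=
        mul_le_mul_of_nonneg_left h4 (by positivity)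
    _ = 4 * (F ^ (2 * k) * (P ^ k * b) ^ 2) := by ring
    _ ≤ 4 * (16 ^ (2 * k) * P ^ (2 * k)) := by linarith
    _ = _ := by ring

theorem f0_bound (k : ℕ) (hk : 2 ≤ k) : ∃ C : ℝ, 1 ≤ C ∧ ∀ (P : ℕ) (α : ℝ) (a : ℤ) (q : ℕ),
    1 ≤ P → 1 ≤ q → IsCoprime a (q : ℤ) → (q * (1 + (P : ℝ) ^ k * |α - a / q|)) ^ 2 ≤ P →
    ‖∑ x ∈ range P, e (α * (x : ℝ) ^ k)‖ ^ (4 * k) * (q * (1 + (P : ℝ) ^ k * |α - a / q|)) ≤
      C * (P : ℝ) ^ (4 * k) := by
  obtain ⟨C, hC, hcS⟩ := cS_bound k hk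
  refine ⟨(4 ^ k * (2 ^ (2 * k) * C + (16 * k) ^ (2 * k))) * (4 * 16 ^ (2 * k)) + (4 * k ^ 2 + 1), ?_,
    ?_⟩
  · have : 0 ≤ (4 ^ k * (2 ^ (2 * k) * C + (16 * (k : ℝ)) ^ (2 * k))) * (4 * 16 ^ (2 * k)) := by
      positivity
    have h2 : (0 : ℝ) ≤ 4 * (k : ℝ) ^ 2 := by positivity
    linarith
  intro P α a q hP hq hcop hQ
  have hP1 : (1 : ℝ) ≤ P := by exact_mod_cast hP
  have hP0 : (0 : ℝ) < P := by linarith
  have hq1 : (1 : ℝ) ≤ q := by exact_mod_cast hq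
  have hq0 : (0 : ℝ) < q := by linarith
  set β : ℝ := α - a / q with hβ
  have hα : α = a / q + β := by rw [hβ]; ring
  set L : ℝ := 1 + (P : ℝ) ^ k * |β| with hLdef
  have ht0 : 0 ≤ (P : ℝ) ^ k * |β| := by positivity
  have hL : 1 ≤ L := by rw [hLdef]; linarith
  have hQ1 : 1 ≤ (q : ℝ) * L := by nlinarith
  have hQP : (q : ℝ) * L ≤ P := by
    refine le_trans ?_ hQ
    nlinarith
  have hqP : (q : ℝ) ≤ P := by nlinarith
  set F : ℝ := ‖∑ x ∈ range P, e (α * (x : ℝ) ^ k)‖ with hFdef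
  have hF0 : 0 ≤ F := norm_nonneg _
  have hFP : F ≤ P := by
    refine (norm_sum_le _ _).trans (le_of_eq ?_)
    simp [Pool.Agent.Lib.MP_2a816b_nt.norm_e]
  have hpos : 0 ≤ (4 ^ k * (2 ^ (2 * k) * C + (16 * (k : ℝ)) ^ (2 * k))) * (4 * 16 ^ (2 * k)) := by
    positivity
  rcases lt_or_ge P (4 * k ^ 2) with hsm | hbig
  · have h1 : (P : ℝ) ≤ 4 * (k : ℝ) ^ 2 := by exact_mod_cast hsm.le
    have h2 : F ^ (4 * k) ≤ (P : ℝ) ^ (4 * k) := pow_le_pow_left₀ hF0 hFP _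
    calc F ^ (4 * k) * (q * L) ≤ (P : ℝ) ^ (4 * k) * (4 * (k : ℝ) ^ 2) :=
          mul_le_mul h2 (hQP.trans h1) (by positivity) (by positivity)
      _ ≤ _ := by
          rw [mul_comm]
          apply mul_le_mul_of_nonneg_right _ (by positivity)
          linarith
  · have hFm : F ≤ 2 * (P / q) * ‖cS k q a‖ + 16 * k * (q * L) := by
      have h1 := t_main k P q a β (by omega) hq (by exact_mod_cast hqP)
      rw [← hα] at h1
      exact h1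
    have k1 := Fz_one hk hC hF0 hP1 hq1 hL (norm_nonneg _) hQ (hcS q a hq hcop) hFm
    have k2 : F ^ (2 * k) * L ≤ 4 * 16 ^ (2 * k) * (P : ℝ) ^ (2 * k) := by
      rcases le_or_gt 1 ((P : ℝ) ^ k * |β|) with hb | hb
      · have hβ0 : 0 < |β| := by
          rcases (abs_nonneg β).eq_or_lt with h | h
          · rw [← h, mul_zero] at hb
            norm_num at hb
          · exact h
        have hk0 : (k : ℝ) ≠ 0 := by
          have : k ≠ 0 := by omega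
          exact_mod_cast this
        have hx0 : 0 < |β| ^ (-(1 : ℝ) / k) := Real.rpow_pos_of_pos hβ0 _
        have hx : |β| * (|β| ^ (-(1 : ℝ) / k)) ^ k = 1 := by
          rw [← Real.rpow_natCast, ← Real.rpow_mul hβ0.le, div_mul_cancel₀ _ hk0, Real.rpow_neg_one,
            mul_inv_cancel₀ hβ0.ne']
        refine Fz_two hF0 hP0 (abs_nonneg β) hb hx ?_
        rw [hFdef, hα, split_classes k P q a β hq]
        refine (norm_sum_le _ _).trans ?_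
        have h1 : ∀ r ∈ range q, ‖e ((a : ℝ) * (r : ℝ) ^ k / q) *
            ∑ x ∈ (range P).filter (fun x => x ≡ r [MOD q]), e (β * (x : ℝ) ^ k)‖ ≤
            16 * |β| ^ (-(1 : ℝ) / k) / q := by
          intro r _
          rw [norm_mul, Pool.Agent.Lib.MP_2a816b_nt.norm_e, one_mul]
          exact t_beta k P q r β _ (by omega) hbig hq hQ hb hx0 hx
        refine (sum_le_sum h1).trans (le_of_eq ?_)
        rw [sum_const, card_range, nsmul_eq_mul]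
        field_simp
      · have h1 : L ≤ 2 := by rw [hLdef]; linarith
        have h2 : F ^ (2 * k) ≤ (P : ℝ) ^ (2 * k) := pow_le_pow_left₀ hF0 hFP _
        have h3 : (1 : ℝ) ≤ 16 ^ (2 * k) := one_le_pow₀ (by norm_num)
        calc F ^ (2 * k) * L ≤ (P : ℝ) ^ (2 * k) * 2 :=
              mul_le_mul h2 h1 (by linarith) (by positivity)
          _ ≤ 4 * 16 ^ (2 * k) * (P : ℝ) ^ (2 * k) := by
              rw [mul_comm]
              apply mul_le_mul_of_nonneg_right _ (by positivity)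
              linarith
    have e1 : F ^ (4 * k) * (q * L) = (F ^ (2 * k) * q) * (F ^ (2 * k) * L) := by
      rw [show 4 * k = 2 * k + 2 * k by ring, pow_add]
      ring
    have e2 : (P : ℝ) ^ (4 * k) = (P : ℝ) ^ (2 * k) * (P : ℝ) ^ (2 * k) := by
      rw [show 4 * k = 2 * k + 2 * k by ring, pow_add]
    rw [e1, e2]
    refine (mul_le_mul k1 k2 (by positivity) (by positivity)).trans ?_
    have h5 : 0 ≤ (4 * (k : ℝ) ^ 2 + 1) * ((P : ℝ) ^ (2 * k) * (P : ℝ) ^ (2 * k)) := by positivity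
    linarith

end Pool.Agent.Lib.MP_570bef_ntP
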