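import Pool.Agent.Lib.MP_570bef_ntP.Bas
import Pool.Agent.Lib.MP_570bef_nt.Basic

/-!
# The counting hypothesis (job CntA)

`countSums k s 0 N` is the cardinality of the filter (`Set.ncard_coe_finset` after rewriting the set).  `N^(1 - κ/k) * N^(κ/k) = N` (`Real.rpow_add`, `N ≥ 1`), and for
`N = B^(n k)` (`B ≥ 1`) `N^(κ/k) = B^(n κ)` (`Real.rpow_natCast`, `Real.rpow_mul`).  So `B^(nk) ≤ card * B^(nκ)` for all large `B` (`n ≥ 1`,
`B^(nk) ≥ B ≥ N₀`).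
`count_mono`: inclusion of finite sets.  `all_scales`: for `N` large let `B` be the largest number with `g * B^h ≤ N` (`Nat.findGreatest` or
`Nat.sqrt`-like; existence: the set is bounded because `h ≥ 1`, `g ≥ 1`); `B ≥ B₀` if `N ≥ g * B₀^h`; `N < g (B+1)^h ≤ g 2^h B^h` (`B ≥ 1`), so
`N ≤ g 2^h c₁ countSums k s 0 (g B^h) ≤ g 2^h c₁ countSums k s 0 N`.
-/

set_option autoImplicit false

namespace Pool.Agent.Lib.MP_570bef_ntP

open Finset
open Pool.Agent.Lib.MP_2a816b_nt (e nn D)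

open Pool.Agent.Lib.MP_570bef_nt (IsSum countSums)

open Classical in
/-- the sums of `s` `k`-th powers below `N` -/
noncomputable def sums (k s N : ℕ) : Finset ℕ := (range N).filter (IsSum k s)

theorem card_sums (k s N : ℕ) : (sums k s N).card = countSums k s 0 N := by
  classical
  unfold countSums
  have h1 : {n : ℕ | 0 ≤ n ∧ n < 0 + N ∧ IsSum k s n} = ((sums k s N : Finset ℕ) : Set ℕ) := by
    ext n
    simp [sums]
  rw [h1, Set.ncard_coe_finset]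

theorem count_power (κ k s n : ℕ) (hk : 1 ≤ k) (hn : 1 ≤ n)
    (h : ∃ N₀ : ℕ, ∀ N ≥ N₀, (N : ℝ) ^ (1 - (κ : ℝ) / k) ≤ countSums k s 0 N) :
    ∃ B₀ : ℕ, ∀ B ≥ B₀, B ^ (n * k) ≤ (sums k s (B ^ (n * k))).card * B ^ (n * κ) := by
  obtain ⟨N₀, hN₀⟩ := h
  refine ⟨N₀ + 1, fun B hB => ?_⟩
  have hnk : n * k ≠ 0 := (Nat.mul_pos hn hk).ne'
  have hB1 : 1 ≤ B := by omega
  have h1 : N₀ ≤ B ^ (n * k) := (by omega : N₀ ≤ B).trans (Nat.le_self_pow hnk B)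
  have h2 := hN₀ (B ^ (n * k)) h1
  have hBr : (0 : ℝ) < (B : ℝ) := by exact_mod_cast hB1
  have hk0 : (k : ℝ) ≠ 0 := by
    have : 0 < k := hk
    positivity
  have h3 : (((B ^ (n * k) : ℕ) : ℝ)) ^ ((κ : ℝ) / k) = (B : ℝ) ^ (n * κ) := by
    rw [Nat.cast_pow, ← Real.rpow_natCast, ← Real.rpow_mul hBr.le, ← Real.rpow_natCast]
    congr 1
    push_cast
    field_simp
  have hNr : (0 : ℝ) < ((B ^ (n * k) : ℕ) : ℝ) := by
    rw [Nat.cast_pow]
    positivity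
  have h4 : (((B ^ (n * k) : ℕ) : ℝ)) = ((B ^ (n * k) : ℕ) : ℝ) ^ (1 - (κ : ℝ) / k) *
      ((B ^ (n * k) : ℕ) : ℝ) ^ ((κ : ℝ) / k) := by
    rw [← Real.rpow_add hNr, sub_add_cancel, Real.rpow_one]
  have h5 : (((B ^ (n * k) : ℕ) : ℝ)) ≤ (countSums k s 0 (B ^ (n * k)) : ℝ) * (B : ℝ) ^ (n * κ) := by
    rw [← h3]
    calc (((B ^ (n * k) : ℕ) : ℝ)) = _ := h4
      _ ≤ _ := mul_le_mul_of_nonneg_right h2 (by positivity)
  rw [card_sums]
  exact_mod_cast h5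

theorem count_mono (k s N N' : ℕ) (h : N ≤ N') : countSums k s 0 N ≤ countSums k s 0 N' := by
  classical
  rw [← card_sums, ← card_sums]
  unfold sums
  exact Finset.card_le_card (Finset.filter_subset_filter _ (Finset.range_mono h))

theorem all_scales (k s h g c₁ : ℕ) (hh : 1 ≤ h) (hg : 1 ≤ g)
    (H : ∃ B₀ : ℕ, ∀ B ≥ B₀, B ^ h ≤ c₁ * countSums k s 0 (g * B ^ h)) :
    ∃ c N₁ : ℕ, ∀ N ≥ N₁, N ≤ c * countSums k s 0 N := by
  classical
  obtain ⟨B₀, hB₀⟩ := H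
  refine ⟨g * 2 ^ h * c₁, g * (B₀ + 1) ^ h, fun N hN => ?_⟩
  have hh0 : h ≠ 0 := by omega
  have hself : ∀ B : ℕ, B ≤ g * B ^ h := fun B =>
    (Nat.le_self_pow hh0 B).trans (Nat.le_mul_of_pos_left _ hg)
  obtain ⟨B, hBdef⟩ : ∃ B, B = Nat.findGreatest (fun B => g * B ^ h ≤ N) N := ⟨_, rfl⟩
  have h1 : B₀ + 1 ≤ N := (hself _).trans hN
  have h2 : B₀ + 1 ≤ B := by
    rw [hBdef]
    exact Nat.le_findGreatest h1 hN
  have h3 : g * B ^ h ≤ N := by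
    have := Nat.findGreatest_spec (P := fun B => g * B ^ h ≤ N) h1 hN
    rwa [← hBdef] at this
  have h4 : N < g * (B + 1) ^ h := by
    by_contra hcon
    rw [not_lt] at hcon
    have h5 : B + 1 ≤ N := (hself _).trans hcon
    have h6 := Nat.le_findGreatest (P := fun B => g * B ^ h ≤ N) h5 hcon
    omega
  have h5 : (B + 1) ^ h ≤ 2 ^ h * B ^ h := by
    rw [← mul_pow]
    exact Nat.pow_le_pow_left (by omega) h
  calc N ≤ g * (B + 1) ^ h := h4.le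
    _ ≤ g * (2 ^ h * B ^ h) := Nat.mul_le_mul_left _ h5
    _ = g * 2 ^ h * B ^ h := by ring
    _ ≤ g * 2 ^ h * (c₁ * countSums k s 0 (g * B ^ h)) := Nat.mul_le_mul_left _ (hB₀ B (by omega))
    _ ≤ g * 2 ^ h * (c₁ * countSums k s 0 N) :=
        Nat.mul_le_mul_left _ (Nat.mul_le_mul_left _ (count_mono k s _ _ h3))
    _ = g * 2 ^ h * c₁ * countSums k s 0 N := by ring

end Pool.Agent.Lib.MP_570bef_ntP
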