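import Pool.Agent.Lib.MP_570bef_ntP.Bas

/-!
# Dirichlet's theorem (job Dir)

`Real.exists_rat_abs_sub_le_and_den_le α (n := H)`: a rational `r` with `|α - r| ≤ 1 / ((H + 1) r.den)`, `r.den ≤ H`; `a = r.num`, `q = r.den`
(`r = a / q`: `Rat.num_div_den`; `Rat.reduced`, `Nat.isCoprime_iff_coprime`, `Int.isCoprime_iff_gcd_eq_one`).  If `a ≤ -1`, `|α - a/q| ≥ 1/q > 1/((H+1) q)`; if
`a ≥ q + 1`, `a/q - α > 1/q`.
-/

set_option autoImplicit false

namespace Pool.Agent.Lib.MP_570bef_ntP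

open Finset
open Pool.Agent.Lib.MP_2a816b_nt (e nn D)

theorem dirichlet (α : ℝ) (h0 : 0 ≤ α) (h1 : α < 1) (H : ℕ) (hH : 1 ≤ H) :
    ∃ (a : ℤ) (q : ℕ), 1 ≤ q ∧ q ≤ H ∧ IsCoprime a (q : ℤ) ∧ 0 ≤ a ∧ a ≤ q ∧
      |α - a / q| * ((q : ℝ) * H) ≤ 1 := by
  obtain ⟨r, hr, hd⟩ := Real.exists_rat_abs_sub_le_and_den_le α (n := H) (by omega)
  have hq1 : 1 ≤ r.den := r.den_pos
  have hqpos : (0 : ℝ) < r.den := by exact_mod_cast r.den_pos
  have hHpos : (0 : ℝ) < H := by exact_mod_cast hH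
  have hcast : (r : ℝ) = (r.num : ℝ) / (r.den : ℝ) := by
    exact Rat.cast_def r
  rw [hcast] at hr
  have hr2 : |α - r.num / r.den| * ((r.den : ℝ) * (H + 1)) ≤ 1 := by
    rw [le_div_iff₀ (by positivity)] at hr
    linarith
  have hb : |α - r.num / r.den| * (r.den : ℝ) < 1 := by
    have h2 : |α - r.num / r.den| * (r.den : ℝ) * (H + 1) ≤ 1 := by linarith
    have h3 : 0 ≤ |α - r.num / r.den| * (r.den : ℝ) := by positivity
    by_contra h4
    rw [not_lt] at h4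
    nlinarith
  have hb2 : |α * r.den - r.num| < 1 := by
    have h3 : α * r.den - r.num = (α - r.num / r.den) * r.den := by
      field_simp
    rw [h3, abs_mul, abs_of_pos hqpos]
    exact hb
  rw [abs_lt] at hb2
  refine ⟨r.num, r.den, hq1, hd, ?_, ?_, ?_, ?_⟩
  · rw [Int.isCoprime_iff_gcd_eq_one]
    have := r.reduced
    unfold Nat.Coprime at this
    simpa [Int.gcd] using this
  · by_contra h
    rw [not_le] at h
    have h1 : (r.num : ℝ) ≤ -1 := by exact_mod_cast (show r.num ≤ -1 by omega)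
    have h2 : 0 ≤ α * r.den := by positivity
    linarith [hb2.2]
  · by_contra h
    rw [not_le] at h
    have h1 : ((r.den : ℝ)) + 1 ≤ r.num := by exact_mod_cast (show (r.den : ℤ) + 1 ≤ r.num by omega)
    have h2 : α * r.den ≤ r.den := by nlinarith
    linarith [hb2.1]
  · have h3 : 0 ≤ |α - r.num / r.den| * (r.den : ℝ) := by positivity
    nlinarith

end Pool.Agent.Lib.MP_570bef_ntP
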