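import Pool.Agent.Lib.MP_570bef_ntP.Bas

/-!
# The dual large sieve (job Dua)

`‖∑_{u ∈ A} ∑_{i ∈ S} e (u c_i)‖² ≤ |A| ∑_{u ∈ A} ‖∑_i e (u c_i)‖²` (Cauchy-Schwarz) `≤ |A| ∑_{u < U} ‖∑_i e (u c_i)‖²`
`= |A| ∑_{i, j ∈ S} ∑_{u < U} e (u (c_i - c_j)) ≤ |A| ∑_{i ∈ S} ∑_j ‖∑_u ...‖ ≤ |A| |S| G`.
-/

set_option autoImplicit false

namespace Pool.Agent.Lib.MP_570bef_ntP

open Finset
open Pool.Agent.Lib.MP_2a816b_nt (e nn D e_add norm_e conj_e)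

theorem dual_sieve {ι : Type*} (S : Finset ι) (c : ι → ℝ) (U : ℕ) (A : Finset ℕ)
    (hA : A ⊆ range U) (G : ℝ)
    (hG : ∀ i ∈ S, ∑ j ∈ S, ‖∑ u ∈ range U, e ((u : ℝ) * (c i - c j))‖ ≤ G) :
    ‖∑ i ∈ S, ∑ u ∈ A, e ((u : ℝ) * c i)‖ ^ 2 ≤ (S.card : ℝ) * A.card * G := by
  have hA1 : ‖∑ i ∈ S, ∑ u ∈ A, e ((u : ℝ) * c i)‖ ^ 2 ≤
      (A.card : ℝ) * ∑ u ∈ A, ‖∑ i ∈ S, e ((u : ℝ) * c i)‖ ^ 2 := by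
    rw [sum_comm]
    have h1 : ‖∑ u ∈ A, ∑ i ∈ S, e ((u : ℝ) * c i)‖ ≤ ∑ u ∈ A, ‖∑ i ∈ S, e ((u : ℝ) * c i)‖ :=
      norm_sum_le _ _
    have h2 : (∑ u ∈ A, ‖∑ i ∈ S, e ((u : ℝ) * c i)‖) ^ 2 ≤
        (A.card : ℝ) * ∑ u ∈ A, ‖∑ i ∈ S, e ((u : ℝ) * c i)‖ ^ 2 := sq_sum_le_card_mul_sum_sq
    exact (pow_le_pow_left₀ (norm_nonneg _) h1 2).trans h2
  have hA2 : ∑ u ∈ A, ‖∑ i ∈ S, e ((u : ℝ) * c i)‖ ^ 2 ≤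
      ∑ u ∈ range U, ‖∑ i ∈ S, e ((u : ℝ) * c i)‖ ^ 2 :=
    sum_le_sum_of_subset_of_nonneg hA fun _ _ _ => by positivity
  have hA3 : ((∑ u ∈ range U, ‖∑ i ∈ S, e ((u : ℝ) * c i)‖ ^ 2 : ℝ) : ℂ) =
      ∑ i ∈ S, ∑ j ∈ S, ∑ u ∈ range U, e ((u : ℝ) * (c i - c j)) := by
    push_cast
    have h1 : ∀ u ∈ range U, ((‖∑ i ∈ S, e ((u : ℝ) * c i)‖ : ℂ)) ^ 2 =
        ∑ i ∈ S, ∑ j ∈ S, e ((u : ℝ) * (c i - c j)) := by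
      intro u _
      rw [← Complex.mul_conj']
      rw [map_sum, sum_mul_sum]
      refine sum_congr rfl fun i _ => sum_congr rfl fun j _ => ?_
      rw [conj_e, ← e_add]
      congr 1
      ring
    rw [sum_congr rfl h1, sum_comm]
    refine sum_congr rfl fun i _ => ?_
    rw [sum_comm]
  have hA4 : ∑ u ∈ range U, ‖∑ i ∈ S, e ((u : ℝ) * c i)‖ ^ 2 ≤ S.card * G := by
    have h0 : 0 ≤ ∑ u ∈ range U, ‖∑ i ∈ S, e ((u : ℝ) * c i)‖ ^ 2 := by positivity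
    have h1 : ∑ u ∈ range U, ‖∑ i ∈ S, e ((u : ℝ) * c i)‖ ^ 2 =
        ‖∑ i ∈ S, ∑ j ∈ S, ∑ u ∈ range U, e ((u : ℝ) * (c i - c j))‖ := by
      rw [← hA3, Complex.norm_real, Real.norm_of_nonneg h0]
    rw [h1]
    calc ‖∑ i ∈ S, ∑ j ∈ S, ∑ u ∈ range U, e ((u : ℝ) * (c i - c j))‖
        ≤ ∑ i ∈ S, ∑ j ∈ S, ‖∑ u ∈ range U, e ((u : ℝ) * (c i - c j))‖ :=
          (norm_sum_le _ _).trans (sum_le_sum fun i _ => norm_sum_le _ _)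
      _ ≤ ∑ i ∈ S, G := sum_le_sum hG
      _ = S.card * G := by rw [sum_const, nsmul_eq_mul]
  calc ‖∑ i ∈ S, ∑ u ∈ A, e ((u : ℝ) * c i)‖ ^ 2
      ≤ (A.card : ℝ) * ∑ u ∈ A, ‖∑ i ∈ S, e ((u : ℝ) * c i)‖ ^ 2 := hA1
    _ ≤ (A.card : ℝ) * (S.card * G) :=
        mul_le_mul_of_nonneg_left (hA2.trans hA4) (by positivity)
    _ = _ := by ring

end Pool.Agent.Lib.MP_570bef_ntP
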