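import Pool.Agent.Lib.MP_570bef_ntP.Bas

/-!
# There are many primes in `(B ^ c, B ^ (c + 1)]` (job Prm)

`π(x) ≥ c₁ x / log x` (`Chebyshev.pi_ge` in Mathlib; see `Lib/MP_9dd88f_nt/DE/Pool.lean` or `Lib/MP_42948a_nt/OA/FB.lean` for its use).  The number of primes in
`(B^c, B^(c+1)]` is at least `π(B^(c+1)) - B^c ≥ c₁ B^(c+1) / ((c+1) log B) - B^c ≥ B^c` as soon as `c₁ B / ((c+1) log B) ≥ 2`, which holds for large `B`
(`log B / B → 0`).
-/

set_option autoImplicit false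

namespace Pool.Agent.Lib.MP_570bef_ntP

open Finset
open Pool.Agent.Lib.MP_2a816b_nt (e nn D)

theorem primes_many (c : ℕ) : ∃ B₀ : ℕ, ∀ B ≥ B₀, B ^ c ≤ (PP B c).card := by
  have hlo : ∀ᶠ x : ℝ in Filter.atTop, ‖Real.log x‖ ≤ (1 / (8 * ((c : ℝ) + 1))) * ‖x‖ :=
    Real.isLittleO_log_id_atTop.bound (by positivity)
  obtain ⟨x₀, hx₀⟩ := Filter.eventually_atTop.1 hlo
  refine ⟨max 20 ⌈x₀⌉₊, fun B hB => ?_⟩
  have hB20 : 20 ≤ B := (le_max_left _ _).trans hB
  have hBx : x₀ ≤ B := (Nat.le_ceil x₀).trans (by exact_mod_cast (le_max_right _ _).trans hB)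
  have hBr : (20 : ℝ) ≤ B := by exact_mod_cast hB20
  have hlogB : 0 < Real.log B := Real.log_pos (by linarith)
  have h1 := hx₀ B hBx
  rw [Real.norm_of_nonneg hlogB.le, Real.norm_of_nonneg (by linarith : (0 : ℝ) ≤ B)] at h1
  have hc : (0 : ℝ) < (c : ℝ) + 1 := by positivity
  have h2 : ((c : ℝ) + 1) * Real.log B ≤ B / 8 := by
    calc ((c : ℝ) + 1) * Real.log B ≤ ((c : ℝ) + 1) * (1 / (8 * ((c : ℝ) + 1)) * B) :=
          mul_le_mul_of_nonneg_left h1 hc.le
      _ = B / 8 := by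
          field_simp
  set n : ℕ := B ^ (c + 1) with hn
  have hnr : (n : ℝ) = (B : ℝ) ^ (c + 1) := by rw [hn]; push_cast; rfl
  have hBn : (B : ℝ) ≤ n := by
    rw [hnr]
    calc (B : ℝ) = (B : ℝ) ^ 1 := (pow_one _).symm
      _ ≤ _ := pow_le_pow_right₀ (by linarith) (by omega)
  have hlogn : Real.log n = ((c : ℝ) + 1) * Real.log B := by
    rw [hnr, Real.log_pow]
    push_cast
    ring
  have hlogn1 : Real.log ((n : ℝ) + 1) ≤ 0.7 + B / 8 := by
    have h3 : Real.log ((n : ℝ) + 1) ≤ Real.log (2 * n) := Real.log_le_log (by linarith) (by linarith)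
    rw [Real.log_mul (by norm_num) (by linarith), hlogn] at h3
    linarith [Real.log_two_lt_d9]
  have hpi := Chebyshev.pi_ge n
  rw [div_le_iff₀ (Real.log_pos (by linarith)), hlogn] at hpi
  have hp0 : (0 : ℝ) ≤ (Nat.primeCounting n : ℝ) := Nat.cast_nonneg _
  have h4 : (n : ℝ) / 2 ≤ (Nat.primeCounting n : ℝ) * (B / 8) := by
    have h5 : (Nat.primeCounting n : ℝ) * (((c : ℝ) + 1) * Real.log B) ≤
        (Nat.primeCounting n : ℝ) * (B / 8) := mul_le_mul_of_nonneg_left h2 hp0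
    have h6 : 0.69 * (n : ℝ) ≤ n * Real.log 2 := by nlinarith [Real.log_two_gt_d9]
    nlinarith
  have h7 : 4 * (B : ℝ) ^ c ≤ Nat.primeCounting n := by
    have h8 : (n : ℝ) = (B : ℝ) ^ c * B := by rw [hnr, pow_succ]
    rw [h8] at h4
    have hBpos : (0 : ℝ) < B := by linarith
    have h9 : 4 * (B : ℝ) ^ c * B ≤ (Nat.primeCounting n : ℝ) * B := by linarith
    exact le_of_mul_le_mul_right h9 hBpos
  have h8 : 4 * B ^ c ≤ Nat.primeCounting n := by exact_mod_cast h7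
  have h9 : Nat.primeCounting n ≤ (PP B c).card + B ^ c := by
    rw [Nat.primeCounting, Nat.primeCounting', Nat.count_eq_card_filter_range]
    refine le_trans (card_le_card (t := PP B c ∪ Icc 1 (B ^ c)) ?_) ?_
    · intro p hp
      obtain ⟨hp1, hp2⟩ := mem_filter.1 hp
      rw [mem_range] at hp1
      rw [mem_union]
      rcases Nat.lt_or_ge (B ^ c) p with h | h
      · left
        exact mem_filter.2 ⟨mem_Ioc.2 ⟨h, by omega⟩, hp2⟩
      · right
        exact mem_Icc.2 ⟨hp2.one_lt.le, h⟩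
    · refine (card_union_le _ _).trans ?_
      rw [Nat.card_Icc]
      omega
  omega

end Pool.Agent.Lib.MP_570bef_ntP
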