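import Pool.Agent.Lib.MP_570bef_ntP.Gd
import Pool.Agent.Lib.MP_570bef_ntP.Dua
import Pool.Agent.Lib.MP_570bef_ntP.Prm

/-!
# The sum over primes times `A` (job Vb)

`K = κ + 1`, `c = 64Km - 16m - 1`, `𝓜 = PP B c`, `U = B^(16mk)`.  `dual_sieve` with `S = 𝓜`, `c_p = α p^k`, and `G = B^(64Km) B^(16mk) / B^(20Km+1)` (`norm_D_le_mm`:
`∑_{u<U} e (u x) = D U x`; `g_bound`): `‖V‖² ≤ |𝓜| |A| G`.  `|𝓜| ≥ B^c` (`primes_many c`), `|A| B^(16mκ) ≥ B^(16mk)`, so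
`|𝓜| |A| B^(16mκ + 16m + 1) ≥ B^(c + 16m + 1 + 16mk) = B^(64Km) B^(16mk)`, i.e. `|𝓜||A| B^(16Km+1) ≥ G B^(20Km+1)`, `|𝓜||A| ≥ G B^(4Km)`.
-/

set_option autoImplicit false

namespace Pool.Agent.Lib.MP_570bef_ntP

open Finset
open Pool.Agent.Lib.MP_2a816b_nt (e nn D)

theorem v_bound (κ k m : ℕ) (hk : 2 ≤ k) (hkm : k ≤ m) : ∃ B₀ : ℕ, ∀ B ≥ B₀,
    ∀ (α : ℝ) (a : ℤ) (q : ℕ), 1 ≤ q → IsCoprime a (q : ℤ) → q ≤ B ^ (8 * m * k) →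
      |α - a / q| * (q * (B : ℝ) ^ (64 * (κ + 1) * m * k - 8 * m * k)) ≤ 1 →
      (B : ℝ) ^ (32 * (κ + 1) * m) ≤ q * (1 + (B : ℝ) ^ (64 * (κ + 1) * m * k) * |α - a / q|) →
      ∀ A ⊆ range (B ^ (16 * m * k)), B ^ (16 * m * k) ≤ A.card * B ^ (16 * m * κ) →
        ‖∑ p ∈ PP B (64 * (κ + 1) * m - 16 * m - 1), ∑ u ∈ A, e (α * ((p : ℝ) ^ k * u))‖ ^ 2 *
            (B : ℝ) ^ (4 * (κ + 1) * m) ≤
          (((PP B (64 * (κ + 1) * m - 16 * m - 1)).card : ℝ) * A.card) ^ 2 := by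
  obtain ⟨B₁, h1⟩ := g_bound κ k m hk hkm
  obtain ⟨B₂, h2⟩ := primes_many (64 * (κ + 1) * m - 16 * m - 1)
  refine ⟨max (max B₁ B₂) 1, fun B hB α a q hq hcop hqB hα hbig A hA hAc => ?_⟩
  have hB1 : B₁ ≤ B := (le_max_left _ _).trans ((le_max_left _ _).trans hB)
  have hB2 : B₂ ≤ B := (le_max_right _ _).trans ((le_max_left _ _).trans hB)
  have hB0 : 1 ≤ B := (le_max_right _ _).trans hB
  have hG := h1 B hB1 α a q hq hcop hqB hα hbig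
  have hM := h2 B hB2
  have hBr : (1 : ℝ) ≤ B := by exact_mod_cast hB0
  have hBp : (0 : ℝ) < B := by linarith
  obtain ⟨c, hc⟩ : ∃ c, c = 64 * (κ + 1) * m - 16 * m - 1 := ⟨_, rfl⟩
  rw [← hc] at hG hM ⊢
  have hm1 : 1 ≤ m := by omega
  have hcc : c + 16 * m + 1 = 64 * (κ + 1) * m := by
    have h3 : 16 * m + 1 ≤ 64 * (κ + 1) * m := by
      have h4 : 64 * (κ + 1) * m = 64 * κ * m + 64 * m := by ring
      have h5 : 0 ≤ 64 * κ * m := Nat.zero_le _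
      omega
    omega
  set G : ℝ := (B : ℝ) ^ (64 * (κ + 1) * m) * (B : ℝ) ^ (16 * m * k) / (B : ℝ) ^ (20 * (κ + 1) * m + 1)
    with hGd
  have hsum : ‖∑ p ∈ PP B c, ∑ u ∈ A, e (α * ((p : ℝ) ^ k * u))‖ ^ 2 ≤
      ((PP B c).card : ℝ) * A.card * G := by
    have h3 : ∑ p ∈ PP B c, ∑ u ∈ A, e (α * ((p : ℝ) ^ k * u)) =
        ∑ p ∈ PP B c, ∑ u ∈ A, e ((u : ℝ) * (α * (p : ℝ) ^ k)) := by
      refine sum_congr rfl fun p _ => sum_congr rfl fun u _ => ?_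
      congr 1
      ring
    rw [h3]
    refine dual_sieve (PP B c) (fun p => α * (p : ℝ) ^ k) (B ^ (16 * m * k)) A hA G (fun p hp => ?_)
    have h4 := hG p hp
    rw [hGd, le_div_iff₀ (by positivity)]
    refine le_trans ?_ h4
    gcongr with z hz
    have h5 := norm_D_le_mm (B ^ (16 * m * k)) (α * ((p : ℝ) ^ k - (z : ℝ) ^ k))
    have h6 : D (B ^ (16 * m * k)) (α * ((p : ℝ) ^ k - (z : ℝ) ^ k)) =
        ∑ u ∈ range (B ^ (16 * m * k)), e ((u : ℝ) * (α * (p : ℝ) ^ k - α * (z : ℝ) ^ k)) := by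
      unfold D
      refine sum_congr rfl fun u _ => ?_
      congr 1
      ring
    rw [h6] at h5
    push_cast at h5
    exact h5
  have hMr : (B : ℝ) ^ c ≤ ((PP B c).card : ℝ) := by exact_mod_cast hM
  have hAr : (B : ℝ) ^ (16 * m * k) ≤ (A.card : ℝ) * (B : ℝ) ^ (16 * m * κ) := by exact_mod_cast hAc
  have hkey : G * (B : ℝ) ^ (4 * (κ + 1) * m) ≤ ((PP B c).card : ℝ) * A.card := by
    rw [hGd, div_mul_eq_mul_div, div_le_iff₀ (by positivity)]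
    calc (B : ℝ) ^ (64 * (κ + 1) * m) * (B : ℝ) ^ (16 * m * k) * (B : ℝ) ^ (4 * (κ + 1) * m)
        ≤ (B : ℝ) ^ (64 * (κ + 1) * m) * ((A.card : ℝ) * (B : ℝ) ^ (16 * m * κ)) *
            (B : ℝ) ^ (4 * (κ + 1) * m) := by gcongr
      _ = (B : ℝ) ^ c * ((A.card : ℝ) * (B : ℝ) ^ (20 * (κ + 1) * m + 1)) := by
          rw [← hcc]
          have h7 : (B : ℝ) ^ (c + 16 * m + 1) * (B : ℝ) ^ (16 * m * κ) *
              (B : ℝ) ^ (4 * (κ + 1) * m) = (B : ℝ) ^ c * (B : ℝ) ^ (20 * (κ + 1) * m + 1) := by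
            rw [← pow_add, ← pow_add, ← pow_add]
            congr 1
            ring
          linear_combination (A.card : ℝ) * h7
      _ ≤ ((PP B c).card : ℝ) * ((A.card : ℝ) * (B : ℝ) ^ (20 * (κ + 1) * m + 1)) := by gcongr
      _ = ((PP B c).card : ℝ) * A.card * (B : ℝ) ^ (20 * (κ + 1) * m + 1) := by ring
  calc ‖∑ p ∈ PP B c, ∑ u ∈ A, e (α * ((p : ℝ) ^ k * u))‖ ^ 2 * (B : ℝ) ^ (4 * (κ + 1) * m)
      ≤ ((PP B c).card : ℝ) * A.card * G * (B : ℝ) ^ (4 * (κ + 1) * m) := by gcongr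
    _ = ((PP B c).card : ℝ) * A.card * (G * (B : ℝ) ^ (4 * (κ + 1) * m)) := by ring
    _ ≤ ((PP B c).card : ℝ) * A.card * (((PP B c).card : ℝ) * A.card) := by gcongr
    _ = (((PP B c).card : ℝ) * A.card) ^ 2 := by ring

end Pool.Agent.Lib.MP_570bef_ntP
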