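import Pool.Agent.Lib.MP_570bef_ntP.Fb
import Pool.Agent.Lib.MP_570bef_ntP.Vb
import Pool.Agent.Lib.MP_570bef_ntP.Fz
import Pool.Agent.Lib.MP_570bef_ntP.Dir

/-!
# The three kinds of arcs (job Arc)

`K = κ + 1`, `h = 64 K m`, `P = B^h`, `N = B^(hk) = P^k`, `s1 = (1 + 4 (32 K)) k`, `t = 64 κ K (1 + 128 K)² k`.
Take `m ≥ k`, `B₁` from `f_bound κ k k`, `B₂` from `v_bound κ k m`, `C₀` from `f0_bound k`; `C = C₀^4`.
Given `α`, apply `dirichlet` with `H = B^(64Kmk - 8mk)`.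
(I) `B^(8mk) ≤ q`: `|α - a/q| ≤ 1/(q H) ≤ 1/q²`, `f_bound`.  `k`-th root trick: `(‖f‖^(2t) B^(64Kmκ))^k = (‖f‖^(4 s1²) B^(2mk))^(32κK) ≤ (|X|^(8 s1²))^(32κK)
= ((|X|^2)^(2t))^k` because `2 t k = 4 s1² * 32 κ K` and `64 K m κ k = 2 m k * 32 κ K`; take `k`-th roots (`pow_le_pow_iff_left₀`).
(II) `q ≤ B^(8mk)` and `B^(32Km) ≤ q (1 + N |β|)`: `v_bound` to the power `16 κ`.
(III) `q (1 + N |β|) < B^(32Km)`: its square is `≤ B^(64Km) = P`: `f0_bound` (with `P^k = B^(64Kmk)`) to the fourth power.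
-/

set_option autoImplicit false

namespace Pool.Agent.Lib.MP_570bef_ntP

open Finset
open Pool.Agent.Lib.MP_2a816b_nt (e nn D)

private theorem Arc_mp (x y : ℝ) (a b n : ℕ) : (x ^ a * y ^ b) ^ n = x ^ (a * n) * y ^ (b * n) := by
  rw [mul_pow, ← pow_mul, ← pow_mul]

private theorem Arc_root (κ k m : ℕ) (hk : 2 ≤ k) (F B X : ℝ) (hF : 0 ≤ F) (hB : 0 ≤ B)
    (_hX : 0 ≤ X)
    (h : F ^ (4 * ((1 + 4 * (32 * (κ + 1))) * k) ^ 2) * B ^ (2 * m * k) ≤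
      X ^ (8 * ((1 + 4 * (32 * (κ + 1))) * k) ^ 2)) :
    F ^ (2 * (64 * κ * (κ + 1) * (1 + 128 * (κ + 1)) ^ 2 * k)) * B ^ (64 * (κ + 1) * m * κ) ≤
      (X ^ 2) ^ (2 * (64 * κ * (κ + 1) * (1 + 128 * (κ + 1)) ^ 2 * k)) := by
  have h1 := pow_le_pow_left₀ (by positivity) h (32 * κ * (κ + 1))
  have e1 : (F ^ (4 * ((1 + 4 * (32 * (κ + 1))) * k) ^ 2) * B ^ (2 * m * k)) ^
      (32 * κ * (κ + 1)) =
      (F ^ (2 * (64 * κ * (κ + 1) * (1 + 128 * (κ + 1)) ^ 2 * k)) *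
        B ^ (64 * (κ + 1) * m * κ)) ^ k := by
    have a1 : 4 * ((1 + 4 * (32 * (κ + 1))) * k) ^ 2 * (32 * κ * (κ + 1)) =
        2 * (64 * κ * (κ + 1) * (1 + 128 * (κ + 1)) ^ 2 * k) * k := by ring
    have a2 : 2 * m * k * (32 * κ * (κ + 1)) = 64 * (κ + 1) * m * κ * k := by ring
    rw [Arc_mp, Arc_mp, a1, a2]
  have e2 : (X ^ (8 * ((1 + 4 * (32 * (κ + 1))) * k) ^ 2)) ^ (32 * κ * (κ + 1)) =
      ((X ^ 2) ^ (2 * (64 * κ * (κ + 1) * (1 + 128 * (κ + 1)) ^ 2 * k))) ^ k := by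
    rw [← pow_mul, ← pow_mul, ← pow_mul]
    congr 1
    ring
  rw [e1, e2] at h1
  exact (pow_le_pow_iff_left₀ (by positivity) (by positivity) (by omega)).mp h1

theorem arcs (κ k : ℕ) (hk : 2 ≤ k) : ∃ m ≥ k, ∃ C : ℝ, 1 ≤ C ∧ ∃ B₀ : ℕ, ∀ B ≥ B₀,
    ∃ X : Finset ℕ, X.Nonempty ∧ (∀ x ∈ X, 1 ≤ x ∧ x ≤ B ^ (32 * (κ + 1) * m)) ∧
      ∀ A ⊆ range (B ^ (16 * m * k)), B ^ (16 * m * k) ≤ A.card * B ^ (16 * m * κ) →
      ∀ α : ℝ, 0 ≤ α → α < 1 →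
        ‖∑ x ∈ X, ∑ y ∈ X, e (α * ((x : ℝ) * y) ^ k)‖ ^
            (2 * (64 * κ * (κ + 1) * (1 + 128 * (κ + 1)) ^ 2 * k)) *
            (B : ℝ) ^ (64 * (κ + 1) * m * κ) ≤
          ((X.card : ℝ) ^ 2) ^ (2 * (64 * κ * (κ + 1) * (1 + 128 * (κ + 1)) ^ 2 * k)) ∨
        ‖∑ p ∈ PP B (64 * (κ + 1) * m - 16 * m - 1), ∑ u ∈ A, e (α * ((p : ℝ) ^ k * u))‖ ^
            (2 * (16 * κ)) * (B : ℝ) ^ (64 * (κ + 1) * m * κ) ≤
          (((PP B (64 * (κ + 1) * m - 16 * m - 1)).card : ℝ) * A.card) ^ (2 * (16 * κ)) ∨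
        ∃ (q : ℕ) (a : ℤ), 1 ≤ q ∧ 0 ≤ a ∧ a ≤ q ∧
          ‖∑ x ∈ range (B ^ (64 * (κ + 1) * m)), e (α * (x : ℝ) ^ k)‖ ^ (2 * (8 * k)) *
            ((q : ℝ) * (1 + (B : ℝ) ^ (64 * (κ + 1) * m * k) * |α - a / q|)) ^ 4 ≤
          C * ((B : ℝ) ^ (64 * (κ + 1) * m)) ^ (2 * (8 * k)) := by
  obtain ⟨m, hkm, hm1, B1, hf⟩ := f_bound κ k k hk
  obtain ⟨B2, hv⟩ := v_bound κ k m hk hkm
  obtain ⟨C0, hC0, hz⟩ := f0_bound k hk
  refine ⟨m, hkm, C0 ^ 4, one_le_pow₀ hC0, max (max B1 B2) 1, fun B hB => ?_⟩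
  have hB1 : B1 ≤ B := le_trans (le_trans (le_max_left _ _) (le_max_left _ _)) hB
  have hB2 : B2 ≤ B := le_trans (le_trans (le_max_right _ _) (le_max_left _ _)) hB
  have hB3 : 1 ≤ B := le_trans (le_max_right _ _) hB
  have hBr : (1 : ℝ) ≤ B := by exact_mod_cast hB3
  have hBr0 : (0 : ℝ) ≤ B := by linarith
  obtain ⟨X, hX, hXb, hfX⟩ := hf B hB1
  refine ⟨X, hX, hXb, fun A hA hAc α h0 h1 => ?_⟩
  obtain ⟨a, q, hq1, hqH, hcop, ha0, haq, hdir⟩ := dirichlet α h0 h1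
    (B ^ (64 * (κ + 1) * m * k - 8 * m * k)) (Nat.one_le_pow _ _ hB3)
  have hqr : (1 : ℝ) ≤ q := by exact_mod_cast hq1
  have hqr0 : (0 : ℝ) < q := by linarith
  have hab : 0 ≤ |α - a / q| := abs_nonneg _
  rcases le_or_gt (B ^ (8 * m * k)) q with hI | hI
  · left
    have hsq : |α - a / q| ≤ 1 / (q : ℝ) ^ 2 := by
      rw [le_div_iff₀ (by positivity)]
      refine le_trans (mul_le_mul_of_nonneg_left ?_ hab) hdir
      rw [pow_two]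
      refine mul_le_mul_of_nonneg_left ?_ hqr0.le
      exact_mod_cast hqH
    have h2 := hfX α a q hq1 hcop hsq hI hqH
    exact Arc_root κ k m hk _ _ _ (norm_nonneg _) hBr0 (Nat.cast_nonneg _) h2
  · right
    rcases le_or_gt ((B : ℝ) ^ (32 * (κ + 1) * m))
      (q * (1 + (B : ℝ) ^ (64 * (κ + 1) * m * k) * |α - a / q|)) with hII | hII
    · left
      have hdir2 : |α - a / q| * (q * (B : ℝ) ^ (64 * (κ + 1) * m * k - 8 * m * k)) ≤ 1 := by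
        push_cast at hdir
        exact hdir
      have h2 := hv B hB2 α a q hq1 hcop hI.le hdir2 hII A hA hAc
      have h3 := pow_le_pow_left₀ (by positivity) h2 (16 * κ)
      rw [Arc_mp, ← pow_mul] at h3
      have h4 : 4 * (κ + 1) * m * (16 * κ) = 64 * (κ + 1) * m * κ := by ring
      rw [h4] at h3
      exact h3
    · right
      refine ⟨q, a, hq1, ha0, haq, ?_⟩
      have hPk : (((B ^ (64 * (κ + 1) * m) : ℕ) : ℝ)) ^ k = (B : ℝ) ^ (64 * (κ + 1) * m * k) := by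
        push_cast
        rw [← pow_mul]
      have hQ : (q * (1 + (((B ^ (64 * (κ + 1) * m) : ℕ) : ℝ)) ^ k * |α - a / q|)) ^ 2 ≤
          ((B ^ (64 * (κ + 1) * m) : ℕ) : ℝ) := by
        rw [hPk]
        have h2 := pow_le_pow_left₀ (by positivity) hII.le 2
        refine h2.trans (le_of_eq ?_)
        push_cast
        rw [← pow_mul]
        congr 1
        ring
      have h2 := hz (B ^ (64 * (κ + 1) * m)) α a q (Nat.one_le_pow _ _ hB3) hq1 hcop hQ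
      rw [hPk] at h2
      have h3 := pow_le_pow_left₀ (by positivity) h2 4
      have h4 : 4 * k * 4 = 2 * (8 * k) := by ring
      rw [mul_pow, ← pow_mul, mul_pow C0, ← pow_mul, h4] at h3
      push_cast at h3
      exact h3

end Pool.Agent.Lib.MP_570bef_ntP
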