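import Pool.Agent.Lib.MP_570bef_ntP.Four

/-!
# Many values (job AsA)

Index set `S = S₁ ×ˢ (piFinset S₂ ×ˢ (piFinset S₃ ×ˢ piFinset S₄))` (functions from `Fin g`, `Fin t`, `Fin z`), `φ = a + ∑ ψ₂ + ∑ ψ₃ + ∑ ψ₄ < R`.
`∑_{i ∈ S} e (θ φ i) = F₁ F₂^g F₃^t F₄^z` (`e_add`, `Finset.sum_product`, `sum_pi`), so the left side of `hbd` is `∑_b ‖∑_{i ∈ S} e (b/R φ i)‖² = R col S φ`
(`mean_col`), and `|S|² ≤ |image| col S φ` (`card_sq_le`), `|S| = |S₁| |S₂|^g |S₃|^t |S₄|^z > 0`.  So `col ≤ K |S|² / N`,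
`|S|² ≤ |image| K |S|² / N`, `N ≤ K |image|`; `T = S.image φ`.
-/

set_option autoImplicit false

namespace Pool.Agent.Lib.MP_570bef_ntP

open Finset
open Pool.Agent.Lib.MP_2a816b_nt (e nn D e_add)

private theorem AsA_sum {α β γ δ : Type*} (A : Finset α) (B : Finset β) (C : Finset γ)
    (E : Finset δ) (f : α → ℂ) (g : β → ℂ) (h : γ → ℂ) (k : δ → ℂ) :
    ∑ p ∈ A ×ˢ (B ×ˢ (C ×ˢ E)), f p.1 * (g p.2.1 * (h p.2.2.1 * k p.2.2.2)) =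
      (∑ a ∈ A, f a) * ((∑ b ∈ B, g b) * ((∑ c ∈ C, h c) * ∑ d ∈ E, k d)) := by
  rw [Finset.sum_mul_sum C E, ← Finset.sum_product', Finset.sum_mul_sum B, ← Finset.sum_product',
    Finset.sum_mul_sum A, ← Finset.sum_product']

theorem image_large {ι₂ ι₃ ι₄ : Type*} [DecidableEq ι₂] [DecidableEq ι₃] [DecidableEq ι₄]
    (S₁ : Finset ℕ) (S₂ : Finset ι₂) (S₃ : Finset ι₃) (S₄ : Finset ι₄) (ψ₂ : ι₂ → ℕ)
    (ψ₃ : ι₃ → ℕ) (ψ₄ : ι₄ → ℕ) (g t z M R N : ℕ) (K : ℝ) (h1 : S₁.Nonempty) (h2 : S₂.Nonempty)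
    (h3 : S₃.Nonempty) (h4 : S₄.Nonempty) (hM1 : ∀ a ∈ S₁, a < M) (hM2 : ∀ i ∈ S₂, ψ₂ i ≤ M)
    (hM3 : ∀ i ∈ S₃, ψ₃ i ≤ M) (hM4 : ∀ i ∈ S₄, ψ₄ i ≤ M) (hR : R = (1 + g + t + z) * M)
    (hN : 1 ≤ N)
    (hbd : ∑ b ∈ range R, ‖∑ a ∈ S₁, e ((b : ℝ) / R * a)‖ ^ 2 *
        ‖∑ i ∈ S₂, e ((b : ℝ) / R * ψ₂ i)‖ ^ (2 * g) *
        ‖∑ i ∈ S₃, e ((b : ℝ) / R * ψ₃ i)‖ ^ (2 * t) *
        ‖∑ i ∈ S₄, e ((b : ℝ) / R * ψ₄ i)‖ ^ (2 * z) ≤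
      K * ((R : ℝ) / N) * ((S₁.card : ℝ) ^ 2 * (S₂.card : ℝ) ^ (2 * g) *
        (S₃.card : ℝ) ^ (2 * t) * (S₄.card : ℝ) ^ (2 * z))) :
    ∃ T : Finset ℕ, (∀ n ∈ T, n < R ∧ ∃ a ∈ S₁, ∃ (w₂ : Fin g → ι₂) (w₃ : Fin t → ι₃)
      (w₄ : Fin z → ι₄), (∀ i, w₂ i ∈ S₂) ∧ (∀ i, w₃ i ∈ S₃) ∧ (∀ i, w₄ i ∈ S₄) ∧
        n = a + ∑ i, ψ₂ (w₂ i) + ∑ i, ψ₃ (w₃ i) + ∑ i, ψ₄ (w₄ i)) ∧
      (N : ℝ) ≤ K * T.card := by
  classical
  set S := S₁ ×ˢ (Fintype.piFinset (fun _ : Fin g => S₂) ×ˢ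
    (Fintype.piFinset (fun _ : Fin t => S₃) ×ˢ Fintype.piFinset (fun _ : Fin z => S₄))) with hS
  set φ : ℕ × ((Fin g → ι₂) × ((Fin t → ι₃) × (Fin z → ι₄))) → ℕ := fun p =>
    p.1 + ∑ i, ψ₂ (p.2.1 i) + ∑ i, ψ₃ (p.2.2.1 i) + ∑ i, ψ₄ (p.2.2.2 i) with hφ
  have hmem : ∀ p ∈ S, p.1 ∈ S₁ ∧ (∀ i, p.2.1 i ∈ S₂) ∧ (∀ i, p.2.2.1 i ∈ S₃) ∧
      ∀ i, p.2.2.2 i ∈ S₄ := by
    intro p hp
    rw [hS, mem_product, mem_product, mem_product, Fintype.mem_piFinset, Fintype.mem_piFinset,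
      Fintype.mem_piFinset] at hp
    exact hp
  have hlt : ∀ p ∈ S, φ p < R := by
    intro p hp
    obtain ⟨q1, q2, q3, q4⟩ := hmem p hp
    have r1 := hM1 _ q1
    have r2 : ∑ i, ψ₂ (p.2.1 i) ≤ g * M := by
      have := Finset.sum_le_card_nsmul Finset.univ (fun i => ψ₂ (p.2.1 i)) M
        (fun i _ => hM2 _ (q2 i))
      simpa using this
    have r3 : ∑ i, ψ₃ (p.2.2.1 i) ≤ t * M := by
      have := Finset.sum_le_card_nsmul Finset.univ (fun i => ψ₃ (p.2.2.1 i)) M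
        (fun i _ => hM3 _ (q3 i))
      simpa using this
    have r4 : ∑ i, ψ₄ (p.2.2.2 i) ≤ z * M := by
      have := Finset.sum_le_card_nsmul Finset.univ (fun i => ψ₄ (p.2.2.2 i)) M
        (fun i _ => hM4 _ (q4 i))
      simpa using this
    have r5 : (1 + g + t + z) * M = M + g * M + t * M + z * M := by ring
    rw [hR, r5]
    show p.1 + ∑ i, ψ₂ (p.2.1 i) + ∑ i, ψ₃ (p.2.2.1 i) + ∑ i, ψ₄ (p.2.2.2 i) < _
    omega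
  have hsum : ∀ θ : ℝ, ∑ i ∈ S, e (θ * φ i) = (∑ a ∈ S₁, e (θ * a)) *
      ((∑ i ∈ S₂, e (θ * ψ₂ i)) ^ g * ((∑ i ∈ S₃, e (θ * ψ₃ i)) ^ t *
        (∑ i ∈ S₄, e (θ * ψ₄ i)) ^ z)) := by
    intro θ
    rw [← sum_pi, ← sum_pi, ← sum_pi, ← AsA_sum]
    refine Finset.sum_congr rfl fun p _ => ?_
    rw [← e_add, ← e_add, ← e_add]
    congr 1
    rw [hφ]
    push_cast
    ring
  have hcol := mean_col S φ R hlt
  have hL : ∑ b ∈ range R, ‖∑ i ∈ S, e ((b : ℝ) / R * φ i)‖ ^ 2 =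
      ∑ b ∈ range R, ‖∑ a ∈ S₁, e ((b : ℝ) / R * a)‖ ^ 2 *
        ‖∑ i ∈ S₂, e ((b : ℝ) / R * ψ₂ i)‖ ^ (2 * g) *
        ‖∑ i ∈ S₃, e ((b : ℝ) / R * ψ₃ i)‖ ^ (2 * t) *
        ‖∑ i ∈ S₄, e ((b : ℝ) / R * ψ₄ i)‖ ^ (2 * z) := by
    refine Finset.sum_congr rfl fun b _ => ?_
    rw [hsum, norm_mul, norm_mul, norm_mul, norm_pow, norm_pow, norm_pow]
    ring
  rw [← hL, hcol] at hbd
  have hcard : (S.card : ℝ) = (S₁.card : ℝ) * (S₂.card : ℝ) ^ g * (S₃.card : ℝ) ^ t *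
      (S₄.card : ℝ) ^ z := by
    rw [hS, card_product, card_product, card_product, Fintype.card_piFinset,
      Fintype.card_piFinset, Fintype.card_piFinset]
    simp only [prod_const, card_univ, Fintype.card_fin]
    push_cast
    ring
  have hS0 : (0 : ℝ) < S.card := by
    have p1 : (0 : ℝ) < S₁.card := by exact_mod_cast h1.card_pos
    have p2 : (0 : ℝ) < S₂.card := by exact_mod_cast h2.card_pos
    have p3 : (0 : ℝ) < S₃.card := by exact_mod_cast h3.card_pos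
    have p4 : (0 : ℝ) < S₄.card := by exact_mod_cast h4.card_pos
    rw [hcard]
    positivity
  have hR0 : (0 : ℝ) < R := by
    obtain ⟨a, ha⟩ := h1
    have h5 := hM1 a ha
    have h6 : 0 < R := by
      rw [hR]
      exact Nat.mul_pos (by omega) (by omega)
    exact_mod_cast h6
  have hN0 : (0 : ℝ) < N := by exact_mod_cast hN
  have h7 : (R : ℝ) * (N * col S φ) ≤ R * (K * (S.card : ℝ) ^ 2) := by
    have h8 : K * ((R : ℝ) / N) * ((S₁.card : ℝ) ^ 2 * (S₂.card : ℝ) ^ (2 * g) *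
        (S₃.card : ℝ) ^ (2 * t) * (S₄.card : ℝ) ^ (2 * z)) * N = R * (K * (S.card : ℝ) ^ 2) := by
      rw [hcard]
      field_simp
      ring
    have h9 := mul_le_mul_of_nonneg_right hbd hN0.le
    rw [h8] at h9
    calc (R : ℝ) * (N * col S φ) = R * col S φ * N := by ring
      _ ≤ _ := h9
  have h10 : (N : ℝ) * col S φ ≤ K * (S.card : ℝ) ^ 2 := le_of_mul_le_mul_left h7 hR0
  have h11 : (S.card : ℝ) ^ 2 ≤ (S.image φ).card * col S φ := by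
    exact_mod_cast card_sq_le S φ
  refine ⟨S.image φ, ?_, ?_⟩
  · intro n hn
    obtain ⟨p, hp, rfl⟩ := mem_image.1 hn
    obtain ⟨q1, q2, q3, q4⟩ := hmem p hp
    exact ⟨hlt p hp, p.1, q1, p.2.1, p.2.2.1, p.2.2.2, q2, q3, q4, rfl⟩
  · have h12 : (S.card : ℝ) ^ 2 * N ≤ (S.card : ℝ) ^ 2 * (K * (S.image φ).card) := by
      calc (S.card : ℝ) ^ 2 * N ≤ ((S.image φ).card * col S φ) * N :=
            mul_le_mul_of_nonneg_right h11 hN0.le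
        _ = (S.image φ).card * (N * col S φ) := by ring
        _ ≤ (S.image φ).card * (K * (S.card : ℝ) ^ 2) :=
            mul_le_mul_of_nonneg_left h10 (Nat.cast_nonneg _)
        _ = _ := by ring
    exact le_of_mul_le_mul_left h12 (by positivity)

end Pool.Agent.Lib.MP_570bef_ntP
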