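import Pool.Agent.Lib.MP_2a816b_nt.Expo

/-!
# Definitions and basic lemmas (job Bas)

`e x = exp (2 π i x)`, `nn x` = distance to the nearest integer, `D K x = ∑ u < K, e (u x)` (file `MP_2a816b_nt/Expo.lean`, read it: `e_add`,
`norm_e`, `conj_e`, `e_int`, `e_nat_mul`, `nn_le`, `nn_le_half`, `norm_D_le`, `norm_D_mul_nn`, ...).

PROOFS.  `norm_e_sub_le`: `‖e x - e y‖ = ‖e (x - y) - 1‖ = 2 |sin (π (x - y))| ≤ 2 π |x - y|` (`norm_e_sub_one`).
`nn_sub_le`: `nn x ≤ |x - round y| ≤ nn y + |x - y|` (`nn_le`).  `nn_of_abs_le`: `round x = 0` if `|x| < 1/2` (at `|x| = 1/2` directly), or use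
that `nn x = |x - m|` for `m = round x`, if `m ≠ 0` then `|x - m| ≥ |m| - |x| ≥ 1/2 ≥ |x|`, and `nn x ≤ |x|` by `nn_le x 0`.
`mm_le`: by cases; in the second case `1 < 2 V nn x`, so `1 / (2 nn x) < V`.  `mm_le_inv`: in the first case `V ≤ 1 / (2 nn x)`.
`le_mm`: by cases (in the second case `nn x > 0`).  `norm_D_le_mm`: `le_mm` with `norm_D_le`, `norm_D_mul_nn`.
`norm_sym_le`: `∑_{v=-V}^{V} e (v x) = e (-V x) D (2 V + 1) x` (reindex `v = u - V`).
`card_tup`: `Fintype.card_piFinset`.  `col_nonneg`... trivial.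
-/

set_option autoImplicit false

namespace Pool.Agent.Lib.MP_570bef_ntP

open Finset
open Pool.Agent.Lib.MP_2a816b_nt (e nn D e_add norm_e e_neg norm_e_sub_one nn_le nn_le_half norm_D_le norm_D_mul_nn nn_nonneg e_zero)

noncomputable section

/-- the number of pairs of elements of `S` with equal values of `φ` -/
def col {ι : Type*} (S : Finset ι) (φ : ι → ℕ) : ℕ :=
  ((S ×ˢ S).filter fun w => φ w.1 = φ w.2).card

/-- `l`-tuples with entries in `X` -/
def tup (l : ℕ) (X : Finset ℕ) : Finset (Fin l → ℕ) := Fintype.piFinset fun _ => X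

/-- the sum of the `k`-th powers of the entries -/
def sk (k : ℕ) {l : ℕ} (x : Fin l → ℕ) : ℕ := ∑ i, x i ^ k

/-- the number of solutions of `x_1^k + ... + x_l^k = y_1^k + ... + y_l^k` in `X` -/
def TT (k l : ℕ) (X : Finset ℕ) : ℕ := col (tup l X) (sk k)

/-- the products `p x` -/
def prodset (P X : Finset ℕ) : Finset ℕ := (P ×ˢ X).image fun w => w.1 * w.2

/-- the primes in `(B ^ c, B ^ (c + 1)]` -/
def PP (B c : ℕ) : Finset ℕ := (Finset.Ioc (B ^ c) (B ^ (c + 1))).filter Nat.Prime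

/-- `min V (1 / (2 ‖x‖))` -/
def mm (V x : ℝ) : ℝ := if 2 * V * nn x ≤ 1 then V else 1 / (2 * nn x)

/-- the number of `k`-th roots of unity modulo `q` -/
def rho (k q : ℕ) : ℕ := ((range q).filter fun z => z ^ k ≡ 1 [MOD q]).card

/-- partial sums of the exponents -/
def ms (es : ℕ → ℕ) (i : ℕ) : ℕ := ∑ a ∈ range i, (es a + 1)

/-- the complete sum -/
def cS (k q : ℕ) (a : ℤ) : ℂ := ∑ x ∈ range q, e ((a : ℝ) * (x : ℝ) ^ k / q)

end

theorem norm_e_sub_le (x y : ℝ) : ‖e x - e y‖ ≤ 2 * Real.pi * |x - y| := by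
  have h1 : e x - e y = e y * (e (x - y) - 1) := by
    rw [mul_sub, ← e_add, mul_one]
    congr 2
    ring
  rw [h1, norm_mul, norm_e, one_mul, norm_e_sub_one]
  have h2 : |Real.sin (Real.pi * (x - y))| ≤ |Real.pi * (x - y)| := Real.abs_sin_le_abs
  rw [abs_mul, abs_of_pos Real.pi_pos] at h2
  linarith

theorem nn_sub_le (x y : ℝ) : nn x ≤ nn y + |x - y| := by
  have h1 := nn_le x (round y)
  have h2 : |x - round y| ≤ |y - round y| + |x - y| := by
    have h3 : x - round y = (y - round y) + (x - y) := by ring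
    rw [h3]
    exact abs_add_le _ _
  exact h1.trans h2

theorem nn_of_abs_le (x : ℝ) (hx : |x| ≤ 1 / 2) : nn x = |x| := by
  apply le_antisymm
  · have := nn_le x 0
    simpa using this
  · by_cases h0 : round x = 0
    · unfold nn
      rw [h0]
      simp
    · unfold nn
      have h1 : (1 : ℝ) ≤ |((round x : ℤ) : ℝ)| := by
        have : (1 : ℤ) ≤ |round x| := Int.one_le_abs h0
        exact_mod_cast this
      have h2 : |((round x : ℤ) : ℝ)| ≤ |x - round x| + |x| := by
        have h3 : ((round x : ℤ) : ℝ) = x - (x - round x) := by ring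
        calc |((round x : ℤ) : ℝ)| = |x - (x - round x)| := by rw [← h3]
          _ ≤ |x| + |x - round x| := abs_sub _ _
          _ = _ := add_comm _ _
      linarith

theorem nn_neg (x : ℝ) : nn (-x) = nn x := by
  have key : ∀ y : ℝ, nn (-y) ≤ nn y := by
    intro y
    have h := nn_le (-y) (-(round y))
    have h2 : |(-y) - ((-(round y) : ℤ) : ℝ)| = |y - round y| := by
      rw [← abs_neg]
      congr 1
      push_cast
      ring
    rw [h2] at h
    exact h
  apply le_antisymm (key x)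
  have := key (-x)
  rwa [neg_neg] at this

theorem nn_add_int (x : ℝ) (m : ℤ) : nn (x + m) = nn x := by
  unfold nn
  rw [round_add_intCast]
  push_cast
  congr 1
  ring

theorem mm_le (V x : ℝ) (hV : 0 ≤ V) : mm V x ≤ V := by
  unfold mm
  split_ifs with h
  · exact le_rfl
  · rw [not_le] at h
    have h0 : 0 < nn x := by
      by_contra h1
      have h2 : nn x = 0 := le_antisymm (not_lt.1 h1) (nn_nonneg x)
      rw [h2] at h
      linarith
    rw [div_le_iff₀ (by positivity)]
    nlinarith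

theorem mm_nonneg (V x : ℝ) (hV : 0 ≤ V) : 0 ≤ mm V x := by
  unfold mm
  split_ifs with h
  · exact hV
  · have := nn_nonneg x
    positivity

theorem mm_le_inv (V x : ℝ) (hx : 0 < nn x) : mm V x ≤ 1 / (2 * nn x) := by
  unfold mm
  split_ifs with h
  · rw [le_div_iff₀ (by positivity)]
    linarith
  · exact le_rfl

theorem le_mm (V x c : ℝ) (h1 : c ≤ V) (h2 : c * (2 * nn x) ≤ 1) : c ≤ mm V x := by
  unfold mm
  split_ifs with h
  · exact h1
  · rw [not_le] at h
    have h0 : 0 < nn x := by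
      by_contra h3
      have h4 : nn x = 0 := le_antisymm (not_lt.1 h3) (nn_nonneg x)
      rw [h4] at h
      linarith
    rw [le_div_iff₀ (by positivity)]
    exact h2

theorem norm_D_le_mm (K : ℕ) (x : ℝ) : ‖D K x‖ ≤ mm K x := by
  exact le_mm _ _ _ (norm_D_le K x) (norm_D_mul_nn K x)

theorem norm_sym_le (V : ℕ) (x : ℝ) :
    ‖∑ v ∈ Icc (-(V : ℤ)) V, e ((v : ℝ) * x)‖ ≤ mm (2 * V + 1) x := by
  have h1 : ∑ v ∈ Icc (-(V : ℤ)) V, e ((v : ℝ) * x) = e (-(V : ℝ) * x) * D (2 * V + 1) x := by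
    unfold D
    rw [mul_sum]
    symm
    apply Finset.sum_bij (fun (u : ℕ) _ => (u : ℤ) - V)
    · intro u hu
      rw [mem_range] at hu
      rw [mem_Icc]
      constructor <;> omega
    · intro u hu u' hu' h
      omega
    · intro v hv
      rw [mem_Icc] at hv
      refine ⟨(v + V).toNat, ?_, ?_⟩
      · rw [mem_range]
        omega
      · omega
    · intro u hu
      rw [← e_add]
      congr 1
      push_cast
      ring
  rw [h1, norm_mul, norm_e, one_mul]
  have := norm_D_le_mm (2 * V + 1) x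
  push_cast at this
  exact this

theorem card_tup (l : ℕ) (X : Finset ℕ) : (tup l X).card = X.card ^ l := by
  unfold tup
  rw [Fintype.card_piFinset]
  simp

theorem rho_pos (k q : ℕ) (hq : 1 ≤ q) : 1 ≤ rho k q := by
  unfold rho
  apply Finset.card_pos.2
  refine ⟨1 % q, ?_⟩
  rw [mem_filter, mem_range]
  refine ⟨Nat.mod_lt _ (by omega), ?_⟩
  have h1 : 1 % q ≡ 1 [MOD q] := Nat.mod_modEq 1 q
  have h2 := h1.pow k
  rwa [one_pow] at h2

end Pool.Agent.Lib.MP_570bef_ntP
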