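import Pool.Agent.Lib.MP_570bef_ntP.Bas

/-!
# The Schur test (job Sch)

Write `I = Icc (-V) V`, `S v = ∑_{w ∈ I} r w * e (α v w)`.  The sum is `∑_v r v * S v`, so by Cauchy-Schwarz its norm is at most
`√(∑ r v²) √(∑ ‖S v‖²)`.  `‖S v‖² = S v * conj (S v)`; exchange: `∑_v ‖S v‖² = ∑_{w, w'} r w r w' ∑_v e (α v (w - w'))`
`≤ ∑_{w, w'} (r w² + r w'²) / 2 * K w w'`, `K w w' = ‖∑_v e (v (α (w - w')))‖` (`K w w' = K w' w`: complex conjugate, or `v ↦ -v`), which is `≤ (∑ r²) G` by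
the hypothesis.  So the norm is at most `√(∑ r²) √((∑ r²) G) = (∑ r²) √G`.
(`Finset.sum_mul_sq_le_sq_mul_sq`, `Real.sqrt` lemmas; `G ≥ 0` as a sum of norms.)
-/

set_option autoImplicit false

namespace Pool.Agent.Lib.MP_570bef_ntP

open Finset
open Pool.Agent.Lib.MP_2a816b_nt (e nn D)

theorem Sch_symm (α : ℝ) (V : ℕ) (w w' : ℤ) :
    ‖∑ v ∈ Icc (-(V : ℤ)) V, e ((v : ℝ) * (α * ((w : ℝ) - w')))‖ =
      ‖∑ v ∈ Icc (-(V : ℤ)) V, e ((v : ℝ) * (α * ((w' : ℝ) - w)))‖ := by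
  rw [← Complex.norm_conj, map_sum]
  congr 1
  refine Finset.sum_congr rfl fun v _ => ?_
  rw [Pool.Agent.Lib.MP_2a816b_nt.conj_e]
  congr 1
  ring

theorem schur (α : ℝ) (V : ℕ) (r : ℤ → ℝ) (hr : ∀ v, 0 ≤ r v) (G : ℝ)
    (hG : ∀ w ∈ Icc (-(V : ℤ)) V,
      ∑ w' ∈ Icc (-(V : ℤ)) V, ‖∑ v ∈ Icc (-(V : ℤ)) V, e ((v : ℝ) * (α * ((w : ℝ) - w')))‖ ≤ G) :
    ‖∑ v ∈ Icc (-(V : ℤ)) V, ∑ w ∈ Icc (-(V : ℤ)) V, ((r v * r w : ℝ) : ℂ) * e (α * v * w)‖ ≤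
      (∑ v ∈ Icc (-(V : ℤ)) V, r v ^ 2) * Real.sqrt G := by
  set I : Finset ℤ := Icc (-(V : ℤ)) V with hI
  set K : ℤ → ℤ → ℝ := fun w w' => ‖∑ v ∈ I, e ((v : ℝ) * (α * ((w : ℝ) - w')))‖ with hK
  have hK0 : ∀ w w', 0 ≤ K w w' := fun w w' => norm_nonneg _
  have h0I : (0 : ℤ) ∈ I := by
    rw [hI, Finset.mem_Icc]
    constructor <;> omega
  have hG0 : 0 ≤ G := (Finset.sum_nonneg fun w' _ => hK0 0 w').trans (hG 0 h0I)
  set S : ℤ → ℂ := fun v => ∑ w ∈ I, (r w : ℂ) * e (α * v * w) with hS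
  set R : ℝ := ∑ v ∈ I, r v ^ 2 with hR
  have hR0 : 0 ≤ R := Finset.sum_nonneg fun v _ => sq_nonneg _
  -- the sum of the squares
  have h1 : ((∑ v ∈ I, ‖S v‖ ^ 2 : ℝ) : ℂ) =
      ∑ w ∈ I, ∑ w' ∈ I, ((r w * r w' : ℝ) : ℂ) * ∑ v ∈ I, e ((v : ℝ) * (α * ((w : ℝ) - w'))) := by
    push_cast
    have h2 : ∀ v ∈ I, ((‖S v‖ : ℂ)) ^ 2 = ∑ w ∈ I, ∑ w' ∈ I,
        ((r w : ℂ) * (r w' : ℂ)) * e ((v : ℝ) * (α * ((w : ℝ) - w'))) := by
      intro v _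
      rw [← Complex.mul_conj', hS]
      simp only [map_sum]
      rw [Finset.sum_mul_sum]
      refine Finset.sum_congr rfl fun w _ => Finset.sum_congr rfl fun w' _ => ?_
      rw [map_mul, Complex.conj_ofReal, Pool.Agent.Lib.MP_2a816b_nt.conj_e]
      have h3 : e ((v : ℝ) * (α * ((w : ℝ) - w'))) = e (α * v * w) * e (-(α * v * w')) := by
        rw [← Pool.Agent.Lib.MP_2a816b_nt.e_add]
        congr 1
        ring
      rw [h3]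
      ring
    rw [Finset.sum_congr rfl h2, Finset.sum_comm]
    refine Finset.sum_congr rfl fun w _ => ?_
    rw [Finset.sum_comm]
    refine Finset.sum_congr rfl fun w' _ => ?_
    rw [Finset.mul_sum]
  have hb : ∑ v ∈ I, ‖S v‖ ^ 2 ≤ R * G := by
    have h2 : ∑ v ∈ I, ‖S v‖ ^ 2 ≤ ∑ w ∈ I, ∑ w' ∈ I, r w * r w' * K w w' := by
      have h3 : ∑ v ∈ I, ‖S v‖ ^ 2 = ‖((∑ v ∈ I, ‖S v‖ ^ 2 : ℝ) : ℂ)‖ := by
        rw [Complex.norm_real, Real.norm_of_nonneg (Finset.sum_nonneg fun v _ => sq_nonneg _)]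
      rw [h3, h1]
      refine (norm_sum_le _ _).trans (Finset.sum_le_sum fun w _ => ?_)
      refine (norm_sum_le _ _).trans (Finset.sum_le_sum fun w' _ => ?_)
      rw [norm_mul, Complex.norm_real, Real.norm_of_nonneg (mul_nonneg (hr w) (hr w'))]
    refine h2.trans ?_
    have h3 : ∑ w ∈ I, ∑ w' ∈ I, r w * r w' * K w w' ≤
        ∑ w ∈ I, ∑ w' ∈ I, (r w ^ 2 / 2 * K w w' + r w' ^ 2 / 2 * K w' w) := by
      refine Finset.sum_le_sum fun w _ => Finset.sum_le_sum fun w' _ => ?_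
      have h4 : K w' w = K w w' := Sch_symm α V w' w
      rw [h4, ← add_mul]
      refine mul_le_mul_of_nonneg_right ?_ (hK0 w w')
      nlinarith [sq_nonneg (r w - r w')]
    refine h3.trans ?_
    have h5 : ∑ w ∈ I, ∑ w' ∈ I, r w ^ 2 / 2 * K w w' ≤ R / 2 * G := by
      rw [hR, Finset.sum_div, Finset.sum_mul]
      refine Finset.sum_le_sum fun w hw => ?_
      rw [← Finset.mul_sum]
      exact mul_le_mul_of_nonneg_left (hG w hw) (by positivity)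
    have h6 : ∑ w ∈ I, ∑ w' ∈ I, r w' ^ 2 / 2 * K w' w ≤ R / 2 * G := by
      rw [Finset.sum_comm]
      exact h5
    simp only [Finset.sum_add_distrib]
    linarith
  have h2 : ‖∑ v ∈ I, ∑ w ∈ I, ((r v * r w : ℝ) : ℂ) * e (α * v * w)‖ ≤ ∑ v ∈ I, r v * ‖S v‖ := by
    refine (norm_sum_le _ _).trans (Finset.sum_le_sum fun v _ => ?_)
    have h3 : ∑ w ∈ I, ((r v * r w : ℝ) : ℂ) * e (α * v * w) = (r v : ℂ) * S v := by
      rw [hS]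
      simp only
      rw [Finset.mul_sum]
      refine Finset.sum_congr rfl fun w _ => ?_
      push_cast
      ring
    rw [h3, norm_mul, Complex.norm_real, Real.norm_of_nonneg (hr v)]
  refine h2.trans ?_
  have h3 := Finset.sum_mul_sq_le_sq_mul_sq I r (fun v => ‖S v‖)
  have h4 : (∑ v ∈ I, r v * ‖S v‖) ^ 2 ≤ (R * Real.sqrt G) ^ 2 := by
    rw [mul_pow, Real.sq_sqrt hG0]
    calc (∑ v ∈ I, r v * ‖S v‖) ^ 2 ≤ R * ∑ v ∈ I, ‖S v‖ ^ 2 := h3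
      _ ≤ R * (R * G) := mul_le_mul_of_nonneg_left hb hR0
      _ = R ^ 2 * G := by ring
  exact (sq_le_sq₀ (Finset.sum_nonneg fun v _ => mul_nonneg (hr v) (norm_nonneg _))
    (mul_nonneg hR0 (Real.sqrt_nonneg _))).1 h4

end Pool.Agent.Lib.MP_570bef_ntP
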