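import Pool.Agent.Lib.MP_570bef_ntP.Rr
import Pool.Agent.Lib.MP_570bef_ntP.Sch

/-!
# The double Hölder inequality (job Bil)

Let `V = s Y^k`, `I = Icc (-V) V`, `r v = rr k s X v`.
(1) Hölder (power mean, `pow_sum_div_card_le_sum_pow` or `inner_le_Lp_mul_Lq`): `‖∑_x ∑_y e (α (x y)^k)‖^(2s) ≤ |X|^(2s-1) ∑_x ‖∑_y e (α x^k y^k)‖^(2s)`.
(2) `rr_fourier` with `θ = α x^k`: `∑_x ‖∑_y e (α x^k y^k)‖^(2s) = ∑_x ∑_v r v e (α x^k v)`, and exchanging the sums this is (the norm of)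
`≤ ∑_v r v ‖∑_x e ((α v) x^k)‖`.
(3) weighted Hölder: `(∑_v r v b v)^(2s) ≤ (∑ r)^(2s-1) ∑ r v (b v)^(2s)` (`b v ≥ 0`; `Real.inner_le_Lp_mul_Lq`, or `inner_le_weight_mul_Lp`:
Mathlib `Finset.inner_le_..`; the simplest is `Real.pow_arith_mean_le_arith_mean_pow` with weights `r v / ∑ r`), `∑ r = |X|^(2s)` (`rr_sum`).
(4) `rr_fourier` with `θ = α v`: `‖∑_x e ((α v) x^k)‖^(2s) = ∑_w r w e (α v w)`; so `∑_v r v ‖..‖^(2s) = ∑_v ∑_w r v r w e (α v w)` and `schur` (with `rr_sq`)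
bounds it by `TT k (2s) X * √G`.
Together: `‖f‖^(4 s²) = (‖f‖^(2s))^(2s) ≤ |X|^((2s-1) 2s) * |X|^(2s (2s-1)) * TT √G`, `(2s-1) 2s * 2 = 8 s² - 4 s`.
-/

set_option autoImplicit false

namespace Pool.Agent.Lib.MP_570bef_ntP

open Finset
open Pool.Agent.Lib.MP_2a816b_nt (e nn D)

private theorem Bil_holder {ι : Type*} (I : Finset ι) (r b : ι → ℝ) (hr : ∀ i ∈ I, 0 ≤ r i)
    (hb : ∀ i ∈ I, 0 ≤ b i) (n : ℕ) :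
    (∑ i ∈ I, r i * b i) ^ (n + 1) ≤ (∑ i ∈ I, r i) ^ n * ∑ i ∈ I, r i * b i ^ (n + 1) := by
  rcases eq_or_lt_of_le (Finset.sum_nonneg hr) with h0 | hpos
  · have hz : ∀ i ∈ I, r i = 0 := (Finset.sum_eq_zero_iff_of_nonneg hr).1 h0.symm
    rw [Finset.sum_eq_zero (f := fun i => r i * b i) (fun i hi => by rw [hz i hi, zero_mul]),
      Finset.sum_eq_zero (f := fun i => r i * b i ^ (n + 1))
        (fun i hi => by rw [hz i hi, zero_mul]), mul_zero, zero_pow (Nat.succ_ne_zero n)]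
  · have h := Real.pow_arith_mean_le_arith_mean_pow I (fun i => r i / ∑ i ∈ I, r i) b
      (fun i hi => div_nonneg (hr i hi) hpos.le)
      (by rw [← Finset.sum_div, div_self hpos.ne']) hb (n + 1)
    have e1 : ∑ i ∈ I, r i / (∑ i ∈ I, r i) * b i = (∑ i ∈ I, r i * b i) / ∑ i ∈ I, r i := by
      rw [Finset.sum_div]
      exact Finset.sum_congr rfl fun i _ => by ring
    have e2 : ∑ i ∈ I, r i / (∑ i ∈ I, r i) * b i ^ (n + 1) =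
        (∑ i ∈ I, r i * b i ^ (n + 1)) / ∑ i ∈ I, r i := by
      rw [Finset.sum_div]
      exact Finset.sum_congr rfl fun i _ => by ring
    rw [e1, e2, div_pow, div_le_iff₀ (pow_pos hpos _)] at h
    refine h.trans (le_of_eq ?_)
    rw [pow_succ]
    field_simp

private theorem Bil_b (k s Y : ℕ) (X : Finset ℕ) (hX : ∀ x ∈ X, x ≤ Y) (α G : ℝ)
    (hG : ∀ w ∈ Icc (-((s * Y ^ k : ℕ) : ℤ)) (s * Y ^ k : ℕ),
      ∑ w' ∈ Icc (-((s * Y ^ k : ℕ) : ℤ)) (s * Y ^ k : ℕ),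
        ‖∑ v ∈ Icc (-((s * Y ^ k : ℕ) : ℤ)) (s * Y ^ k : ℕ),
          e ((v : ℝ) * (α * ((w : ℝ) - w')))‖ ≤ G) :
    ∑ v ∈ Icc (-((s * Y ^ k : ℕ) : ℤ)) (s * Y ^ k : ℕ),
      (rr k s X v : ℝ) * ‖∑ x ∈ X, e (α * (v : ℝ) * (x : ℝ) ^ k)‖ ^ (2 * s) ≤
      TT k (2 * s) X * Real.sqrt G := by
  have h1 : ((∑ v ∈ Icc (-((s * Y ^ k : ℕ) : ℤ)) (s * Y ^ k : ℕ),
      (rr k s X v : ℝ) * ‖∑ x ∈ X, e (α * (v : ℝ) * (x : ℝ) ^ k)‖ ^ (2 * s) : ℝ) : ℂ) =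
      ∑ v ∈ Icc (-((s * Y ^ k : ℕ) : ℤ)) (s * Y ^ k : ℕ),
        ∑ w ∈ Icc (-((s * Y ^ k : ℕ) : ℤ)) (s * Y ^ k : ℕ),
        (((rr k s X v : ℝ) * (rr k s X w : ℝ) : ℝ) : ℂ) * e (α * v * w) := by
    rw [Complex.ofReal_sum]
    refine Finset.sum_congr rfl fun v _ => ?_
    rw [Complex.ofReal_mul, rr_fourier k s Y X hX (α * v), Finset.mul_sum]
    refine Finset.sum_congr rfl fun w _ => ?_
    push_cast
    ring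
  have h2 := schur α (s * Y ^ k) (fun v => (rr k s X v : ℝ)) (fun v => Nat.cast_nonneg _) G hG
  rw [← h1, Complex.norm_real, Real.norm_eq_abs] at h2
  refine (le_abs_self _).trans (h2.trans (le_of_eq ?_))
  rw [← rr_sq k s Y X hX]
  push_cast
  rfl

private theorem Bil_a (k s Y : ℕ) (X : Finset ℕ) (hX : ∀ x ∈ X, x ≤ Y) (α : ℝ) :
    ∑ x ∈ X, ‖∑ y ∈ X, e (α * ((x : ℝ) * y) ^ k)‖ ^ (2 * s) ≤
      ∑ v ∈ Icc (-((s * Y ^ k : ℕ) : ℤ)) (s * Y ^ k : ℕ),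
        (rr k s X v : ℝ) * ‖∑ x ∈ X, e (α * (v : ℝ) * (x : ℝ) ^ k)‖ := by
  have h1 : ((∑ x ∈ X, ‖∑ y ∈ X, e (α * ((x : ℝ) * y) ^ k)‖ ^ (2 * s) : ℝ) : ℂ) =
      ∑ v ∈ Icc (-((s * Y ^ k : ℕ) : ℤ)) (s * Y ^ k : ℕ),
        (rr k s X v : ℂ) * ∑ x ∈ X, e (α * (v : ℝ) * (x : ℝ) ^ k) := by
    rw [Complex.ofReal_sum]
    have h2 : ∀ x ∈ X, ((‖∑ y ∈ X, e (α * ((x : ℝ) * y) ^ k)‖ ^ (2 * s) : ℝ) : ℂ) =
        ∑ v ∈ Icc (-((s * Y ^ k : ℕ) : ℤ)) (s * Y ^ k : ℕ),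
          (rr k s X v : ℂ) * e (α * (v : ℝ) * (x : ℝ) ^ k) := by
      intro x _
      have h3 : ∑ y ∈ X, e (α * ((x : ℝ) * y) ^ k) = ∑ y ∈ X, e (α * (x : ℝ) ^ k * (y : ℝ) ^ k) := by
        refine Finset.sum_congr rfl fun y _ => ?_
        rw [mul_pow, mul_assoc]
      rw [h3, rr_fourier k s Y X hX]
      refine Finset.sum_congr rfl fun v _ => ?_
      congr 2
      ring
    rw [Finset.sum_congr rfl h2, Finset.sum_comm]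
    exact Finset.sum_congr rfl fun v _ => by rw [Finset.mul_sum]
  have h4 : 0 ≤ ∑ x ∈ X, ‖∑ y ∈ X, e (α * ((x : ℝ) * y) ^ k)‖ ^ (2 * s) :=
    Finset.sum_nonneg fun x _ => by positivity
  have h5 : ∑ x ∈ X, ‖∑ y ∈ X, e (α * ((x : ℝ) * y) ^ k)‖ ^ (2 * s) =
      ‖((∑ x ∈ X, ‖∑ y ∈ X, e (α * ((x : ℝ) * y) ^ k)‖ ^ (2 * s) : ℝ) : ℂ)‖ := by
    rw [Complex.norm_real, Real.norm_eq_abs, abs_of_nonneg h4]
  rw [h5, h1]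
  refine (norm_sum_le _ _).trans (le_of_eq (Finset.sum_congr rfl fun v _ => ?_))
  rw [norm_mul, Complex.norm_natCast]

theorem bilinear (k s Y : ℕ) (hs : 1 ≤ s) (X : Finset ℕ) (hX : ∀ x ∈ X, x ≤ Y) (α G : ℝ)
    (hG : ∀ w ∈ Icc (-((s * Y ^ k : ℕ) : ℤ)) (s * Y ^ k : ℕ),
      ∑ w' ∈ Icc (-((s * Y ^ k : ℕ) : ℤ)) (s * Y ^ k : ℕ),
        ‖∑ v ∈ Icc (-((s * Y ^ k : ℕ) : ℤ)) (s * Y ^ k : ℕ),
          e ((v : ℝ) * (α * ((w : ℝ) - w')))‖ ≤ G) :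
    ‖∑ x ∈ X, ∑ y ∈ X, e (α * ((x : ℝ) * y) ^ k)‖ ^ (4 * s ^ 2) ≤
      (X.card : ℝ) ^ (8 * s ^ 2 - 4 * s) * (TT k (2 * s) X * Real.sqrt G) := by
  have hb := Bil_b k s Y X hX α G hG
  have ha := Bil_a k s Y X hX α
  obtain ⟨t, ht⟩ : ∃ t, 2 * s = t + 1 := ⟨2 * s - 1, by omega⟩
  rw [ht] at ha hb
  have h1 : (∑ x ∈ X, ‖∑ y ∈ X, e (α * ((x : ℝ) * y) ^ k)‖) ^ (t + 1) ≤
      (X.card : ℝ) ^ t * ∑ x ∈ X, ‖∑ y ∈ X, e (α * ((x : ℝ) * y) ^ k)‖ ^ (t + 1) := by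
    have h := Bil_holder X (fun _ => (1 : ℝ)) (fun x => ‖∑ y ∈ X, e (α * ((x : ℝ) * y) ^ k)‖)
      (fun _ _ => zero_le_one) (fun _ _ => norm_nonneg _) t
    simpa using h
  have h2 : ‖∑ x ∈ X, ∑ y ∈ X, e (α * ((x : ℝ) * y) ^ k)‖ ^ (t + 1) ≤
      (∑ x ∈ X, ‖∑ y ∈ X, e (α * ((x : ℝ) * y) ^ k)‖) ^ (t + 1) :=
    pow_le_pow_left₀ (norm_nonneg _) (norm_sum_le _ _) _
  have h3 := Bil_holder (Icc (-((s * Y ^ k : ℕ) : ℤ)) (s * Y ^ k : ℕ))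
    (fun v => (rr k s X v : ℝ)) (fun v => ‖∑ x ∈ X, e (α * (v : ℝ) * (x : ℝ) ^ k)‖)
    (fun _ _ => Nat.cast_nonneg _) (fun _ _ => norm_nonneg _) t
  have h4 : ∑ v ∈ Icc (-((s * Y ^ k : ℕ) : ℤ)) (s * Y ^ k : ℕ), (rr k s X v : ℝ) =
      (X.card : ℝ) ^ (t + 1) := by
    rw [← ht, ← Nat.cast_pow, ← rr_sum k s Y X hX, Nat.cast_sum]
  rw [h4] at h3
  set A := ∑ x ∈ X, ‖∑ y ∈ X, e (α * ((x : ℝ) * y) ^ k)‖ ^ (t + 1) with hA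
  set Bq := ∑ v ∈ Icc (-((s * Y ^ k : ℕ) : ℤ)) (s * Y ^ k : ℕ),
    (rr k s X v : ℝ) * ‖∑ x ∈ X, e (α * (v : ℝ) * (x : ℝ) ^ k)‖ with hBq
  have hA0 : 0 ≤ A := Finset.sum_nonneg fun x _ => by positivity
  have hc0 : (0 : ℝ) ≤ X.card := Nat.cast_nonneg _
  have h5 : ‖∑ x ∈ X, ∑ y ∈ X, e (α * ((x : ℝ) * y) ^ k)‖ ^ (t + 1) ≤ (X.card : ℝ) ^ t * Bq :=
    (h2.trans h1).trans (mul_le_mul_of_nonneg_left ha (by positivity))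
  have h6 := pow_le_pow_left₀ (by positivity) h5 (t + 1)
  have h7 : ‖∑ x ∈ X, ∑ y ∈ X, e (α * ((x : ℝ) * y) ^ k)‖ ^ (4 * s ^ 2) =
      (‖∑ x ∈ X, ∑ y ∈ X, e (α * ((x : ℝ) * y) ^ k)‖ ^ (t + 1)) ^ (t + 1) := by
    rw [← pow_mul]
    congr 1
    rw [← ht]
    ring
  have h8 : 8 * s ^ 2 - 4 * s = t * (t + 1) + (t + 1) * t := by
    apply Nat.sub_eq_of_eq_add
    have : 8 * s ^ 2 = 2 * ((2 * s) * (2 * s)) := by ring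
    have h9 : 4 * s = 2 * (2 * s) := by ring
    rw [this, h9, ht]
    ring
  rw [h7, h8, pow_add (X.card : ℝ) (t * (t + 1)), pow_mul (X.card : ℝ) t, pow_mul (X.card : ℝ) (t + 1)]
  refine h6.trans ?_
  rw [mul_pow]
  have h10 := h3.trans (mul_le_mul_of_nonneg_left hb (by positivity))
  calc ((X.card : ℝ) ^ t) ^ (t + 1) * Bq ^ (t + 1)
      ≤ ((X.card : ℝ) ^ t) ^ (t + 1) *
        (((X.card : ℝ) ^ (t + 1)) ^ t * (TT k (t + 1) X * Real.sqrt G)) :=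
        mul_le_mul_of_nonneg_left h10 (by positivity)
    _ = ((X.card : ℝ) ^ t) ^ (t + 1) * ((X.card : ℝ) ^ (t + 1)) ^ t *
        (TT k (2 * s) X * Real.sqrt G) := by
        rw [ht]
        ring

end Pool.Agent.Lib.MP_570bef_ntP
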