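import Pool.Agent.Lib.MP_570bef_ntP.Bas

/-!
# Complete sums: multiplicativity and dependence on `a` (job CSa)

`cS_congr`: `a = a' + q t`: each term is multiplied by `e (t x^k) = 1`.  `cS_sum_zmod`: the term `e (a x^k / q)` depends only on the residue of `x`
modulo `q`; `range q ≃ ZMod q` (this lemma and `cS_shift` are conveniences: any `q` consecutive, or `q`-periodic reindexing).
`cS_mul`: `x = q2 x1 + q1 x2` with `x1 < q1`, `x2 < q2` runs over all residues modulo `q1 q2` once (Chinese remainder theorem; `(x1, x2) ↦ (q2 x1 + q1 x2) % (q1 q2)` is a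
bijection onto `range (q1 q2)`), `x^k ≡ q2^k x1^k + q1^k x2^k mod q1 q2`, so `a x^k / (q1 q2) ≡ (a q2^(k-1)) x1^k / q1 + (a q1^(k-1)) x2^k / q2` modulo 1 (`k ≥ 1`).
-/

set_option autoImplicit false

namespace Pool.Agent.Lib.MP_570bef_ntP

open Finset
open Pool.Agent.Lib.MP_2a816b_nt (e nn D)

open Pool.Agent.Lib.MP_2a816b_nt (e_add norm_e e_zero e_add_int)

private theorem CSa_e_congr (q : ℕ) (hq : 1 ≤ q) (A B : ℤ) (h : A ≡ B [ZMOD q]) :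
    e ((A : ℝ) / q) = e ((B : ℝ) / q) := by
  obtain ⟨t, ht⟩ := (Int.modEq_iff_dvd.1 h.symm)
  have hq0 : (q : ℝ) ≠ 0 := by exact_mod_cast (by omega : q ≠ 0)
  have h1 : (A : ℝ) / q = (B : ℝ) / q + t := by
    have h2 : (A : ℝ) - B = q * t := by exact_mod_cast ht
    field_simp
    linarith
  rw [h1, e_add_int]

theorem cS_congr (k q : ℕ) (a a' : ℤ) (hq : 1 ≤ q) (h : a ≡ a' [ZMOD q]) :
    cS k q a = cS k q a' := by
  unfold cS
  refine sum_congr rfl fun x _ => ?_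
  have h1 := CSa_e_congr q hq (a * (x : ℤ) ^ k) (a' * (x : ℤ) ^ k) (h.mul_right _)
  push_cast at h1
  exact h1

theorem cS_periodic (k q : ℕ) (a : ℤ) (hq : 1 ≤ q) (x y : ℕ) (h : x ≡ y [MOD q]) :
    e ((a : ℝ) * (x : ℝ) ^ k / q) = e ((a : ℝ) * (y : ℝ) ^ k / q) := by
  have h0 : (x : ℤ) ≡ (y : ℤ) [ZMOD q] := Int.natCast_modEq_iff.2 h
  have h1 := CSa_e_congr q hq (a * (x : ℤ) ^ k) (a * (y : ℤ) ^ k) ((h0.pow k).mul_left _)
  push_cast at h1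
  exact h1

theorem cS_one (k : ℕ) (a : ℤ) (hk : 1 ≤ k) : cS k 1 a = 1 := by
  unfold cS
  rw [sum_range_one, Nat.cast_zero, zero_pow (by omega), mul_zero, zero_div, e_zero]

theorem norm_cS_le (k q : ℕ) (a : ℤ) : ‖cS k q a‖ ≤ q := by
  unfold cS
  refine (norm_sum_le _ _).trans ?_
  simp [norm_e]

private theorem CSa_add_pow (u v : ℤ) (k : ℕ) (hk : 1 ≤ k) :
    u * v ∣ (u + v) ^ k - (u ^ k + v ^ k) := by
  induction k, hk using Nat.le_induction with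
  | base => simp
  | succ k hk ih =>
    have h1 : (u + v) ^ (k + 1) - (u ^ (k + 1) + v ^ (k + 1)) =
        (u + v) * ((u + v) ^ k - (u ^ k + v ^ k)) + u * v * (v ^ (k - 1) + u ^ (k - 1)) := by
      obtain ⟨j, rfl⟩ : ∃ j, k = j + 1 := ⟨k - 1, by omega⟩
      simp only [Nat.add_sub_cancel]
      ring
    rw [h1]
    exact dvd_add (Dvd.dvd.mul_left ih _) (dvd_mul_right _ _)

theorem cS_mul (k q1 q2 : ℕ) (a : ℤ) (hk : 1 ≤ k) (h1 : 1 ≤ q1) (h2 : 1 ≤ q2)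
    (h : q1.Coprime q2) :
    cS k (q1 * q2) a = cS k q1 (a * (q2 : ℤ) ^ (k - 1)) * cS k q2 (a * (q1 : ℤ) ^ (k - 1)) := by
  have hq : 1 ≤ q1 * q2 := Nat.mul_pos h1 h2
  have hinj : Set.InjOn (fun w : ℕ × ℕ => (q2 * w.1 + q1 * w.2) % (q1 * q2))
      ((range q1 ×ˢ range q2 : Finset (ℕ × ℕ)) : Set (ℕ × ℕ)) := by
    rintro ⟨x1, x2⟩ hx ⟨y1, y2⟩ hy hxy
    rw [mem_coe, mem_product, mem_range, mem_range] at hx hy
    have hm : q2 * x1 + q1 * x2 ≡ q2 * y1 + q1 * y2 [MOD q1 * q2] := hxy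
    have hm1 : q2 * x1 + q1 * x2 ≡ q2 * y1 + q1 * y2 [MOD q1] := hm.of_dvd (Dvd.intro _ rfl)
    have hm2 : q2 * x1 + q1 * x2 ≡ q2 * y1 + q1 * y2 [MOD q2] := hm.of_dvd (Dvd.intro_left _ rfl)
    have e1 : q2 * x1 ≡ q2 * y1 [MOD q1] := by
      have t1 : q1 * x2 ≡ 0 [MOD q1] := (Nat.modEq_zero_iff_dvd).2 (Dvd.intro _ rfl)
      have t2 : q1 * y2 ≡ 0 [MOD q1] := (Nat.modEq_zero_iff_dvd).2 (Dvd.intro _ rfl)
      have t3 := (t1.add_left (q2 * x1)).symm.trans (hm1.trans (t2.add_left (q2 * y1)))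
      simpa using t3
    have e2 : q1 * x2 ≡ q1 * y2 [MOD q2] := by
      have t1 : q2 * x1 ≡ 0 [MOD q2] := (Nat.modEq_zero_iff_dvd).2 (Dvd.intro _ rfl)
      have t2 : q2 * y1 ≡ 0 [MOD q2] := (Nat.modEq_zero_iff_dvd).2 (Dvd.intro _ rfl)
      have t3 := (t1.add_right (q1 * x2)).symm.trans (hm2.trans (t2.add_right (q1 * y2)))
      simpa using t3
    have f1 : x1 ≡ y1 [MOD q1] := Nat.ModEq.cancel_left_of_coprime h e1
    have f2 : x2 ≡ y2 [MOD q2] := Nat.ModEq.cancel_left_of_coprime h.symm e2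
    exact Prod.ext (f1.eq_of_lt_of_lt hx.1 hy.1) (f2.eq_of_lt_of_lt hx.2 hy.2)
  have himg : (range q1 ×ˢ range q2).image (fun w : ℕ × ℕ => (q2 * w.1 + q1 * w.2) % (q1 * q2)) =
      range (q1 * q2) := by
    refine eq_of_subset_of_card_le ?_ ?_
    · intro y hy
      obtain ⟨w, -, rfl⟩ := mem_image.1 hy
      exact mem_range.2 (Nat.mod_lt _ hq)
    · rw [card_image_of_injOn hinj, card_product, card_range, card_range, card_range]
  unfold cS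
  rw [← himg, sum_image hinj, sum_mul_sum, ← sum_product']
  refine sum_congr rfl fun w _ => ?_
  obtain ⟨x1, x2⟩ := w
  simp only
  rw [cS_periodic k (q1 * q2) a hq _ _ (Nat.mod_modEq (q2 * x1 + q1 * x2) (q1 * q2)), ← e_add]
  have hd : a * ((q2 * x1 + q1 * x2 : ℕ) : ℤ) ^ k ≡
      a * (((q2 * x1 : ℕ) : ℤ) ^ k + ((q1 * x2 : ℕ) : ℤ) ^ k) [ZMOD (q1 * q2 : ℕ)] := by
    refine Int.ModEq.mul_left _ ?_
    refine Int.ModEq.symm (Int.modEq_iff_dvd.2 ?_)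
    have t1 := CSa_add_pow ((q2 * x1 : ℕ) : ℤ) ((q1 * x2 : ℕ) : ℤ) k hk
    have t2 : ((q1 * q2 : ℕ) : ℤ) ∣ ((q2 * x1 : ℕ) : ℤ) * ((q1 * x2 : ℕ) : ℤ) :=
      ⟨(x1 : ℤ) * x2, by push_cast; ring⟩
    have t3 := t2.trans t1
    have t4 : ((q2 * x1 + q1 * x2 : ℕ) : ℤ) = ((q2 * x1 : ℕ) : ℤ) + ((q1 * x2 : ℕ) : ℤ) := by
      push_cast
      ring
    rw [t4]
    exact t3
  have h3 := CSa_e_congr (q1 * q2) hq _ _ hd
  have h4 : (((a * ((q2 * x1 + q1 * x2 : ℕ) : ℤ) ^ k : ℤ) : ℝ)) / ((q1 * q2 : ℕ) : ℝ) =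
      (a : ℝ) * ((q2 * x1 + q1 * x2 : ℕ) : ℝ) ^ k / ((q1 * q2 : ℕ) : ℝ) := by
    push_cast
    ring
  rw [h4] at h3
  rw [h3]
  congr 1
  have hq1 : (q1 : ℝ) ≠ 0 := by exact_mod_cast (by omega : q1 ≠ 0)
  have hq2 : (q2 : ℝ) ≠ 0 := by exact_mod_cast (by omega : q2 ≠ 0)
  obtain ⟨j, rfl⟩ : ∃ j, k = j + 1 := ⟨k - 1, by omega⟩
  simp only [Nat.add_sub_cancel]
  push_cast
  field_simp
  ring

end Pool.Agent.Lib.MP_570bef_ntP
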