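import Pool.Agent.Lib.MP_570bef_ntP.CSa

/-!
# Complete sums modulo a prime (job CSb)

`cS_scale`: `x ↦ c x` permutes the residues modulo `p` (`c` a unit), so `cS k p (a c^k) = cS k p a`.
`cS_second_moment`: `∑_{b mod p} ‖cS k p b‖² = p #{(x, y) : x^k ≡ y^k mod p}` (orthogonality) `≤ p (1 + (p - 1) k)` (`y = 0` iff `x = 0`; for `x ≠ 0` at most
`k` values `y`: roots of `y^k = c` in the field `ZMod p`), and the term `b = 0` is `p²`.  So `∑_{1 ≤ b < p} ‖cS k p b‖² ≤ p (1 + (p-1) k) - p² ≤ p (p-1) k`.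
`cS_prime`: `(p - 1) ‖cS k p a‖² = ∑_{c=1}^{p-1} ‖cS k p (a c^k)‖² ≤ k ∑_{b=1}^{p-1} ‖cS k p b‖² ≤ k² p (p - 1)` (each `b` is `a c^k` for at most `k` values `c`).
-/

set_option autoImplicit false

namespace Pool.Agent.Lib.MP_570bef_ntP

open Finset
open Pool.Agent.Lib.MP_2a816b_nt (e nn D)

/-- the complete sum as a function on `ZMod p` -/
noncomputable def CSb_F (k p : ℕ) [NeZero p] (b : ZMod p) : ℂ :=
  ∑ x : ZMod p, ZMod.stdAddChar (b * x ^ k)

private theorem CSb_e (p : ℕ) [NeZero p] (m : ℤ) :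
    e ((m : ℝ) / p) = ZMod.stdAddChar ((m : ZMod p)) := by
  rw [ZMod.stdAddChar_coe]
  unfold Pool.Agent.Lib.MP_2a816b_nt.e
  congr 1
  push_cast
  ring

private theorem CSb_eq (k p : ℕ) [NeZero p] (b : ℤ) :
    cS k p b = CSb_F k p (b : ZMod p) := by
  unfold cS CSb_F
  symm
  apply Finset.sum_bij (fun (x : ZMod p) _ => x.val)
  · intro x _
    rw [mem_range]
    exact ZMod.val_lt x
  · intro x _ y _ h
    exact ZMod.val_injective p h
  · intro n hn
    rw [mem_range] at hn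
    exact ⟨(n : ZMod p), mem_univ _, ZMod.val_cast_of_lt hn⟩
  · intro x _
    have h1 : (b : ℝ) * ((x.val : ℕ) : ℝ) ^ k / p = (((b * (x.val : ℤ) ^ k : ℤ)) : ℝ) / p := by
      push_cast
      ring
    rw [h1, CSb_e]
    congr 1
    push_cast
    rw [ZMod.natCast_zmod_val]

private theorem CSb_sum (p : ℕ) [NeZero p] (f : ZMod p → ℝ) :
    ∑ b ∈ Ico 1 p, f (((b : ℕ) : ℤ) : ZMod p) = ∑ b ∈ (univ : Finset (ZMod p)).erase 0, f b := by
  symm
  apply Finset.sum_bij (fun (x : ZMod p) _ => x.val)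
  · intro x hx
    rw [mem_erase] at hx
    rw [mem_Ico]
    refine ⟨?_, ZMod.val_lt x⟩
    have : x.val ≠ 0 := by
      intro h
      exact hx.1 ((ZMod.val_eq_zero x).1 h)
    omega
  · intro x _ y _ h
    exact ZMod.val_injective p h
  · intro n hn
    rw [mem_Ico] at hn
    have hv := ZMod.val_cast_of_lt hn.2
    refine ⟨(n : ZMod p), ?_, hv⟩
    rw [mem_erase]
    refine ⟨?_, mem_univ _⟩
    intro h
    rw [h, ZMod.val_zero] at hv
    omega
  · intro x _
    congr 1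
    push_cast
    rw [ZMod.natCast_zmod_val]

private theorem CSb_roots (k p : ℕ) [Fact p.Prime] (hk : 1 ≤ k) (c : ZMod p) :
    ((univ : Finset (ZMod p)).filter fun x => x ^ k = c).card ≤ k := by
  classical
  have h1 : ((univ : Finset (ZMod p)).filter fun x => x ^ k = c) ⊆
      (Polynomial.nthRoots k c).toFinset := by
    intro x hx
    rw [mem_filter] at hx
    rw [Multiset.mem_toFinset, Polynomial.mem_nthRoots (by omega)]
    exact hx.2
  exact (card_le_card h1).trans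
    ((Multiset.toFinset_card_le _).trans (Polynomial.card_nthRoots k c))

private theorem CSb_scale (k p : ℕ) [Fact p.Prime] (b c : ZMod p) (hc : c ≠ 0) :
    CSb_F k p (b * c ^ k) = CSb_F k p b := by
  unfold CSb_F
  apply Fintype.sum_equiv (Equiv.mulLeft₀ c hc)
  intro x
  have h1 : (Equiv.mulLeft₀ c hc) x = c * x := rfl
  rw [h1, mul_pow, mul_assoc]

private theorem CSb_total (k p : ℕ) [Fact p.Prime] :
    ∑ b : ZMod p, ‖CSb_F k p b‖ ^ 2 =
      (p : ℝ) * (((univ : Finset (ZMod p × ZMod p)).filter fun w => w.1 ^ k = w.2 ^ k).card : ℝ) := by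
  have h0 : ∀ b : ZMod p, ((‖CSb_F k p b‖ ^ 2 : ℝ) : ℂ) =
      ∑ w : ZMod p × ZMod p, ZMod.stdAddChar (b * (w.1 ^ k - w.2 ^ k)) := by
    intro b
    have h1 : ((‖CSb_F k p b‖ ^ 2 : ℝ) : ℂ) = CSb_F k p b * (starRingEnd ℂ) (CSb_F k p b) := by
      rw [Complex.mul_conj, Complex.normSq_eq_norm_sq]
    rw [h1]
    unfold CSb_F
    rw [map_sum, sum_mul_sum, ← Finset.sum_product', univ_product_univ]
    apply sum_congr rfl
    intro w _
    rw [mul_sub, AddChar.map_sub_eq_div, div_eq_mul_inv]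
    congr 1
    rw [AddChar.inv_apply_eq_conj]
  have h2 : ((∑ b : ZMod p, ‖CSb_F k p b‖ ^ 2 : ℝ) : ℂ) =
      ((p : ℝ) * (((univ : Finset (ZMod p × ZMod p)).filter fun w => w.1 ^ k = w.2 ^ k).card : ℝ) : ℝ) := by
    push_cast
    have h3 : ∀ b : ZMod p, ((‖CSb_F k p b‖ : ℂ)) ^ 2 =
        ∑ w : ZMod p × ZMod p, ZMod.stdAddChar (b * (w.1 ^ k - w.2 ^ k)) := by
      intro b
      rw [← h0 b]
      push_cast
      rfl
    rw [sum_congr rfl (fun b _ => h3 b), sum_comm]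
    have h4 : ∀ w : ZMod p × ZMod p, ∑ b : ZMod p, ZMod.stdAddChar (b * (w.1 ^ k - w.2 ^ k)) =
        if w.1 ^ k = w.2 ^ k then (p : ℂ) else 0 := by
      intro w
      rw [AddChar.sum_mulShift _ (ZMod.isPrimitive_stdAddChar p)]
      by_cases h : w.1 ^ k = w.2 ^ k
      · rw [if_pos h, if_pos (sub_eq_zero.2 h), ZMod.card]
      · rw [if_neg h, if_neg (fun h' => h (sub_eq_zero.1 h'))]
        simp
    rw [sum_congr rfl (fun w _ => h4 w), ← sum_filter, sum_const, nsmul_eq_mul]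
    ring
  exact_mod_cast h2

private theorem CSb_count (k p : ℕ) [Fact p.Prime] (hk : 1 ≤ k) :
    (((univ : Finset (ZMod p × ZMod p)).filter fun w => w.1 ^ k = w.2 ^ k).card : ℝ) ≤
      1 + ((p : ℝ) - 1) * k := by
  classical
  have hp : p.Prime := Fact.out
  have h1 : ((univ : Finset (ZMod p × ZMod p)).filter fun w => w.1 ^ k = w.2 ^ k).card =
      ∑ y : ZMod p, ((univ : Finset (ZMod p)).filter fun x => x ^ k = y ^ k).card := by
    rw [card_filter, ← univ_product_univ, Finset.sum_product_right]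
    apply sum_congr rfl
    intro y _
    rw [card_filter]
  have h2 : ∑ y : ZMod p, ((univ : Finset (ZMod p)).filter fun x => x ^ k = y ^ k).card ≤
      1 + (p - 1) * k := by
    rw [← Finset.add_sum_erase _ _ (mem_univ (0 : ZMod p))]
    apply Nat.add_le_add
    · have h3 : ((univ : Finset (ZMod p)).filter fun x => x ^ k = (0 : ZMod p) ^ k) ⊆ {0} := by
        intro x hx
        rw [mem_filter, zero_pow (by omega)] at hx
        rw [mem_singleton]
        exact pow_eq_zero_iff (by omega) |>.1 hx.2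
      simpa using card_le_card h3
    · refine (sum_le_card_nsmul _ _ k fun y _ => CSb_roots k p hk (y ^ k)).trans ?_
      rw [card_erase_of_mem (mem_univ _), Finset.card_univ, ZMod.card, smul_eq_mul]
  have h3 : (((1 + (p - 1) * k : ℕ)) : ℝ) = 1 + ((p : ℝ) - 1) * k := by
    push_cast [Nat.cast_sub hp.one_lt.le]
    ring
  rw [← h3]
  exact_mod_cast h1.le.trans h2

private theorem CSb_zero (k p : ℕ) [Fact p.Prime] : CSb_F k p 0 = p := by
  unfold CSb_F
  simp [ZMod.card]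

private theorem CSb_second (k p : ℕ) [Fact p.Prime] (hk : 1 ≤ k) :
    ∑ b ∈ (univ : Finset (ZMod p)).erase 0, ‖CSb_F k p b‖ ^ 2 ≤ (p : ℝ) * (p - 1) * k := by
  have hp : p.Prime := Fact.out
  have h1 := CSb_total k p
  rw [← Finset.add_sum_erase _ _ (mem_univ (0 : ZMod p)), CSb_zero] at h1
  have h2 := CSb_count k p hk
  have hp0 : (0 : ℝ) ≤ p := Nat.cast_nonneg p
  have hp1 : (1 : ℝ) ≤ p := by exact_mod_cast hp.one_lt.le
  have h3 := mul_le_mul_of_nonneg_left h2 hp0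
  rw [← h1] at h3
  have h4 : ‖((p : ℕ) : ℂ)‖ = (p : ℝ) := by simp
  rw [h4] at h3
  nlinarith

private theorem CSb_main (k p : ℕ) [Fact p.Prime] (hk : 1 ≤ k) (a : ZMod p) (ha : a ≠ 0) :
    ‖CSb_F k p a‖ ^ 2 ≤ (k : ℝ) ^ 2 * p := by
  classical
  have hp : p.Prime := Fact.out
  have hp1 : (1 : ℝ) < p := by exact_mod_cast hp.one_lt
  have h1 : ∑ c ∈ (univ : Finset (ZMod p)).erase 0, ‖CSb_F k p (a * c ^ k)‖ ^ 2 =
      ((p : ℝ) - 1) * ‖CSb_F k p a‖ ^ 2 := by
    rw [sum_congr rfl (fun c hc => by rw [CSb_scale k p a c (mem_erase.1 hc).1]), sum_const,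
      card_erase_of_mem (mem_univ _), Finset.card_univ, ZMod.card, nsmul_eq_mul,
      Nat.cast_sub hp.one_lt.le]
    push_cast
    ring
  have h2 : ∑ c ∈ (univ : Finset (ZMod p)).erase 0, ‖CSb_F k p (a * c ^ k)‖ ^ 2 ≤
      k * ∑ b ∈ (univ : Finset (ZMod p)).erase 0, ‖CSb_F k p b‖ ^ 2 := by
    rw [← Finset.sum_fiberwise_of_maps_to (s := (univ : Finset (ZMod p)).erase 0)
      (t := (univ : Finset (ZMod p)).erase 0) (g := fun c => a * c ^ k), mul_sum]
    · apply sum_le_sum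
      intro b _
      have h3 : ∀ c ∈ ((univ : Finset (ZMod p)).erase 0).filter (fun c => a * c ^ k = b),
          ‖CSb_F k p (a * c ^ k)‖ ^ 2 = ‖CSb_F k p b‖ ^ 2 := by
        intro c hc
        rw [mem_filter] at hc
        rw [hc.2]
      rw [sum_congr rfl h3, sum_const, nsmul_eq_mul]
      apply mul_le_mul_of_nonneg_right _ (by positivity)
      have h4 : ((univ : Finset (ZMod p)).erase 0).filter (fun c => a * c ^ k = b) ⊆
          (univ : Finset (ZMod p)).filter fun x => x ^ k = a⁻¹ * b := by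
        intro c hc
        rw [mem_filter] at hc ⊢
        refine ⟨mem_univ _, ?_⟩
        rw [← hc.2, inv_mul_cancel_left₀ ha]
      exact_mod_cast (card_le_card h4).trans (CSb_roots k p hk _)
    · intro c hc
      rw [mem_erase] at hc ⊢
      exact ⟨mul_ne_zero ha (pow_ne_zero _ hc.1), mem_univ _⟩
  have h3 := CSb_second k p hk
  have h4 : (k : ℝ) * ∑ b ∈ (univ : Finset (ZMod p)).erase 0, ‖CSb_F k p b‖ ^ 2 ≤
      k * ((p : ℝ) * (p - 1) * k) := mul_le_mul_of_nonneg_left h3 (Nat.cast_nonneg k)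
  rw [h1] at h2
  have h5 := h2.trans h4
  have h6 : (0 : ℝ) < (p : ℝ) - 1 := by linarith
  have h7 : ((p : ℝ) - 1) * ‖CSb_F k p a‖ ^ 2 ≤ ((p : ℝ) - 1) * ((k : ℝ) ^ 2 * p) := by
    refine h5.trans (le_of_eq ?_)
    ring
  exact le_of_mul_le_mul_left h7 h6

private theorem CSb_ne (p : ℕ) (a : ℤ) (hp : p.Prime) (ha : IsCoprime a (p : ℤ)) :
    ((a : ZMod p)) ≠ 0 := by
  intro h
  rw [ZMod.intCast_zmod_eq_zero_iff_dvd] at h
  have h1 : IsCoprime (p : ℤ) (p : ℤ) := ha.of_isCoprime_of_dvd_left h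
  rw [isCoprime_self] at h1
  have h2 := Int.isUnit_iff.1 h1
  have := hp.two_le
  omega

theorem cS_scale (k p : ℕ) (a : ℤ) (c : ℤ) (hp : p.Prime) (hc : IsCoprime c (p : ℤ)) :
    cS k p (a * c ^ k) = cS k p a := by
  haveI : Fact p.Prime := ⟨hp⟩
  rw [CSb_eq, CSb_eq]
  push_cast
  exact CSb_scale k p _ _ (CSb_ne p c hp hc)

theorem cS_second_moment (k p : ℕ) (hk : 1 ≤ k) (hp : p.Prime) :
    ∑ b ∈ Ico 1 p, ‖cS k p b‖ ^ 2 ≤ (p : ℝ) * (p - 1) * k := by
  haveI : Fact p.Prime := ⟨hp⟩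
  have h1 : ∑ b ∈ Ico 1 p, ‖cS k p b‖ ^ 2 =
      ∑ b ∈ Ico 1 p, (fun b : ZMod p => ‖CSb_F k p b‖ ^ 2) (((b : ℕ) : ℤ) : ZMod p) := by
    apply sum_congr rfl
    intro b _
    rw [CSb_eq]
  rw [h1, CSb_sum p (fun b : ZMod p => ‖CSb_F k p b‖ ^ 2)]
  exact CSb_second k p hk

theorem cS_prime (k p : ℕ) (a : ℤ) (hk : 1 ≤ k) (hp : p.Prime) (ha : IsCoprime a (p : ℤ)) :
    ‖cS k p a‖ ^ 2 ≤ (k : ℝ) ^ 2 * p := by
  haveI : Fact p.Prime := ⟨hp⟩
  rw [CSb_eq]
  exact CSb_main k p hk _ (CSb_ne p a hp ha)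

end Pool.Agent.Lib.MP_570bef_ntP
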