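import Pool.Agent.Lib.MP_570bef_ntP.CSa

/-!
# Complete sums modulo prime powers (CSc)

Let `τ = padicValNat p k`, `k = p^τ k'`, `p ∤ k'`, `2 τ + 2 ≤ l`, `n = l - 1 - τ` (so `n ≥ τ + 1`, `2 n ≥ l`).
Write `x = y + p^n z`, `y < p^n`, `z < p^(τ+1)` (a bijection with `range (p^l)`).  `x^k ≡ y^k + k y^(k-1) p^n z mod p^(2n)`, `2n ≥ l`, and
`k p^n = k' p^(l-1)`: `a x^k / p^l ≡ a y^k / p^l + a k' y^(k-1) z / p` modulo 1.  The sum over `z < p^(τ+1)` of `e (a k' y^(k-1) z / p)` is `p^(τ+1)` if `p ∣ y`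
(`k ≥ 2`) and `0` otherwise (geometric sum, `a k' y^(k-1)` is coprime to `p`).  So
`cS k (p^l) a = ∑_{x < p^l, p ∣ x} e (a x^k / p^l) = ∑_{x' < p^(l-1)} e (a p^k x'^k / p^l)`
(for `p ∣ y` all the terms with the same `y` are equal).  If `l ≤ k` all terms are `1`: `p^(l-1)`.  If `l > k` the term is `e (a x'^k / p^(l-k))`, periodic modulo
`p^(l-k)`, and there are `p^(l-1) / p^(l-k) = p^(k-1)` periods.
-/

set_option autoImplicit false

namespace Pool.Agent.Lib.MP_570bef_ntP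

open Finset
open Pool.Agent.Lib.MP_2a816b_nt (e nn D e_add e_int e_add_int e_eq_one_iff D_mul)

private theorem CSc_sum_mul (A B : ℕ) (f : ℕ → ℂ) :
    ∑ x ∈ range (A * B), f x = ∑ z ∈ range B, ∑ y ∈ range A, f (y + A * z) := by
  induction B with
  | zero => simp
  | succ B ih =>
    rw [Nat.mul_succ, Finset.sum_range_add, ih, sum_range_succ]
    congr 1
    exact sum_congr rfl fun y _ => by rw [add_comm]

private theorem CSc_sum_dvd (p m : ℕ) (hp : 0 < p) (f : ℕ → ℂ) :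
    ∑ x ∈ range (p * m), (if p ∣ x then f x else 0) = ∑ x ∈ range m, f (p * x) := by
  rw [CSc_sum_mul]
  refine sum_congr rfl fun z _ => ?_
  rw [Finset.sum_eq_single_of_mem 0 (mem_range.2 hp)]
  · simp
  · intro y hy hne
    rw [if_neg]
    intro h
    have h2 : p ∣ y := (Nat.dvd_add_left (dvd_mul_right p z)).1 h
    exact hne (Nat.eq_zero_of_dvd_of_lt h2 (mem_range.1 hy))

private theorem CSc_split (k k' p τ r y z : ℕ) (a : ℤ) (hp : 0 < p) (hk : k = p ^ τ * k') :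
    e ((a : ℝ) * ((y + p ^ (τ + 1 + r) * z : ℕ) : ℝ) ^ k / (p : ℝ) ^ (τ + 1 + r + (τ + 1))) =
      e ((a : ℝ) * (y : ℝ) ^ k / (p : ℝ) ^ (τ + 1 + r + (τ + 1))) *
        e ((z : ℝ) * (((a * k' * (y : ℤ) ^ (k - 1) : ℤ) : ℝ) / p)) := by
  obtain ⟨M, hM⟩ := Polynomial.powAddExpansion y (p ^ (τ + 1 + r) * z) k
  have hp0 : (p : ℝ) ≠ 0 := by exact_mod_cast hp.ne'
  have hM' : ((y + p ^ (τ + 1 + r) * z : ℕ) : ℝ) ^ k =
      (y : ℝ) ^ k + (k : ℝ) * (y : ℝ) ^ (k - 1) * ((p : ℝ) ^ (τ + 1 + r) * z) +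
        M * ((p : ℝ) ^ (τ + 1 + r) * z) ^ 2 := by
    exact_mod_cast hM
  have hkr : (k : ℝ) = (p : ℝ) ^ τ * k' := by exact_mod_cast hk
  have key : (a : ℝ) * ((y + p ^ (τ + 1 + r) * z : ℕ) : ℝ) ^ k / (p : ℝ) ^ (τ + 1 + r + (τ + 1)) =
      (a : ℝ) * (y : ℝ) ^ k / (p : ℝ) ^ (τ + 1 + r + (τ + 1)) +
        (z : ℝ) * (((a * k' * (y : ℤ) ^ (k - 1) : ℤ) : ℝ) / p) +
        ((a * M * (z : ℤ) ^ 2 * (p : ℤ) ^ r : ℤ) : ℝ) := by
    rw [hM', hkr]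
    push_cast
    have e1 : (p : ℝ) ^ (τ + 1 + r + (τ + 1)) = (p : ℝ) ^ (τ + 1 + r) * ((p : ℝ) ^ τ * p) := by
      rw [pow_add, pow_succ]
    have e2 : (p : ℝ) ^ (τ + 1 + r) = (p : ℝ) ^ τ * p * (p : ℝ) ^ r := by
      rw [pow_add, pow_succ]
    rw [e1]
    field_simp
    rw [e2]
    ring
  rw [key, e_add_int, e_add]

private theorem CSc_geom (p K : ℕ) (β : ℤ) (hp : 0 < p) (hK : p ∣ K) (hβ : ¬ (p : ℤ) ∣ β) :
    ∑ z ∈ range K, e ((z : ℝ) * ((β : ℝ) / p)) = 0 := by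
  have hp0 : (p : ℝ) ≠ 0 := by exact_mod_cast hp.ne'
  have h1 : D K ((β : ℝ) / p) * (e ((β : ℝ) / p) - 1) = 0 := by
    rw [D_mul]
    obtain ⟨m, rfl⟩ := hK
    have h2 : ((p * m : ℕ) : ℝ) * ((β : ℝ) / p) = ((m * β : ℤ) : ℝ) := by
      push_cast
      field_simp
    rw [h2, e_int, sub_self]
  rcases mul_eq_zero.1 h1 with h | h
  · exact h
  · exfalso
    rw [sub_eq_zero, e_eq_one_iff] at h
    obtain ⟨m, hm⟩ := h
    rw [div_eq_iff hp0] at hm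
    apply hβ
    refine ⟨m, ?_⟩
    have h3 : β = m * p := by exact_mod_cast hm
    rw [h3, mul_comm]

theorem cS_dvd (k p l : ℕ) (a : ℤ) (hk : 2 ≤ k) (hp : p.Prime) (ha : IsCoprime a (p : ℤ))
    (hl : 2 * padicValNat p k + 2 ≤ l) :
    cS k (p ^ l) a = ∑ x ∈ range (p ^ (l - 1)), e ((a : ℝ) * ((p : ℝ) * x) ^ k / (p : ℝ) ^ l) := by
  have : Fact p.Prime := ⟨hp⟩
  set τ := padicValNat p k with hτ
  obtain ⟨k', hk'⟩ : p ^ τ ∣ k := pow_padicValNat_dvd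
  have hk'p : ¬ p ∣ k' := by
    rintro ⟨j, hj⟩
    have h1 : p ^ (τ + 1) ∣ k := by
      refine ⟨j, ?_⟩
      rw [pow_succ, mul_assoc, ← hj]
      exact hk'
    exact pow_succ_padicValNat_not_dvd (by omega : k ≠ 0) h1
  obtain ⟨r, rfl⟩ : ∃ r, l = τ + 1 + r + (τ + 1) := ⟨l - (2 * τ + 2), by omega⟩
  have hpp : Prime (p : ℤ) := Nat.prime_iff_prime_int.1 hp
  have hcast : ∀ x : ℕ, e ((a : ℝ) * (x : ℝ) ^ k / ((p ^ (τ + 1 + r + (τ + 1)) : ℕ) : ℝ)) =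
      e ((a : ℝ) * (x : ℝ) ^ k / (p : ℝ) ^ (τ + 1 + r + (τ + 1))) := by
    intro x
    rw [Nat.cast_pow]
  unfold cS
  simp only [hcast]
  set f : ℕ → ℂ := fun x => e ((a : ℝ) * (x : ℝ) ^ k / (p : ℝ) ^ (τ + 1 + r + (τ + 1))) with hf
  have h1 : ∑ x ∈ range (p ^ (τ + 1 + r + (τ + 1))), f x =
      ∑ x ∈ range (p ^ (τ + 1 + r + (τ + 1))), (if p ∣ x then f x else 0) +
      ∑ x ∈ range (p ^ (τ + 1 + r + (τ + 1))), (if p ∣ x then 0 else f x) := by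
    rw [← sum_add_distrib]
    refine sum_congr rfl fun x _ => ?_
    split_ifs <;> simp
  have h2 : ∑ x ∈ range (p ^ (τ + 1 + r + (τ + 1))), (if p ∣ x then 0 else f x) = 0 := by
    rw [pow_add, CSc_sum_mul, sum_comm]
    refine sum_eq_zero fun y _ => ?_
    have hd : ∀ z : ℕ, p ∣ y + p ^ (τ + 1 + r) * z ↔ p ∣ y := by
      intro z
      refine Nat.dvd_add_left ?_
      exact (dvd_pow_self p (by omega)).mul_right z
    by_cases hy : p ∣ y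
    · refine sum_eq_zero fun z _ => ?_
      rw [if_pos ((hd z).2 hy)]
    · have h3 : ∀ z ∈ range (p ^ (τ + 1)), (if p ∣ y + p ^ (τ + 1 + r) * z then 0
          else f (y + p ^ (τ + 1 + r) * z)) =
          f y * e ((z : ℝ) * (((a * k' * (y : ℤ) ^ (k - 1) : ℤ) : ℝ) / p)) := by
        intro z _
        rw [if_neg (fun h => hy ((hd z).1 h))]
        exact CSc_split k k' p τ r y z a hp.pos hk'
      rw [sum_congr rfl h3, ← mul_sum, CSc_geom p _ _ hp.pos (dvd_pow_self p (by omega)), mul_zero]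
      intro h
      rcases hpp.dvd_or_dvd h with h4 | h4
      · rcases hpp.dvd_or_dvd h4 with h5 | h5
        · have h6 : IsUnit (p : ℤ) := ha.isUnit_of_dvd' h5 (dvd_refl _)
          exact hpp.not_isUnit h6
        · exact hk'p (by exact_mod_cast h5)
      · have h5 := hpp.dvd_of_dvd_pow h4
        exact hy (by exact_mod_cast h5)
  rw [h1, h2, add_zero]
  have h3 : p ^ (τ + 1 + r + (τ + 1)) = p * p ^ (τ + 1 + r + (τ + 1) - 1) := by
    rw [← pow_succ']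
    congr 1
  conv_lhs => rw [h3]
  rw [CSc_sum_dvd p _ hp.pos]
  refine sum_congr rfl fun x _ => ?_
  simp only [hf, Nat.cast_mul]

theorem cS_pow_small (k p l : ℕ) (a : ℤ) (hk : 2 ≤ k) (hp : p.Prime) (ha : IsCoprime a (p : ℤ))
    (hl : 2 * padicValNat p k + 2 ≤ l) (hlk : l ≤ k) :
    cS k (p ^ l) a = (p : ℂ) ^ (l - 1) := by
  have hp0 : (p : ℝ) ≠ 0 := by exact_mod_cast hp.pos.ne'
  rw [cS_dvd k p l a hk hp ha hl]
  have h1 : ∀ x ∈ range (p ^ (l - 1)), e ((a : ℝ) * ((p : ℝ) * x) ^ k / (p : ℝ) ^ l) = 1 := by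
    intro x _
    have h2 : (a : ℝ) * ((p : ℝ) * x) ^ k / (p : ℝ) ^ l =
        ((a * (x : ℤ) ^ k * (p : ℤ) ^ (k - l) : ℤ) : ℝ) := by
      push_cast
      rw [mul_pow, div_eq_iff (pow_ne_zero _ hp0)]
      have h3 : (p : ℝ) ^ k = (p : ℝ) ^ (k - l) * (p : ℝ) ^ l := by
        rw [← pow_add, Nat.sub_add_cancel hlk]
      rw [h3]
      ring
    rw [h2, e_int]
  rw [sum_congr rfl h1, sum_const, card_range, nsmul_eq_mul, mul_one]
  push_cast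
  rfl

theorem cS_pow_large (k p l : ℕ) (a : ℤ) (hk : 2 ≤ k) (hp : p.Prime) (ha : IsCoprime a (p : ℤ))
    (hl : 2 * padicValNat p k + 2 ≤ l) (hlk : k < l) :
    cS k (p ^ l) a = (p : ℂ) ^ (k - 1) * cS k (p ^ (l - k)) a := by
  have hp0 : (p : ℝ) ≠ 0 := by exact_mod_cast hp.pos.ne'
  rw [cS_dvd k p l a hk hp ha hl]
  have h1 : ∀ x ∈ range (p ^ (l - 1)), e ((a : ℝ) * ((p : ℝ) * x) ^ k / (p : ℝ) ^ l) =
      e ((a : ℝ) * (x : ℝ) ^ k / ((p ^ (l - k) : ℕ) : ℝ)) := by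
    intro x _
    congr 1
    push_cast
    have h3 : (p : ℝ) ^ l = (p : ℝ) ^ (l - k) * (p : ℝ) ^ k := by
      rw [← pow_add, Nat.sub_add_cancel hlk.le]
    rw [h3, mul_pow]
    field_simp
  have h2 : p ^ (l - 1) = p ^ (l - k) * p ^ (k - 1) := by
    rw [← pow_add]
    congr 1
    omega
  rw [sum_congr rfl h1, h2, CSc_sum_mul]
  have h4 : ∀ z ∈ range (p ^ (k - 1)), ∑ y ∈ range (p ^ (l - k)),
      e ((a : ℝ) * ((y + p ^ (l - k) * z : ℕ) : ℝ) ^ k / ((p ^ (l - k) : ℕ) : ℝ)) =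
      cS k (p ^ (l - k)) a := by
    intro z _
    unfold cS
    refine sum_congr rfl fun y _ => ?_
    refine cS_periodic k (p ^ (l - k)) a (Nat.one_le_pow _ _ hp.pos) _ _ ?_
    have h5 : y + p ^ (l - k) * z ≡ y + 0 [MOD p ^ (l - k)] :=
      Nat.ModEq.add_left _ ((Nat.modEq_zero_iff_dvd).2 (dvd_mul_right _ _))
    rwa [add_zero] at h5
  rw [sum_congr rfl h4, sum_const, card_range, nsmul_eq_mul]
  push_cast
  rfl

end Pool.Agent.Lib.MP_570bef_ntP
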