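import Pool.Agent.Lib.MP_570bef_ntP.CSb
import Pool.Agent.Lib.MP_570bef_ntP.CSc

/-!
# The bound for prime powers (job CSd)

`padic_small`: `p^τ ∣ k` gives `2^τ ≤ k < 2^k`, so `τ < k` and `2 τ + 2 ≤ 2 k`.
`cS_pp_any`: strong induction on `l`: if `l ≤ 2k` the trivial bound `‖cS‖ ≤ p^l` gives `‖cS‖^(2k) p^l ≤ p^(2kl) p^l ≤ p^(2kl) p^(2k)`.  If `l > 2k`:
`cS_pow_large`: `‖cS (p^l)‖^(2k) p^l = p^(2k(k-1)) ‖cS (p^(l-k))‖^(2k) p^(l-k) p^k ≤ p^(2k(k-1)) p^(2k) p^(2k(l-k)) p^k = p^(2kl) p^(2k) p^(-k) ≤`.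
`cS_pp_large`: `p > k^4`, so `p ∤ k`, `τ = 0`.  `l = 0`: `1`.  `l = 1`: `‖cS‖^(2k) p ≤ (k² p)^k p = k^(2k) p^(k+1) ≤ p^(k/2 + k + 1) ≤ p^(2k)` (`k² ≤ √p`:
`k^(4k) ≤ p^k`, `(k^(2k) p^(k+1))² ≤ p^(k + 2k + 2) ≤ p^(4k)` as `k ≥ 2`).  `2 ≤ l ≤ k`: `p^((l-1) 2k) p^l ≤ p^(2kl)` as `l ≤ 2k`.  `l > k`: strong induction:
`p^((k-1) 2k) ‖cS (p^(l-k))‖^(2k) p^(l-k) p^k ≤ p^(2k(k-1) + 2k(l-k) + k) ≤ p^(2kl)`.
-/

set_option autoImplicit false

namespace Pool.Agent.Lib.MP_570bef_ntP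

open Finset
open Pool.Agent.Lib.MP_2a816b_nt (e nn D)

theorem padic_small (k p : ℕ) (hk : 1 ≤ k) (hp : p.Prime) : 2 * padicValNat p k + 2 ≤ 2 * k := by
  have h1 : p ^ padicValNat p k ≤ k := Nat.le_of_dvd (by omega) pow_padicValNat_dvd
  have h2 : 2 ^ padicValNat p k ≤ p ^ padicValNat p k := Nat.pow_le_pow_left hp.two_le _
  have h3 : k < 2 ^ k := Nat.lt_two_pow_self
  have h4 : 2 ^ padicValNat p k < 2 ^ k := lt_of_le_of_lt (h2.trans h1) h3
  have h5 : padicValNat p k < k := (Nat.pow_lt_pow_iff_right (by norm_num)).1 h4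
  omega

private theorem CSd_step (k p l : ℕ) (S T : ℝ) (hk : 2 ≤ k) (hp : 1 ≤ (p : ℝ)) (hlk : k < l)
    (hT : 0 ≤ T) (A : ℝ) (hS : S = (p : ℝ) ^ (k - 1) * T)
    (ih : T ^ (2 * k) * (p : ℝ) ^ (l - k) ≤ A * ((p : ℝ) ^ (l - k)) ^ (2 * k)) (hA : 0 ≤ A) :
    S ^ (2 * k) * (p : ℝ) ^ l ≤ A * ((p : ℝ) ^ l) ^ (2 * k) := by
  have hp0 : (0 : ℝ) ≤ p := by linarith
  have e1 : (p : ℝ) ^ l = (p : ℝ) ^ (l - k) * (p : ℝ) ^ k := by
    rw [← pow_add]
    congr 1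
    omega
  rw [hS, e1]
  have e2 : ((p : ℝ) ^ (k - 1) * T) ^ (2 * k) * ((p : ℝ) ^ (l - k) * (p : ℝ) ^ k) =
      ((p : ℝ) ^ (k - 1)) ^ (2 * k) * (p : ℝ) ^ k * (T ^ (2 * k) * (p : ℝ) ^ (l - k)) := by
    rw [mul_pow]
    ring
  rw [e2]
  have e3 : ((p : ℝ) ^ (k - 1)) ^ (2 * k) * (p : ℝ) ^ k ≤ ((p : ℝ) ^ k) ^ (2 * k) := by
    rw [← pow_mul, ← pow_mul, ← pow_add]
    refine pow_le_pow_right₀ hp ?_
    obtain ⟨j, rfl⟩ : ∃ j, k = j + 1 := ⟨k - 1, by omega⟩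
    simp only [Nat.add_sub_cancel]
    nlinarith
  calc ((p : ℝ) ^ (k - 1)) ^ (2 * k) * (p : ℝ) ^ k * (T ^ (2 * k) * (p : ℝ) ^ (l - k))
      ≤ ((p : ℝ) ^ k) ^ (2 * k) * (A * ((p : ℝ) ^ (l - k)) ^ (2 * k)) :=
        mul_le_mul e3 ih (by positivity) (by positivity)
    _ = A * ((p : ℝ) ^ (l - k) * (p : ℝ) ^ k) ^ (2 * k) := by
        rw [mul_pow]
        ring

theorem cS_pp_any (k p l : ℕ) (a : ℤ) (hk : 2 ≤ k) (hp : p.Prime) (ha : IsCoprime a (p : ℤ)) :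
    ‖cS k (p ^ l) a‖ ^ (2 * k) * (p : ℝ) ^ l ≤ (p : ℝ) ^ (2 * k) * ((p : ℝ) ^ l) ^ (2 * k) := by
  have hp1 : (1 : ℝ) ≤ p := by exact_mod_cast hp.one_le
  induction l using Nat.strong_induction_on with
  | _ l ih =>
    rcases Nat.lt_or_ge (2 * k) l with hl | hl
    · have hv := padic_small k p (by omega) hp
      have h1 := cS_pow_large k p l a hk hp ha (by omega) (by omega)
      refine CSd_step k p l _ ‖cS k (p ^ (l - k)) a‖ hk hp1 (by omega) (norm_nonneg _) _ ?_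
        (ih (l - k) (by omega)) (by positivity)
      rw [h1, norm_mul, norm_pow, Complex.norm_natCast]
    · have h1 := norm_cS_le k (p ^ l) a
      push_cast at h1
      rw [mul_comm]
      exact mul_le_mul (pow_le_pow_right₀ hp1 hl) (pow_le_pow_left₀ (norm_nonneg _) h1 _)
        (by positivity) (by positivity)

theorem cS_pp_large (k p l : ℕ) (a : ℤ) (hk : 2 ≤ k) (hp : p.Prime) (ha : IsCoprime a (p : ℤ))
    (hpk : k ^ 4 < p) :
    ‖cS k (p ^ l) a‖ ^ (2 * k) * (p : ℝ) ^ l ≤ ((p : ℝ) ^ l) ^ (2 * k) := by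
  have hp1 : (1 : ℝ) ≤ p := by exact_mod_cast hp.one_le
  have hkp : k < p := lt_of_le_of_lt (Nat.le_self_pow (by norm_num) k) hpk
  have hv : padicValNat p k = 0 := padicValNat.eq_zero_of_not_dvd fun h =>
    absurd (Nat.le_of_dvd (by omega) h) (by omega)
  induction l using Nat.strong_induction_on with
  | _ l ih =>
    rcases Nat.lt_or_ge k l with hl | hl
    · have h1 := cS_pow_large k p l a hk hp ha (by omega) hl
      have h2 := CSd_step k p l ‖cS k (p ^ l) a‖ ‖cS k (p ^ (l - k)) a‖ hk hp1 hl (norm_nonneg _) 1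
        (by rw [h1, norm_mul, norm_pow, Complex.norm_natCast])
        (by rw [one_mul]; exact ih (l - k) (by omega)) zero_le_one
      rwa [one_mul] at h2
    · rcases Nat.lt_or_ge l 2 with h2 | h2
      · interval_cases l
        · rw [pow_zero, cS_one k a (by omega)]
          simp
        · rw [pow_one, pow_one]
          have h3 := cS_prime k p a (by omega) hp ha
          have h4 : ‖cS k p a‖ ^ (2 * k) ≤ ((k : ℝ) ^ 2 * p) ^ k := by
            rw [pow_mul]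
            exact pow_le_pow_left₀ (by positivity) h3 _
          have h5 : ((k : ℝ) ^ 2 * p) ^ k * p ≤ (p : ℝ) ^ (2 * k) := by
            refine (pow_le_pow_iff_left₀ (by positivity) (by positivity) two_ne_zero).1 ?_
            have h6 : ((k : ℝ) ^ 4) ^ k ≤ (p : ℝ) ^ k := by
              refine pow_le_pow_left₀ (by positivity) ?_ _
              exact_mod_cast hpk.le
            calc (((k : ℝ) ^ 2 * p) ^ k * p) ^ 2 = ((k : ℝ) ^ 4) ^ k * (p : ℝ) ^ (2 * k + 2) := by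
                  rw [mul_pow, mul_pow, mul_pow, ← pow_mul, ← pow_mul, ← pow_mul, ← pow_mul]
                  ring
              _ ≤ (p : ℝ) ^ k * (p : ℝ) ^ (2 * k + 2) :=
                  mul_le_mul_of_nonneg_right h6 (by positivity)
              _ = (p : ℝ) ^ (3 * k + 2) := by
                  rw [← pow_add]
                  congr 1
                  ring
              _ ≤ (p : ℝ) ^ (2 * k * 2) := pow_le_pow_right₀ hp1 (by omega)
              _ = ((p : ℝ) ^ (2 * k)) ^ 2 := by rw [pow_mul]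
          exact (mul_le_mul_of_nonneg_right h4 (by positivity)).trans h5
      · have h1 := cS_pow_small k p l a hk hp ha (by omega) hl
        rw [h1, norm_pow, Complex.norm_natCast, ← pow_mul, ← pow_mul, ← pow_add]
        refine pow_le_pow_right₀ hp1 ?_
        obtain ⟨j, rfl⟩ : ∃ j, l = j + 1 := ⟨l - 1, by omega⟩
        simp only [Nat.add_sub_cancel]
        nlinarith

end Pool.Agent.Lib.MP_570bef_ntP
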