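import Pool.Agent.Lib.MP_570bef_ntP.Bas

/-!
# Counting roots in intervals (job Cnt)

The residues modulo `q` of the elements `z` of the set are units with `z ^ k = c`; if there is one, `z₀`, the map `z ↦ z z₀⁻¹` (in `ZMod q`) is an injection of the
set of these residues into the set of the `k`-th roots of unity: at most `rho k q` residues.  Each residue class has at most `L / q + 1` elements in an
interval of length `L` (`Nat.count_modEq_card` or: `Nat.Ico_filter_modEq_card`, or the map `z ↦ (z - u) / q` is injective on the class with values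
`≤ (L - 1) / q`).
-/

set_option autoImplicit false

namespace Pool.Agent.Lib.MP_570bef_ntP

open Finset
open Pool.Agent.Lib.MP_2a816b_nt (e nn D)

private theorem Cnt_residues (k q c : ℕ) (hq : 1 ≤ q) (T : Finset ℕ)
    (hT : ∀ z ∈ T, z < q ∧ z.Coprime q ∧ z ^ k ≡ c [MOD q]) : T.card ≤ rho k q := by
  classical
  have : NeZero q := ⟨by omega⟩
  rcases T.eq_empty_or_nonempty with h0 | ⟨z₀, hz₀⟩
  · rw [h0]
    simp
  have hcop : ∀ z ∈ T, z.Coprime q := fun z hz => (hT z hz).2.1
  have hpow : ∀ z (hz : z ∈ T), (ZMod.unitOfCoprime z (hcop z hz)) ^ k =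
      (ZMod.unitOfCoprime z₀ (hcop z₀ hz₀)) ^ k := by
    intro z hz
    apply Units.ext
    rw [Units.val_pow_eq_pow_val, Units.val_pow_eq_pow_val, ZMod.coe_unitOfCoprime,
      ZMod.coe_unitOfCoprime]
    have h1 : z ^ k ≡ z₀ ^ k [MOD q] := (hT z hz).2.2.trans (hT z₀ hz₀).2.2.symm
    have h2 := (ZMod.natCast_eq_natCast_iff _ _ _).2 h1
    push_cast at h2
    exact h2
  let f : ℕ → (ZMod q)ˣ := fun z => if hz : z ∈ T then
    ZMod.unitOfCoprime z (hcop z hz) * (ZMod.unitOfCoprime z₀ (hcop z₀ hz₀))⁻¹ else 1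
  have hf : ∀ z ∈ T, (f z) ^ k = 1 := by
    intro z hz
    simp only [f, dif_pos hz]
    rw [mul_pow, hpow z hz, inv_pow, mul_inv_cancel]
  have hinj : ∀ z ∈ T, ∀ w ∈ T, f z = f w → z = w := by
    intro z hz w hw hzw
    simp only [f, dif_pos hz, dif_pos hw] at hzw
    have h1 := mul_right_cancel hzw
    have h2 := congrArg Units.val h1
    rw [ZMod.coe_unitOfCoprime, ZMod.coe_unitOfCoprime, ZMod.natCast_eq_natCast_iff] at h2
    exact Nat.ModEq.eq_of_lt_of_lt h2 (hT z hz).1 (hT w hw).1
  unfold rho
  apply card_le_card_of_injOn fun z => ((f z : (ZMod q)ˣ) : ZMod q).val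
  · intro z hz
    have hz' : z ∈ T := hz
    rw [mem_coe, mem_filter, mem_range]
    refine ⟨ZMod.val_lt _, ?_⟩
    rw [← ZMod.natCast_eq_natCast_iff]
    push_cast
    rw [ZMod.natCast_zmod_val, ← Units.val_pow_eq_pow_val, hf z hz', Units.val_one]
  · intro z hz w hw hzw
    have h1 : ((f z : (ZMod q)ˣ) : ZMod q) = f w := ZMod.val_injective q hzw
    exact hinj z hz w hw (Units.ext h1)

theorem count_roots (k q c u L : ℕ) (hk : 1 ≤ k) (hq : 1 ≤ q) :
    ((Ico u (u + L)).filter fun z => z.Coprime q ∧ z ^ k ≡ c [MOD q]).card ≤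
      rho k q * (L / q + 1) := by
  classical
  set S := (Ico u (u + L)).filter fun z => z.Coprime q ∧ z ^ k ≡ c [MOD q] with hS
  have h1 : S.card ≤ (L / q + 1) * (S.image fun z => z % q).card := by
    apply card_le_mul_card_image
    intro r _
    have h2 : (S.filter fun z => z % q = r).card ≤ (range (L / q + 1)).card := by
      apply card_le_card_of_injOn fun z => (z - u) / q
      · intro z hz
        have hz' := mem_Ico.1 (mem_filter.1 (mem_filter.1 (mem_coe.1 hz)).1).1
        rw [mem_coe, mem_range]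
        have : (z - u) / q ≤ L / q := Nat.div_le_div_right (by omega)
        exact Nat.lt_succ_of_le this
      · intro z hz w hw hzw
        have hz1 := mem_filter.1 (mem_coe.1 hz)
        have hw1 := mem_filter.1 (mem_coe.1 hw)
        have hz' := mem_Ico.1 (mem_filter.1 hz1.1).1
        have hw' := mem_Ico.1 (mem_filter.1 hw1.1).1
        have h3 : z ≡ w [MOD q] := hz1.2.trans hw1.2.symm
        have h4 : (z - u) ≡ (w - u) [MOD q] := by
          have h5 : u + (z - u) ≡ u + (w - u) [MOD q] := by
            rw [Nat.add_sub_cancel' hz'.1, Nat.add_sub_cancel' hw'.1]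
            exact h3
          exact Nat.ModEq.add_left_cancel' u h5
        have h6 : (z - u) / q = (w - u) / q := hzw
        have h7 : (z - u) = (w - u) := by
          rw [← Nat.div_add_mod (z - u) q, ← Nat.div_add_mod (w - u) q, h6, h4]
        omega
    rw [card_range] at h2
    exact h2
  have h2 : (S.image fun z => z % q).card ≤ rho k q := by
    apply Cnt_residues k q c hq
    intro r hr
    obtain ⟨z, hz, rfl⟩ := mem_image.1 hr
    have hz' := (mem_filter.1 hz).2
    refine ⟨Nat.mod_lt _ (by omega), ?_, ?_⟩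
    · have : (z % q).gcd q = 1 := by
        rw [← Nat.gcd_rec, Nat.gcd_comm]
        exact hz'.1
      exact this
    · exact ((Nat.mod_modEq z q).pow k).trans hz'.2
  calc S.card ≤ (L / q + 1) * (S.image fun z => z % q).card := h1
    _ ≤ (L / q + 1) * rho k q := Nat.mul_le_mul_left _ h2
    _ = _ := mul_comm _ _

end Pool.Agent.Lib.MP_570bef_ntP
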