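import Pool.Agent.Lib.MP_570bef_ntP.Fin

/-!
# Diminishing ranges: the dependence on the exponent is logarithmic

`count_step`: the numbers `x^k + a` with `P < x ≤ 2 P` and `a` a sum of `s` `k`-th powers, `a < P^(k-1)`, are distinct, because
`(x + 1)^k ≥ x^k + P^(k-1)`.  So a count `≥ c N^(1-δ)` for `s` gives a count `≥ c' N^(1 - δ (1 - 1/k))` for `s + 1`.
-/

set_option autoImplicit false

namespace Pool.Agent.Lib.MP_570bef_ntP

open Finset
open Pool.Agent.Lib.MP_570bef_nt (IsSum countSums isSum_pow isSum_zero)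

private theorem Dim_gap (k x y P : ℕ) (hk : 1 ≤ k) (hx : P < x) (hxy : x < y) :
    x ^ k + P ^ (k - 1) ≤ y ^ k := by
  obtain ⟨j, rfl⟩ : ∃ j, k = j + 1 := ⟨k - 1, by omega⟩
  rw [Nat.add_sub_cancel]
  have h1 : (x + 1) ^ (j + 1) ≤ y ^ (j + 1) := Nat.pow_le_pow_left hxy _
  have h2 : x ^ j ≤ (x + 1) ^ j := Nat.pow_le_pow_left (Nat.le_succ x) _
  have h3 : P ^ j ≤ x ^ j := Nat.pow_le_pow_left hx.le _
  calc x ^ (j + 1) + P ^ j ≤ x ^ j * x + x ^ j := by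
        rw [pow_succ]
        omega
    _ = x ^ j * (x + 1) := by ring
    _ ≤ (x + 1) ^ j * (x + 1) := Nat.mul_le_mul_right _ h2
    _ = (x + 1) ^ (j + 1) := (pow_succ _ _).symm
    _ ≤ y ^ (j + 1) := h1

theorem count_step (k s P : ℕ) (hk : 1 ≤ k) :
    P * countSums k s 0 (P ^ (k - 1)) ≤ countSums k (1 + s) 0 ((2 * P + 1) ^ k) := by
  classical
  rw [← card_sums, ← card_sums]
  have hc : P * (sums k s (P ^ (k - 1))).card =
      (Ioc P (2 * P) ×ˢ sums k s (P ^ (k - 1))).card := by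
    rw [card_product, Nat.card_Ioc]
    congr 1
    omega
  rw [hc]
  apply card_le_card_of_injOn fun w => w.1 ^ k + w.2
  · intro w hw
    obtain ⟨h1, h2⟩ := mem_product.1 (mem_coe.1 hw)
    rw [mem_Ioc] at h1
    have h3 := mem_range.1 (mem_filter.1 h2).1
    have h4 : IsSum k s w.2 := (mem_filter.1 h2).2
    rw [mem_coe]
    unfold sums
    rw [mem_filter, mem_range]
    refine ⟨?_, (isSum_pow k w.1).add h4⟩
    have h5 := Dim_gap k w.1 (2 * P + 1) P hk h1.1 (by omega)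
    show w.1 ^ k + w.2 < (2 * P + 1) ^ k
    omega
  · intro w hw w' hw' h
    obtain ⟨h1, h2⟩ := mem_product.1 (mem_coe.1 hw)
    obtain ⟨h1', h2'⟩ := mem_product.1 (mem_coe.1 hw')
    rw [mem_Ioc] at h1 h1'
    have h3 := mem_range.1 (mem_filter.1 h2).1
    have h3' := mem_range.1 (mem_filter.1 h2').1
    have h' : w.1 ^ k + w.2 = w'.1 ^ k + w'.2 := h
    have h4 : w.1 = w'.1 := by
      rcases lt_trichotomy w.1 w'.1 with h5 | h5 | h5
      · have := Dim_gap k w.1 w'.1 P hk h1.1 h5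
        omega
      · exact h5
      · have := Dim_gap k w'.1 w.1 P hk h1'.1 h5
        omega
    have h5 : w.2 = w'.2 := by
      rw [h4] at h'
      omega
    exact Prod.ext h4 h5

theorem count_iter (k s : ℕ) (δ : ℝ) (hk : 2 ≤ k) (hδ : 0 ≤ δ)
    (h : ∃ c : ℝ, 0 < c ∧ ∃ N₀ : ℕ, ∀ N ≥ N₀, c * (N : ℝ) ^ (1 - δ) ≤ countSums k s 0 N) :
    ∃ c : ℝ, 0 < c ∧ ∃ N₀ : ℕ, ∀ N ≥ N₀,
      c * (N : ℝ) ^ (1 - δ * (1 - 1 / (k : ℝ))) ≤ countSums k (1 + s) 0 N := by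
  obtain ⟨c, hc, N₀, hN₀⟩ := h
  have hk0 : (0 : ℝ) < k := by exact_mod_cast (by omega : 0 < k)
  have hk1 : (1 : ℝ) / k ≤ 1 := by
    rw [div_le_one hk0]
    exact_mod_cast (by omega : 1 ≤ k)
  set η : ℝ := 1 - δ * (1 - 1 / (k : ℝ)) with hη
  have hη1 : η ≤ 1 := by
    have : 0 ≤ δ * (1 - 1 / (k : ℝ)) := mul_nonneg hδ (by linarith)
    linarith
  -- `N < (2 P + 3) ^ k` for the largest `P` with `(2 P + 1) ^ k ≤ N`
  refine ⟨c / 5 ^ k, by positivity, (2 * (N₀ + 1) + 1) ^ k, fun N hN => ?_⟩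
  have hex : ∃ P, N₀ + 1 ≤ P ∧ (2 * P + 1) ^ k ≤ N ∧ N < (2 * (P + 1) + 1) ^ k := by
    have hfin : ∃ P, N < (2 * P + 1) ^ k := ⟨N, by
      calc N < 2 * N + 1 := by omega
        _ ≤ (2 * N + 1) ^ k := Nat.le_self_pow (by omega) _⟩
    set Q := Nat.find hfin with hQ
    have hQ1 : N < (2 * Q + 1) ^ k := Nat.find_spec hfin
    have hQ2 : N₀ + 1 < Q := by
      by_contra hcon
      rw [not_lt] at hcon
      have : (2 * Q + 1) ^ k ≤ (2 * (N₀ + 1) + 1) ^ k := Nat.pow_le_pow_left (by omega) _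
      omega
    refine ⟨Q - 1, by omega, ?_, ?_⟩
    · have := Nat.find_min hfin (m := Q - 1) (by omega)
      omega
    · rwa [Nat.sub_add_cancel (by omega)]
  obtain ⟨P, hP1, hP2, hP3⟩ := hex
  have hPpos : (0 : ℝ) < P := by exact_mod_cast (by omega : 0 < P)
  have hP1r : (1 : ℝ) ≤ P := by exact_mod_cast (by omega : 1 ≤ P)
  have h1 := count_step k s P (by omega)
  have h2 := count_mono k (1 + s) _ _ hP2
  have h3 := hN₀ (P ^ (k - 1)) (by
    calc N₀ ≤ P := by omega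
      _ ≤ P ^ (k - 1) := Nat.le_self_pow (by omega) _)
  have h4 : (P : ℝ) * (c * ((P ^ (k - 1) : ℕ) : ℝ) ^ (1 - δ)) ≤ countSums k (1 + s) 0 N := by
    calc (P : ℝ) * (c * ((P ^ (k - 1) : ℕ) : ℝ) ^ (1 - δ))
        ≤ (P : ℝ) * (countSums k s 0 (P ^ (k - 1)) : ℕ) :=
          mul_le_mul_of_nonneg_left h3 hPpos.le
      _ ≤ (countSums k (1 + s) 0 N : ℕ) := by exact_mod_cast h1.trans h2
  refine le_trans ?_ h4
  have hkk : ((k - 1 : ℕ) : ℝ) = k - 1 := by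
    rw [Nat.cast_sub (by omega)]
    simp
  have h5 : (P : ℝ) * ((P ^ (k - 1) : ℕ) : ℝ) ^ (1 - δ) = ((P : ℝ) ^ k) ^ η := by
    rw [Nat.cast_pow, ← Real.rpow_natCast, ← Real.rpow_natCast, ← Real.rpow_mul hPpos.le,
      ← Real.rpow_mul hPpos.le, hkk]
    nth_rewrite 1 [← Real.rpow_one (P : ℝ)]
    rw [← Real.rpow_add hPpos]
    congr 1
    rw [hη]
    field_simp
    ring
  have h6 : (N : ℝ) ≤ 5 ^ k * (P : ℝ) ^ k := by
    have h7 : N ≤ (5 * P) ^ k := hP3.le.trans (Nat.pow_le_pow_left (by omega) _)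
    rw [← mul_pow]
    exact_mod_cast h7
  have hNpos : (0 : ℝ) < N := by
    have : 0 < N := lt_of_lt_of_le (by positivity) hP2
    exact_mod_cast this
  have h7 : (N : ℝ) ^ η ≤ 5 ^ k * ((P : ℝ) ^ k) ^ η := by
    rcases le_or_gt 0 η with h0 | h0
    · calc (N : ℝ) ^ η ≤ (5 ^ k * (P : ℝ) ^ k) ^ η := Real.rpow_le_rpow hNpos.le h6 h0
        _ = (5 ^ k : ℝ) ^ η * ((P : ℝ) ^ k) ^ η := Real.mul_rpow (by positivity) (by positivity)
        _ ≤ 5 ^ k * ((P : ℝ) ^ k) ^ η := by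
            apply mul_le_mul_of_nonneg_right _ (by positivity)
            calc (5 ^ k : ℝ) ^ η ≤ (5 ^ k : ℝ) ^ (1 : ℝ) :=
                  Real.rpow_le_rpow_of_exponent_le (one_le_pow₀ (by norm_num)) hη1
              _ = 5 ^ k := Real.rpow_one _
    · have h8 : (P : ℝ) ^ k ≤ N := by
        have : P ^ k ≤ N := (Nat.pow_le_pow_left (by omega) _).trans hP2
        exact_mod_cast this
      calc (N : ℝ) ^ η ≤ ((P : ℝ) ^ k) ^ η :=
            Real.rpow_le_rpow_of_nonpos (by positivity) h8 h0.le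
        _ ≤ 5 ^ k * ((P : ℝ) ^ k) ^ η :=
            le_mul_of_one_le_left (by positivity) (one_le_pow₀ (by norm_num))
  calc c / 5 ^ k * (N : ℝ) ^ η ≤ c / 5 ^ k * (5 ^ k * ((P : ℝ) ^ k) ^ η) :=
        mul_le_mul_of_nonneg_left h7 (by positivity)
    _ = c * ((P : ℝ) ^ k) ^ η := by
        field_simp
    _ = c * ((P : ℝ) * ((P ^ (k - 1) : ℕ) : ℝ) ^ (1 - δ)) := by rw [h5]
    _ = _ := by ring

theorem count_iterate (k s : ℕ) (δ : ℝ) (hk : 2 ≤ k) (hδ : 0 ≤ δ)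
    (h : ∃ c : ℝ, 0 < c ∧ ∃ N₀ : ℕ, ∀ N ≥ N₀, c * (N : ℝ) ^ (1 - δ) ≤ countSums k s 0 N)
    (j : ℕ) : ∃ c : ℝ, 0 < c ∧ ∃ N₀ : ℕ, ∀ N ≥ N₀,
      c * (N : ℝ) ^ (1 - δ * (1 - 1 / (k : ℝ)) ^ j) ≤ countSums k (j + s) 0 N := by
  induction j with
  | zero => simpa using h
  | succ j ih =>
    have hk0 : (0 : ℝ) < k := by exact_mod_cast (by omega : 0 < k)
    have hk1 : (1 : ℝ) / k ≤ 1 := by
      rw [div_le_one hk0]
      exact_mod_cast (by omega : 1 ≤ k)
    have h1 := count_iter k (j + s) (δ * (1 - 1 / (k : ℝ)) ^ j) hk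
      (mul_nonneg hδ (pow_nonneg (by linarith) j)) ih
    rw [mul_assoc, ← pow_succ] at h1
    rwa [show 1 + (j + s) = j + 1 + s by ring] at h1

theorem power_density_log (k s : ℕ) (δ : ℝ) (hk : 1 ≤ k) (hδ : 0 ≤ δ)
    (h : ∃ N₀ : ℕ, ∀ N ≥ N₀, (N : ℝ) ^ (1 - δ) ≤ countSums k s 0 N) (t : ℕ)
    (ht : 1000000000 * ((s : ℝ) + k * (1 + Real.log (1 + k * δ))) ≤ t) :
    ∃ n₀, ∀ n ≥ n₀, IsSum k t n := by
  have hk0 : (0 : ℝ) < k := by exact_mod_cast hk
  have hlog : 0 ≤ Real.log (1 + k * δ) := Real.log_nonneg (by nlinarith)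
  rcases Nat.lt_or_ge k 2 with hk2 | hk2
  · have hk1 : k = 1 := by omega
    subst hk1
    refine ⟨0, fun n _ => ?_⟩
    have h1 : IsSum 1 1 n := ⟨fun _ => n, by simp⟩
    refine h1.mono le_rfl ?_
    have h2 : (1 : ℝ) ≤ t := by
      have h3 : (0 : ℝ) ≤ s := Nat.cast_nonneg s
      push_cast at ht hlog
      nlinarith
    exact_mod_cast h2
  · obtain ⟨N₀, hN₀⟩ := h
    set j : ℕ := ⌈k * Real.log (1 + k * δ)⌉₊ with hj
    have hj1 : k * Real.log (1 + k * δ) ≤ j := Nat.le_ceil _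
    have hj2 : (j : ℝ) < k * Real.log (1 + k * δ) + 1 := Nat.ceil_lt_add_one (by positivity)
    obtain ⟨c, hc, N₁, hN₁⟩ := count_iterate k s δ hk2 hδ ⟨1, one_pos, N₀, fun N hN => by
      rw [one_mul]
      exact hN₀ N hN⟩ j
    have h1 : δ * (1 - 1 / (k : ℝ)) ^ j ≤ 1 / k := by
      have hk1 : (1 : ℝ) / k ≤ 1 := by
        rw [div_le_one hk0]
        exact_mod_cast hk
      have h2 : (1 - 1 / (k : ℝ)) ^ j ≤ Real.exp (-(j / k)) := by
        have h3 : 1 - 1 / (k : ℝ) ≤ Real.exp (-(1 / k)) := by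
          have := Real.add_one_le_exp (-(1 / (k : ℝ)))
          linarith
        calc (1 - 1 / (k : ℝ)) ^ j ≤ (Real.exp (-(1 / k))) ^ j :=
              pow_le_pow_left₀ (by linarith) h3 j
          _ = Real.exp (-(j / k)) := by
              rw [← Real.exp_nat_mul]
              congr 1
              ring
      have h4 : Real.exp (-(j / k)) ≤ 1 / (1 + k * δ) := by
        have h5 : Real.log (1 + k * δ) ≤ j / k := by
          rw [le_div_iff₀ hk0]
          linarith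
        have h6 : 0 < 1 + k * δ := by positivity
        calc Real.exp (-(j / k)) ≤ Real.exp (-(Real.log (1 + k * δ))) :=
              Real.exp_le_exp.2 (by linarith)
          _ = 1 / (1 + k * δ) := by rw [Real.exp_neg, Real.exp_log h6, one_div]
      have h7 : 0 < 1 + k * δ := by positivity
      calc δ * (1 - 1 / (k : ℝ)) ^ j ≤ δ * (1 / (1 + k * δ)) :=
            mul_le_mul_of_nonneg_left (h2.trans h4) hδ
        _ ≤ 1 / k := by
            rw [mul_one_div, div_le_div_iff₀ h7 hk0]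
            nlinarith
    have h2 : ∃ N₂ : ℕ, ∀ N ≥ N₂, (N : ℝ) ^ (1 - ((2 : ℕ) : ℝ) / k) ≤ countSums k (j + s) 0 N := by
      have htend : Filter.Tendsto (fun N : ℕ => (N : ℝ) ^ ((1 : ℝ) / k)) Filter.atTop
          Filter.atTop := (tendsto_rpow_atTop (by positivity)).comp tendsto_natCast_atTop_atTop
      obtain ⟨N₂, hN₂⟩ := Filter.eventually_atTop.1 (htend.eventually_ge_atTop (1 / c))
      refine ⟨max (max N₁ N₂) 1, fun N hN => ?_⟩
      have a1 : N₁ ≤ N := (le_max_left _ _).trans ((le_max_left _ _).trans hN)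
      have a2 : N₂ ≤ N := (le_max_right _ _).trans ((le_max_left _ _).trans hN)
      have a3 : 1 ≤ N := (le_max_right _ _).trans hN
      have a3r : (1 : ℝ) ≤ N := by exact_mod_cast a3
      have hNpos : (0 : ℝ) < N := by linarith
      refine le_trans ?_ (hN₁ N a1)
      have a4 : (N : ℝ) ^ (1 - 1 / (k : ℝ)) ≤ (N : ℝ) ^ (1 - δ * (1 - 1 / (k : ℝ)) ^ j) :=
        Real.rpow_le_rpow_of_exponent_le a3r (by linarith)
      have a5 : 1 ≤ c * (N : ℝ) ^ ((1 : ℝ) / k) := by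
        have := hN₂ N a2
        rw [div_le_iff₀ hc] at this
        linarith
      calc (N : ℝ) ^ (1 - ((2 : ℕ) : ℝ) / k)
          ≤ (c * (N : ℝ) ^ ((1 : ℝ) / k)) * (N : ℝ) ^ (1 - ((2 : ℕ) : ℝ) / k) :=
            le_mul_of_one_le_left (by positivity) a5
        _ = c * (N : ℝ) ^ (1 - 1 / (k : ℝ)) := by
            rw [mul_assoc, ← Real.rpow_add hNpos]
            congr 2
            push_cast
            ring
        _ ≤ c * (N : ℝ) ^ (1 - δ * (1 - 1 / (k : ℝ)) ^ j) :=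
            mul_le_mul_of_nonneg_left a4 hc.le
    obtain ⟨n₀, hn₀⟩ := power_density 2 k (j + s) hk h2
    refine ⟨n₀, fun n hn => (hn₀ n hn).mono hk ?_⟩
    have h3 : ((3000000 * (2 + 1) ^ 4 * (j + s + k) : ℕ) : ℝ) ≤ t := by
      push_cast
      have hs0 : (0 : ℝ) ≤ s := Nat.cast_nonneg s
      have hk1 : (1 : ℝ) ≤ k := by exact_mod_cast hk
      nlinarith
    exact_mod_cast h3

end Pool.Agent.Lib.MP_570bef_ntP
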