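import Pool.Agent.Lib.MP_570bef_ntP.Vin

/-!
# The bound of the Schur constant for large denominators (job Fa)

`schur_const`: for `w` in the interval, `w' ↦ w - w'` runs over `2 V + 1` consecutive integers `w₀ + j`, `w₀ = w - V`, `j < 2 V + 1` (reindex), the inner norm is at most
`mm (2 V + 1) (α (w - w'))` (`norm_sym_le`), so `vin` with `W = 2 V + 1` applies.
`g_num`: with `E = B^(D' m k)`, `V ≤ s E`, `q ≥ B^(8mk)`, `q ≤ B^(2D'mk - 8mk)`, `log q ≤ 2 D' m k log B ≤ 2 D' m k B`: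
`(2V+1)/q + 1 ≤ 3 s E / q + 1`; `8(2V+1) + 8q(1+log q) ≤ 24 s E + 24 D' m k B q`; the product is at most
`C₁ B (E²/q + E + q)`, `C₁ = 72 s² + 72 s D' m k + 24 s + 24 D' m k`, and `E²/q, E, q ≤ B^(2D'mk - 8mk)` (as `D' ≥ 8`).  So the left side is at most
`3 C₁ B B^(2D'mk-8mk)`, and `3 C₁ B C² B^(2D'mk-8mk) ≤ B^(2D'mk-6mk)` because `B^(2mk-1) ≥ B ≥ 3 C₁ C²`.
-/

set_option autoImplicit false

namespace Pool.Agent.Lib.MP_570bef_ntP

open Finset
open Pool.Agent.Lib.MP_2a816b_nt (e nn D)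

theorem schur_const (α : ℝ) (a : ℤ) (q V : ℕ) (hq : 1 ≤ q) (haq : IsCoprime a (q : ℤ))
    (h : |α - a / q| ≤ 1 / (q : ℝ) ^ 2) :
    ∀ w ∈ Icc (-(V : ℤ)) V,
      ∑ w' ∈ Icc (-(V : ℤ)) V, ‖∑ v ∈ Icc (-(V : ℤ)) V, e ((v : ℝ) * (α * ((w : ℝ) - w')))‖ ≤
      ((2 * V + 1 : ℝ) / q + 1) * (8 * (2 * V + 1) + 8 * q * (1 + Real.log q)) := by
  intro w hw
  have h1 : ∑ w' ∈ Icc (-(V : ℤ)) V, ‖∑ v ∈ Icc (-(V : ℤ)) V,
      e ((v : ℝ) * (α * ((w : ℝ) - w')))‖ ≤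
      ∑ w' ∈ Icc (-(V : ℤ)) V, mm (2 * V + 1) (α * ((w : ℝ) - w')) :=
    Finset.sum_le_sum fun w' _ => norm_sym_le V _
  have h2 : ∑ w' ∈ Icc (-(V : ℤ)) V, mm (2 * V + 1) (α * ((w : ℝ) - w')) =
      ∑ j ∈ range (2 * V + 1), mm (2 * V + 1) (α * (((w - V : ℤ) : ℝ) + j)) := by
    symm
    apply Finset.sum_bij (fun (u : ℕ) _ => (V : ℤ) - u)
    · intro u hu
      rw [mem_range] at hu
      rw [mem_Icc]
      constructor <;> omega
    · intro u hu u' hu' h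
      omega
    · intro v hv
      rw [mem_Icc] at hv
      refine ⟨((V : ℤ) - v).toNat, ?_, ?_⟩
      · rw [mem_range]
        omega
      · omega
    · intro u hu
      congr 1
      push_cast
      ring
  have h3 := vin α (2 * V + 1) a q hq haq h (by positivity) (w - V) (2 * V + 1)
  rw [h2] at h1
  refine h1.trans (h3.trans (le_of_eq ?_))
  push_cast
  ring

theorem g_num (k m s D' : ℕ) (C : ℝ) (hC : 0 ≤ C) (hk : 1 ≤ k) (hm : 1 ≤ m) (hs : 1 ≤ s)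
    (hD : 8 ≤ D') : ∃ B₀ : ℕ, ∀ B ≥ B₀, ∀ q : ℕ, B ^ (8 * m * k) ≤ q →
      q ≤ B ^ (2 * D' * m * k - 8 * m * k) →
      ((2 * (s * (B : ℝ) ^ (D' * m * k)) + 1) / q + 1) *
          (8 * (2 * (s * (B : ℝ) ^ (D' * m * k)) + 1) + 8 * q * (1 + Real.log q)) * C ^ 2 ≤
        (B : ℝ) ^ (2 * D' * m * k - 6 * m * k) := by
  obtain ⟨c, hc⟩ : ∃ c : ℝ, c = 3 * (s : ℝ) ^ 2 + 3 * s * (D' * m * k) + s + D' * m * k := ⟨_, rfl⟩
  have hsr : (1 : ℝ) ≤ s := by exact_mod_cast hs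
  have hmk : 1 ≤ m * k := Nat.mul_pos hm hk
  have hDmk : 8 * (m * k) ≤ D' * (m * k) := Nat.mul_le_mul_right _ hD
  have hM1 : (1 : ℝ) ≤ (D' : ℝ) * m * k := by
    have : 1 ≤ D' * m * k := by
      rw [mul_assoc]
      omega
    exact_mod_cast this
  have hc0 : 0 ≤ c := by
    rw [hc]
    positivity
  refine ⟨⌈24 * c * C ^ 2⌉₊ + 1, fun B hB q hq1 hq2 => ?_⟩
  have hB1 : 1 ≤ B := by omega
  have hBr : (1 : ℝ) ≤ B := by exact_mod_cast hB1
  have hB0 : (0 : ℝ) < B := by linarith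
  have hBc : 24 * c * C ^ 2 ≤ B := by
    have h1 : 24 * c * C ^ 2 ≤ (⌈24 * c * C ^ 2⌉₊ : ℝ) := Nat.le_ceil _
    have h2 : ((⌈24 * c * C ^ 2⌉₊ : ℕ) : ℝ) ≤ B := by
      exact_mod_cast (by omega : ⌈24 * c * C ^ 2⌉₊ ≤ B)
    exact h1.trans h2
  obtain ⟨T, hT⟩ : ∃ T : ℕ, T = 2 * D' * m * k - 8 * m * k := ⟨_, rfl⟩
  have e8 : 8 * m * k = 8 * (m * k) := by ring
  have e2 : 2 * D' * m * k = 2 * (D' * (m * k)) := by ring
  have e1 : D' * m * k = D' * (m * k) := by ring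
  have e6 : 6 * m * k = 6 * (m * k) := by ring
  have hT1 : 2 * D' * m * k - 6 * m * k = T + 2 * (m * k) := by
    rw [hT, e8, e2, e6]
    omega
  have hT2 : D' * m * k ≤ T := by
    rw [hT, e8, e2, e1]
    omega
  have hT3 : D' * m * k + D' * m * k = T + 8 * m * k := by
    rw [hT, e8, e2, e1]
    omega
  have hT4 : T ≤ 2 * D' * m * k := by
    rw [hT]
    omega
  rw [← hT] at hq2
  rw [hT1]
  have hq1r : (B : ℝ) ^ (8 * m * k) ≤ q := by exact_mod_cast hq1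
  have hq2r : (q : ℝ) ≤ (B : ℝ) ^ T := by exact_mod_cast hq2
  have hqone : (1 : ℝ) ≤ q := (one_le_pow₀ hBr).trans hq1r
  have hq0 : (0 : ℝ) < q := by linarith
  set E : ℝ := (B : ℝ) ^ (D' * m * k) with hE
  set Q : ℝ := (B : ℝ) ^ T with hQ
  have hE1 : 1 ≤ E := one_le_pow₀ hBr
  have hEQ : E ≤ Q := pow_le_pow_right₀ hBr hT2
  have hEE : E ^ 2 / q ≤ Q := by
    rw [div_le_iff₀ hq0]
    have h1 : E ^ 2 = Q * (B : ℝ) ^ (8 * m * k) := by
      rw [hE, hQ, sq, ← pow_add, ← pow_add, hT3]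
    rw [h1]
    exact mul_le_mul_of_nonneg_left hq1r (by positivity)
  have hQ0 : 0 < Q := by positivity
  -- the logarithm
  have hlog : 1 + Real.log q ≤ 3 * (D' * m * k) * B := by
    have h1 : Real.log q ≤ T * Real.log B := by
      rw [← Real.log_pow]
      exact Real.log_le_log hq0 hq2r
    have h2 : Real.log B ≤ B := (Real.log_le_sub_one_of_pos hB0).trans (by linarith)
    have h3 : (T : ℝ) ≤ 2 * (D' * m * k) := by
      have : ((T : ℕ) : ℝ) ≤ ((2 * D' * m * k : ℕ) : ℝ) := by exact_mod_cast hT4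
      push_cast at this
      linarith
    have h4 : (T : ℝ) * Real.log B ≤ 2 * (D' * m * k) * B :=
      mul_le_mul h3 h2 (Real.log_nonneg hBr) (by positivity)
    have h5 : 1 ≤ (D' : ℝ) * m * k * B := by nlinarith
    linarith
  have f1 : (2 * (s * E) + 1) / q + 1 ≤ 3 * s * E / q + 1 := by
    have h1 : 2 * (s * E) + 1 ≤ 3 * s * E := by nlinarith
    have := div_le_div_of_nonneg_right h1 hq0.le
    linarith
  have f2 : 8 * (2 * (s * E) + 1) + 8 * q * (1 + Real.log q) ≤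
      24 * B * (s * E + D' * m * k * q) := by
    have h1 : 2 * (s * E) + 1 ≤ 3 * s * E := by nlinarith
    have h2 : 8 * q * (1 + Real.log q) ≤ 8 * q * (3 * (D' * m * k) * B) :=
      mul_le_mul_of_nonneg_left hlog (by positivity)
    have h3 : s * E ≤ B * (s * E) := le_mul_of_one_le_left (by positivity) hBr
    nlinarith
  have f3 : ((2 * (s * E) + 1) / q + 1) *
      (8 * (2 * (s * E) + 1) + 8 * q * (1 + Real.log q)) ≤ 24 * B * (c * Q) := by
    have hl : 0 ≤ 8 * (2 * (s * E) + 1) + 8 * q * (1 + Real.log q) := by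
      have := Real.log_nonneg hqone
      positivity
    have h1 := mul_le_mul f1 f2 hl (by positivity)
    refine h1.trans ?_
    have h2 : (3 * s * E / q + 1) * (24 * B * (s * E + D' * m * k * q)) =
        24 * B * (3 * s ^ 2 * (E ^ 2 / q) + 3 * s * (D' * m * k) * E + s * E + D' * m * k * q) := by
      field_simp
      ring
    rw [h2]
    refine mul_le_mul_of_nonneg_left ?_ (by positivity)
    have g1 : 3 * (s : ℝ) ^ 2 * (E ^ 2 / q) ≤ 3 * (s : ℝ) ^ 2 * Q :=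
      mul_le_mul_of_nonneg_left hEE (by positivity)
    have g2 : 3 * (s : ℝ) * (D' * m * k) * E ≤ 3 * (s : ℝ) * (D' * m * k) * Q :=
      mul_le_mul_of_nonneg_left hEQ (by positivity)
    have g3 : (s : ℝ) * E ≤ s * Q := mul_le_mul_of_nonneg_left hEQ (by positivity)
    have g4 : (D' : ℝ) * m * k * q ≤ D' * m * k * Q :=
      mul_le_mul_of_nonneg_left hq2r (by positivity)
    rw [hc]
    linarith
  have f4 := mul_le_mul_of_nonneg_right f3 (sq_nonneg C)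
  refine f4.trans ?_
  have f5 : 24 * (B : ℝ) * (c * Q) * C ^ 2 = (24 * c * C ^ 2) * B * Q := by ring
  rw [f5, pow_add, mul_comm ((B : ℝ) ^ T)]
  refine mul_le_mul_of_nonneg_right ?_ hQ0.le
  calc 24 * c * C ^ 2 * B ≤ B * B := mul_le_mul_of_nonneg_right hBc hB0.le
    _ = (B : ℝ) ^ 2 := by ring
    _ ≤ (B : ℝ) ^ (2 * (m * k)) := pow_le_pow_right₀ hBr (by omega)

end Pool.Agent.Lib.MP_570bef_ntP
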