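import Pool.Agent.Lib.MP_570bef_ntP.Bas

/-!
# The exponents (job Seq)

Let `L = (2 + 4 D) k² + M₀`.  Define `n 0 = L`, `es i = ⌈n i / (k - 1)⌉ = (n i + k - 2) / (k - 1)`, `n (i+1) = n i + es i + 1`, so `n i = ms es i + L`.
(a) `es i ≥ n i / (k-1) ≥ L / (k-1) ≥ k ≥ 1`.
(b) `es (i+1) = ⌈(n i + es i + 1) / (k-1)⌉ ≥ ⌈(n i + (k-1)) / (k-1)⌉ = es i + 1` as `es i + 1 ≥ k - 1`.
(c) `(k-1) es i ≥ n i = ms es i + L`, so `ms es (i+1) = ms es i + es i + 1 ≤ (k-1) es i - L + es i + 1 ≤ k es i`.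
(d) Growth: `(k-1) n (i+1) ≥ k n i` (as `(k-1)(es i) ≥ n i`), so `(k-1)^j n j ≥ k^j L`.  `k^k ≥ 2 (k-1)^k` (Bernoulli: `(1 + 1/(k-1))^k ≥ 1 + k/(k-1) ≥ 2`,
`one_add_mul_le_pow`), so for `j = 4 D k`: `n j ≥ 2^(4D) L = 16^D L`, and `16^D ≥ 1 + 8 D²` (induction).  In particular `ms es j = n j - L ≥ L ≥ M₀`.
(e) `(k-1) es i ≤ n i + k - 2`, so `(k-1) (n (i+1) - n i) = (k-1)(es i + 1) ≤ n i + 2 k - 3`, so
`(k-1) n (i+1) ≤ k n i + 2 k`, i.e. `n (i+1) ≥ k (n (i+1) - n i) - 2 k`.  Sum over `i < j`: `∑_{a<j} n (a+1) ≥ k (n j - L) - 2 k j = k ms es j - 2 k j`.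
So `∑_{a<j} ms es (a+1) ≥ k ms es j - 2 k j - L j`, and `∑_{a<j} (ms es (a+1) - (a+1)) ≥ k ms es j - 2 k j - L j - j²` (in integers; the natural
subtraction is fine since `ms es (a+1) ≥ a + 1`).
(f) It remains `D (2 k j + L j + j²) ≤ k ms es j` for `j = 4 D k`: the left side is `4 D² k (2 k + L + 4 D k) ≤ 4 D² k (2 L) = 8 D² k L`
(`(2 + 4 D) k ≤ L`), and `k ms es j ≥ k L (16^D - 1) ≥ 8 D² k L`.
Then `D ∑ ≥ D k ms - k ms = k (D - 1) ms`.
-/

set_option autoImplicit false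

namespace Pool.Agent.Lib.MP_570bef_ntP

open Finset
open Pool.Agent.Lib.MP_2a816b_nt (e nn D)

/-- the auxiliary sequence -/
private def Seq_n (m L : ℕ) : ℕ → ℕ
  | 0 => L
  | i + 1 => Seq_n m L i + (Seq_n m L i + m - 1) / m + 1

private def Seq_es (m L : ℕ) (i : ℕ) : ℕ := (Seq_n m L i + m - 1) / m

private theorem Seq_succ (m L i : ℕ) : Seq_n m L (i + 1) = Seq_n m L i + Seq_es m L i + 1 := rfl

private theorem Seq_lo (m L i : ℕ) (hm : 1 ≤ m) : Seq_n m L i ≤ m * Seq_es m L i := by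
  unfold Seq_es
  have h1 := Nat.div_add_mod (Seq_n m L i + m - 1) m
  have h2 := Nat.mod_lt (Seq_n m L i + m - 1) (show 0 < m by omega)
  omega

private theorem Seq_hi (m L i : ℕ) :
    m * Seq_es m L i ≤ Seq_n m L i + m - 1 := by
  unfold Seq_es
  exact Nat.mul_div_le _ _

private theorem Seq_ge (m L i : ℕ) : L ≤ Seq_n m L i := by
  induction i with
  | zero => exact le_rfl
  | succ i ih =>
    rw [Seq_succ]
    omega

private theorem Seq_ms (m L i : ℕ) : ms (Seq_es m L) i + L = Seq_n m L i := by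
  unfold ms
  induction i with
  | zero => simp [Seq_n]
  | succ i ih =>
    rw [sum_range_succ, Seq_succ]
    omega

private theorem Seq_grow (m L i : ℕ) (hm : 1 ≤ m) :
    (m + 1) ^ i * L ≤ m ^ i * Seq_n m L i := by
  induction i with
  | zero => simp [Seq_n]
  | succ i ih =>
    have h1 := Seq_lo m L i hm
    have h2 : (m + 1) * Seq_n m L i ≤ m * Seq_n m L (i + 1) := by
      rw [Seq_succ]
      nlinarith
    calc (m + 1) ^ (i + 1) * L = (m + 1) * ((m + 1) ^ i * L) := by ring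
      _ ≤ (m + 1) * (m ^ i * Seq_n m L i) := Nat.mul_le_mul_left _ ih
      _ = m ^ i * ((m + 1) * Seq_n m L i) := by ring
      _ ≤ m ^ i * (m * Seq_n m L (i + 1)) := Nat.mul_le_mul_left _ h2
      _ = m ^ (i + 1) * Seq_n m L (i + 1) := by ring

private theorem Seq_bern (m : ℕ) (hm : 1 ≤ m) : 2 * m ^ (m + 1) ≤ (m + 1) ^ (m + 1) := by
  have hm0 : (0 : ℝ) < m := by exact_mod_cast hm
  have h1 : (1 : ℝ) + ((m + 1 : ℕ) : ℝ) * (1 / (m : ℝ)) ≤ (1 + 1 / (m : ℝ)) ^ (m + 1) := by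
    apply one_add_mul_le_pow
    have : (0 : ℝ) < 1 / (m : ℝ) := by positivity
    linarith
  have h2 : (2 : ℝ) ≤ (1 + 1 / (m : ℝ)) ^ (m + 1) := by
    refine le_trans ?_ h1
    have h3 : ((m + 1 : ℕ) : ℝ) * (1 / (m : ℝ)) = 1 + 1 / (m : ℝ) := by
      push_cast
      field_simp
    rw [h3]
    have : (0 : ℝ) < 1 / (m : ℝ) := by positivity
    linarith
  have h4 : (2 : ℝ) * (m : ℝ) ^ (m + 1) ≤ ((m : ℝ) + 1) ^ (m + 1) := by
    have h5 : ((m : ℝ) + 1) ^ (m + 1) = (1 + 1 / (m : ℝ)) ^ (m + 1) * (m : ℝ) ^ (m + 1) := by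
      rw [← mul_pow]
      congr 1
      field_simp
    rw [h5]
    exact mul_le_mul_of_nonneg_right h2 (by positivity)
  exact_mod_cast h4

private theorem Seq_bern_pow (m t : ℕ) (hm : 1 ≤ m) :
    2 ^ t * m ^ (t * (m + 1)) ≤ (m + 1) ^ (t * (m + 1)) := by
  have h := Nat.pow_le_pow_left (Seq_bern m hm) t
  rw [mul_pow, ← pow_mul, ← pow_mul] at h
  rwa [mul_comm t (m + 1)]

private theorem Seq_sixteen (d : ℕ) : 1 + 8 * d ^ 2 ≤ 16 ^ d := by
  induction d with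
  | zero => simp
  | succ d ih =>
    have h1 : (16 : ℕ) ^ (d + 1) = 16 * 16 ^ d := by ring
    have h2 : d ≤ d ^ 2 := Nat.le_self_pow (by norm_num) _
    have h3 : 1 + 8 * (d + 1) ^ 2 = 9 + 16 * d + 8 * d ^ 2 := by ring
    omega

private theorem Seq_up (m L i : ℕ) (hm : 1 ≤ m) :
    (m + 1) * Seq_n m L (i + 1) ≤ Seq_n m L (i + 1) + (m + 1) * Seq_n m L i + 2 * (m + 1) := by
  have h1 := Seq_hi m L i
  have h2 : m * Seq_n m L (i + 1) ≤ (m + 1) * Seq_n m L i + 2 * (m + 1) := by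
    rw [Seq_succ]
    have h3 : m * (Seq_n m L i + Seq_es m L i + 1) =
      m * Seq_n m L i + m * Seq_es m L i + m := by ring
    rw [h3]
    have h4 : (m + 1) * Seq_n m L i = m * Seq_n m L i + Seq_n m L i := by ring
    rw [h4]
    omega
  have h5 : (m + 1) * Seq_n m L (i + 1) = m * Seq_n m L (i + 1) + Seq_n m L (i + 1) := by ring
  rw [h5]
  omega

private theorem Seq_sum (m L j : ℕ) (hm : 1 ≤ m) :
    (m + 1) * Seq_n m L j ≤ (∑ a ∈ range j, Seq_n m L (a + 1)) + (m + 1) * L +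
      2 * (m + 1) * j := by
  induction j with
  | zero => simp [Seq_n]
  | succ j ih =>
    have h1 := Seq_up m L j hm
    rw [sum_range_succ]
    have h2 : 2 * (m + 1) * (j + 1) = 2 * (m + 1) * j + 2 * (m + 1) := by ring
    rw [h2]
    omega

theorem seq_exists (k D' M₀ : ℕ) (hk : 2 ≤ k) (hD : 1 ≤ D') : ∃ es : ℕ → ℕ, (∀ i, 1 ≤ es i) ∧
    (∀ i, es i + 1 ≤ es (i + 1)) ∧ (∀ i, ms es (i + 1) ≤ k * es i) ∧
    M₀ ≤ ms es (4 * D' * k) ∧
    k * (D' - 1) * ms es (4 * D' * k) ≤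
      D' * ∑ a ∈ range (4 * D' * k), (ms es (a + 1) - (a + 1)) := by
  obtain ⟨m, rfl⟩ : ∃ m, k = m + 1 := ⟨k - 1, by omega⟩
  have hm : 1 ≤ m := by omega
  obtain ⟨D, rfl⟩ : ∃ D, D' = D + 1 := ⟨D' - 1, by omega⟩
  set L : ℕ := (2 + 4 * (D + 1)) * (m + 1) ^ 2 + M₀ with hL
  set j : ℕ := 4 * (D + 1) * (m + 1) with hj
  have hLk : (2 + 4 * (D + 1)) * (m + 1) ≤ L := by
    rw [hL]
    have : (m + 1) ≤ (m + 1) ^ 2 := Nat.le_self_pow (by norm_num) _
    have h2 := Nat.mul_le_mul_left (2 + 4 * (D + 1)) this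
    omega
  have hLm : m * (m + 1) ≤ L := by
    rw [hL]
    nlinarith
  have hL1 : 1 ≤ L := by nlinarith
  have hesk : ∀ i, m + 1 ≤ Seq_es m L i := by
    intro i
    have h1 := Seq_lo m L i hm
    have h2 := Seq_ge m L i
    have h3 : m * (m + 1) ≤ m * Seq_es m L i := by omega
    exact Nat.le_of_mul_le_mul_left h3 (by omega)
  -- growth
  have hgrow : 16 ^ (D + 1) * L ≤ Seq_n m L j := by
    have h1 := Seq_grow m L j hm
    have h2 := Seq_bern_pow m (4 * (D + 1)) hm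
    rw [← hj] at h2
    have h3 : 2 ^ (4 * (D + 1)) * m ^ j * L ≤ m ^ j * Seq_n m L j :=
      (Nat.mul_le_mul_right L h2).trans h1
    have h4 : (2 : ℕ) ^ (4 * (D + 1)) = 16 ^ (D + 1) := by
      rw [pow_mul]
      norm_num
    rw [h4] at h3
    have h5 : m ^ j * (16 ^ (D + 1) * L) ≤ m ^ j * Seq_n m L j := by
      calc m ^ j * (16 ^ (D + 1) * L) = 16 ^ (D + 1) * m ^ j * L := by ring
        _ ≤ _ := h3
    exact Nat.le_of_mul_le_mul_left h5 (by positivity)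
  have h16 := Seq_sixteen (D + 1)
  have hM : 8 * (D + 1) ^ 2 * L ≤ ms (Seq_es m L) j := by
    have h1 := Seq_ms m L j
    have h2 : (1 + 8 * (D + 1) ^ 2) * L ≤ 16 ^ (D + 1) * L := Nat.mul_le_mul_right L h16
    have h3 : (1 + 8 * (D + 1) ^ 2) * L = L + 8 * (D + 1) ^ 2 * L := by ring
    omega
  refine ⟨Seq_es m L, fun i => by have := hesk i; omega, ?_, ?_, ?_, ?_⟩
  · intro i
    by_contra hcon
    have h0 : Seq_es m L (i + 1) ≤ Seq_es m L i := by omega
    have h1 := Seq_lo m L (i + 1) hm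
    have h2 := Seq_hi m L i
    have h3 := Nat.mul_le_mul_left m h0
    have h4 := Seq_succ m L i
    have h5 := hesk i
    omega
  · intro i
    have h1 := Seq_ms m L (i + 1)
    have h2 := Seq_succ m L i
    have h3 := Seq_lo m L i hm
    have h4 : (m + 1) * Seq_es m L i = m * Seq_es m L i + Seq_es m L i := by ring
    omega
  · refine le_trans ?_ hM
    have h1 : M₀ ≤ L := by
      rw [hL]
      exact Nat.le_add_left _ _
    have h2 : 1 * L ≤ 8 * (D + 1) ^ 2 * L := Nat.mul_le_mul_right L (by nlinarith)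
    omega
  · have hsub : D + 1 - 1 = D := by omega
    rw [hsub]
    set M := ms (Seq_es m L) j with hMdef
    set S := ∑ a ∈ range j, (ms (Seq_es m L) (a + 1) - (a + 1)) with hS
    have hMn : M + L = Seq_n m L j := Seq_ms m L j
    have h1 := Seq_sum m L j hm
    have h2 : ∑ a ∈ range j, Seq_n m L (a + 1) ≤ S + j * j + j * L := by
      rw [hS]
      have h3 : ∑ a ∈ range j, Seq_n m L (a + 1) ≤
          ∑ a ∈ range j, ((ms (Seq_es m L) (a + 1) - (a + 1)) + j + L) := by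
        refine sum_le_sum (fun a ha => ?_)
        have h4 := Seq_ms m L (a + 1)
        have h5 := mem_range.1 ha
        omega
      refine h3.trans (le_of_eq ?_)
      rw [sum_add_distrib, sum_add_distrib]
      simp
    have h6 : (m + 1) * M ≤ S + j * j + j * L + 2 * (m + 1) * j := by
      have h7 : (m + 1) * Seq_n m L j = (m + 1) * M + (m + 1) * L := by
        rw [← hMn]
        ring
      omega
    have h8 : (D + 1) * (j * j + j * L + 2 * (m + 1) * j) ≤ (m + 1) * M := by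
      have h9 : (D + 1) * (j * j + j * L + 2 * (m + 1) * j) =
          4 * (D + 1) ^ 2 * (m + 1) * ((2 + 4 * (D + 1)) * (m + 1) + L) := by
        rw [hj]
        ring
      rw [h9]
      calc 4 * (D + 1) ^ 2 * (m + 1) * ((2 + 4 * (D + 1)) * (m + 1) + L)
          ≤ 4 * (D + 1) ^ 2 * (m + 1) * (L + L) := by
            refine Nat.mul_le_mul_left _ ?_
            omega
        _ = (m + 1) * (8 * (D + 1) ^ 2 * L) := by ring
        _ ≤ (m + 1) * M := Nat.mul_le_mul_left _ hM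
    have h10 := Nat.mul_le_mul_left (D + 1) h6
    have h11 : (D + 1) * (S + j * j + j * L + 2 * (m + 1) * j) =
        (D + 1) * S + (D + 1) * (j * j + j * L + 2 * (m + 1) * j) := by ring
    have h12 : (D + 1) * ((m + 1) * M) = (m + 1) * D * M + (m + 1) * M := by ring
    omega

end Pool.Agent.Lib.MP_570bef_ntP
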