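import Pool.Agent.Lib.MP_570bef_ntP.MvA
import Pool.Agent.Lib.MP_570bef_ntP.Prm
import Pool.Agent.Lib.MP_570bef_ntP.Seq

/-!
# The mean value theorem (job MvB)

Take `es` from `seq_exists k D' M₀'` with `M₀' = max M₀ 1`, `j = 4 D' k`, `m = ms es j`.  For `B` large apply `mv_ind` with `B ^ D'` instead of `B` (for each `i < j`
`primes_many (es i)` gives a bound; `B ^ D' ≥ B`), `i = j`, `l = 2 (1 + 4 D') k ≥ k + j`.  `X = XX (B ^ D') es j`: its elements are at most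
`(B^D')^m = B^(D' m)`, it is nonempty (`card = ∏ #PP > 0`), and the exponent of `B` is `D' ∑_{a<j} (...) ≥ k (D'-1) m`.
`C = (4^l + 4k)^j`.
-/

set_option autoImplicit false

namespace Pool.Agent.Lib.MP_570bef_ntP

open Finset
open Pool.Agent.Lib.MP_2a816b_nt (e nn D)

theorem mean_value (k D' M₀ : ℕ) (hk : 2 ≤ k) (hD : 1 ≤ D') : ∃ m ≥ M₀, 1 ≤ m ∧ ∃ C : ℝ, 0 < C ∧
    ∃ B₀ : ℕ, ∀ B ≥ B₀, ∃ X : Finset ℕ, X.Nonempty ∧ (∀ x ∈ X, 1 ≤ x ∧ x ≤ B ^ (D' * m)) ∧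
      (TT k (2 * ((1 + 4 * D') * k)) X : ℝ) * (B : ℝ) ^ (k * (D' - 1) * m) ≤
        C * (X.card : ℝ) ^ (4 * ((1 + 4 * D') * k)) := by
  obtain ⟨es, h1, h2, h3, h4, h5⟩ := seq_exists k D' (max M₀ 1) hk hD
  set j : ℕ := 4 * D' * k with hj
  set l : ℕ := 2 * ((1 + 4 * D') * k) with hl
  have hlj : k + j ≤ l := by
    have e1 : l = 2 * k + 2 * (4 * D' * k) := by rw [hl]; ring
    rw [e1, hj]
    omega
  choose b hb using fun i => primes_many (es i)
  refine ⟨ms es j, (le_max_left _ _).trans h4, (le_max_right _ _).trans h4,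
    (4 ^ l + 4 * (k : ℝ)) ^ j, by positivity, (range j).sup b + 2, fun B hB => ?_⟩
  have hB2 : 2 ≤ B := by omega
  have hBB : B ≤ B ^ D' := Nat.le_self_pow (by omega) B
  have hB'2 : 2 ≤ B ^ D' := hB2.trans hBB
  have hP : ∀ i < j, (B ^ D') ^ es i ≤ (PP (B ^ D') (es i)).card := by
    intro i hi
    refine hb i _ ?_
    have h6 : b i ≤ (range j).sup b := Finset.le_sup (f := b) (mem_range.2 hi)
    omega
  obtain ⟨f1, f2⟩ := XX_facts (B ^ D') es hB'2 h1 h2 j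
  have hmv := mv_ind k (B ^ D') j es hk hB'2 h1 h2 h3 hP j le_rfl l hlj
  refine ⟨XX (B ^ D') es j, ?_, ?_, ?_⟩
  · rw [← Finset.card_pos, f2]
    refine Finset.prod_pos fun a ha => ?_
    have h6 := hP a (mem_range.1 ha)
    have h7 : 0 < (B ^ D') ^ es a := by positivity
    omega
  · intro x hx
    obtain ⟨h6, h7, -⟩ := f1 x hx
    rw [← pow_mul] at h7
    exact ⟨h6, h7⟩
  · have e2 : 4 * ((1 + 4 * D') * k) = 2 * l := by rw [hl]; ring
    rw [e2]
    refine le_trans ?_ hmv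
    refine mul_le_mul_of_nonneg_left ?_ (Nat.cast_nonneg _)
    push_cast
    rw [← pow_mul]
    have hB1 : (1 : ℝ) ≤ B := by
      have : 1 ≤ B := by omega
      exact_mod_cast this
    exact pow_le_pow_right₀ hB1 h5

end Pool.Agent.Lib.MP_570bef_ntP
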