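import Pool.Agent.Lib.MP_570bef_ntP.Fa
import Pool.Agent.Lib.MP_570bef_ntP.Bil
import Pool.Agent.Lib.MP_570bef_ntP.MvB

/-!
# The sum over `X × X` for large denominators (job Fb)

`D' = 32 (κ + 1)`, `s = (1 + 4 D') k`.  Take `m, C, X` from `mean_value k D' M₀` (file MvB), `Y = B^(D' m)`, `V = s Y^k = s B^(D' m k)`, `G` the right side of
`schur_const`.  `bilinear`: `‖f‖^(4s²) ≤ |X|^(8s²-4s) TT √G`; `TT ≤ C |X|^(4s) B^(-k (D'-1) m)`; `g_num` with this `C`: `C √G ≤ B^(D'mk - 3mk)` (square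
roots of `C² G ≤ B^(2D'mk-6mk)`).  So `‖f‖^(4s²) B^(k(D'-1)m) ≤ |X|^(8s²) B^(D'mk-3mk)`, and `k (D'-1) m = (D' m k - 3 m k) + 2 m k`: cancel `B^(D'mk-3mk)`
(`B ≥ 1`).  (`8s² - 4s + 4s = 8s²`; `64 (κ+1) m k = 2 D' m k`.)
-/

set_option autoImplicit false

namespace Pool.Agent.Lib.MP_570bef_ntP

open Finset
open Pool.Agent.Lib.MP_2a816b_nt (e nn D)

private theorem Fb_real {A T M G C : ℝ} {B : ℝ} {n a b E : ℕ} (hM : 0 ≤ M)
    (hC : 0 ≤ C) (hB : 1 ≤ B) (hG : 0 ≤ G)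
    (h1 : A ≤ M ^ (2 * n - a) * (T * Real.sqrt G)) (h2 : T * B ^ (E + b) ≤ C * M ^ a)
    (h3 : G * C ^ 2 ≤ (B ^ E) ^ 2) (hn : a ≤ 2 * n) : A * B ^ b ≤ M ^ (2 * n) := by
  have h4 : C * Real.sqrt G ≤ B ^ E := by
    have h5 : C * Real.sqrt G = Real.sqrt (G * C ^ 2) := by
      rw [Real.sqrt_mul hG, Real.sqrt_sq hC, mul_comm]
    rw [h5]
    exact Real.sqrt_le_iff.2 ⟨by positivity, h3⟩
  have hBE : 0 < B ^ E := by positivity
  have hs : 0 ≤ Real.sqrt G := Real.sqrt_nonneg G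
  have h6 : A * B ^ (E + b) ≤ M ^ (2 * n) * B ^ E := by
    calc A * B ^ (E + b) ≤ M ^ (2 * n - a) * (T * Real.sqrt G) * B ^ (E + b) :=
          mul_le_mul_of_nonneg_right h1 (by positivity)
      _ = M ^ (2 * n - a) * Real.sqrt G * (T * B ^ (E + b)) := by ring
      _ ≤ M ^ (2 * n - a) * Real.sqrt G * (C * M ^ a) :=
          mul_le_mul_of_nonneg_left h2 (by positivity)
      _ = (M ^ (2 * n - a) * M ^ a) * (C * Real.sqrt G) := by ring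
      _ = M ^ (2 * n) * (C * Real.sqrt G) := by rw [← pow_add, Nat.sub_add_cancel hn]
      _ ≤ M ^ (2 * n) * B ^ E := mul_le_mul_of_nonneg_left h4 (by positivity)
  have h7 : (A * B ^ b) * B ^ E ≤ M ^ (2 * n) * B ^ E := by
    calc (A * B ^ b) * B ^ E = A * B ^ (E + b) := by rw [pow_add]; ring
      _ ≤ _ := h6
  exact le_of_mul_le_mul_right h7 hBE

theorem f_bound (κ k M₀ : ℕ) (hk : 2 ≤ k) : ∃ m ≥ M₀, 1 ≤ m ∧ ∃ B₀ : ℕ, ∀ B ≥ B₀,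
    ∃ X : Finset ℕ, X.Nonempty ∧ (∀ x ∈ X, 1 ≤ x ∧ x ≤ B ^ (32 * (κ + 1) * m)) ∧
      ∀ (α : ℝ) (a : ℤ) (q : ℕ), 1 ≤ q → IsCoprime a (q : ℤ) →
        |α - a / q| ≤ 1 / (q : ℝ) ^ 2 → B ^ (8 * m * k) ≤ q →
        q ≤ B ^ (64 * (κ + 1) * m * k - 8 * m * k) →
        ‖∑ x ∈ X, ∑ y ∈ X, e (α * ((x : ℝ) * y) ^ k)‖ ^
            (4 * ((1 + 4 * (32 * (κ + 1))) * k) ^ 2) * (B : ℝ) ^ (2 * m * k) ≤
          (X.card : ℝ) ^ (8 * ((1 + 4 * (32 * (κ + 1))) * k) ^ 2) := by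
  obtain ⟨D', hD'⟩ : ∃ D' : ℕ, D' = 32 * (κ + 1) := ⟨_, rfl⟩
  obtain ⟨s, hs⟩ : ∃ s : ℕ, s = (1 + 4 * D') * k := ⟨_, rfl⟩
  have hD8 : 8 ≤ D' := by omega
  have hs1 : 1 ≤ s := by
    rw [hs]
    exact Nat.one_le_iff_ne_zero.2 (Nat.mul_ne_zero (by omega) (by omega))
  obtain ⟨m, hmM, hm1, C, hC, B₁, hB₁⟩ := mean_value k D' M₀ hk (by omega)
  obtain ⟨B₂, hB₂⟩ := g_num k m s D' C hC.le (by omega) hm1 hs1 hD8
  rw [← hD', ← hs]
  refine ⟨m, hmM, hm1, max (max B₁ B₂) 1, fun B hB => ?_⟩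
  have hBa : B₁ ≤ B := (le_max_left _ _).trans ((le_max_left _ _).trans hB)
  have hBb : B₂ ≤ B := (le_max_right _ _).trans ((le_max_left _ _).trans hB)
  have hBc : 1 ≤ B := (le_max_right _ _).trans hB
  have hBr : (1 : ℝ) ≤ B := by exact_mod_cast hBc
  obtain ⟨X, hX0, hX1, hX2⟩ := hB₁ B hBa
  refine ⟨X, hX0, hX1, fun α a q hq haq hα hq1 hq2 => ?_⟩
  have hq2' : q ≤ B ^ (2 * D' * m * k - 8 * m * k) := by
    have : 2 * D' * m * k = 64 * (κ + 1) * m * k := by rw [hD']; ring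
    rwa [this]
  have hg := hB₂ B hBb q hq1 hq2'
  have hlog : 0 ≤ Real.log q := Real.log_natCast_nonneg q
  have hqr : (0 : ℝ) < q := by exact_mod_cast hq
  set V : ℕ := s * (B ^ (D' * m)) ^ k with hV
  have hVr : (V : ℝ) = s * (B : ℝ) ^ (D' * m * k) := by
    rw [hV]
    push_cast
    rw [← pow_mul]
  set G : ℝ := ((2 * V + 1 : ℝ) / q + 1) * (8 * (2 * V + 1) + 8 * q * (1 + Real.log q)) with hG
  have hG0 : 0 ≤ G := by positivity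
  have hsc := schur_const α a q V hq haq hα
  have hbi := bilinear k s (B ^ (D' * m)) hs1 X (fun x hx => (hX1 x hx).2) α G hsc
  have hn : 8 * s ^ 2 = 2 * (4 * s ^ 2) := by ring
  have he : k * (D' - 1) * m = (D' * m * k - 3 * m * k) + 2 * m * k := by
    obtain ⟨d, hd⟩ : ∃ d, D' = d + 8 := ⟨D' - 8, by omega⟩
    subst hd
    have e1 : (d + 8) * m * k - 3 * m * k = d * m * k + 5 * m * k := by
      have : (d + 8) * m * k = d * m * k + 5 * m * k + 3 * m * k := by ring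
      omega
    rw [e1, show d + 8 - 1 = d + 7 by omega]
    ring
  have hE2 : (B : ℝ) ^ (2 * D' * m * k - 6 * m * k) = ((B : ℝ) ^ (D' * m * k - 3 * m * k)) ^ 2 := by
    rw [← pow_mul]
    congr 1
    rw [Nat.sub_mul]
    congr 1 <;> ring
  have hX2' : (TT k (2 * s) X : ℝ) * (B : ℝ) ^ ((D' * m * k - 3 * m * k) + 2 * m * k) ≤
      C * (X.card : ℝ) ^ (4 * s) := by
    rw [← he, hs]
    exact hX2
  have hg' : G * C ^ 2 ≤ ((B : ℝ) ^ (D' * m * k - 3 * m * k)) ^ 2 := by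
    rw [← hE2, hG, hVr]
    exact hg
  rw [hn] at hbi ⊢
  refine Fb_real (a := 4 * s) (Nat.cast_nonneg _) hC.le hBr hG0 hbi hX2' hg' ?_
  nlinarith [hs1]

end Pool.Agent.Lib.MP_570bef_ntP
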