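import Pool.Agent.Lib.MP_570bef_ntP.Pos
import Pool.Agent.Lib.MP_570bef_nt.Equiv

/-!
# The theorem (assembly)
-/

set_option autoImplicit false

namespace Pool.Agent.Lib.MP_570bef_ntP

open Finset
open Pool.Agent.Lib.MP_2a816b_nt (e nn D)

open Pool.Agent.Lib.MP_570bef_nt (IsSum countSums Linear isSum_self isSum_zero)

theorem power_density (κ k s : ℕ) (hk : 1 ≤ k)
    (h : ∃ N₀ : ℕ, ∀ N ≥ N₀, (N : ℝ) ^ (1 - (κ : ℝ) / k) ≤ countSums k s 0 N) :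
    ∃ n₀, ∀ n ≥ n₀, IsSum k (3000000 * (κ + 1) ^ 4 * (s + k)) n := by
  obtain ⟨Ω, hΩ, hmain, -⟩ := Pool.Agent.Lib.MP_570bef_nt.main
  rcases Nat.lt_or_ge k 2 with hk2 | hk2
  · have hk1 : k = 1 := by omega
    subst hk1
    refine ⟨0, fun n _ => ?_⟩
    have h1 : IsSum 1 1 n := ⟨fun _ => n, by simp⟩
    refine h1.mono le_rfl ?_
    have : 1 ≤ (κ + 1) ^ 4 := Nat.one_le_pow _ _ (by omega)
    nlinarith [Nat.zero_le s]
  · obtain ⟨m, hm, c₁, B₀, hB⟩ := density_at_scale κ k s hk2 h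
    set t : ℕ := 64 * κ * (κ + 1) * (1 + 128 * (κ + 1)) ^ 2 * k with ht
    obtain ⟨c, N₁, hN⟩ := all_scales k (s + 16 * κ * s + t + 8 * k) (64 * (κ + 1) * m * k)
      (1 + 16 * κ + t + 8 * k) c₁
      (Nat.mul_pos (Nat.mul_pos (by omega) (by omega)) (by omega)) (by omega) ⟨B₀, hB⟩
    obtain ⟨N₂, hN₂⟩ := Filter.tendsto_atTop_atTop.1 (hΩ k) c
    obtain ⟨n₀, hn⟩ := hmain k (s + 16 * κ * s + t + 8 * k) hk
      ⟨max N₁ N₂, fun N hNN => (hN N ((le_max_left _ _).trans hNN)).trans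
        (Nat.mul_le_mul_right _ (hN₂ N ((le_max_right _ _).trans hNN)))⟩
    refine ⟨n₀, fun n hnn => (hn n hnn).mono hk ?_⟩
    have h1 : (1 + 128 * (κ + 1)) ^ 2 ≤ (129 * (κ + 1)) ^ 2 := Nat.pow_le_pow_left (by omega) 2
    have h2 : t ≤ 64 * (κ + 1) * (κ + 1) * (129 * (κ + 1)) ^ 2 * k := by
      rw [ht]
      exact Nat.mul_le_mul_right _ (Nat.mul_le_mul (Nat.mul_le_mul_right _ (by omega)) h1)
    have h3 : 64 * (κ + 1) * (κ + 1) * (129 * (κ + 1)) ^ 2 * k = 1065024 * ((κ + 1) ^ 4 * k) := by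
      ring
    have h4 : κ + 1 ≤ (κ + 1) ^ 4 := Nat.le_self_pow (by norm_num) _
    have h5 : 1 ≤ (κ + 1) ^ 4 := by omega
    have h6 : (κ + 1) * s ≤ (κ + 1) ^ 4 * s := Nat.mul_le_mul_right _ h4
    have h7 : k ≤ (κ + 1) ^ 4 * k := Nat.le_mul_of_pos_left _ (by omega)
    have h8 : 3000000 * (κ + 1) ^ 4 * (s + k) =
      3000000 * ((κ + 1) ^ 4 * s) + 3000000 * ((κ + 1) ^ 4 * k) := by ring
    rw [h8]
    have h9 : (κ + 1) * s = κ * s + s := by ring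
    have h10 : 16 * κ * s = 16 * (κ * s) := by ring
    rw [h10]
    rw [h9] at h6
    rw [h3] at h2
    omega

theorem count_ge (k s n₀ N : ℕ) (h : ∀ n ≥ n₀, IsSum k s n) : N ≤ countSums k s 0 N + n₀ := by
  classical
  rw [← card_sums]
  have h1 : (range N).card ≤ (sums k s N ∪ range n₀).card := by
    apply card_le_card
    intro n hn
    rw [mem_union]
    rcases Nat.lt_or_ge n n₀ with h2 | h2
    · exact Or.inr (mem_range.2 h2)
    · left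
      unfold sums
      exact mem_filter.2 ⟨hn, h n h2⟩
  have h2 := card_union_le (sums k s N) (range n₀)
  rw [card_range] at h1 h2
  omega

theorem linear_iff :
    Linear ↔ ∃ κ C : ℕ, ∀ k : ℕ, 1 ≤ k →
      ∃ N₀ : ℕ, ∀ N ≥ N₀, (N : ℝ) ^ (1 - (κ : ℝ) / k) ≤ countSums k (C * k) 0 N := by
  constructor
  · rintro ⟨C, hC⟩
    refine ⟨1, C, fun k hk => ?_⟩
    obtain ⟨n₀, hn₀⟩ := hC k hk
    refine ⟨max (2 ^ k) (2 * n₀), fun N hN => ?_⟩
    have hN1 : 2 ^ k ≤ N := (le_max_left _ _).trans hN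
    have hN2 : 2 * n₀ ≤ N := (le_max_right _ _).trans hN
    have h1 := count_ge k (C * k) n₀ N hn₀
    have hNpos : (0 : ℝ) < N := by
      have : 0 < N := lt_of_lt_of_le (by positivity) hN1
      exact_mod_cast this
    have hk0 : (0 : ℝ) < k := by exact_mod_cast hk
    have h2 : (2 : ℝ) ≤ (N : ℝ) ^ ((1 : ℝ) / k) := by
      have h3 : ((2 : ℝ) ^ k) ^ ((1 : ℝ) / k) ≤ (N : ℝ) ^ ((1 : ℝ) / k) := by
        apply Real.rpow_le_rpow (by positivity) (by exact_mod_cast hN1) (by positivity)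
      rwa [← Real.rpow_natCast, ← Real.rpow_mul (by norm_num), mul_one_div, div_self hk0.ne',
        Real.rpow_one] at h3
    have h4 : (N : ℝ) ^ (1 - ((1 : ℕ) : ℝ) / k) * (N : ℝ) ^ ((1 : ℝ) / k) = N := by
      rw [← Real.rpow_add hNpos]
      simp
    have h5 : (N : ℝ) ^ (1 - ((1 : ℕ) : ℝ) / k) * 2 ≤ N := by
      calc (N : ℝ) ^ (1 - ((1 : ℕ) : ℝ) / k) * 2
          ≤ (N : ℝ) ^ (1 - ((1 : ℕ) : ℝ) / k) * (N : ℝ) ^ ((1 : ℝ) / k) :=
            mul_le_mul_of_nonneg_left h2 (by positivity)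
        _ = N := h4
    have h6 : (N : ℝ) ≤ countSums k (C * k) 0 N + n₀ := by exact_mod_cast h1
    have h7 : (2 : ℝ) * n₀ ≤ N := by exact_mod_cast hN2
    linarith
  · rintro ⟨κ, C, h⟩
    refine ⟨3000000 * (κ + 1) ^ 4 * (C + 1), fun k hk => ?_⟩
    obtain ⟨n₀, hn⟩ := power_density κ k (C * k) hk (h k hk)
    refine ⟨n₀, fun n hnn => ?_⟩
    have h1 := hn n hnn
    rwa [show 3000000 * (κ + 1) ^ 4 * (C * k + k) = 3000000 * (κ + 1) ^ 4 * (C + 1) * k by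
      ring] at h1

end Pool.Agent.Lib.MP_570bef_ntP
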