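import Pool.Agent.Lib.MP_570bef_ntP.Bas

/-!
# Finite Fourier analysis (job Four)

`sum_e_range`: with `ζ = e (n / R)`, `e (b/R * n) = ζ ^ b` (`e_nat_mul`); if `R ∣ n` all terms are `1`; otherwise `ζ ≠ 1` (`e_eq_one_iff`) and `ζ ^ R = 1`,
geometric sum.
`mean_col`: `‖z‖² = z * conj z`; expand: `∑_{i,j ∈ S} ∑_b e (b/R * (φ i - φ j))`, which is `R` if `R ∣ φ i - φ j`, i.e. `φ i = φ j` (both are in
`[0, R)`), and `0` otherwise.
`sum_tup`: `Finset.prod_univ_sum` / `Finset.sum_prod_piFinset`, `e` of a finite sum is the product.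
`card_sq_le`: `|S| = ∑_{v ∈ image} r(v)`, `r v = #{i ∈ S : φ i = v}`, Cauchy-Schwarz (`Finset.sum_mul_sq_le_sq_mul_sq` or `sq_sum_le_card_mul_sum_sq`) and
`∑ r(v)² = col S φ`.
`col_inj`: transport of `col` along a map which multiplies the values by a positive constant.
-/

set_option autoImplicit false

namespace Pool.Agent.Lib.MP_570bef_ntP

open Finset
open Pool.Agent.Lib.MP_2a816b_nt (e nn D e_add norm_e conj_e e_int e_zero D_mul e_eq_one_iff)

theorem sum_e_range (R : ℕ) (hR : 0 < R) (n : ℤ) :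
    ∑ b ∈ range R, e ((b : ℝ) / R * n) = if (R : ℤ) ∣ n then (R : ℂ) else 0 := by
  have hR0 : (R : ℝ) ≠ 0 := by exact_mod_cast hR.ne'
  split_ifs with h
  · obtain ⟨m, rfl⟩ := h
    have h1 : ∀ b ∈ range R, e ((b : ℝ) / R * (((R : ℤ) * m : ℤ) : ℝ)) = 1 := by
      intro b _
      have h2 : (b : ℝ) / R * (((R : ℤ) * m : ℤ) : ℝ) = (((b : ℤ) * m : ℤ) : ℝ) := by
        push_cast
        field_simp
      rw [h2, e_int]
    rw [sum_congr rfl h1]
    simp
  · have h1 : ∑ b ∈ range R, e ((b : ℝ) / R * n) = D R ((n : ℝ) / R) := by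
      unfold D
      refine sum_congr rfl fun b _ => ?_
      congr 1
      ring
    rw [h1]
    have h2 := D_mul R ((n : ℝ) / R)
    have h3 : e ((R : ℝ) * ((n : ℝ) / R)) = 1 := by
      rw [mul_div_cancel₀ _ hR0, e_int]
    rw [h3, sub_self] at h2
    rcases mul_eq_zero.1 h2 with h4 | h4
    · exact h4
    · exfalso
      rw [sub_eq_zero, e_eq_one_iff] at h4
      obtain ⟨m, hm⟩ := h4
      rw [div_eq_iff hR0] at hm
      apply h
      refine ⟨m, ?_⟩
      have : ((n : ℤ) : ℝ) = (((R : ℤ) * m : ℤ) : ℝ) := by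
        rw [hm]
        push_cast
        ring
      exact_mod_cast this

theorem mean_col {ι : Type*} (S : Finset ι) (φ : ι → ℕ) (R : ℕ) (hφ : ∀ i ∈ S, φ i < R) :
    ∑ b ∈ range R, ‖∑ i ∈ S, e ((b : ℝ) / R * φ i)‖ ^ 2 = R * col S φ := by
  classical
  rcases Nat.eq_zero_or_pos R with hR0 | hR
  · subst hR0
    simp
  have h1 : ((∑ b ∈ range R, ‖∑ i ∈ S, e ((b : ℝ) / R * φ i)‖ ^ 2 : ℝ) : ℂ) =
      ((R * col S φ : ℝ) : ℂ) := by
    push_cast
    have h2 : ∀ b ∈ range R, ((‖∑ i ∈ S, e ((b : ℝ) / R * φ i)‖ : ℂ)) ^ 2 =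
        ∑ i ∈ S, ∑ j ∈ S, e ((b : ℝ) / R * (((φ i : ℤ) - φ j : ℤ) : ℝ)) := by
      intro b _
      rw [← Complex.mul_conj', map_sum, sum_mul_sum]
      refine sum_congr rfl fun i _ => sum_congr rfl fun j _ => ?_
      rw [conj_e, ← e_add]
      congr 1
      push_cast
      ring
    rw [sum_congr rfl h2, sum_comm]
    have h3 : ∀ i ∈ S, ∑ b ∈ range R, ∑ j ∈ S, e ((b : ℝ) / R * (((φ i : ℤ) - φ j : ℤ) : ℝ)) =
        ∑ j ∈ S, if φ i = φ j then (R : ℂ) else 0 := by
      intro i hi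
      rw [sum_comm]
      refine sum_congr rfl fun j hj => ?_
      rw [sum_e_range R hR]
      have hi' := hφ i hi
      have hj' := hφ j hj
      by_cases hij : φ i = φ j
      · rw [if_pos hij, if_pos]
        rw [hij]
        simp
      · rw [if_neg hij, if_neg]
        intro hd
        apply hij
        have h4 : ((φ i : ℤ) - φ j) = 0 := by
          apply Int.eq_zero_of_abs_lt_dvd hd
          rw [abs_lt]
          constructor <;> omega
        omega
    rw [sum_congr rfl h3]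
    unfold col
    rw [card_filter, sum_product]
    push_cast
    rw [mul_sum]
    refine sum_congr rfl fun i _ => ?_
    rw [mul_sum]
    refine sum_congr rfl fun j _ => ?_
    split_ifs <;> simp
  exact_mod_cast h1

/-- powers of an exponential sum -/
theorem sum_pi {ι : Type*} [DecidableEq ι] (S : Finset ι) (ψ : ι → ℕ) (n : ℕ) (θ : ℝ) :
    ∑ w ∈ Fintype.piFinset (fun _ : Fin n => S), e (θ * ((∑ i, ψ (w i) : ℕ) : ℝ)) =
      (∑ i ∈ S, e (θ * ψ i)) ^ n := by
  have h1 : (∑ i ∈ S, e (θ * ψ i)) ^ n = ∏ _j : Fin n, ∑ i ∈ S, e (θ * ψ i) := by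
    simp
  rw [h1, prod_univ_sum]
  refine sum_congr rfl fun w _ => ?_
  have h2 : ∀ m : ℕ, ∀ f : Fin m → ℕ, e (θ * ((∑ i, f i : ℕ) : ℝ)) = ∏ i, e (θ * (f i : ℝ)) := by
    intro m
    induction m with
    | zero => intro f; simp
    | succ m ih =>
      intro f
      rw [Fin.sum_univ_succ, Fin.prod_univ_succ, ← ih, ← e_add]
      congr 1
      push_cast
      ring
  exact h2 n fun i => ψ (w i)

theorem sum_tup (k l : ℕ) (X : Finset ℕ) (θ : ℝ) :
    ∑ x ∈ tup l X, e (θ * (sk k x : ℝ)) = (∑ x ∈ X, e (θ * (x : ℝ) ^ k)) ^ l := by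
  classical
  have h := sum_pi X (fun x => x ^ k) l θ
  unfold tup sk
  rw [h]
  congr 1
  refine sum_congr rfl fun x _ => ?_
  push_cast
  rfl

theorem card_sq_le {ι : Type*} (S : Finset ι) (φ : ι → ℕ) :
    S.card ^ 2 ≤ (S.image φ).card * col S φ := by
  classical
  have h1 : ∑ v ∈ S.image φ, (S.filter fun i => φ i = v).card = S.card :=
    (card_eq_sum_card_image φ S).symm
  have h2 : ∑ v ∈ S.image φ, (S.filter fun i => φ i = v).card ^ 2 = col S φ := by
    unfold col
    have h3 : ((S ×ˢ S).filter fun w => φ w.1 = φ w.2).card =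
        ∑ v ∈ S.image φ, (((S ×ˢ S).filter fun w => φ w.1 = φ w.2).filter
          fun w => φ w.1 = v).card := by
      apply card_eq_sum_card_fiberwise
      intro w hw
      have hw' := (mem_filter.1 (mem_coe.1 hw)).1
      exact mem_coe.2 (mem_image_of_mem φ (mem_product.1 hw').1)
    rw [h3]
    refine sum_congr rfl fun v _ => ?_
    rw [sq, ← card_product]
    congr 1
    ext ⟨i, j⟩
    simp only [mem_product, mem_filter]
    constructor
    · rintro ⟨⟨hi, hiv⟩, hj, hjv⟩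
      exact ⟨⟨⟨hi, hj⟩, by rw [hiv, hjv]⟩, hiv⟩
    · rintro ⟨⟨⟨hi, hj⟩, hij⟩, hiv⟩
      exact ⟨⟨hi, hiv⟩, hj, by rw [← hij]; exact hiv⟩
  have h4 := sq_sum_le_card_mul_sum_sq (s := S.image φ)
    (f := fun v => (S.filter fun i => φ i = v).card)
  rw [h1, h2] at h4
  exact h4

theorem col_mul {ι : Type*} (S : Finset ι) (φ : ι → ℕ) (c : ℕ) (hc : 1 ≤ c) :
    col S (fun i => c * φ i) = col S φ := by
  unfold col
  congr 1
  apply filter_congr
  intro w _
  constructor
  · intro h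
    exact Nat.eq_of_mul_eq_mul_left (by omega) h
  · intro h
    simp only [h]

theorem TT_le_pow (k l : ℕ) (X : Finset ℕ) : TT k l X ≤ X.card ^ (2 * l) := by
  unfold TT col
  refine (card_filter_le _ _).trans ?_
  rw [card_product, card_tup]
  rw [two_mul, pow_add]

end Pool.Agent.Lib.MP_570bef_ntP
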