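import Pool.Agent.Lib.MP_570bef_ntP.Cnt

/-!
# The part of the large sieve constant with `z ^ k ≢ p ^ k` (job Ga)

For `z ∈ Z` let `r z ∈ range q` be the residue of `a (p^k - z^k)` modulo `q` (integers): `r z ≠ 0` because `a` is coprime to `q` and `q ∤ p^k - z^k`.
`α (p^k - z^k) = r z / q + (integer) + β (p^k - z^k)`, `|β (p^k - z^k)| ≤ |β| M^k ≤ 1 / (2 q)`, and `nn (r / q) ≥ min r (q - r) / q ≥ 1 / q`, so
`nn (α (..)) ≥ nn (r/q) - 1/(2q) ≥ min r (q - r) / (2 q)` (`nn_sub_le`, `nn_add_int`).  So `mm U (..) ≤ 1 / (2 nn) ≤ q / min r (q - r) ≤ q / r + q / (q - r)`.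
For a given `r` the number of `z ∈ Z` with `r z = r` is at most `rho k q * (L / q + 1)`: all these `z` have the same residue of `z^k` modulo `q` (`a` is a unit),
`count_roots` (file Cnt, `u = 0`).  Sum over `r = 1, ..., q - 1`: `∑ (q / r + q / (q - r)) ≤ 2 q (1 + log q)` (`harmonic_le_one_add_log`).
-/

set_option autoImplicit false

namespace Pool.Agent.Lib.MP_570bef_ntP

open Finset
open Pool.Agent.Lib.MP_2a816b_nt (e nn D)

private theorem Ga_harm (q : ℕ) (hq : 1 ≤ q) :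
    ∑ r ∈ Ico 1 q, ((q : ℝ) / r + q / (q - r)) ≤ 2 * q * (1 + Real.log q) := by
  obtain ⟨Q, rfl⟩ : ∃ Q, q = Q + 1 := ⟨q - 1, by omega⟩
  have h1 : ∑ r ∈ Ico 1 (Q + 1), (1 : ℝ) / r ≤ 1 + Real.log ((Q + 1 : ℕ) : ℝ) := by
    rw [sum_Ico_eq_sum_range]
    have h2 := harmonic_le_one_add_log Q
    have h3 : ((harmonic Q : ℚ) : ℝ) =
        ∑ i ∈ range (Q + 1 - 1), (1 : ℝ) / ((1 + i : ℕ) : ℝ) := by
      unfold harmonic
      push_cast
      refine sum_congr rfl fun i _ => by rw [one_div, add_comm]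
    rw [← h3]
    refine h2.trans ?_
    have h4 : Real.log (Q : ℝ) ≤ Real.log ((Q + 1 : ℕ) : ℝ) := by
      rcases Nat.eq_zero_or_pos Q with h0 | h0
      · subst h0
        simp
      · exact Real.log_le_log (by exact_mod_cast h0) (by push_cast; linarith)
    linarith
  have h2 : ∑ r ∈ Ico 1 (Q + 1), (1 : ℝ) / (((Q + 1 : ℕ) : ℝ) - r) =
      ∑ r ∈ Ico 1 (Q + 1), (1 : ℝ) / r := by
    apply Finset.sum_bij (fun (r : ℕ) _ => Q + 1 - r)
    · intro r hr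
      rw [mem_Ico] at *
      omega
    · intro r hr s hs h
      rw [mem_Ico] at *
      omega
    · intro b hb
      rw [mem_Ico] at hb
      exact ⟨Q + 1 - b, by rw [mem_Ico]; omega, by omega⟩
    · intro r hr
      rw [mem_Ico] at hr
      rw [Nat.cast_sub (by omega)]
  have h3 : ∑ r ∈ Ico 1 (Q + 1), (((Q + 1 : ℕ) : ℝ) / r + ((Q + 1 : ℕ) : ℝ) /
      (((Q + 1 : ℕ) : ℝ) - r)) = ((Q + 1 : ℕ) : ℝ) * (∑ r ∈ Ico 1 (Q + 1), (1 : ℝ) / r +
        ∑ r ∈ Ico 1 (Q + 1), (1 : ℝ) / (((Q + 1 : ℕ) : ℝ) - r)) := by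
    rw [← sum_add_distrib, mul_sum]
    refine sum_congr rfl fun r _ => ?_
    rw [mul_add, mul_one_div, mul_one_div]
  rw [h3, h2]
  have h4 : (0 : ℝ) ≤ ((Q + 1 : ℕ) : ℝ) := Nat.cast_nonneg _
  calc ((Q + 1 : ℕ) : ℝ) * (∑ r ∈ Ico 1 (Q + 1), (1 : ℝ) / r + ∑ r ∈ Ico 1 (Q + 1), (1 : ℝ) / r)
      ≤ ((Q + 1 : ℕ) : ℝ) * ((1 + Real.log ((Q + 1 : ℕ) : ℝ)) + (1 + Real.log ((Q + 1 : ℕ) : ℝ))) :=
        mul_le_mul_of_nonneg_left (add_le_add h1 h1) h4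
    _ = _ := by ring

private theorem Ga_nn (q r : ℕ) (h1 : 1 ≤ r) (h2 : r < q) :
    min (r : ℝ) (q - r) / q ≤ nn ((r : ℝ) / q) := by
  have hq : (0 : ℝ) < q := by exact_mod_cast (by omega : 0 < q)
  unfold nn
  rcases le_or_gt (round ((r : ℝ) / q)) 0 with h | h
  · have h3 : ((round ((r : ℝ) / q) : ℤ) : ℝ) ≤ 0 := by exact_mod_cast h
    calc min (r : ℝ) (q - r) / q ≤ (r : ℝ) / q := by gcongr; exact min_le_left _ _
      _ ≤ (r : ℝ) / q - round ((r : ℝ) / q) := by linarith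
      _ ≤ _ := le_abs_self _
  · have h3 : (1 : ℝ) ≤ ((round ((r : ℝ) / q) : ℤ) : ℝ) := by exact_mod_cast h
    calc min (r : ℝ) (q - r) / q ≤ ((q : ℝ) - r) / q := by gcongr; exact min_le_right _ _
      _ = 1 - (r : ℝ) / q := by rw [sub_div, div_self hq.ne']
      _ ≤ -((r : ℝ) / q - round ((r : ℝ) / q)) := by linarith
      _ ≤ _ := neg_le_abs _

private theorem Ga_term (q r : ℕ) (h1 : 1 ≤ r) (h2 : r < q) (m : ℤ) (x b U : ℝ)
    (hx : x = m + r / q + b) (hb : |b| * (2 * q) ≤ 1) :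
    mm U x ≤ (q : ℝ) / r + q / (q - r) := by
  have hq : (0 : ℝ) < q := by exact_mod_cast (by omega : 0 < q)
  have hr : (1 : ℝ) ≤ r := by exact_mod_cast h1
  have hqr : (1 : ℝ) ≤ (q : ℝ) - r := by
    have : ((r + 1 : ℕ) : ℝ) ≤ q := by exact_mod_cast h2
    push_cast at this
    linarith
  have hmin : (1 : ℝ) ≤ min (r : ℝ) (q - r) := le_min hr hqr
  have h3 := Ga_nn q r h1 h2
  have h4 : nn x = nn ((r : ℝ) / q + b) := by
    rw [← nn_add_int ((r : ℝ) / q + b) m, hx]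
    congr 1
    ring
  have h5 := nn_sub_le ((r : ℝ) / q) ((r : ℝ) / q + b)
  have h6 : |(r : ℝ) / q - ((r : ℝ) / q + b)| = |b| := by
    rw [show (r : ℝ) / q - ((r : ℝ) / q + b) = -b by ring, abs_neg]
  rw [h6, ← h4] at h5
  have h7 : |b| ≤ 1 / (2 * q) := by
    rw [le_div_iff₀ (by positivity)]
    exact hb
  have h8 : min (r : ℝ) (q - r) / (2 * q) ≤ nn x := by
    have h9 : min (r : ℝ) (q - r) / q = min (r : ℝ) (q - r) / (2 * q) + min (r : ℝ) (q - r) / (2 * q) := by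
      field_simp
      ring
    have h10 : 1 / (2 * (q : ℝ)) ≤ min (r : ℝ) (q - r) / (2 * q) := by gcongr
    linarith
  have h9 : 0 < min (r : ℝ) (q - r) / (2 * q) := by positivity
  refine (mm_le_inv U x (h9.trans_le h8)).trans ?_
  calc 1 / (2 * nn x) ≤ 1 / (2 * (min (r : ℝ) (q - r) / (2 * q))) := by gcongr
    _ = q / min (r : ℝ) (q - r) := by field_simp
    _ ≤ (q : ℝ) / r + q / (q - r) := by
      rcases le_total (r : ℝ) (q - r) with h | h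
      · rw [min_eq_left h]
        have : 0 ≤ (q : ℝ) / (q - r) := by positivity
        linarith
      · rw [min_eq_right h]
        have : 0 ≤ (q : ℝ) / r := by positivity
        linarith

theorem noncong (k q L p : ℕ) (a : ℤ) (α β M U : ℝ) (hk : 1 ≤ k) (hq : 1 ≤ q)
    (haq : IsCoprime a (q : ℤ)) (hα : α = a / q + β) (hβ : |β| * M ^ k * (2 * q) ≤ 1)
    (hp : (p : ℝ) ≤ M) (hU : 0 ≤ U) (Z : Finset ℕ)
    (hZ : ∀ z ∈ Z, z.Coprime q ∧ z < L ∧ (z : ℝ) ≤ M ∧ ¬ z ^ k ≡ p ^ k [MOD q]) :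
    ∑ z ∈ Z, mm U (α * ((p : ℝ) ^ k - (z : ℝ) ^ k)) ≤
      rho k q * ((L : ℝ) / q + 1) * (2 * q * (1 + Real.log q)) := by
  classical
  have hq0 : (0 : ℝ) < q := by exact_mod_cast hq
  have hqz : (0 : ℤ) < q := by exact_mod_cast hq
  obtain ⟨r, hr⟩ : ∃ r : ℕ → ℕ, ∀ z, (r z : ℤ) = (a * ((p : ℤ) ^ k - (z : ℤ) ^ k)) % q :=
    ⟨fun z => ((a * ((p : ℤ) ^ k - (z : ℤ) ^ k)) % q).toNat,
      fun z => Int.toNat_of_nonneg (Int.emod_nonneg _ hqz.ne')⟩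
  have hr1 : ∀ z ∈ Z, r z ∈ Ico 1 q := by
    intro z hz
    rw [mem_Ico]
    constructor
    · by_contra h0
      have h1 : r z = 0 := by omega
      have h2 := hr z
      rw [h1, Nat.cast_zero] at h2
      have h3 : (q : ℤ) ∣ a * ((p : ℤ) ^ k - (z : ℤ) ^ k) := Int.dvd_of_emod_eq_zero h2.symm
      have h4 : (q : ℤ) ∣ (p : ℤ) ^ k - (z : ℤ) ^ k := haq.symm.dvd_of_dvd_mul_left h3
      apply (hZ z hz).2.2.2
      rw [Nat.modEq_iff_dvd]
      push_cast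
      exact h4
    · have h2 := Int.emod_lt_of_pos (a * ((p : ℤ) ^ k - (z : ℤ) ^ k)) hqz
      rw [← hr z] at h2
      exact_mod_cast h2
  have hM0 : 0 ≤ M := le_trans (Nat.cast_nonneg p) hp
  have hterm : ∀ z ∈ Z, mm U (α * ((p : ℝ) ^ k - (z : ℝ) ^ k)) ≤ (q : ℝ) / r z + q / (q - r z) := by
    intro z hz
    have h1 := mem_Ico.1 (hr1 z hz)
    have h2 := Int.emod_add_mul_ediv (a * ((p : ℤ) ^ k - (z : ℤ) ^ k)) q
    rw [← hr z] at h2
    have h3 : (a : ℝ) * ((p : ℝ) ^ k - (z : ℝ) ^ k) =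
        r z + q * ((a * ((p : ℤ) ^ k - (z : ℤ) ^ k)) / q : ℤ) := by
      have h4 := congrArg (Int.cast : ℤ → ℝ) h2
      push_cast at h4 ⊢
      linarith
    refine Ga_term q (r z) h1.1 h1.2 ((a * ((p : ℤ) ^ k - (z : ℤ) ^ k)) / q) _
      (β * ((p : ℝ) ^ k - (z : ℝ) ^ k)) U ?_ ?_
    · rw [hα]
      have h5 : ((a : ℝ) / q + β) * ((p : ℝ) ^ k - (z : ℝ) ^ k) =
          (a * ((p : ℝ) ^ k - (z : ℝ) ^ k)) / q + β * ((p : ℝ) ^ k - (z : ℝ) ^ k) := by ring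
      rw [h5, h3]
      field_simp
      ring
    · have hp1 : (p : ℝ) ^ k ≤ M ^ k := pow_le_pow_left₀ (Nat.cast_nonneg p) hp k
      have hz1 : (z : ℝ) ^ k ≤ M ^ k := pow_le_pow_left₀ (Nat.cast_nonneg z) (hZ z hz).2.2.1 k
      have hp0 : (0 : ℝ) ≤ (p : ℝ) ^ k := by positivity
      have hz0 : (0 : ℝ) ≤ (z : ℝ) ^ k := by positivity
      have h6 : |(p : ℝ) ^ k - (z : ℝ) ^ k| ≤ M ^ k := by
        rw [abs_le]
        constructor <;> linarith
      rw [abs_mul]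
      calc |β| * |(p : ℝ) ^ k - (z : ℝ) ^ k| * (2 * q) ≤ |β| * M ^ k * (2 * q) := by gcongr
        _ ≤ 1 := hβ
  have hfib : ∀ s ∈ Ico 1 q, ((Z.filter fun z => r z = s).card : ℝ) ≤
      rho k q * ((L : ℝ) / q + 1) := by
    intro s _
    rcases (Z.filter fun z => r z = s).eq_empty_or_nonempty with h0 | ⟨z₀, hz₀⟩
    · rw [h0, card_empty, Nat.cast_zero]
      positivity
    · have h1 : (Z.filter fun z => r z = s) ⊆
          (Ico 0 (0 + L)).filter fun z => z.Coprime q ∧ z ^ k ≡ z₀ ^ k [MOD q] := by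
        intro z hz
        obtain ⟨hz1, hz2⟩ := mem_filter.1 hz
        obtain ⟨hw1, hw2⟩ := mem_filter.1 hz₀
        rw [mem_filter, mem_Ico]
        refine ⟨⟨Nat.zero_le _, by have := (hZ z hz1).2.1; omega⟩, (hZ z hz1).1, ?_⟩
        have h2 : (a * ((p : ℤ) ^ k - (z : ℤ) ^ k)) % q =
            (a * ((p : ℤ) ^ k - (z₀ : ℤ) ^ k)) % q := by
          rw [← hr z, ← hr z₀, hz2, hw2]
        have h3 : (q : ℤ) ∣ a * ((p : ℤ) ^ k - (z : ℤ) ^ k) - a * ((p : ℤ) ^ k - (z₀ : ℤ) ^ k) :=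
          Int.ModEq.dvd (Int.ModEq.symm h2)
        have h4 : (q : ℤ) ∣ a * ((z₀ : ℤ) ^ k - (z : ℤ) ^ k) := by
          have h5 : a * ((p : ℤ) ^ k - (z : ℤ) ^ k) - a * ((p : ℤ) ^ k - (z₀ : ℤ) ^ k) =
              a * ((z₀ : ℤ) ^ k - (z : ℤ) ^ k) := by ring
          rwa [h5] at h3
        have h5 := haq.symm.dvd_of_dvd_mul_left h4
        rw [Nat.modEq_iff_dvd]
        push_cast
        exact h5
      have h2 := (card_le_card h1).trans (count_roots k q (z₀ ^ k) 0 L hk hq)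
      have h3 : ((Z.filter fun z => r z = s).card : ℝ) ≤ ((rho k q * (L / q + 1) : ℕ) : ℝ) := by
        exact_mod_cast h2
      refine h3.trans ?_
      push_cast
      have h4 : ((L / q : ℕ) : ℝ) ≤ (L : ℝ) / q := Nat.cast_div_le
      gcongr
  calc ∑ z ∈ Z, mm U (α * ((p : ℝ) ^ k - (z : ℝ) ^ k))
      ≤ ∑ z ∈ Z, ((q : ℝ) / r z + q / (q - r z)) := sum_le_sum hterm
    _ = ∑ s ∈ Ico 1 q, ∑ z ∈ Z with r z = s, ((q : ℝ) / r z + q / (q - r z)) :=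
        (sum_fiberwise_of_maps_to hr1 _).symm
    _ = ∑ s ∈ Ico 1 q, ((Z.filter fun z => r z = s).card : ℝ) * ((q : ℝ) / s + q / (q - s)) := by
        refine sum_congr rfl fun s _ => ?_
        rw [← nsmul_eq_mul, ← sum_const]
        exact sum_congr rfl fun z hz => by rw [(mem_filter.1 hz).2]
    _ ≤ ∑ s ∈ Ico 1 q, (rho k q * ((L : ℝ) / q + 1)) * ((q : ℝ) / s + q / (q - s)) := by
        refine sum_le_sum fun s hs => mul_le_mul_of_nonneg_right (hfib s hs) ?_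
        have h1 := mem_Ico.1 hs
        have h2 : (s : ℝ) ≤ q := by exact_mod_cast h1.2.le
        have h3 : (0 : ℝ) ≤ (q : ℝ) - s := by linarith
        positivity
    _ = (rho k q * ((L : ℝ) / q + 1)) * ∑ s ∈ Ico 1 q, ((q : ℝ) / s + q / (q - s)) :=
        (mul_sum _ _ _).symm
    _ ≤ _ := mul_le_mul_of_nonneg_left (Ga_harm q hq) (by positivity)

end Pool.Agent.Lib.MP_570bef_ntP
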