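import Pool.Agent.Lib.MP_570bef_ntP.Cnt

/-!
# The part of the large sieve constant with `z ^ k ≡ p ^ k` (job Gb)

`cong_triv`: `mm U _ ≤ U` and `count_roots` with `u = 0`.
`cong_beta`: for `z ∈ Z`: `α (p^k - z^k) = (integer) + β (p^k - z^k)` (as `q ∣ p^k - z^k`), `|β (p^k - z^k)| ≤ |β| M^k ≤ 1/2`, so
`nn (..) = |β| |p^k - z^k|` (`nn_of_abs_le`, `nn_add_int`) `≥ |β| |p - z| T^(k-1)` (`p^k - z^k = (p - z) ∑ p^i z^(k-1-i)`, `p, z ≥ T`; only the term with all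
exponents in one factor is needed, or `geom_sum₂`).
The `z ≥ p` are in the intervals `[p + j q, p + (j+1) q)`, `0 ≤ j ≤ L`: each contains at most `rho k q * (q / q + 1) = 2 rho k q` elements of `Z`
(`count_roots`); for `j = 0` use `mm U _ ≤ U`, for `j ≥ 1` `|p - z| ≥ j q` gives `mm ≤ 1 / (2 |β| j q T^(k-1))` (`mm_le_inv`).  In total
`2 rho U + 2 rho (1 + log L) / (2 |β| q T^(k-1))` (`j = (z - p) / q < L`; `harmonic_le_one_add_log`; `L ≥ 1`, else `Z = ∅`).  The same for `z < p`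
(intervals `[p - (j+1) q, p - j q)` or, if this is negative, `[0, p - j q)`: `j = (p - 1 - z) / q`, `|p - z| ≥ j q`; the class `j` is contained in
`Ico (p - 1 - (j q + q - 1)) (... + q)` with natural subtraction, an interval of length `≤ q`).
-/

set_option autoImplicit false

namespace Pool.Agent.Lib.MP_570bef_ntP

open Finset
open Pool.Agent.Lib.MP_2a816b_nt (e nn D)

private theorem Gb_sum (L : ℕ) (U κ R : ℝ) (hL : 1 ≤ L) (hU : 0 ≤ U) (hκ : 0 ≤ κ)
    (Z : Finset ℕ) (j : ℕ → ℕ) (F : ℕ → ℝ) (hj : ∀ z ∈ Z, j z < L)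
    (hcard : ∀ i, ((Z.filter fun z => j z = i).card : ℝ) ≤ R)
    (hF0 : ∀ z ∈ Z, F z ≤ U) (hF : ∀ z ∈ Z, 1 ≤ j z → F z ≤ κ / j z) :
    ∑ z ∈ Z, F z ≤ R * (U + κ * (1 + Real.log L)) := by
  have hR : 0 ≤ R := (Nat.cast_nonneg _).trans (hcard 0)
  obtain ⟨L', rfl⟩ : ∃ L', L = L' + 1 := ⟨L - 1, by omega⟩
  have h1 : ∑ z ∈ Z, F z = ∑ i ∈ range (L' + 1), ∑ z ∈ Z.filter (fun z => j z = i), F z := by
    rw [sum_fiberwise_of_maps_to]
    intro z hz
    exact mem_range.2 (hj z hz)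
  rw [h1, sum_range_succ']
  have h2 : ∑ z ∈ Z.filter (fun z => j z = 0), F z ≤ R * U := by
    calc ∑ z ∈ Z.filter (fun z => j z = 0), F z
        ≤ ∑ _z ∈ Z.filter (fun z => j z = 0), U :=
          sum_le_sum fun z hz => hF0 z (mem_filter.1 hz).1
      _ = ((Z.filter fun z => j z = 0).card : ℝ) * U := by rw [sum_const, nsmul_eq_mul]
      _ ≤ R * U := mul_le_mul_of_nonneg_right (hcard 0) hU
  have h3 : ∀ i ∈ range L', ∑ z ∈ Z.filter (fun z => j z = i + 1), F z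
      ≤ R * (κ * ((i : ℝ) + 1)⁻¹) := by
    intro i _
    have hi : (0 : ℝ) < (i : ℝ) + 1 := by positivity
    calc ∑ z ∈ Z.filter (fun z => j z = i + 1), F z
        ≤ ∑ _z ∈ Z.filter (fun z => j z = i + 1), κ * ((i : ℝ) + 1)⁻¹ := by
          refine sum_le_sum fun z hz => ?_
          obtain ⟨hz1, hz2⟩ := mem_filter.1 hz
          have h4 := hF z hz1 (by omega)
          rw [hz2, div_eq_mul_inv] at h4
          push_cast at h4
          exact h4
      _ = ((Z.filter fun z => j z = i + 1).card : ℝ) * (κ * ((i : ℝ) + 1)⁻¹) := by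
          rw [sum_const, nsmul_eq_mul]
      _ ≤ R * (κ * ((i : ℝ) + 1)⁻¹) :=
          mul_le_mul_of_nonneg_right (hcard (i + 1)) (by positivity)
  have h4 : ∑ i ∈ range L', ((i : ℝ) + 1)⁻¹ ≤ 1 + Real.log ((L' + 1 : ℕ) : ℝ) := by
    have h5 := harmonic_le_one_add_log L'
    have h6 : ((harmonic L' : ℚ) : ℝ) = ∑ i ∈ range L', ((i : ℝ) + 1)⁻¹ := by
      unfold harmonic
      push_cast
      rfl
    rw [h6] at h5
    refine h5.trans ?_
    have h7 : Real.log (L' : ℝ) ≤ Real.log ((L' + 1 : ℕ) : ℝ) := by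
      rcases Nat.eq_zero_or_pos L' with h0 | h0
      · rw [h0]
        simp
      · apply Real.log_le_log
        · exact_mod_cast h0
        · push_cast
          linarith
    linarith
  calc ∑ i ∈ range L', ∑ z ∈ Z.filter (fun z => j z = i + 1), F z
        + ∑ z ∈ Z.filter (fun z => j z = 0), F z
      ≤ ∑ i ∈ range L', R * (κ * ((i : ℝ) + 1)⁻¹) + R * U := add_le_add (sum_le_sum h3) h2
    _ = R * (U + κ * ∑ i ∈ range L', ((i : ℝ) + 1)⁻¹) := by
        rw [← mul_sum, ← mul_sum]; ring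
    _ ≤ R * (U + κ * (1 + Real.log ((L' + 1 : ℕ) : ℝ))) := by
        apply mul_le_mul_of_nonneg_left _ hR
        have := mul_le_mul_of_nonneg_left h4 hκ
        linarith

private theorem Gb_pow (x y T : ℝ) (k : ℕ) (hk : 1 ≤ k) (hT : 0 < T) (hx : T ≤ x) (hy : T ≤ y) :
    |x - y| * T ^ (k - 1) ≤ |x ^ k - y ^ k| := by
  rw [← geom_sum₂_mul x y k, abs_mul, mul_comm]
  apply mul_le_mul_of_nonneg_right _ (abs_nonneg _)
  have hx0 : 0 < x := hT.trans_le hx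
  have hy0 : 0 < y := hT.trans_le hy
  have h1 : T ^ (k - 1) ≤ ∑ i ∈ range k, x ^ i * y ^ (k - 1 - i) := by
    calc T ^ (k - 1) ≤ x ^ 0 * y ^ (k - 1 - 0) := by
          rw [pow_zero, one_mul, Nat.sub_zero]
          exact pow_le_pow_left₀ hT.le hy _
      _ ≤ ∑ i ∈ range k, x ^ i * y ^ (k - 1 - i) :=
          single_le_sum (f := fun i => x ^ i * y ^ (k - 1 - i))
            (fun i _ => by positivity) (mem_range.2 (by omega))
  exact h1.trans (le_abs_self _)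

private theorem Gb_point (k q p z d : ℕ) (a : ℤ) (α β M T U : ℝ) (hk : 1 ≤ k) (hq : 1 ≤ q)
    (hα : α = a / q + β) (hβ0 : β ≠ 0) (hβ : |β| * M ^ k * 2 ≤ 1) (hT : 0 < T) (hTp : T ≤ p)
    (hp : (p : ℝ) ≤ M) (hz : (z : ℝ) ≤ M) (hTz : T ≤ z) (hzp : z ^ k ≡ p ^ k [MOD q])
    (hd : 1 ≤ d) (hd' : (d : ℝ) ≤ |(p : ℝ) - z|) :
    mm U (α * ((p : ℝ) ^ k - (z : ℝ) ^ k)) ≤ 1 / (2 * (|β| * (d * T ^ (k - 1)))) := by
  obtain ⟨m, hm⟩ := (Nat.modEq_iff_dvd).1 hzp
  have hm' : (p : ℝ) ^ k - (z : ℝ) ^ k = q * m := by exact_mod_cast hm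
  have hq0 : (q : ℝ) ≠ 0 := by
    have : (1 : ℝ) ≤ q := by exact_mod_cast hq
    intro h0
    rw [h0] at this
    linarith
  have h1 : α * ((p : ℝ) ^ k - (z : ℝ) ^ k) =
      β * ((p : ℝ) ^ k - (z : ℝ) ^ k) + ((a * m : ℤ) : ℝ) := by
    rw [hα, add_mul]
    have : (a : ℝ) / q * ((p : ℝ) ^ k - (z : ℝ) ^ k) = ((a * m : ℤ) : ℝ) := by
      rw [hm']
      push_cast
      field_simp
    rw [this]
    ring
  have hp0 : (0 : ℝ) ≤ p := Nat.cast_nonneg p
  have hz0 : (0 : ℝ) ≤ z := Nat.cast_nonneg z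
  have h2 : |(p : ℝ) ^ k - (z : ℝ) ^ k| ≤ M ^ k := by
    have e1 : (p : ℝ) ^ k ≤ M ^ k := pow_le_pow_left₀ hp0 hp k
    have e2 : (z : ℝ) ^ k ≤ M ^ k := pow_le_pow_left₀ hz0 hz k
    have e3 : (0 : ℝ) ≤ (p : ℝ) ^ k := by positivity
    have e4 : (0 : ℝ) ≤ (z : ℝ) ^ k := by positivity
    rw [abs_le]
    constructor <;> linarith
  have h3 : |β * ((p : ℝ) ^ k - (z : ℝ) ^ k)| ≤ 1 / 2 := by
    rw [abs_mul]
    have := mul_le_mul_of_nonneg_left h2 (abs_nonneg β)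
    linarith
  have h4 : nn (α * ((p : ℝ) ^ k - (z : ℝ) ^ k)) = |β| * |(p : ℝ) ^ k - (z : ℝ) ^ k| := by
    rw [h1, nn_add_int, nn_of_abs_le _ h3, abs_mul]
  have hβ' : 0 < |β| := abs_pos.2 hβ0
  have hd0 : (0 : ℝ) < d := by exact_mod_cast hd
  have h5 : |β| * (d * T ^ (k - 1)) ≤ nn (α * ((p : ℝ) ^ k - (z : ℝ) ^ k)) := by
    rw [h4]
    apply mul_le_mul_of_nonneg_left _ hβ'.le
    refine le_trans ?_ (Gb_pow (p : ℝ) z T k hk hT hTp hTz)
    exact mul_le_mul_of_nonneg_right hd' (by positivity)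
  have h6 : 0 < |β| * (d * T ^ (k - 1)) := by positivity
  refine (mm_le_inv U _ (h6.trans_le h5)).trans ?_
  apply one_div_le_one_div_of_le (by positivity)
  linarith

theorem cong_triv (k q L p : ℕ) (α U : ℝ) (hk : 1 ≤ k) (hq : 1 ≤ q) (hU : 0 ≤ U) (Z : Finset ℕ)
    (hZ : ∀ z ∈ Z, z.Coprime q ∧ z < L ∧ z ^ k ≡ p ^ k [MOD q]) :
    ∑ z ∈ Z, mm U (α * ((p : ℝ) ^ k - (z : ℝ) ^ k)) ≤ rho k q * ((L : ℝ) / q + 1) * U := by
  have hZs : Z ⊆ (Ico 0 (0 + L)).filter fun z => z.Coprime q ∧ z ^ k ≡ p ^ k [MOD q] := by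
    intro z hz
    obtain ⟨h1, h2, h3⟩ := hZ z hz
    rw [mem_filter, mem_Ico]
    exact ⟨⟨Nat.zero_le _, by omega⟩, h1, h3⟩
  have h1 : Z.card ≤ rho k q * (L / q + 1) :=
    (card_le_card hZs).trans (count_roots k q (p ^ k) 0 L hk hq)
  have h2 : (Z.card : ℝ) ≤ rho k q * ((L : ℝ) / q + 1) := by
    have h3 : (Z.card : ℝ) ≤ ((rho k q * (L / q + 1) : ℕ) : ℝ) := by exact_mod_cast h1
    refine h3.trans ?_
    push_cast
    apply mul_le_mul_of_nonneg_left _ (Nat.cast_nonneg _)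
    have : ((L / q : ℕ) : ℝ) ≤ (L : ℝ) / q := Nat.cast_div_le
    linarith
  calc ∑ z ∈ Z, mm U (α * ((p : ℝ) ^ k - (z : ℝ) ^ k)) ≤ ∑ _z ∈ Z, U :=
        sum_le_sum fun z _ => mm_le _ _ hU
    _ = (Z.card : ℝ) * U := by rw [sum_const, nsmul_eq_mul]
    _ ≤ rho k q * ((L : ℝ) / q + 1) * U := mul_le_mul_of_nonneg_right h2 hU

theorem cong_beta (k q L p : ℕ) (a : ℤ) (α β M T U : ℝ) (hk : 1 ≤ k) (hq : 1 ≤ q)
    (hα : α = a / q + β) (hβ0 : β ≠ 0) (hβ : |β| * M ^ k * 2 ≤ 1) (hT : 0 < T) (hTp : T ≤ p)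
    (hp : (p : ℝ) ≤ M) (hpL : p < L) (hU : 0 ≤ U) (Z : Finset ℕ)
    (hZ : ∀ z ∈ Z, z.Coprime q ∧ z < L ∧ (z : ℝ) ≤ M ∧ T ≤ z ∧ z ^ k ≡ p ^ k [MOD q]) :
    ∑ z ∈ Z, mm U (α * ((p : ℝ) ^ k - (z : ℝ) ^ k)) ≤
      rho k q * (4 * U + 2 * (1 + Real.log L) / (q * |β| * T ^ (k - 1))) := by
  have hqr : (1 : ℝ) ≤ q := by exact_mod_cast hq
  have hq0 : (0 : ℝ) < q := by linarith
  have hβ' : 0 < |β| := abs_pos.2 hβ0
  have hTk : 0 < T ^ (k - 1) := pow_pos hT _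
  set κ : ℝ := 1 / (2 * (|β| * (q * T ^ (k - 1)))) with hκ
  have hκ0 : 0 ≤ κ := by rw [hκ]; positivity
  have hqq : q / q + 1 = 2 := by rw [Nat.div_self (by omega)]
  have hpt : ∀ z ∈ Z, ∀ i : ℕ, 1 ≤ i → ((q * i : ℕ) : ℝ) ≤ |(p : ℝ) - z| →
      mm U (α * ((p : ℝ) ^ k - (z : ℝ) ^ k)) ≤ κ / i := by
    intro z hz i hi hdi
    obtain ⟨h1, h2, h3, h4, h5⟩ := hZ z hz
    have h6 := Gb_point k q p z (q * i) a α β M T U hk hq hα hβ0 hβ hT hTp hp h3 h4 h5
      (Nat.mul_pos (by omega) (by omega)) hdi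
    refine h6.trans (le_of_eq ?_)
    have hi0 : (i : ℝ) ≠ 0 := by
      have : (1 : ℝ) ≤ i := by exact_mod_cast hi
      intro h0
      rw [h0] at this
      linarith
    rw [hκ]
    push_cast
    field_simp
  have hA : ∑ z ∈ Z.filter (fun z => p ≤ z), mm U (α * ((p : ℝ) ^ k - (z : ℝ) ^ k)) ≤
      (2 * rho k q) * (U + κ * (1 + Real.log L)) := by
    apply Gb_sum L U κ _ (by omega) hU hκ0 _ (fun z => (z - p) / q)
    · intro z hz
      obtain ⟨hz1, hz2⟩ := mem_filter.1 hz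
      have h1 := (hZ z hz1).2.1
      have h2 : (z - p) / q ≤ z - p := Nat.div_le_self _ _
      show (z - p) / q < L
      omega
    · intro i
      have h1 : ((Z.filter (fun z => p ≤ z)).filter fun z => (z - p) / q = i).card ≤
          rho k q * 2 := by
        rw [← hqq]
        refine (card_le_card ?_).trans (count_roots k q (p ^ k) (p + q * i) q hk hq)
        intro z hz
        obtain ⟨hz1, hz2⟩ := mem_filter.1 hz
        obtain ⟨hz3, hz4⟩ := mem_filter.1 hz1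
        obtain ⟨h1, h2, h3, h4, h5⟩ := hZ z hz3
        rw [mem_filter, mem_Ico]
        have h6 := Nat.div_add_mod (z - p) q
        have h7 := Nat.mod_lt (z - p) (show q > 0 by omega)
        rw [hz2] at h6
        refine ⟨⟨by omega, by omega⟩, h1, h5⟩
      have h2 : ((((Z.filter (fun z => p ≤ z)).filter fun z => (z - p) / q = i).card : ℕ) : ℝ) ≤
          ((rho k q * 2 : ℕ) : ℝ) := by exact_mod_cast h1
      push_cast at h2
      linarith
    · intro z _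
      exact mm_le _ _ hU
    · intro z hz hi
      obtain ⟨hz1, hz2⟩ := mem_filter.1 hz
      apply hpt z hz1 _ hi
      have h6 := Nat.div_add_mod (z - p) q
      have h7 : p + q * ((z - p) / q) ≤ z := by omega
      have h8 : ((p + q * ((z - p) / q) : ℕ) : ℝ) ≤ z := by exact_mod_cast h7
      rw [abs_sub_comm]
      refine le_trans ?_ (le_abs_self _)
      rw [Nat.cast_add] at h8
      linarith
  have hB : ∑ z ∈ Z.filter (fun z => ¬ p ≤ z), mm U (α * ((p : ℝ) ^ k - (z : ℝ) ^ k)) ≤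
      (2 * rho k q) * (U + κ * (1 + Real.log L)) := by
    apply Gb_sum L U κ _ (by omega) hU hκ0 _ (fun z => (p - 1 - z) / q)
    · intro z hz
      have h2 : (p - 1 - z) / q ≤ p - 1 - z := Nat.div_le_self _ _
      show (p - 1 - z) / q < L
      omega
    · intro i
      have h1 : ((Z.filter (fun z => ¬ p ≤ z)).filter fun z => (p - 1 - z) / q = i).card ≤
          rho k q * 2 := by
        rw [← hqq]
        refine (card_le_card ?_).trans
          (count_roots k q (p ^ k) (p - 1 - (q * i + q - 1)) q hk hq)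
        intro z hz
        obtain ⟨hz1, hz2⟩ := mem_filter.1 hz
        obtain ⟨hz3, hz4⟩ := mem_filter.1 hz1
        obtain ⟨h1, h2, h3, h4, h5⟩ := hZ z hz3
        rw [mem_filter, mem_Ico]
        have h6 := Nat.div_add_mod (p - 1 - z) q
        have h7 := Nat.mod_lt (p - 1 - z) (show q > 0 by omega)
        rw [hz2] at h6
        refine ⟨⟨by omega, by omega⟩, h1, h5⟩
      have h2 : ((((Z.filter (fun z => ¬ p ≤ z)).filter
          fun z => (p - 1 - z) / q = i).card : ℕ) : ℝ) ≤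
          ((rho k q * 2 : ℕ) : ℝ) := by exact_mod_cast h1
      push_cast at h2
      linarith
    · intro z _
      exact mm_le _ _ hU
    · intro z hz hi
      obtain ⟨hz1, hz2⟩ := mem_filter.1 hz
      apply hpt z hz1 _ hi
      have h6 := Nat.div_add_mod (p - 1 - z) q
      have h7 : z + q * ((p - 1 - z) / q) ≤ p := by omega
      have h8 : ((z + q * ((p - 1 - z) / q) : ℕ) : ℝ) ≤ p := by exact_mod_cast h7
      refine le_trans ?_ (le_abs_self _)
      rw [Nat.cast_add] at h8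
      linarith
  rw [← sum_filter_add_sum_filter_not Z (fun z => p ≤ z)]
  refine (add_le_add hA hB).trans (le_of_eq ?_)
  rw [hκ]
  field_simp
  ring

end Pool.Agent.Lib.MP_570bef_ntP
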