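import Pool.Agent.Lib.MP_570bef_ntP.RhoA
import Pool.Agent.Lib.MP_42948a_nt.OA.DV

/-!
# The number of `k`-th roots of unity modulo `q` is small (job RhoB)

`rho_le_pow`: by induction over coprime factors (`Nat.recOnPosPrimePosCoprime` or `Nat.recOnMul`-like): `rho k q ≤ ∏_{p ∣ q} 2 k = (2 k)^(ω q)`, `2 k ≤ 2 ^ k` and
`2 ^ (ω q) ≤ τ(q)` (`τ(q) = ∏ (a_p + 1)`; both sides multiplicative).  So `rho k q ≤ τ(q) ^ k`.
(The direct induction: the statement `rho k q ≤ q.divisors.card ^ k` holds for prime powers `p ^ a`, `a ≥ 1` (`τ ≥ 2`, `2 k ≤ 2 ^ k`), for `q = 1`, and is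
inherited by products of coprime numbers, `Nat.Coprime.card_divisors_mul`.)
`rho_bound`: `divisor_bound` (`Pool.Agent.Lib.MP_42948a_nt.OA.DV`, check its namespace) with `δ = 1 / (16 k²)`:
`rho ^ (16 k) ≤ τ ^ (16 k²) ≤ C ^ (16 k²) q`.
-/

set_option autoImplicit false

namespace Pool.Agent.Lib.MP_570bef_ntP

open Finset
open Pool.Agent.Lib.MP_2a816b_nt (e nn D)

private theorem RhoB_two_mul (k : ℕ) (hk : 1 ≤ k) : 2 * k ≤ 2 ^ k := by
  obtain ⟨j, rfl⟩ : ∃ j, k = j + 1 := ⟨k - 1, by omega⟩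
  have h : j < 2 ^ j := Nat.lt_two_pow_self
  rw [pow_succ]
  omega

theorem rho_le_pow (k q : ℕ) (hk : 1 ≤ k) (hq : 1 ≤ q) : rho k q ≤ q.divisors.card ^ k := by
  revert hq
  refine Nat.recOnPosPrimePosCoprime (motive := fun q => 1 ≤ q → rho k q ≤ q.divisors.card ^ k)
    ?_ ?_ ?_ ?_ q
  · intro p n hp hn _
    calc rho k (p ^ n) ≤ 2 * k := rho_prime_pow k p n hk hp
      _ ≤ 2 ^ k := RhoB_two_mul k hk
      _ ≤ (p ^ n).divisors.card ^ k := by
        apply Nat.pow_le_pow_left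
        rw [Nat.divisors_prime_pow hp, Finset.card_map, Finset.card_range]
        omega
  · intro h
    omega
  · intro _
    have h1 : rho k 1 ≤ 1 := by
      unfold rho
      exact (Finset.card_filter_le _ _).trans (by simp)
    simpa using h1
  · intro a b ha hb hab iha ihb _
    calc rho k (a * b) ≤ rho k a * rho k b := rho_mul k a b hk ha.le hb.le hab
      _ ≤ a.divisors.card ^ k * b.divisors.card ^ k := Nat.mul_le_mul (iha ha.le) (ihb hb.le)
      _ = (a * b).divisors.card ^ k := by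
        rw [Nat.Coprime.card_divisors_mul hab, mul_pow]

theorem rho_bound (k : ℕ) (hk : 1 ≤ k) :
    ∃ C : ℝ, 1 ≤ C ∧ ∀ q : ℕ, 1 ≤ q → (rho k q : ℝ) ^ (16 * k) ≤ C * q := by
  have hk0 : (0 : ℝ) < k := by exact_mod_cast hk
  obtain ⟨C, hC1, hC⟩ := Pool.Agent.Lib.MP_42948a_nt.OA.divisor_bound (1 / (16 * (k : ℝ) ^ 2))
    (by positivity)
  refine ⟨C ^ (16 * k ^ 2), one_le_pow₀ hC1, fun q hq => ?_⟩
  have hq0 : (0 : ℝ) ≤ q := Nat.cast_nonneg _
  have h1 : (rho k q : ℝ) ≤ (q.divisors.card : ℝ) ^ k := by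
    exact_mod_cast rho_le_pow k q hk hq
  calc (rho k q : ℝ) ^ (16 * k) ≤ ((q.divisors.card : ℝ) ^ k) ^ (16 * k) := by gcongr
    _ = (q.divisors.card : ℝ) ^ (16 * k ^ 2) := by rw [← pow_mul]; congr 1; ring
    _ ≤ (C * (q : ℝ) ^ (1 / (16 * (k : ℝ) ^ 2))) ^ (16 * k ^ 2) := by
      gcongr
      exact hC q hq
    _ = C ^ (16 * k ^ 2) * q := by
      rw [mul_pow, ← Real.rpow_natCast ((q : ℝ) ^ (1 / (16 * (k : ℝ) ^ 2))), ← Real.rpow_mul hq0]
      congr 1
      have : 1 / (16 * (k : ℝ) ^ 2) * ((16 * k ^ 2 : ℕ) : ℝ) = 1 := by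
        push_cast
        field_simp
      rw [this, Real.rpow_one]

end Pool.Agent.Lib.MP_570bef_ntP
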