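import Pool.Agent.Lib.MP_570bef_ntP.Ga
import Pool.Agent.Lib.MP_570bef_ntP.Gb
import Pool.Agent.Lib.MP_570bef_ntP.RhoB

/-!
# The large sieve constant (jobs Gc, Gp)

Abbreviations: `K = κ + 1`, `c = 64 K m - 16 m - 1`, `T = B^c`, `M = B^(c+1)`, `L = B^(c+1) + 1`, `U = B^(16mk)`; `PP B c` are primes `z`, `T < z ≤ M`.
`k_large`: `B^(32Km) ≤ q + B^(64Kmk) |β| q ≤ B^(8mk) + B^(8mk) = 2 B^(8mk) < B^(8mk+1)` for `B > 2` (`B^(64Kmk) = B^(64Kmk - 8mk) B^(8mk)`), so `32 K m ≤ 8 m k`.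
`rho_small`: `rho^(16k) ≤ C q ≤ C B^(8mk) ≤ B^(16mk)` (`rho_bound`, `B^(8mk) ≥ B ≥ C`), so `rho ≤ B^m` (`pow_le_pow_left` contrapositive).
`div_part`: the elements `z` of `PP B c` dividing `q`: distinct primes, their product divides `q`, and is at least `(B^c)^j`, `j` their number; so
`B^(c j) ≤ q ≤ B^(8mk)`, `c j ≤ 8mk` and as `c ≥ 8 m`, `j ≤ k`.
-/

set_option autoImplicit false

namespace Pool.Agent.Lib.MP_570bef_ntP

open Finset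
open Pool.Agent.Lib.MP_2a816b_nt (e nn D)

theorem k_large (κ k m B q : ℕ) (δ : ℝ) (hm : 1 ≤ m) (hB : 3 ≤ B) (hq1 : 1 ≤ q)
    (hq : q ≤ B ^ (8 * m * k)) (hδ0 : 0 ≤ δ)
    (hδ : δ * (q * (B : ℝ) ^ (64 * (κ + 1) * m * k - 8 * m * k)) ≤ 1)
    (hQ : (B : ℝ) ^ (32 * (κ + 1) * m) ≤ q * (1 + (B : ℝ) ^ (64 * (κ + 1) * m * k) * δ)) :
    4 * (κ + 1) ≤ k := by
  have hBr : (3 : ℝ) ≤ (B : ℝ) := by exact_mod_cast hB
  have hB0 : (0 : ℝ) < (B : ℝ) := by linarith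
  have hle : 8 * m * k ≤ 64 * (κ + 1) * m * k := by
    refine Nat.mul_le_mul_right _ (Nat.mul_le_mul_right _ ?_)
    omega
  have h1 : (B : ℝ) ^ (64 * (κ + 1) * m * k) =
      (B : ℝ) ^ (64 * (κ + 1) * m * k - 8 * m * k) * (B : ℝ) ^ (8 * m * k) := by
    rw [← pow_add, Nat.sub_add_cancel hle]
  have hqr : (q : ℝ) ≤ (B : ℝ) ^ (8 * m * k) := by exact_mod_cast hq
  have h2 : (B : ℝ) ^ (32 * (κ + 1) * m) ≤ 2 * (B : ℝ) ^ (8 * m * k) := by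
    have h3 : (q : ℝ) * (1 + (B : ℝ) ^ (64 * (κ + 1) * m * k) * δ) =
        q + (B : ℝ) ^ (8 * m * k) * (δ * (q * (B : ℝ) ^ (64 * (κ + 1) * m * k - 8 * m * k))) := by
      rw [h1]
      ring
    have h4 : (B : ℝ) ^ (8 * m * k) * (δ * (q * (B : ℝ) ^ (64 * (κ + 1) * m * k - 8 * m * k))) ≤
        (B : ℝ) ^ (8 * m * k) * 1 := mul_le_mul_of_nonneg_left hδ (by positivity)
    rw [h3] at hQ
    linarith
  have h5 : (B : ℝ) ^ (32 * (κ + 1) * m) < (B : ℝ) ^ (8 * m * k + 1) := by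
    refine h2.trans_lt ?_
    rw [pow_succ, mul_comm]
    exact mul_lt_mul_of_pos_left (by linarith) (by positivity)
  have h6 : 32 * (κ + 1) * m < 8 * m * k + 1 :=
    (pow_lt_pow_iff_right₀ (by linarith : (1 : ℝ) < B)).1 h5
  have h7 : (8 * m) * (4 * (κ + 1)) ≤ (8 * m) * k := by
    have h8 : (8 * m) * (4 * (κ + 1)) = 32 * (κ + 1) * m := by ring
    rw [h8]
    exact Nat.lt_succ_iff.1 h6
  exact Nat.le_of_mul_le_mul_left h7 (by omega)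

theorem rho_small (k m : ℕ) (hk : 1 ≤ k) (hm : 1 ≤ m) : ∃ B₀ : ℕ, ∀ B ≥ B₀, ∀ q : ℕ, 1 ≤ q →
    q ≤ B ^ (8 * m * k) → rho k q ≤ B ^ m := by
  obtain ⟨C, hC1, hC⟩ := rho_bound k hk
  refine ⟨⌈C⌉₊ + 1, fun B hB q hq1 hq => ?_⟩
  have hBC : C ≤ (B : ℝ) := (Nat.le_ceil C).trans (by exact_mod_cast (by omega : ⌈C⌉₊ ≤ B))
  have hB1 : 1 ≤ B := by omega
  have hB1r : (1 : ℝ) ≤ (B : ℝ) := by exact_mod_cast hB1
  have hmk : 8 * m * k ≠ 0 := by positivity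
  by_contra hcon
  rw [not_le] at hcon
  have h1 : ((B : ℝ) ^ m) ^ (16 * k) < (rho k q : ℝ) ^ (16 * k) := by
    refine pow_lt_pow_left₀ (by exact_mod_cast hcon) (by positivity) (by omega)
  have h2 : (rho k q : ℝ) ^ (16 * k) ≤ (B : ℝ) ^ (8 * m * k) * (B : ℝ) ^ (8 * m * k) := by
    refine (hC q hq1).trans ?_
    have h3 : C ≤ (B : ℝ) ^ (8 * m * k) := hBC.trans (le_self_pow₀ hB1r hmk)
    have h4 : (q : ℝ) ≤ (B : ℝ) ^ (8 * m * k) := by exact_mod_cast hq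
    exact mul_le_mul h3 h4 (by positivity) (by positivity)
  have h3 : ((B : ℝ) ^ m) ^ (16 * k) = (B : ℝ) ^ (8 * m * k) * (B : ℝ) ^ (8 * m * k) := by
    rw [← pow_mul, ← pow_add]
    congr 1
    ring
  rw [h3] at h1
  exact absurd (h1.trans_le h2) (lt_irrefl _)

theorem div_part (k m c B q : ℕ) (hm : 1 ≤ m) (hB : 2 ≤ B) (hc : 8 * m ≤ c) (hq1 : 1 ≤ q)
    (hq : q ≤ B ^ (8 * m * k)) :
    ((PP B c).filter fun z => ¬ z.Coprime q).card ≤ k := by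
  obtain ⟨S, hS⟩ : ∃ S, S = (PP B c).filter fun z => ¬ z.Coprime q := ⟨_, rfl⟩
  rw [← hS]
  have hmem : ∀ z ∈ S, z.Prime ∧ B ^ c ≤ z ∧ z ∣ q := by
    intro z hz
    rw [hS] at hz
    unfold PP at hz
    rw [Finset.mem_filter, Finset.mem_filter, Finset.mem_Ioc] at hz
    refine ⟨hz.1.2, hz.1.1.1.le, ?_⟩
    by_contra h
    exact hz.2 ((Nat.Prime.coprime_iff_not_dvd hz.1.2).2 h)
  have h1 : ∏ z ∈ S, z ∣ q :=
    Finset.prod_primes_dvd q (fun z hz => (hmem z hz).1.prime) fun z hz => (hmem z hz).2.2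
  have h2 : (B ^ c) ^ S.card ≤ ∏ z ∈ S, z := by
    rw [← Finset.prod_const]
    exact Finset.prod_le_prod (fun _ _ => Nat.zero_le _) fun z hz => (hmem z hz).2.1
  have h3 : B ^ (c * S.card) ≤ B ^ (8 * m * k) := by
    rw [pow_mul]
    exact (h2.trans (Nat.le_of_dvd hq1 h1)).trans hq
  have h4 : c * S.card ≤ 8 * m * k := (Nat.pow_le_pow_iff_right (by omega)).1 h3
  have h5 : (8 * m) * S.card ≤ (8 * m) * k := (Nat.mul_le_mul_right _ hc).trans h4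
  exact Nat.le_of_mul_le_mul_left h5 (by omega)

end Pool.Agent.Lib.MP_570bef_ntP
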