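import Pool.Agent.Lib.MP_570bef_ntP.Bas

/-!
# The numerical inequalities for the large sieve constant (job Gn)

All are inequalities between powers of `B` with constant factors which are absorbed by one more power of `B` (`B ≥ B₀`).  `K = κ + 1`,
`c + 1 = 64 K m - 16 m` (natural subtraction, fine because `K, m ≥ 1`), `log q ≤ 8 m k B`, `log L ≤ 64 K m B + 1` (`log x ≤ x`, `L ≤ 2 B^(64Km)`, `log B ≤ B`).
`num_a`: `4 k B^(20Km+1) ≤ B^(64Km)`.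
`num_b`: `(L/q + 1) 2 q ≤ 2 L + 2 q ≤ 4 B^(c+1) + 2 B^(8mk)` (and `L = B^(c+1) + 1 ≤ 2 B^(c+1)`), `1 + log q ≤ 16 m k B`; exponents: `m + (64Km - 16m) + 1 + 20Km + 1 + 1 ≤ 64Km + 16mk`
because `k ≥ 4K`; and `m + 8mk + 1 + 20Km + 1 + 1 ≤ 64Km + 16mk`.
`num_c1`: `q ≥ B^(32Km)/2`, `L/q ≤ 4 B^(32Km-16m)`: exponents `m + 32Km - 16m + 20Km + 1 + 1 ≤ 64Km` and `m + 20Km + 1 + 1 ≤ 64Km`.
`num_c2`: `1/(q |β|) ≤ 2 B^(64Kmk - 32Km)`; exponents `m + 1 + (64Kmk - 32Km) + 20Km + 1 + 1 ≤ 64Km + 16mk + c (k-1)`, where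
`c (k-1) = 64Kmk - 64Km - 16mk + 16m - k + 1`: this is `k + 2 ≤ 15m + 12Km`, true because `k ≤ m` (and `m ≥ 1`).  And `16 B^m B^(20Km+1) ≤ B^(64Km)` for the
first term.
-/

set_option autoImplicit false

namespace Pool.Agent.Lib.MP_570bef_ntP

open Finset
open Pool.Agent.Lib.MP_2a816b_nt (e nn D)

private theorem Gn_log (b : ℝ) (hb : 1 ≤ b) (n : ℕ) : Real.log (b ^ n) ≤ n * b := by
  rw [Real.log_pow]
  have h := Real.log_le_sub_one_of_pos (zero_lt_one.trans_le hb)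
  have h2 : Real.log b ≤ b := by linarith
  exact mul_le_mul_of_nonneg_left h2 (Nat.cast_nonneg n)

private theorem Gn_b (P Q C m : ℕ) (hC : C + 16 * m = 64 * P) (hQ : 4 * P ≤ Q) (hm : 1 ≤ m)
    (hP : m ≤ P) (b : ℝ) (hb : 384 * (Q : ℝ) ≤ b) (q : ℕ) (hq1 : 1 ≤ q) (hq2 : (q : ℝ) ≤ b ^ (8 * Q)) :
    4 * (b ^ m * ((b ^ C + 1) / q + 1) * (2 * q * (1 + Real.log q))) * b ^ (20 * P + 1) ≤
      b ^ (64 * P) * b ^ (16 * Q) := by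
  have hQ1 : (1 : ℝ) ≤ Q := by exact_mod_cast (by omega : 1 ≤ Q)
  have hb1 : 1 ≤ b := by linarith
  have hb0 : 0 ≤ b := by linarith
  have hq0 : (0 : ℝ) < q := by exact_mod_cast hq1
  have hlog : 1 + Real.log q ≤ 16 * Q * b := by
    have h1 : Real.log q ≤ Real.log (b ^ (8 * Q)) := Real.log_le_log hq0 hq2
    have h2 := Gn_log b hb1 (8 * Q)
    push_cast at h2
    nlinarith
  have hlog0 : 0 ≤ 1 + Real.log q := by
    have := Real.log_nonneg (show (1 : ℝ) ≤ q by exact_mod_cast hq1)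
    linarith
  have hbC : 1 ≤ b ^ C := one_le_pow₀ hb1
  have e1 : b ^ m * ((b ^ C + 1) / q + 1) * (2 * q * (1 + Real.log q)) =
      b ^ m * (2 * (b ^ C + 1) + 2 * q) * (1 + Real.log q) := by
    field_simp
  obtain ⟨M, hM⟩ : ∃ M, 64 * P + 16 * Q = M + 1 := ⟨64 * P + 16 * Q - 1, by omega⟩
  have p1 : b ^ (m + C + 20 * P + 2) ≤ b ^ M := pow_le_pow_right₀ hb1 (by omega)
  have p2 : b ^ (m + 8 * Q + 20 * P + 2) ≤ b ^ M := pow_le_pow_right₀ hb1 (by omega)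
  have hbM : 0 ≤ b ^ M := pow_nonneg hb0 _
  calc 4 * (b ^ m * ((b ^ C + 1) / q + 1) * (2 * q * (1 + Real.log q))) * b ^ (20 * P + 1)
      = 4 * (b ^ m * (2 * (b ^ C + 1) + 2 * q) * (1 + Real.log q)) * b ^ (20 * P + 1) := by rw [e1]
    _ ≤ 4 * (b ^ m * (4 * b ^ C + 2 * b ^ (8 * Q)) * (16 * Q * b)) * b ^ (20 * P + 1) := by
        have h3 : 2 * (b ^ C + 1) + 2 * (q : ℝ) ≤ 4 * b ^ C + 2 * b ^ (8 * Q) := by linarith
        have h4 : (0 : ℝ) ≤ 2 * (b ^ C + 1) + 2 * q := by positivity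
        gcongr
    _ = 64 * Q * (4 * b ^ (m + C + 20 * P + 2) + 2 * b ^ (m + 8 * Q + 20 * P + 2)) := by
        ring
    _ ≤ 64 * Q * (4 * b ^ M + 2 * b ^ M) := by gcongr
    _ = 384 * Q * b ^ M := by ring
    _ ≤ b * b ^ M := by gcongr
    _ = b ^ (64 * P) * b ^ (16 * Q) := by rw [← pow_add, hM, pow_succ]; ring

private theorem Gn_c1 (P Q C m : ℕ) (hC : C + 16 * m = 64 * P) (hm : 1 ≤ m)
    (hP : m ≤ P) (b : ℝ) (hb : 20 ≤ b) (q : ℕ) (hq1 : 1 ≤ q) (hq2 : b ^ (32 * P) ≤ 2 * q) :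
    4 * (b ^ m * ((b ^ C + 1) / q + 1) * b ^ (16 * Q)) * b ^ (20 * P + 1) ≤
      b ^ (64 * P) * b ^ (16 * Q) := by
  have hb1 : 1 ≤ b := by linarith
  have hb0 : 0 ≤ b := by linarith
  have hq0 : (0 : ℝ) < q := by exact_mod_cast hq1
  have hbC : 1 ≤ b ^ C := one_le_pow₀ hb1
  obtain ⟨A, hA⟩ : ∃ A, C = 32 * P + A := ⟨C - 32 * P, by omega⟩
  have hbA : 1 ≤ b ^ A := one_le_pow₀ hb1
  have h1 : (b ^ C + 1) / q ≤ 4 * b ^ A := by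
    rw [div_le_iff₀ hq0]
    have : b ^ C = b ^ (32 * P) * b ^ A := by rw [hA, pow_add]
    nlinarith [pow_nonneg hb0 A]
  have h2 : (b ^ C + 1) / q + 1 ≤ 5 * b ^ A := by linarith
  have h20 : (0 : ℝ) ≤ (b ^ C + 1) / q + 1 := by positivity
  calc 4 * (b ^ m * ((b ^ C + 1) / q + 1) * b ^ (16 * Q)) * b ^ (20 * P + 1)
      ≤ 4 * (b ^ m * (5 * b ^ A) * b ^ (16 * Q)) * b ^ (20 * P + 1) := by gcongr
    _ = 20 * b ^ (m + A + 20 * P + 1) * b ^ (16 * Q) := by ring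
    _ ≤ b * b ^ (m + A + 20 * P + 1) * b ^ (16 * Q) := by gcongr
    _ = b ^ (m + A + 20 * P + 2) * b ^ (16 * Q) := by ring
    _ ≤ b ^ (64 * P) * b ^ (16 * Q) := by
        gcongr
        omega

private theorem Gn_c2 (P Q R C m j : ℕ) (hC : C + 16 * m = 64 * P) (hm : 1 ≤ m) (hj : j + 1 ≤ m)
    (hQ : Q = m * j + m) (hR : R = P * j + P)
    (hP : m ≤ P) (b : ℝ) (hb : 32 * ((C : ℝ) + 2) ≤ b) (q : ℕ) (δ : ℝ) (hq1 : 1 ≤ q) (hδ : 0 < δ)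
    (hq2 : b ^ (32 * P) ≤ 2 * (q * (b ^ (64 * R) * δ))) :
    4 * (b ^ m * (4 * b ^ (16 * Q) + 2 * (1 + Real.log (b ^ C + 1)) /
      (q * δ * (b ^ (C - 1)) ^ j))) * b ^ (20 * P + 1) ≤ b ^ (64 * P) * b ^ (16 * Q) := by
  have hC0 : (0 : ℝ) ≤ C := Nat.cast_nonneg C
  have hb1 : 1 ≤ b := by linarith
  have hb0 : 0 < b := by linarith
  have hq0 : (0 : ℝ) < q := by exact_mod_cast hq1
  have hbC : 1 ≤ b ^ C := one_le_pow₀ hb1
  obtain ⟨c, hc⟩ : ∃ c, C = c + 1 := ⟨C - 1, by omega⟩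
  have hc1 : C - 1 = c := by omega
  rw [hc1]
  have hlog : 1 + Real.log (b ^ C + 1) ≤ (C + 2) * b := by
    have h1 : Real.log (b ^ C + 1) ≤ Real.log (2 * b ^ C) :=
      Real.log_le_log (by positivity) (by linarith)
    rw [Real.log_mul (by norm_num) (by positivity)] at h1
    have h2 := Gn_log b hb1 C
    have h3 : Real.log 2 ≤ 1 := by
      have := Real.log_le_sub_one_of_pos (show (0 : ℝ) < 2 by norm_num)
      linarith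
    nlinarith
  -- the exponents
  have hexp : m + 20 * P + 3 + 64 * R ≤ 64 * P + 16 * Q + c * j + 32 * P := by
    have h1 : (c + 1 + 16 * m) * j = 64 * P * j := by rw [← hc, hC]
    have h2 : c * j + j + 16 * (m * j) = 64 * (P * j) := by nlinarith
    subst hQ hR
    omega
  have hqδ : 0 < (q : ℝ) * δ := mul_pos hq0 hδ
  have hden : 0 < (q : ℝ) * δ * (b ^ c) ^ j := by positivity
  have hsec : 4 * (b ^ m * (2 * (1 + Real.log (b ^ C + 1)) / (q * δ * (b ^ c) ^ j))) *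
      b ^ (20 * P + 1) ≤ b ^ (64 * P) * b ^ (16 * Q) / 2 := by
    have h1 : 4 * (b ^ m * (2 * (1 + Real.log (b ^ C + 1)) / (q * δ * (b ^ c) ^ j))) *
      b ^ (20 * P + 1) = (8 * b ^ m * (1 + Real.log (b ^ C + 1)) * b ^ (20 * P + 1)) /
        (q * δ * (b ^ c) ^ j) := by
      field_simp
      ring
    rw [h1, div_le_iff₀ hden]
    -- multiply by b^(64 R)
    have hR0 : 0 < b ^ (64 * R) := by positivity
    refine le_of_mul_le_mul_right ?_ hR0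
    calc 8 * b ^ m * (1 + Real.log (b ^ C + 1)) * b ^ (20 * P + 1) * b ^ (64 * R)
        ≤ 8 * b ^ m * ((C + 2) * b) * b ^ (20 * P + 1) * b ^ (64 * R) := by gcongr
      _ = (32 * (C + 2)) * b ^ (m + 20 * P + 2 + 64 * R) / 4 := by ring
      _ ≤ b * b ^ (m + 20 * P + 2 + 64 * R) / 4 := by gcongr
      _ = b ^ (m + 20 * P + 3 + 64 * R) / 4 := by ring
      _ ≤ b ^ (64 * P + 16 * Q + c * j + 32 * P) / 4 := by
          gcongr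
      _ = b ^ (64 * P) * b ^ (16 * Q) / 2 * (b ^ c) ^ j * b ^ (32 * P) / 2 := by
          rw [← pow_mul]
          ring
      _ ≤ b ^ (64 * P) * b ^ (16 * Q) / 2 * (b ^ c) ^ j * (2 * (q * (b ^ (64 * R) * δ))) / 2 := by
          gcongr
      _ = b ^ (64 * P) * b ^ (16 * Q) / 2 * (q * δ * (b ^ c) ^ j) * b ^ (64 * R) := by ring
  have hfst : 4 * (b ^ m * (4 * b ^ (16 * Q))) * b ^ (20 * P + 1) ≤
      b ^ (64 * P) * b ^ (16 * Q) / 2 := by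
    calc 4 * (b ^ m * (4 * b ^ (16 * Q))) * b ^ (20 * P + 1)
        = 32 * b ^ (m + 20 * P + 1) * b ^ (16 * Q) / 2 := by ring
      _ ≤ b * b ^ (m + 20 * P + 1) * b ^ (16 * Q) / 2 := by
          gcongr
          linarith
      _ = b ^ (m + 20 * P + 2) * b ^ (16 * Q) / 2 := by ring
      _ ≤ b ^ (64 * P) * b ^ (16 * Q) / 2 := by
          gcongr
          omega
  calc 4 * (b ^ m * (4 * b ^ (16 * Q) + 2 * (1 + Real.log (b ^ C + 1)) /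
      (q * δ * (b ^ c) ^ j))) * b ^ (20 * P + 1)
      = 4 * (b ^ m * (4 * b ^ (16 * Q))) * b ^ (20 * P + 1) +
        4 * (b ^ m * (2 * (1 + Real.log (b ^ C + 1)) / (q * δ * (b ^ c) ^ j))) *
          b ^ (20 * P + 1) := by ring
    _ ≤ b ^ (64 * P) * b ^ (16 * Q) := by linarith

private theorem Gn_C (κ m : ℕ) (hm : 1 ≤ m) :
    m ≤ (κ + 1) * m ∧ (64 * (κ + 1) * m - 16 * m) + 16 * m = 64 * ((κ + 1) * m) := by
  have h1 : m ≤ (κ + 1) * m := by nlinarith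
  have h2 : 64 * (κ + 1) * m = 64 * ((κ + 1) * m) := by ring
  refine ⟨h1, ?_⟩
  rw [h2]
  omega

theorem num_a (κ k m : ℕ) (hk : 2 ≤ k) (hm : 1 ≤ m) : ∃ B₀ : ℕ, ∀ B ≥ B₀,
    4 * ((k : ℝ) * (B : ℝ) ^ (16 * m * k)) * (B : ℝ) ^ (20 * (κ + 1) * m + 1) ≤
      (B : ℝ) ^ (64 * (κ + 1) * m) * (B : ℝ) ^ (16 * m * k) := by
  refine ⟨4 * k, fun B hB => ?_⟩
  obtain ⟨h1, -⟩ := Gn_C κ m hm
  have hb : 4 * (k : ℝ) ≤ B := by exact_mod_cast hB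
  have hk' : (2 : ℝ) ≤ k := by exact_mod_cast hk
  have hb1 : (1 : ℝ) ≤ B := by linarith
  have e2 : 64 * (κ + 1) * m = 64 * ((κ + 1) * m) := by ring
  have e3 : 20 * (κ + 1) * m = 20 * ((κ + 1) * m) := by ring
  rw [e2, e3]
  set P := (κ + 1) * m
  calc 4 * ((k : ℝ) * (B : ℝ) ^ (16 * m * k)) * (B : ℝ) ^ (20 * P + 1)
      = (4 * k) * (B : ℝ) ^ (20 * P + 1) * (B : ℝ) ^ (16 * m * k) := by ring
    _ ≤ B * (B : ℝ) ^ (20 * P + 1) * (B : ℝ) ^ (16 * m * k) := by gcongr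
    _ = (B : ℝ) ^ (20 * P + 2) * (B : ℝ) ^ (16 * m * k) := by ring
    _ ≤ (B : ℝ) ^ (64 * P) * (B : ℝ) ^ (16 * m * k) := by
        gcongr
        omega

theorem num_b (κ k m : ℕ) (hk : 2 ≤ k) (hm : 1 ≤ m) (hκ : 4 * (κ + 1) ≤ k) : ∃ B₀ : ℕ, ∀ B ≥ B₀,
    ∀ q : ℕ, 1 ≤ q → q ≤ B ^ (8 * m * k) →
    4 * ((B : ℝ) ^ m * (((B : ℝ) ^ (64 * (κ + 1) * m - 16 * m) + 1) / q + 1) *
        (2 * q * (1 + Real.log q))) * (B : ℝ) ^ (20 * (κ + 1) * m + 1) ≤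
      (B : ℝ) ^ (64 * (κ + 1) * m) * (B : ℝ) ^ (16 * m * k) := by
  refine ⟨384 * (m * k), fun B hB q hq1 hq2 => ?_⟩
  obtain ⟨h1, h2⟩ := Gn_C κ m hm
  have hb : 384 * ((m * k : ℕ) : ℝ) ≤ B := by exact_mod_cast hB
  have e2 : 64 * (κ + 1) * m = 64 * ((κ + 1) * m) := by ring
  have e3 : 20 * (κ + 1) * m = 20 * ((κ + 1) * m) := by ring
  have e4 : 16 * m * k = 16 * (m * k) := by ring
  have e5 : 8 * m * k = 8 * (m * k) := by ring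
  have hQ : 4 * ((κ + 1) * m) ≤ m * k := by nlinarith
  have hq2' : (q : ℝ) ≤ (B : ℝ) ^ (8 * (m * k)) := by
    rw [e5] at hq2
    exact_mod_cast hq2
  rw [e3, e4]
  nth_rewrite 2 [e2]
  exact Gn_b ((κ + 1) * m) (m * k) (64 * (κ + 1) * m - 16 * m) m h2 hQ hm h1 B hb q hq1 hq2'

theorem num_c1 (κ k m : ℕ) (hk : 2 ≤ k) (hm : 1 ≤ m) : ∃ B₀ : ℕ, ∀ B ≥ B₀,
    ∀ q : ℕ, 1 ≤ q → (B : ℝ) ^ (32 * (κ + 1) * m) ≤ 2 * q →
    4 * ((B : ℝ) ^ m * (((B : ℝ) ^ (64 * (κ + 1) * m - 16 * m) + 1) / q + 1) *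
        (B : ℝ) ^ (16 * m * k)) * (B : ℝ) ^ (20 * (κ + 1) * m + 1) ≤
      (B : ℝ) ^ (64 * (κ + 1) * m) * (B : ℝ) ^ (16 * m * k) := by
  refine ⟨20, fun B hB q hq1 hq2 => ?_⟩
  obtain ⟨h1, h2⟩ := Gn_C κ m hm
  have hb : (20 : ℝ) ≤ B := by exact_mod_cast hB
  have e2 : 64 * (κ + 1) * m = 64 * ((κ + 1) * m) := by ring
  have e3 : 20 * (κ + 1) * m = 20 * ((κ + 1) * m) := by ring
  have e4 : 16 * m * k = 16 * (m * k) := by ring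
  have e5 : 32 * (κ + 1) * m = 32 * ((κ + 1) * m) := by ring
  rw [e5] at hq2
  rw [e3, e4]
  nth_rewrite 2 [e2]
  exact Gn_c1 ((κ + 1) * m) (m * k) (64 * (κ + 1) * m - 16 * m) m h2 hm h1 B hb q hq1 hq2

theorem num_c2 (κ k m : ℕ) (hk : 2 ≤ k) (hkm : k ≤ m) : ∃ B₀ : ℕ, ∀ B ≥ B₀,
    ∀ (q : ℕ) (δ : ℝ), 1 ≤ q → 0 < δ →
    (B : ℝ) ^ (32 * (κ + 1) * m) ≤ 2 * (q * ((B : ℝ) ^ (64 * (κ + 1) * m * k) * δ)) →
    4 * ((B : ℝ) ^ m * (4 * (B : ℝ) ^ (16 * m * k) +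
        2 * (1 + Real.log ((B : ℝ) ^ (64 * (κ + 1) * m - 16 * m) + 1)) /
          (q * δ * ((B : ℝ) ^ (64 * (κ + 1) * m - 16 * m - 1)) ^ (k - 1)))) *
        (B : ℝ) ^ (20 * (κ + 1) * m + 1) ≤
      (B : ℝ) ^ (64 * (κ + 1) * m) * (B : ℝ) ^ (16 * m * k) := by
  have hm : 1 ≤ m := by omega
  refine ⟨32 * ((64 * (κ + 1) * m - 16 * m) + 2), fun B hB q δ hq1 hδ hq2 => ?_⟩
  obtain ⟨h1, h2⟩ := Gn_C κ m hm
  have hb : 32 * (((64 * (κ + 1) * m - 16 * m : ℕ) : ℝ) + 2) ≤ B := by exact_mod_cast hB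
  have e2 : 64 * (κ + 1) * m = 64 * ((κ + 1) * m) := by ring
  have e3 : 20 * (κ + 1) * m = 20 * ((κ + 1) * m) := by ring
  have e4 : 16 * m * k = 16 * (m * k) := by ring
  have e5 : 32 * (κ + 1) * m = 32 * ((κ + 1) * m) := by ring
  have e6 : 64 * (κ + 1) * m * k = 64 * ((κ + 1) * m * k) := by ring
  obtain ⟨j, rfl⟩ : ∃ j, k = j + 1 := ⟨k - 1, by omega⟩
  rw [e5, e6] at hq2
  rw [e3, e4, Nat.add_sub_cancel]
  nth_rewrite 3 [e2]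
  exact Gn_c2 ((κ + 1) * m) (m * (j + 1)) ((κ + 1) * m * (j + 1)) (64 * (κ + 1) * m - 16 * m) m j
    h2 hm hkm (by ring) (by ring) h1 B hb q δ hq1 hδ hq2

end Pool.Agent.Lib.MP_570bef_ntP
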