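import Pool.Agent.Lib.MP_570bef_ntP.Gc
import Pool.Agent.Lib.MP_570bef_ntP.Gn

/-!
# The large sieve constant, final form (job Gd)

`K = κ + 1`, `c = 64Km - 16m - 1`, `T = B^c`, `M = B^(c+1) = B^(64Km-16m)`, `L = B^(c+1) + 1`, `U = B^(16mk)`, `β = α - a/q`.  If `k < 4 K` the hypotheses are
contradictory (`k_large`, with `B ≥ 3`).  `rho k q ≤ B^m` (`rho_small`).  Split `PP B c` into the three filters: (a) `z` not coprime to `q`: at most `k` elements
(`div_part`, `8 m ≤ c`), each term `≤ U` (`mm_le`): `num_a`.  (b) coprime, `z^k ≢ p^k`: `noncong` (`|β| M^k 2q ≤ 1`: `|β| q ≤ B^(-(64Kmk-8mk))` and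
`M^k = B^(64Kmk - 16mk)`, `2 ≤ B^(8mk)`): `num_b`.  (c) coprime, `z^k ≡ p^k`: from `B^(32Km) ≤ q + q B^(64Kmk) |β|` either `B^(32Km) ≤ 2 q` (`cong_triv`, `num_c1`)
or `B^(32Km) ≤ 2 q B^(64Kmk) |β|` (then `β ≠ 0`; `cong_beta`, `num_c2`).  Each of the three parts times `4 B^(20Km+1)` is at most `B^(64Km) B^(16mk)`.
-/

set_option autoImplicit false

namespace Pool.Agent.Lib.MP_570bef_ntP

open Finset
open Pool.Agent.Lib.MP_2a816b_nt (e nn D)

private theorem Gd_split (S : Finset ℕ) (P Q : ℕ → Prop) [DecidablePred P] [DecidablePred Q]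
    (f : ℕ → ℝ) :
    ∑ z ∈ S, f z = ∑ z ∈ S.filter (fun z => ¬ P z), f z +
      (∑ z ∈ S.filter (fun z => P z ∧ ¬ Q z), f z + ∑ z ∈ S.filter (fun z => P z ∧ Q z), f z) := by
  have h1 := Finset.sum_filter_add_sum_filter_not S P f
  have h2 := Finset.sum_filter_add_sum_filter_not (S.filter P) Q f
  rw [Finset.filter_filter, Finset.filter_filter] at h2
  linarith

theorem g_bound (κ k m : ℕ) (hk : 2 ≤ k) (hkm : k ≤ m) : ∃ B₀ : ℕ, ∀ B ≥ B₀,
    ∀ (α : ℝ) (a : ℤ) (q : ℕ), 1 ≤ q → IsCoprime a (q : ℤ) → q ≤ B ^ (8 * m * k) →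
      |α - a / q| * (q * (B : ℝ) ^ (64 * (κ + 1) * m * k - 8 * m * k)) ≤ 1 →
      (B : ℝ) ^ (32 * (κ + 1) * m) ≤ q * (1 + (B : ℝ) ^ (64 * (κ + 1) * m * k) * |α - a / q|) →
      ∀ p ∈ PP B (64 * (κ + 1) * m - 16 * m - 1),
        (∑ z ∈ PP B (64 * (κ + 1) * m - 16 * m - 1),
            mm ((B : ℝ) ^ (16 * m * k)) (α * ((p : ℝ) ^ k - (z : ℝ) ^ k))) *
          (B : ℝ) ^ (20 * (κ + 1) * m + 1) ≤
        (B : ℝ) ^ (64 * (κ + 1) * m) * (B : ℝ) ^ (16 * m * k) := by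
  have hm : 1 ≤ m := by omega
  have hk1 : 1 ≤ k := by omega
  have h64 : 64 * m ≤ 64 * (κ + 1) * m := Nat.mul_le_mul_right m (by omega)
  by_cases hκ : 4 * (κ + 1) ≤ k
  · obtain ⟨B1, hB1⟩ := rho_small k m hk1 hm
    obtain ⟨B2, hB2⟩ := num_a κ k m hk hm
    obtain ⟨B3, hB3⟩ := num_b κ k m hk hm hκ
    obtain ⟨B4, hB4⟩ := num_c1 κ k m hk hm
    obtain ⟨B5, hB5⟩ := num_c2 κ k m hk hkm
    refine ⟨max 3 (max B1 (max B2 (max B3 (max B4 B5)))), fun B hB => ?_⟩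
    intro α a q hq1 haq hq hδ hQ p hp
    have hB3' : 3 ≤ B := le_trans (le_max_left _ _) hB
    have hBB := le_trans (le_max_right _ _) hB
    have hBB1 : B1 ≤ B := le_trans (le_max_left _ _) hBB
    have hBB' := le_trans (le_max_right _ _) hBB
    have hBB2 : B2 ≤ B := le_trans (le_max_left _ _) hBB'
    have hBBc := le_trans (le_max_right _ _) hBB'
    have hBB3 : B3 ≤ B := le_trans (le_max_left _ _) hBBc
    have hBBd := le_trans (le_max_right _ _) hBBc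
    have hBB4 : B4 ≤ B := le_trans (le_max_left _ _) hBBd
    have hBB5 : B5 ≤ B := le_trans (le_max_right _ _) hBBd
    have rs := hB1 B hBB1 q hq1 hq
    have na := hB2 B hBB2
    have nb := hB3 B hBB3 q hq1 hq
    have nc1 := hB4 B hBB4 q hq1
    have nc2 := hB5 B hBB5 q |α - a / q| hq1
    have hBr : (3 : ℝ) ≤ B := by exact_mod_cast hB3'
    have hB0 : (0 : ℝ) < B := by linarith
    have hB1r : (1 : ℝ) ≤ B := by linarith
    obtain ⟨c, hcdef⟩ : ∃ c : ℕ, c = 64 * (κ + 1) * m - 16 * m - 1 := ⟨_, rfl⟩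
    have hc1 : c + 1 = 64 * (κ + 1) * m - 16 * m := by omega
    have hc8 : 8 * m ≤ c := by omega
    rw [← hcdef] at hp ⊢
    have hqr : (1 : ℝ) ≤ q := by exact_mod_cast hq1
    have hlogq : 0 ≤ Real.log q := Real.log_nonneg hqr
    obtain ⟨β, hβdef⟩ : ∃ β : ℝ, β = α - a / q := ⟨_, rfl⟩
    have hα : α = a / q + β := by rw [hβdef]; ring
    rw [← hβdef] at hδ hQ nc2
    have hβ0 : 0 ≤ |β| := abs_nonneg β
    have hrho : (rho k q : ℝ) ≤ (B : ℝ) ^ m := by exact_mod_cast rs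
    have hrho0 : (0 : ℝ) ≤ rho k q := Nat.cast_nonneg _
    have hU : 0 ≤ (B : ℝ) ^ (16 * m * k) := by positivity
    have hPP : ∀ z ∈ PP B c, B ^ c < z ∧ z ≤ B ^ (c + 1) := by
      intro z hz
      unfold PP at hz
      rw [mem_filter, Finset.mem_Ioc] at hz
      exact hz.1
    have hMr : ∀ z ∈ PP B c, (z : ℝ) ≤ (B : ℝ) ^ (c + 1) := by
      intro z hz
      exact_mod_cast (hPP z hz).2
    have hTr : ∀ z ∈ PP B c, (B : ℝ) ^ c ≤ z := by
      intro z hz
      exact_mod_cast (hPP z hz).1.le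
    have hLt : ∀ z ∈ PP B c, z < B ^ (c + 1) + 1 := fun z hz => Nat.lt_succ_of_le (hPP z hz).2
    have hLr : ((B ^ (c + 1) + 1 : ℕ) : ℝ) = (B : ℝ) ^ (64 * (κ + 1) * m - 16 * m) + 1 := by
      rw [← hc1]
      push_cast
      ring
    -- the size of `β`
    have e1 : (c + 1) * k + 8 * m * k = 64 * (κ + 1) * m * k - 8 * m * k := by
      rw [hc1, Nat.sub_mul]
      have h1 : 64 * m * k ≤ 64 * (κ + 1) * m * k := Nat.mul_le_mul_right k h64
      have h2 : 16 * m * k ≤ 64 * m * k := Nat.mul_le_mul_right k (by omega)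
      have h3 : 16 * m * k = 8 * m * k + 8 * m * k := by ring
      omega
    have hβ1 : |β| * ((B : ℝ) ^ (c + 1)) ^ k * (2 * q) ≤ 1 := by
      have h1 : (2 : ℝ) ≤ (B : ℝ) ^ (8 * m * k) := by
        have h2 : 8 * m * k ≠ 0 := by positivity
        calc (2 : ℝ) ≤ B := by linarith
          _ ≤ (B : ℝ) ^ (8 * m * k) := le_self_pow₀ hB1r h2
      calc |β| * ((B : ℝ) ^ (c + 1)) ^ k * (2 * q)
          = (|β| * q * (B : ℝ) ^ ((c + 1) * k)) * 2 := by rw [pow_mul]; ring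
        _ ≤ (|β| * q * (B : ℝ) ^ ((c + 1) * k)) * (B : ℝ) ^ (8 * m * k) :=
            mul_le_mul_of_nonneg_left h1 (by positivity)
        _ = |β| * (q * (B : ℝ) ^ (64 * (κ + 1) * m * k - 8 * m * k)) := by
            rw [← e1, pow_add]; ring
        _ ≤ 1 := hδ
    have hβ2 : |β| * ((B : ℝ) ^ (c + 1)) ^ k * 2 ≤ 1 := by
      refine le_trans ?_ hβ1
      have h1 : 0 ≤ |β| * ((B : ℝ) ^ (c + 1)) ^ k := by positivity
      nlinarith
    rw [Gd_split (PP B c) (fun z => z.Coprime q) (fun z => z ^ k ≡ p ^ k [MOD q])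
      (fun z => mm ((B : ℝ) ^ (16 * m * k)) (α * ((p : ℝ) ^ k - (z : ℝ) ^ k)))]
    -- part (a)
    have pa : ∑ z ∈ (PP B c).filter (fun z => ¬ z.Coprime q),
        mm ((B : ℝ) ^ (16 * m * k)) (α * ((p : ℝ) ^ k - (z : ℝ) ^ k)) ≤
        (k : ℝ) * (B : ℝ) ^ (16 * m * k) := by
      refine (Finset.sum_le_card_nsmul _ _ ((B : ℝ) ^ (16 * m * k))
        (fun z _ => mm_le _ _ hU)).trans ?_
      rw [nsmul_eq_mul]
      refine mul_le_mul_of_nonneg_right ?_ hU
      exact_mod_cast div_part k m c B q hm (by omega) hc8 hq1 hq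
    -- part (b)
    have pb := noncong k q (B ^ (c + 1) + 1) p a α β ((B : ℝ) ^ (c + 1)) ((B : ℝ) ^ (16 * m * k))
      hk1 hq1 haq hα hβ1 (hMr p hp) hU
      ((PP B c).filter (fun z => z.Coprime q ∧ ¬ z ^ k ≡ p ^ k [MOD q])) (by
        intro z hz
        rw [mem_filter] at hz
        exact ⟨hz.2.1, hLt z hz.1, hMr z hz.1, hz.2.2⟩)
    rw [hLr] at pb
    have pb' : (rho k q : ℝ) * (((B : ℝ) ^ (64 * (κ + 1) * m - 16 * m) + 1) / q + 1) *
        (2 * q * (1 + Real.log q)) ≤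
        (B : ℝ) ^ m * (((B : ℝ) ^ (64 * (κ + 1) * m - 16 * m) + 1) / q + 1) *
        (2 * q * (1 + Real.log q)) := by
      refine mul_le_mul_of_nonneg_right (mul_le_mul_of_nonneg_right hrho ?_) ?_ <;> positivity
    -- part (c)
    obtain ⟨C3, pc, nc⟩ : ∃ C3 : ℝ, ∑ z ∈ (PP B c).filter
        (fun z => z.Coprime q ∧ z ^ k ≡ p ^ k [MOD q]),
        mm ((B : ℝ) ^ (16 * m * k)) (α * ((p : ℝ) ^ k - (z : ℝ) ^ k)) ≤ C3 ∧
        4 * C3 * (B : ℝ) ^ (20 * (κ + 1) * m + 1) ≤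
        (B : ℝ) ^ (64 * (κ + 1) * m) * (B : ℝ) ^ (16 * m * k) := by
      by_cases hcase : (B : ℝ) ^ (32 * (κ + 1) * m) ≤ 2 * q
      · refine ⟨(B : ℝ) ^ m * (((B : ℝ) ^ (64 * (κ + 1) * m - 16 * m) + 1) / q + 1) *
          (B : ℝ) ^ (16 * m * k), ?_, nc1 hcase⟩
        have h1 := cong_triv k q (B ^ (c + 1) + 1) p α ((B : ℝ) ^ (16 * m * k)) hk1 hq1 hU
          ((PP B c).filter (fun z => z.Coprime q ∧ z ^ k ≡ p ^ k [MOD q])) (by
            intro z hz
            rw [mem_filter] at hz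
            exact ⟨hz.2.1, hLt z hz.1, hz.2.2⟩)
        rw [hLr] at h1
        refine h1.trans ?_
        refine mul_le_mul_of_nonneg_right (mul_le_mul_of_nonneg_right hrho ?_) hU
        positivity
      · rw [not_le] at hcase
        have h2 : (B : ℝ) ^ (32 * (κ + 1) * m) ≤
            2 * (q * ((B : ℝ) ^ (64 * (κ + 1) * m * k) * |β|)) := by
          have h3 : (q : ℝ) * (1 + (B : ℝ) ^ (64 * (κ + 1) * m * k) * |β|) =
              q + q * ((B : ℝ) ^ (64 * (κ + 1) * m * k) * |β|) := by ring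
          rw [h3] at hQ
          linarith
        have hβpos : 0 < |β| := by
          rcases hβ0.lt_or_eq with h | h
          · exact h
          · exfalso
            rw [← h, mul_zero, mul_zero, mul_zero] at h2
            have h3 : 0 < (B : ℝ) ^ (32 * (κ + 1) * m) := by positivity
            linarith
        refine ⟨_, ?_, nc2 hβpos h2⟩
        have h1 := cong_beta k q (B ^ (c + 1) + 1) p a α β ((B : ℝ) ^ (c + 1)) ((B : ℝ) ^ c)
          ((B : ℝ) ^ (16 * m * k)) hk1 hq1 hα (abs_pos.mp hβpos) hβ2 (by positivity)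
          (hTr p hp) (hMr p hp) (hLt p hp) hU
          ((PP B c).filter (fun z => z.Coprime q ∧ z ^ k ≡ p ^ k [MOD q])) (by
            intro z hz
            rw [mem_filter] at hz
            exact ⟨hz.2.1, hLt z hz.1, hMr z hz.1, hTr z hz.1, hz.2.2⟩)
        rw [hLr] at h1
        rw [← hcdef]
        refine h1.trans ?_
        refine mul_le_mul_of_nonneg_right hrho ?_
        have h5 : 0 ≤ Real.log ((B : ℝ) ^ (64 * (κ + 1) * m - 16 * m) + 1) := by
          apply Real.log_nonneg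
          have : 0 ≤ (B : ℝ) ^ (64 * (κ + 1) * m - 16 * m) := by positivity
          linarith
        positivity
    have hW : 0 ≤ (B : ℝ) ^ (20 * (κ + 1) * m + 1) := by positivity
    have f1 := mul_le_mul_of_nonneg_right pa hW
    have f2 := mul_le_mul_of_nonneg_right (pb.trans pb') hW
    have f3 := mul_le_mul_of_nonneg_right pc hW
    have hR : 0 ≤ (B : ℝ) ^ (64 * (κ + 1) * m) * (B : ℝ) ^ (16 * m * k) := by positivity
    rw [add_mul, add_mul]
    linarith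
  · refine ⟨3, fun B hB => ?_⟩
    intro α a q hq1 haq hq hδ hQ p hp
    exact absurd (k_large κ k m B q |α - a / q| hm hB hq1 hq (abs_nonneg _) hδ hQ) hκ

end Pool.Agent.Lib.MP_570bef_ntP
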