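import Pool.Agent.Lib.MP_570bef_ntP.Bas

/-!
# The sum over the major arcs (job Maj)

`inner_sum`: let `n = ⌊y⌋`.  The `b ≤ n` are `b = n - j`, `j ≥ 0`, with `|b - y| ≥ j`; the `b > n` are `b = n + 1 + j` with `|b - y| ≥ j`.  So the sum is at most
`2 ∑_{j < J} 1 / (1 + c j)²` for some `J` (`y` may be negative or larger than `R`: only the two injections into `ℕ` are needed), and
`1 / (1 + c j)² ≤ 1 / ((1 + c (j-1)) (1 + c j)) = (1/c) (1 / (1 + c (j-1)) - 1 / (1 + c j))` telescopes: `∑ ≤ 1 + 1/c`, total `≤ 2 (1 + 1/c) ≤ 4 / c`.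
`major_sum`: put `T = sup of q b` over `b ∈ S`.  The sum is at most `∑_{q=1}^{T} ∑_{a=0}^{q} ∑_{b < R} 1 / (q (1 + N |b/R - a/q|))^4` (each `b ∈ S` occurs with
`(q b, a b)`), and `1/(q(1+N|b/R - a/q|))^4 ≤ q^(-4) / (1 + (N/R) |b - a R/q|)²`, `inner_sum` with `c = N/R`: at most
`∑_q (q + 1) q^(-4) 4 R/N ≤ 8 (R/N) ∑ q^(-3) ≤ 16 R / N` (`∑_{q ≤ T} 1/q² ≤ 2`).
-/

set_option autoImplicit false

namespace Pool.Agent.Lib.MP_570bef_ntP

open Finset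
open Pool.Agent.Lib.MP_2a816b_nt (e nn D)

private theorem Maj_tele (c : ℝ) (hc : 0 < c) (J : ℕ) :
    ∑ j ∈ range (J + 1), 1 / (1 + c * (j : ℝ)) ^ 2 ≤ 1 + 1 / c - 1 / (c * (1 + c * J)) := by
  induction J with
  | zero =>
    rw [zero_add, Finset.sum_range_one]
    push_cast
    rw [mul_zero, add_zero, mul_one]
    norm_num
  | succ J ih =>
    rw [Finset.sum_range_succ]
    have h1 : (0 : ℝ) < 1 + c * J := by positivity
    have h2 : (0 : ℝ) < 1 + c * ((J + 1 : ℕ) : ℝ) := by positivity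
    have h3 : 1 / (1 + c * ((J + 1 : ℕ) : ℝ)) ^ 2 ≤
        1 / ((1 + c * J) * (1 + c * ((J + 1 : ℕ) : ℝ))) := by
      apply one_div_le_one_div_of_le (by positivity)
      rw [pow_two]
      apply mul_le_mul_of_nonneg_right _ h2.le
      push_cast
      linarith
    have h4 : 1 / (c * (1 + c * J)) - 1 / (c * (1 + c * ((J + 1 : ℕ) : ℝ))) =
        1 / ((1 + c * J) * (1 + c * ((J + 1 : ℕ) : ℝ))) := by
      field_simp
      push_cast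
      ring
    linarith

private theorem Maj_inj (c y : ℝ) (hc : 0 < c) (S : Finset ℕ) (φ : ℕ → ℕ)
    (hφ : Set.InjOn φ (S : Set ℕ)) (h : ∀ b ∈ S, (φ b : ℝ) ≤ |(b : ℝ) - y|) :
    ∑ b ∈ S, 1 / (1 + c * |(b : ℝ) - y|) ^ 2 ≤ 1 + 1 / c := by
  have h1 : ∑ b ∈ S, 1 / (1 + c * |(b : ℝ) - y|) ^ 2 ≤ ∑ b ∈ S, 1 / (1 + c * (φ b : ℝ)) ^ 2 := by
    refine Finset.sum_le_sum fun b hb => ?_
    apply one_div_le_one_div_of_le (by positivity)
    apply pow_le_pow_left₀ (by positivity)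
    have := mul_le_mul_of_nonneg_left (h b hb) hc.le
    linarith
  have h2 : ∑ b ∈ S, 1 / (1 + c * (φ b : ℝ)) ^ 2 = ∑ j ∈ S.image φ, 1 / (1 + c * (j : ℝ)) ^ 2 := by
    rw [Finset.sum_image]
    intro x hx z hz hxz
    exact hφ hx hz hxz
  have h3 : ∑ j ∈ S.image φ, 1 / (1 + c * (j : ℝ)) ^ 2 ≤
      ∑ j ∈ range ((S.image φ).sup id + 1), 1 / (1 + c * (j : ℝ)) ^ 2 := by
    refine Finset.sum_le_sum_of_subset_of_nonneg ?_ fun j _ _ => by positivity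
    intro j hj
    rw [mem_range]
    exact Nat.lt_succ_of_le (Finset.le_sup (f := id) hj)
  have h4 := Maj_tele c hc ((S.image φ).sup id)
  have h5 : 0 ≤ 1 / (c * (1 + c * (((S.image φ).sup id : ℕ) : ℝ))) := by positivity
  linarith

theorem inner_sum (c y : ℝ) (hc : 0 < c) (hc1 : c ≤ 1) (R : ℕ) :
    ∑ b ∈ range R, 1 / (1 + c * |(b : ℝ) - y|) ^ 2 ≤ 4 / c := by
  classical
  have hfl := Int.floor_le y
  have hlf := Int.lt_floor_add_one y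
  rw [← Finset.sum_filter_add_sum_filter_not (range R) (fun b : ℕ => (b : ℤ) ≤ ⌊y⌋)]
  have h1 : ∑ b ∈ (range R).filter (fun b : ℕ => (b : ℤ) ≤ ⌊y⌋), 1 / (1 + c * |(b : ℝ) - y|) ^ 2 ≤
      1 + 1 / c := by
    refine Maj_inj c y hc _ (fun b => (⌊y⌋ - (b : ℤ)).toNat) ?_ ?_
    · intro b hb b' hb' hbb
      have hb1 : (b : ℤ) ≤ ⌊y⌋ := (mem_filter.1 hb).2
      have hb2 : (b' : ℤ) ≤ ⌊y⌋ := (mem_filter.1 hb').2
      simp only at hbb
      omega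
    · intro b hb
      have hb1 : (b : ℤ) ≤ ⌊y⌋ := (mem_filter.1 hb).2
      have e1 : (((⌊y⌋ - (b : ℤ)).toNat : ℕ) : ℝ) = (⌊y⌋ : ℝ) - b := by
        have h : (((⌊y⌋ - (b : ℤ)).toNat : ℕ) : ℤ) = ⌊y⌋ - b := Int.toNat_of_nonneg (by omega)
        have h' : ((((⌊y⌋ - (b : ℤ)).toNat : ℕ) : ℤ) : ℝ) = ((⌊y⌋ - b : ℤ) : ℝ) := by rw [h]
        push_cast at h'
        exact h'
      rw [e1, abs_sub_comm]
      exact le_trans (by linarith) (le_abs_self _)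
  have h2 : ∑ b ∈ (range R).filter (fun b : ℕ => ¬ (b : ℤ) ≤ ⌊y⌋), 1 / (1 + c * |(b : ℝ) - y|) ^ 2 ≤
      1 + 1 / c := by
    refine Maj_inj c y hc _ (fun b => ((b : ℤ) - ⌊y⌋ - 1).toNat) ?_ ?_
    · intro b hb b' hb' hbb
      have hb1 : ¬ (b : ℤ) ≤ ⌊y⌋ := (mem_filter.1 hb).2
      have hb2 : ¬ (b' : ℤ) ≤ ⌊y⌋ := (mem_filter.1 hb').2
      simp only at hbb
      omega
    · intro b hb
      have hb1 : ¬ (b : ℤ) ≤ ⌊y⌋ := (mem_filter.1 hb).2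
      have e1 : ((((b : ℤ) - ⌊y⌋ - 1).toNat : ℕ) : ℝ) = (b : ℝ) - ⌊y⌋ - 1 := by
        have h : ((((b : ℤ) - ⌊y⌋ - 1).toNat : ℕ) : ℤ) = (b : ℤ) - ⌊y⌋ - 1 :=
          Int.toNat_of_nonneg (by omega)
        have h' : (((((b : ℤ) - ⌊y⌋ - 1).toNat : ℕ) : ℤ) : ℝ) = (((b : ℤ) - ⌊y⌋ - 1 : ℤ) : ℝ) := by
          rw [h]
        push_cast at h'
        exact h'
      rw [e1]
      exact le_trans (by linarith) (le_abs_self _)
  have h3 : 1 ≤ 1 / c := by rw [le_div_iff₀ hc]; linarith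
  have h4 : 4 / c = 4 * (1 / c) := by ring
  rw [h4]
  linarith

private theorem Maj_sq (T : ℕ) : ∑ i ∈ range (T + 1), 1 / ((i : ℝ) + 1) ^ 2 ≤ 2 - 1 / ((T : ℝ) + 1) := by
  induction T with
  | zero =>
    rw [zero_add, Finset.sum_range_one]
    norm_num
  | succ T ih =>
    rw [Finset.sum_range_succ]
    have h1 : (0 : ℝ) < (T : ℝ) + 1 := by positivity
    have h3 : 1 / (((T + 1 : ℕ) : ℝ) + 1) ^ 2 ≤ 1 / (((T : ℝ) + 1) * (((T + 1 : ℕ) : ℝ) + 1)) := by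
      apply one_div_le_one_div_of_le (by positivity)
      rw [pow_two]
      apply mul_le_mul_of_nonneg_right _ (by positivity)
      push_cast
      linarith
    have h4 : 1 / ((T : ℝ) + 1) - 1 / (((T + 1 : ℕ) : ℝ) + 1) =
        1 / (((T : ℝ) + 1) * (((T + 1 : ℕ) : ℝ) + 1)) := by
      push_cast
      field_simp
      ring
    linarith

private theorem Maj_G (N R : ℕ) (hN : 1 ≤ N) (hR : N ≤ R) (i a' : ℕ) :
    ∑ b ∈ range R, 1 / (((i + 1 : ℕ) : ℝ) * (1 + N * |(b : ℝ) / R - a' / ((i + 1 : ℕ) : ℝ)|)) ^ 4 ≤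
      1 / ((i : ℝ) + 1) ^ 4 * (4 * ((R : ℝ) / N)) := by
  have hNR : (0 : ℝ) < N := by exact_mod_cast hN
  have hRR : (0 : ℝ) < R := by exact_mod_cast (lt_of_lt_of_le hN hR)
  have hNR1 : (N : ℝ) / R ≤ 1 := by
    rw [div_le_one hRR]
    exact_mod_cast hR
  have h1 := inner_sum ((N : ℝ) / R) (a' * R / ((i + 1 : ℕ) : ℝ)) (by positivity) hNR1 R
  have h2 : ∀ b ∈ range R,
      1 / (((i + 1 : ℕ) : ℝ) * (1 + N * |(b : ℝ) / R - a' / ((i + 1 : ℕ) : ℝ)|)) ^ 4 ≤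
      1 / ((i : ℝ) + 1) ^ 4 * (1 / (1 + (N : ℝ) / R * |(b : ℝ) - a' * R / ((i + 1 : ℕ) : ℝ)|) ^ 2) := by
    intro b _
    have h3 : (N : ℝ) * |(b : ℝ) / R - a' / ((i + 1 : ℕ) : ℝ)| =
        (N : ℝ) / R * |(b : ℝ) - a' * R / ((i + 1 : ℕ) : ℝ)| := by
      have h4 : (b : ℝ) - a' * R / ((i + 1 : ℕ) : ℝ) = ((b : ℝ) / R - a' / ((i + 1 : ℕ) : ℝ)) * R := by
        field_simp
      rw [h4, abs_mul, abs_of_pos hRR]
      field_simp
    rw [h3]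
    obtain ⟨x, hx⟩ : ∃ x, x = (N : ℝ) / R * |(b : ℝ) - a' * R / ((i + 1 : ℕ) : ℝ)| := ⟨_, rfl⟩
    have hx0 : 0 ≤ x := by rw [hx]; positivity
    rw [← hx, mul_pow, ← one_div_mul_one_div]
    push_cast
    refine mul_le_mul_of_nonneg_left ?_ (by positivity)
    apply one_div_le_one_div_of_le (by positivity)
    exact pow_le_pow_right₀ (by linarith) (by norm_num)
  refine (Finset.sum_le_sum h2).trans ?_
  rw [← Finset.mul_sum]
  refine mul_le_mul_of_nonneg_left (h1.trans (le_of_eq ?_)) (by positivity)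
  field_simp

theorem major_sum (N R : ℕ) (hN : 1 ≤ N) (hR : N ≤ R) (S : Finset ℕ) (hS : S ⊆ range R)
    (q : ℕ → ℕ) (a : ℕ → ℤ) (hq : ∀ b ∈ S, 1 ≤ q b ∧ 0 ≤ a b ∧ a b ≤ q b) :
    ∑ b ∈ S, 1 / ((q b : ℝ) * (1 + N * |(b : ℝ) / R - a b / q b|)) ^ 4 ≤
      1000 * ((R : ℝ) / N) := by
  have hNR : (0 : ℝ) < N := by exact_mod_cast hN
  have hRR : (0 : ℝ) < R := by exact_mod_cast (lt_of_lt_of_le hN hR)
  obtain ⟨T, hT⟩ : ∃ T, T = S.sup q := ⟨_, rfl⟩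
  have h1 : ∀ b ∈ S, 1 / ((q b : ℝ) * (1 + N * |(b : ℝ) / R - a b / q b|)) ^ 4 ≤
      ∑ i ∈ range (T + 1), ∑ a' ∈ range (i + 2),
        1 / (((i + 1 : ℕ) : ℝ) * (1 + N * |(b : ℝ) / R - a' / ((i + 1 : ℕ) : ℝ)|)) ^ 4 := by
    intro b hb
    obtain ⟨hq1, ha0, haq⟩ := hq b hb
    have hqT : q b ≤ T := by rw [hT]; exact Finset.le_sup hb
    have e1 : q b - 1 + 1 = q b := by omega
    have e2 : (((a b).toNat : ℕ) : ℝ) = (a b : ℝ) := by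
      have h : (((a b).toNat : ℕ) : ℤ) = a b := Int.toNat_of_nonneg ha0
      exact_mod_cast h
    have h2 : 1 / ((q b : ℝ) * (1 + N * |(b : ℝ) / R - a b / q b|)) ^ 4 ≤
        ∑ a' ∈ range (q b - 1 + 2),
        1 / (((q b - 1 + 1 : ℕ) : ℝ) * (1 + N * |(b : ℝ) / R - a' / ((q b - 1 + 1 : ℕ) : ℝ)|)) ^ 4 := by
      have h3 := Finset.single_le_sum (s := range (q b - 1 + 2)) (f := fun a' : ℕ =>
        1 / (((q b - 1 + 1 : ℕ) : ℝ) * (1 + N * |(b : ℝ) / R - a' / ((q b - 1 + 1 : ℕ) : ℝ)|)) ^ 4)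
        (fun x _ => by positivity) (mem_range.2 (show (a b).toNat < q b - 1 + 2 by omega))
      simp only [e1] at h3 ⊢
      rw [e2] at h3
      exact h3
    refine h2.trans ?_
    exact Finset.single_le_sum (s := range (T + 1)) (f := fun i : ℕ => ∑ a' ∈ range (i + 2),
        1 / (((i + 1 : ℕ) : ℝ) * (1 + N * |(b : ℝ) / R - a' / ((i + 1 : ℕ) : ℝ)|)) ^ 4)
        (fun x _ => Finset.sum_nonneg fun y _ => by positivity)
        (mem_range.2 (show q b - 1 < T + 1 by omega))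
  refine (Finset.sum_le_sum h1).trans ?_
  have h4 : ∑ b ∈ S, ∑ i ∈ range (T + 1), ∑ a' ∈ range (i + 2),
        1 / (((i + 1 : ℕ) : ℝ) * (1 + N * |(b : ℝ) / R - a' / ((i + 1 : ℕ) : ℝ)|)) ^ 4 ≤
      ∑ b ∈ range R, ∑ i ∈ range (T + 1), ∑ a' ∈ range (i + 2),
        1 / (((i + 1 : ℕ) : ℝ) * (1 + N * |(b : ℝ) / R - a' / ((i + 1 : ℕ) : ℝ)|)) ^ 4 :=
    Finset.sum_le_sum_of_subset_of_nonneg hS fun b _ _ =>
      Finset.sum_nonneg fun i _ => Finset.sum_nonneg fun y _ => by positivity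
  refine h4.trans ?_
  rw [Finset.sum_comm]
  have h5 : ∀ i ∈ range (T + 1), ∑ b ∈ range R, ∑ a' ∈ range (i + 2),
        1 / (((i + 1 : ℕ) : ℝ) * (1 + N * |(b : ℝ) / R - a' / ((i + 1 : ℕ) : ℝ)|)) ^ 4 ≤
        8 * ((R : ℝ) / N) * (1 / ((i : ℝ) + 1) ^ 2) := by
    intro i _
    rw [Finset.sum_comm]
    refine (Finset.sum_le_sum fun a' _ => Maj_G N R hN hR i a').trans ?_
    rw [Finset.sum_const, card_range, nsmul_eq_mul]
    have h6 : ((i + 2 : ℕ) : ℝ) * (1 / ((i : ℝ) + 1) ^ 4) ≤ 2 * (1 / ((i : ℝ) + 1) ^ 2) := by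
      have h7 : (0 : ℝ) < (i : ℝ) + 1 := by positivity
      rw [mul_one_div, mul_one_div, div_le_div_iff₀ (by positivity) (by positivity)]
      push_cast
      have h8 : (i : ℝ) + 2 ≤ 2 * ((i : ℝ) + 1) ^ 2 := by
        have h9 : (0 : ℝ) ≤ i := Nat.cast_nonneg i
        nlinarith
      have h10 := mul_le_mul_of_nonneg_right h8 (by positivity : (0 : ℝ) ≤ ((i : ℝ) + 1) ^ 2)
      linarith
    have h11 := mul_le_mul_of_nonneg_right h6 (by positivity : (0 : ℝ) ≤ 4 * ((R : ℝ) / N))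
    linarith
  refine (Finset.sum_le_sum h5).trans ?_
  rw [← Finset.mul_sum]
  have h12 := Maj_sq T
  have h13 : 0 ≤ 1 / ((T : ℝ) + 1) := by positivity
  have h14 : ∑ i ∈ range (T + 1), 1 / ((i : ℝ) + 1) ^ 2 ≤ 2 := by linarith
  have h15 : 0 ≤ 8 * ((R : ℝ) / N) := by positivity
  have h16 := mul_le_mul_of_nonneg_left h14 h15
  have h17 : 0 ≤ (R : ℝ) / N := by positivity
  linarith

end Pool.Agent.Lib.MP_570bef_ntP
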