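import Pool.Agent.Lib.MP_570bef_ntP.Step

/-!
# The mean value theorem: induction (job MvA)

`XX_facts`: by induction on `i`.  All prime factors of the elements of `XX B es i` lie in some `PP B (es a)`, `a < i`, so they are `≤ B^(es a + 1) ≤ B^(es i)`,
while the primes of `PP B (es i)` are `> B^(es i)`.  (Prove by induction: every prime dividing `x ∈ XX B es i` is `≤ B ^ (es i)`.)  The size: `p x ≤
B^(es i + 1) B^(ms es i) = B^(ms es (i+1))`.  The cardinality: `card_prodset`.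
`mv_ind`: by induction on `i` for all `l`.  `i = 0`: `TT k l {1} = 1`, equality.  Step: write `P = PP B (es i)`, `X = XX B es i`,
`d = ms es (i+1) - (i+1)`; `step` applies: the primes of `P` are odd (`> B^(es i) ≥ 2`), and `q x ≤ B^(ms es (i+1)) ≤ B^(k es i) < p^k`.
`B^d ≤ |P| |X|`: `d = ∑_{a ≤ i} es a` and `B^(es a) ≤ #PP B (es a)` for all `a ≤ i < j`.
`B^d ≤ |P|^(2l-1)`: `d ≤ ms es (i+1) ≤ k es i ≤ (2l-1) es i`, `B^(es i) ≤ |P|`.
With `Σ_i` the exponent sum and the induction hypotheses for `l` and `l - 1` (`l ≥ k + (i+1)` gives both):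
`TT(prodset) B^(Σ_i + d) ≤ 4^l |P| (C |X|^(2l)) B^d + 4 k |P|^(2l-1) |X| (C' |X|^(2l-2)) B^d ≤ (4^l C + 4 k C') (|P| |X|)^(2l)`,
`C = (4^l + 4k)^i`, `C' = (4^(l-1) + 4k)^i ≤ C`.
-/

set_option autoImplicit false

namespace Pool.Agent.Lib.MP_570bef_ntP

open Finset
open Pool.Agent.Lib.MP_2a816b_nt (e nn D)

/-- the sets of products of primes -/
noncomputable def XX (B : ℕ) (es : ℕ → ℕ) : ℕ → Finset ℕ
  | 0 => {1}
  | i + 1 => prodset (PP B (es i)) (XX B es i)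

private theorem MvA_ms_succ (es : ℕ → ℕ) (i : ℕ) : ms es (i + 1) = ms es i + (es i + 1) := by
  unfold ms
  exact sum_range_succ _ _

private theorem MvA_inv (B : ℕ) (es : ℕ → ℕ) (hB : 2 ≤ B) (h2 : ∀ i, es i + 1 ≤ es (i + 1))
    (i : ℕ) : ∀ x ∈ XX B es i, 1 ≤ x ∧ x ≤ B ^ ms es i ∧ ∀ p, p.Prime → p ∣ x → p ≤ B ^ es i := by
  induction i with
  | zero =>
    intro x hx
    have hx1 : x = 1 := by
      unfold XX at hx
      exact mem_singleton.1 hx
    subst hx1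
    refine ⟨le_rfl, Nat.one_le_pow _ _ (by omega), ?_⟩
    intro p hp hd
    exact absurd (Nat.dvd_one.1 hd) hp.one_lt.ne'
  | succ i ih =>
    intro x hx
    unfold XX prodset at hx
    obtain ⟨w, hw, rfl⟩ := mem_image.1 hx
    obtain ⟨hw1, hw2⟩ := mem_product.1 hw
    obtain ⟨hp1, hp2⟩ := mem_filter.1 hw1
    rw [mem_Ioc] at hp1
    obtain ⟨i1, i2, i3⟩ := ih w.2 hw2
    have hB1 : B ^ (es i + 1) ≤ B ^ es (i + 1) := Nat.pow_le_pow_right (by omega) (h2 i)
    have hB2 : B ^ es i ≤ B ^ es (i + 1) :=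
      Nat.pow_le_pow_right (by omega) ((Nat.le_succ _).trans (h2 i))
    refine ⟨Nat.mul_pos hp2.pos i1, ?_, ?_⟩
    · rw [MvA_ms_succ, pow_add, mul_comm (B ^ ms es i)]
      exact Nat.mul_le_mul hp1.2 i2
    · intro p hp hd
      rcases (Nat.Prime.dvd_mul hp).1 hd with h | h
      · have : p = w.1 := (Nat.prime_dvd_prime_iff_eq hp hp2).1 h
        rw [this]
        exact hp1.2.trans hB1
      · exact (i3 p hp h).trans hB2

private theorem MvA_cop (B : ℕ) (es : ℕ → ℕ) (hB : 2 ≤ B) (h2 : ∀ i, es i + 1 ≤ es (i + 1))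
    (i : ℕ) : ∀ x ∈ XX B es i, ∀ p ∈ PP B (es i), x.Coprime p := by
  intro x hx p hp
  obtain ⟨hp1, hp2⟩ := mem_filter.1 hp
  rw [mem_Ioc] at hp1
  rw [Nat.coprime_comm, hp2.coprime_iff_not_dvd]
  intro hd
  have := (MvA_inv B es hB h2 i x hx).2.2 p hp2 hd
  omega

theorem XX_facts (B : ℕ) (es : ℕ → ℕ) (hB : 2 ≤ B) (h1 : ∀ i, 1 ≤ es i)
    (h2 : ∀ i, es i + 1 ≤ es (i + 1)) (i : ℕ) :
    (∀ x ∈ XX B es i, 1 ≤ x ∧ x ≤ B ^ ms es i ∧ ∀ p ∈ PP B (es i), x.Coprime p) ∧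
      (XX B es i).card = ∏ a ∈ range i, (PP B (es a)).card := by
  refine ⟨fun x hx => ⟨(MvA_inv B es hB h2 i x hx).1, (MvA_inv B es hB h2 i x hx).2.1,
    MvA_cop B es hB h2 i x hx⟩, ?_⟩
  induction i with
  | zero => simp [XX]
  | succ i ih =>
    rw [prod_range_succ, ← ih, mul_comm]
    change (prodset (PP B (es i)) (XX B es i)).card = _
    rw [card_prodset]
    · intro p hp
      exact (mem_filter.1 hp).2
    · intro x hx
      exact (MvA_inv B es hB h2 i x hx).1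
    · intro p hp x hx
      exact MvA_cop B es hB h2 i x hx p hp

private theorem MvA_real (k l i : ℕ) (T T1 T2 Pc Xc b dd : ℝ) (hl : 1 ≤ l) (hT1 : 0 ≤ T1)
    (hT2 : 0 ≤ T2) (hP : 0 ≤ Pc) (hX : 0 ≤ Xc) (hb : 0 ≤ b) (hd : 0 ≤ dd)
    (hstep : T ≤ 4 ^ l * Pc * T1 + 4 * k * Pc ^ (2 * l - 1) * Xc * T2)
    (ih1 : T1 * b ≤ (4 ^ l + 4 * (k : ℝ)) ^ i * Xc ^ (2 * l))
    (ih2 : T2 * b ≤ (4 ^ (l - 1) + 4 * (k : ℝ)) ^ i * Xc ^ (2 * (l - 1)))
    (hd1 : dd ≤ Pc * Xc) (hd2 : dd ≤ Pc ^ (2 * l - 1)) :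
    T * (b * dd) ≤ (4 ^ l + 4 * (k : ℝ)) ^ (i + 1) * (Pc * Xc) ^ (2 * l) := by
  have hC : (4 ^ (l - 1) + 4 * (k : ℝ)) ^ i ≤ (4 ^ l + 4 * (k : ℝ)) ^ i := by
    apply pow_le_pow_left₀ (by positivity)
    have : (4 : ℝ) ^ (l - 1) ≤ 4 ^ l := pow_le_pow_right₀ (by norm_num) (by omega)
    linarith
  set C : ℝ := (4 ^ l + 4 * (k : ℝ)) ^ i with hCdef
  have hC0 : 0 ≤ C := by positivity
  have ih2' : T2 * b ≤ C * Xc ^ (2 * (l - 1)) :=
    ih2.trans (mul_le_mul_of_nonneg_right hC (by positivity))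
  have a1 : T1 * b * dd ≤ C * Xc ^ (2 * l) * Pc ^ (2 * l - 1) :=
    mul_le_mul ih1 hd2 hd (by positivity)
  have a2 : T2 * b * dd ≤ C * Xc ^ (2 * (l - 1)) * (Pc * Xc) :=
    mul_le_mul ih2' hd1 hd (by positivity)
  have e1 : Pc * Pc ^ (2 * l - 1) = Pc ^ (2 * l) := by
    rw [← pow_succ']
    congr 1
    omega
  have e2 : Xc * Xc ^ (2 * (l - 1)) * Xc = Xc ^ (2 * l) := by
    rw [← pow_succ', ← pow_succ]
    congr 1
    omega
  calc T * (b * dd) ≤ (4 ^ l * Pc * T1 + 4 * k * Pc ^ (2 * l - 1) * Xc * T2) * (b * dd) :=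
        mul_le_mul_of_nonneg_right hstep (by positivity)
    _ = 4 ^ l * Pc * (T1 * b * dd) + 4 * k * Pc ^ (2 * l - 1) * Xc * (T2 * b * dd) := by ring
    _ ≤ 4 ^ l * Pc * (C * Xc ^ (2 * l) * Pc ^ (2 * l - 1)) +
        4 * k * Pc ^ (2 * l - 1) * Xc * (C * Xc ^ (2 * (l - 1)) * (Pc * Xc)) :=
        add_le_add (mul_le_mul_of_nonneg_left a1 (by positivity))
          (mul_le_mul_of_nonneg_left a2 (by positivity))
    _ = 4 ^ l * C * Xc ^ (2 * l) * (Pc * Pc ^ (2 * l - 1)) +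
        4 * k * C * (Pc * Pc ^ (2 * l - 1)) * (Xc * Xc ^ (2 * (l - 1)) * Xc) := by ring
    _ = (4 ^ l + 4 * (k : ℝ)) ^ (i + 1) * (Pc * Xc) ^ (2 * l) := by
        rw [e1, e2, mul_pow, pow_succ, ← hCdef]
        ring

theorem mv_ind (k B j : ℕ) (es : ℕ → ℕ) (hk : 2 ≤ k) (hB : 2 ≤ B) (h1 : ∀ i, 1 ≤ es i)
    (h2 : ∀ i, es i + 1 ≤ es (i + 1)) (h3 : ∀ i, ms es (i + 1) ≤ k * es i)
    (hP : ∀ i < j, B ^ es i ≤ (PP B (es i)).card) :
    ∀ i ≤ j, ∀ l ≥ k + i,
      (TT k l (XX B es i) : ℝ) * (B : ℝ) ^ (∑ a ∈ range i, (ms es (a + 1) - (a + 1))) ≤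
        (4 ^ l + 4 * (k : ℝ)) ^ i * ((XX B es i).card : ℝ) ^ (2 * l) := by
  intro i
  induction i with
  | zero =>
    intro _ l _
    have h4 := TT_le_pow k l (XX B es 0)
    have h5 : (XX B es 0).card = 1 := by simp [XX]
    rw [h5] at h4 ⊢
    rw [one_pow] at h4
    have h6 : (TT k l (XX B es 0) : ℝ) ≤ 1 := by exact_mod_cast h4
    simpa using h6
  | succ i ih =>
    intro hij l hl
    have hi : i ≤ j := by omega
    have ih1 := ih hi l (by omega)
    have ih2 := ih hi (l - 1) (by omega)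
    have hfi := XX_facts B es hB h1 h2 i
    have hfi1 := XX_facts B es hB h1 h2 (i + 1)
    have hPi := hP i (by omega)
    have hBe : B ^ 1 ≤ B ^ es i := Nat.pow_le_pow_right (by omega) (h1 i)
    rw [pow_one] at hBe
    have hcardpos : 0 < (PP B (es i)).card := by omega
    have hXeq : XX B es (i + 1) = prodset (PP B (es i)) (XX B es i) := rfl
    have hstep := step k l (by omega) (by omega) (PP B (es i)) (XX B es i)
      (card_pos.1 hcardpos)
      (fun p hp => ⟨(mem_filter.1 hp).2, by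
        have := (mem_Ioc.1 (mem_filter.1 hp).1).1
        omega⟩)
      (fun x hx => (hfi.1 x hx).1)
      (fun p hp x hx => (hfi.1 x hx).2.2 p hp)
      (by
        intro p hp q hq x hx
        have hp1 := (mem_Ioc.1 (mem_filter.1 hp).1).1
        have hq1 := (mem_Ioc.1 (mem_filter.1 hq).1).2
        have hx1 := (hfi.1 x hx).2.1
        calc q * x ≤ B ^ (es i + 1) * B ^ ms es i := Nat.mul_le_mul hq1 hx1
          _ = B ^ ms es (i + 1) := by
              rw [← pow_add, MvA_ms_succ]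
              congr 1
              omega
          _ ≤ B ^ (k * es i) := Nat.pow_le_pow_right (by omega) (h3 i)
          _ = (B ^ es i) ^ k := by rw [mul_comm, pow_mul]
          _ < p ^ k := Nat.pow_lt_pow_left hp1 (by omega))
    have hcard : ((XX B es (i + 1)).card : ℝ) = (PP B (es i)).card * (XX B es i).card := by
      rw [hfi1.2, prod_range_succ, ← hfi.2]
      push_cast
      ring
    have hsum : ms es (i + 1) = (∑ a ∈ range (i + 1), es a) + (i + 1) := by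
      unfold ms
      rw [sum_add_distrib]
      simp
    have hd1 : B ^ (ms es (i + 1) - (i + 1)) ≤ (PP B (es i)).card * (XX B es i).card := by
      have e1 : ms es (i + 1) - (i + 1) = ∑ a ∈ range (i + 1), es a := by omega
      rw [e1, ← prod_pow_eq_pow_sum, hfi.2, mul_comm, ← prod_range_succ (fun a => (PP B (es a)).card)]
      apply prod_le_prod'
      intro a ha
      exact hP a (by rw [mem_range] at ha; omega)
    have hd2 : B ^ (ms es (i + 1) - (i + 1)) ≤ (PP B (es i)).card ^ (2 * l - 1) := by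
      calc B ^ (ms es (i + 1) - (i + 1)) ≤ B ^ (k * es i) :=
            Nat.pow_le_pow_right (by omega) ((Nat.sub_le _ _).trans (h3 i))
        _ = (B ^ es i) ^ k := by rw [mul_comm, pow_mul]
        _ ≤ (PP B (es i)).card ^ k := Nat.pow_le_pow_left hPi k
        _ ≤ (PP B (es i)).card ^ (2 * l - 1) := Nat.pow_le_pow_right hcardpos (by omega)
    rw [sum_range_succ, pow_add, hcard, hXeq]
    exact MvA_real k l i _ _ _ _ _ _ _ (by omega) (Nat.cast_nonneg _) (Nat.cast_nonneg _)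
      (Nat.cast_nonneg _) (Nat.cast_nonneg _) (by positivity) (by positivity) hstep ih1 ih2
      (by exact_mod_cast hd1) (by exact_mod_cast hd2)

end Pool.Agent.Lib.MP_570bef_ntP
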