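import Pool.Agent.Lib.MP_570bef_ntP.Maj

/-!
# Combination of the three kinds of arcs (job Reg)

Let `S₁` be the set of the `b < R` satisfying one of the first two alternatives, `S₂` the rest (choose `q b, a b` for `b ∈ S₂`, `Classical.choose`).
`b ∈ S₁`: `(A b)² V F W ≤ (A b)² cV cF cW / E`; sum: `≤ cV cF cW R cA / E ≤ (R / N) cA² cV cF cW` (`1 / E ≤ cA / N`).
`b ∈ S₂`: `(A b)² V F W ≤ cA² cV cF * C cW / Q^4`; `major_sum`: at most `1000 C (R/N) cA² cV cF cW`.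
-/

set_option autoImplicit false

namespace Pool.Agent.Lib.MP_570bef_ntP

open Finset
open Pool.Agent.Lib.MP_2a816b_nt (e nn D)

theorem regions (R N : ℕ) (hN : 1 ≤ N) (hNR : N ≤ R) (A V F W : ℕ → ℝ) (cA cV cF cW E C : ℝ)
    (hA0 : ∀ b, 0 ≤ A b) (hV0 : ∀ b, 0 ≤ V b) (hF0 : ∀ b, 0 ≤ F b) (hW0 : ∀ b, 0 ≤ W b)
    (hA : ∀ b, A b ≤ cA) (hV : ∀ b, V b ≤ cV) (hF : ∀ b, F b ≤ cF) (hW : ∀ b, W b ≤ cW)
    (hA2 : ∑ b ∈ range R, A b ^ 2 ≤ R * cA) (hE : 0 < E) (hNE : (N : ℝ) ≤ cA * E) (hC : 0 ≤ C)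
    (h : ∀ b < R, F b * E ≤ cF ∨ V b * E ≤ cV ∨ ∃ (q : ℕ) (a : ℤ), 1 ≤ q ∧ 0 ≤ a ∧ a ≤ q ∧
      W b * ((q : ℝ) * (1 + N * |(b : ℝ) / R - a / q|)) ^ 4 ≤ C * cW) :
    ∑ b ∈ range R, A b ^ 2 * V b * F b * W b ≤
      (2 + 1000 * C) * ((R : ℝ) / N) * (cA ^ 2 * cV * cF * cW) := by
  classical
  have cA0 : 0 ≤ cA := (hA0 0).trans (hA 0)
  have cV0 : 0 ≤ cV := (hV0 0).trans (hV 0)
  have cF0 : 0 ≤ cF := (hF0 0).trans (hF 0)
  have cW0 : 0 ≤ cW := (hW0 0).trans (hW 0)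
  have hNr : (0 : ℝ) < N := by exact_mod_cast hN
  have hRr : (0 : ℝ) < R := lt_of_lt_of_le hNr (by exact_mod_cast hNR)
  set K : ℝ := cA ^ 2 * cV * cF * cW with hK
  have hK0 : 0 ≤ K := by positivity
  set S₁ : Finset ℕ := (range R).filter (fun b => F b * E ≤ cF ∨ V b * E ≤ cV) with hS₁
  set S₂ : Finset ℕ := (range R).filter (fun b => ¬ (F b * E ≤ cF ∨ V b * E ≤ cV)) with hS₂
  rw [← Finset.sum_filter_add_sum_filter_not (range R) (fun b => F b * E ≤ cF ∨ V b * E ≤ cV)]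
  rw [← hS₁, ← hS₂]
  -- the first set
  have h1 : ∑ b ∈ S₁, A b ^ 2 * V b * F b * W b ≤ (R : ℝ) / N * K := by
    have hpt : ∀ b ∈ S₁, A b ^ 2 * V b * F b * W b ≤ A b ^ 2 * (cV * cF * cW / E) := by
      intro b hb
      obtain ⟨-, hb2⟩ := mem_filter.1 hb
      have hVF : V b * F b ≤ cV * cF / E := by
        rw [le_div_iff₀ hE]
        rcases hb2 with h2 | h2
        · calc V b * F b * E = V b * (F b * E) := by ring
            _ ≤ cV * cF := mul_le_mul (hV b) h2 (mul_nonneg (hF0 b) hE.le) cV0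
        · calc V b * F b * E = (V b * E) * F b := by ring
            _ ≤ cV * cF := mul_le_mul h2 (hF b) (hF0 b) cV0
      have hVFW : V b * F b * W b ≤ cV * cF / E * cW :=
        mul_le_mul hVF (hW b) (hW0 b) (by positivity)
      calc A b ^ 2 * V b * F b * W b = A b ^ 2 * (V b * F b * W b) := by ring
        _ ≤ A b ^ 2 * (cV * cF / E * cW) := mul_le_mul_of_nonneg_left hVFW (sq_nonneg _)
        _ = A b ^ 2 * (cV * cF * cW / E) := by ring
    have h2 : ∑ b ∈ S₁, A b ^ 2 * (cV * cF * cW / E) ≤ (R * cA) * (cV * cF * cW / E) := by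
      rw [← Finset.sum_mul]
      refine mul_le_mul_of_nonneg_right (le_trans ?_ hA2) (by positivity)
      exact Finset.sum_le_sum_of_subset_of_nonneg (Finset.filter_subset _ _) fun b _ _ => sq_nonneg _
    have h3 : 1 / E ≤ cA / N := by
      rw [div_le_div_iff₀ hE hNr]
      linarith
    calc ∑ b ∈ S₁, A b ^ 2 * V b * F b * W b ≤ ∑ b ∈ S₁, A b ^ 2 * (cV * cF * cW / E) :=
          Finset.sum_le_sum hpt
      _ ≤ (R * cA) * (cV * cF * cW / E) := h2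
      _ = (R * cA * cV * cF * cW) * (1 / E) := by ring
      _ ≤ (R * cA * cV * cF * cW) * (cA / N) := mul_le_mul_of_nonneg_left h3 (by positivity)
      _ = (R : ℝ) / N * K := by rw [hK]; ring
  -- the second set
  have hex : ∀ b, ∃ (q : ℕ) (a : ℤ), b ∈ S₂ → (1 ≤ q ∧ 0 ≤ a ∧ a ≤ q ∧
      W b * ((q : ℝ) * (1 + N * |(b : ℝ) / R - a / q|)) ^ 4 ≤ C * cW) := by
    intro b
    by_cases hb : b ∈ S₂
    · obtain ⟨hb1, hb2⟩ := mem_filter.1 hb
      rcases h b (mem_range.1 hb1) with h2 | h2 | ⟨q, a, h2⟩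
      · exact absurd (Or.inl h2) hb2
      · exact absurd (Or.inr h2) hb2
      · exact ⟨q, a, fun _ => h2⟩
    · exact ⟨1, 0, fun h2 => absurd h2 hb⟩
  choose q a hqa using hex
  have hmaj := major_sum N R hN hNR S₂ (Finset.filter_subset _ _) q a
    (fun b hb => ⟨(hqa b hb).1, (hqa b hb).2.1, (hqa b hb).2.2.1⟩)
  have h4 : ∑ b ∈ S₂, A b ^ 2 * V b * F b * W b ≤ C * K * (1000 * ((R : ℝ) / N)) := by
    have hpt : ∀ b ∈ S₂, A b ^ 2 * V b * F b * W b ≤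
        C * K * (1 / ((q b : ℝ) * (1 + N * |(b : ℝ) / R - a b / q b|)) ^ 4) := by
      intro b hb
      obtain ⟨g1, g2, g3, g4⟩ := hqa b hb
      have hq0 : (0 : ℝ) < q b := by exact_mod_cast g1
      have hQ : 0 < ((q b : ℝ) * (1 + N * |(b : ℝ) / R - a b / q b|)) ^ 4 := by positivity
      have hWb : W b ≤ C * cW * (1 / ((q b : ℝ) * (1 + N * |(b : ℝ) / R - a b / q b|)) ^ 4) := by
        rw [mul_one_div, le_div_iff₀ hQ]
        exact g4
      have hAb : A b ^ 2 ≤ cA ^ 2 := pow_le_pow_left₀ (hA0 b) (hA b) 2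
      have hAV : A b ^ 2 * V b ≤ cA ^ 2 * cV := mul_le_mul hAb (hV b) (hV0 b) (sq_nonneg _)
      have hAVF : A b ^ 2 * V b * F b ≤ cA ^ 2 * cV * cF :=
        mul_le_mul hAV (hF b) (hF0 b) (by positivity)
      calc A b ^ 2 * V b * F b * W b ≤ cA ^ 2 * cV * cF *
            (C * cW * (1 / ((q b : ℝ) * (1 + N * |(b : ℝ) / R - a b / q b|)) ^ 4)) :=
            mul_le_mul hAVF hWb (hW0 b) (by positivity)
        _ = C * K * (1 / ((q b : ℝ) * (1 + N * |(b : ℝ) / R - a b / q b|)) ^ 4) := by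
            rw [hK]; ring
    calc ∑ b ∈ S₂, A b ^ 2 * V b * F b * W b ≤
          ∑ b ∈ S₂, C * K * (1 / ((q b : ℝ) * (1 + N * |(b : ℝ) / R - a b / q b|)) ^ 4) :=
          Finset.sum_le_sum hpt
      _ = C * K * ∑ b ∈ S₂, (1 / ((q b : ℝ) * (1 + N * |(b : ℝ) / R - a b / q b|)) ^ 4) := by
          rw [Finset.mul_sum]
      _ ≤ C * K * (1000 * ((R : ℝ) / N)) := mul_le_mul_of_nonneg_left hmaj (by positivity)
  have hRN : 0 ≤ (R : ℝ) / N * K := by positivity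
  have h5 : (2 + 1000 * C) * ((R : ℝ) / N) * K = (R : ℝ) / N * K + C * K * (1000 * ((R : ℝ) / N))
      + (R : ℝ) / N * K := by ring
  rw [h5]
  linarith

end Pool.Agent.Lib.MP_570bef_ntP
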