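import Pool.Agent.Lib.MP_570bef_ntP.Arc
import Pool.Agent.Lib.MP_570bef_ntP.CntA
import Pool.Agent.Lib.MP_570bef_ntP.Reg
import Pool.Agent.Lib.MP_570bef_ntP.AsA

/-!
# Positive density along `N = B ^ (64 (κ + 1) m k)` (job Pos)

`K = κ + 1`, `t = 64 κ K (1 + 128 K)² k`, `g = 16 κ`, `z = 8 k`, `m, C` from `arcs`.  Let `B` be large, `N = B^(64Kmk)`, `P = B^(64Km)`, `R = (1 + g + t + z) N`,
`S₁ = sums k s N`, `A = sums k s (B^(16mk)) ⊆ range (B^(16mk))`, `B^(16mk) ≤ |A| B^(16mκ)` and `N ≤ |S₁| B^(64Kmκ)` (`count_power` with `n = 16 m` and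
`n = 64 K m`).  `𝓜 = PP B (64Km - 16m - 1)` (nonempty for large `B`: `primes_many`, file Prm, imported through Vb), `S₂ = 𝓜 ×ˢ A`, `ψ₂ (p, u) = p^k u`;
`S₃ = X ×ˢ X`, `ψ₃ (x, y) = (x y)^k`; `S₄ = range P`, `ψ₄ x = x^k`.  Bounds by `M = N`: `p^k u ≤ B^((64Km - 16m) k) B^(16mk) = N`;
`(x y)^k ≤ (B^(64Km))^k = N`; `x^k ≤ P^k = N`.
`regions` with `A b = ‖∑_{a ∈ S₁} e (b/R a)‖`, `V b = ‖..‖^(2g)`, `F b = ‖..‖^(2t)`, `W b = ‖..‖^(2z)`, `cA = |S₁|`, `cV = |S₂|^(2g)`, `cF = |S₃|^(2t)`, `cW = P^(2z)`,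
`E = B^(64Kmκ)`, and `∑_b (A b)² = R |S₁|` (`mean_col` with `φ = id`: `col S₁ id = |S₁|`); `α = b / R`; the norm of a sum of `e`'s is at most the cardinality.
Then `image_large` with `K = 2 + 1000 C` gives a set `T` of numbers `< R` with `N ≤ (2 + 1000 C) |T|`, and every element is a sum of
`s + g s + t + z` `k`-th powers: `a`: `s`; `p^k u`: `s` each (`IsSum.mul_pow`), `(xy)^k`: one each, `x^k`: one each (`IsSum.add`, `isSum_pow`; by induction
for the finite sums: `IsSum` of `∑ i : Fin g`).  So `T ⊆ sums k s' R`, `N ≤ c₁ countSums k s' 0 R` with `c₁ = ⌈2 + 1000 C⌉`.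
-/

set_option autoImplicit false

namespace Pool.Agent.Lib.MP_570bef_ntP

open Finset
open Pool.Agent.Lib.MP_2a816b_nt (e nn D norm_e)

open Pool.Agent.Lib.MP_570bef_nt (IsSum countSums isSum_pow)

theorem isSum_sum (k s g : ℕ) (f : Fin g → ℕ) (h : ∀ i, IsSum k s (f i)) :
    IsSum k (g * s) (∑ i, f i) := by
  induction g with
  | zero =>
    refine ⟨fun _ => 0, ?_⟩
    simp
  | succ g ih =>
    rw [Fin.sum_univ_succ]
    have h1 := (h 0).add (ih (fun i => f i.succ) fun i => h i.succ)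
    rwa [show s + g * s = (g + 1) * s by ring] at h1

private theorem Pos_norm_le {ι : Type*} (S : Finset ι) (f : ι → ℝ) :
    ‖∑ i ∈ S, e (f i)‖ ≤ S.card := by
  calc ‖∑ i ∈ S, e (f i)‖ ≤ ∑ i ∈ S, ‖e (f i)‖ := norm_sum_le _ _
    _ = S.card := by simp [norm_e]

private theorem Pos_col_id (S : Finset ℕ) : col S (fun a => a) ≤ S.card := by
  unfold col
  apply card_le_card_of_injOn fun w => w.1
  · intro w hw
    exact (mem_product.1 (mem_filter.1 (mem_coe.1 hw)).1).1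
  · intro w hw w' hw' h
    have h1 : w.1 = w.2 := (mem_filter.1 (mem_coe.1 hw)).2
    have h2 : w'.1 = w'.2 := (mem_filter.1 (mem_coe.1 hw')).2
    have h3 : w.1 = w'.1 := h
    exact Prod.ext h3 (by rw [← h1, ← h2, h3])

private theorem Pos_core (k s g t z N P : ℕ) (𝓜 A X : Finset ℕ) (C E : ℝ) (hN : 1 ≤ N)
    (hP : 1 ≤ P) (hPk : P ^ k = N) (hM : ∀ p ∈ 𝓜, ∀ u ∈ A, p ^ k * u ≤ N)
    (hA : ∀ u ∈ A, IsSum k s u) (hX : ∀ x ∈ X, ∀ y ∈ X, x * y ≤ P) (hMne : 𝓜.Nonempty)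
    (hAne : A.Nonempty) (hXne : X.Nonempty) (hSne : (sums k s N).Nonempty) (hE : 0 < E)
    (hNE : (N : ℝ) ≤ (sums k s N).card * E) (hC : 0 ≤ C)
    (hreg : ∀ α : ℝ, 0 ≤ α → α < 1 →
      ‖∑ x ∈ X, ∑ y ∈ X, e (α * ((x : ℝ) * y) ^ k)‖ ^ (2 * t) * E ≤
          ((X.card : ℝ) ^ 2) ^ (2 * t) ∨
      ‖∑ p ∈ 𝓜, ∑ u ∈ A, e (α * ((p : ℝ) ^ k * u))‖ ^ (2 * g) * E ≤
          ((𝓜.card : ℝ) * A.card) ^ (2 * g) ∨
      ∃ (q : ℕ) (a : ℤ), 1 ≤ q ∧ 0 ≤ a ∧ a ≤ q ∧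
        ‖∑ x ∈ range P, e (α * (x : ℝ) ^ k)‖ ^ (2 * z) *
          ((q : ℝ) * (1 + (N : ℝ) * |α - a / q|)) ^ 4 ≤ C * (P : ℝ) ^ (2 * z)) :
    (N : ℝ) ≤ (2 + 1000 * C) * (countSums k (s + g * s + t + z) 0 ((1 + g + t + z) * N) : ℕ) := by
  classical
  obtain ⟨R, hR⟩ : ∃ R, R = (1 + g + t + z) * N := ⟨_, rfl⟩
  have hNR : N ≤ R := by
    rw [hR]
    exact Nat.le_mul_of_pos_left _ (by omega)
  have hR0 : (0 : ℝ) < R := by exact_mod_cast (by omega : 0 < R)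
  set S₁ := sums k s N with hS₁
  have hS₁lt : ∀ a ∈ S₁, a < N := fun a ha => mem_range.1 (mem_filter.1 ha).1
  have hS₁sum : ∀ a ∈ S₁, IsSum k s a := fun a ha => (mem_filter.1 ha).2
  have e2 : ∀ b : ℕ, ∑ i ∈ 𝓜 ×ˢ A, e ((b : ℝ) / R * ((i.1 ^ k * i.2 : ℕ) : ℝ)) =
      ∑ p ∈ 𝓜, ∑ u ∈ A, e ((b : ℝ) / R * ((p : ℝ) ^ k * u)) := by
    intro b
    rw [sum_product]
    refine sum_congr rfl fun p _ => sum_congr rfl fun u _ => ?_
    push_cast
    rfl
  have e3 : ∀ b : ℕ, ∑ i ∈ X ×ˢ X, e ((b : ℝ) / R * (((i.1 * i.2) ^ k : ℕ) : ℝ)) =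
      ∑ x ∈ X, ∑ y ∈ X, e ((b : ℝ) / R * ((x : ℝ) * y) ^ k) := by
    intro b
    rw [sum_product]
    refine sum_congr rfl fun p _ => sum_congr rfl fun u _ => ?_
    push_cast
    rfl
  have e4 : ∀ b : ℕ, ∑ x ∈ range P, e ((b : ℝ) / R * ((x ^ k : ℕ) : ℝ)) =
      ∑ x ∈ range P, e ((b : ℝ) / R * (x : ℝ) ^ k) := by
    intro b
    refine sum_congr rfl fun p _ => ?_
    push_cast
    rfl
  have hreg' := regions R N hN hNR
    (fun b => ‖∑ a ∈ S₁, e ((b : ℝ) / R * a)‖)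
    (fun b => ‖∑ i ∈ 𝓜 ×ˢ A, e ((b : ℝ) / R * ((i.1 ^ k * i.2 : ℕ) : ℝ))‖ ^ (2 * g))
    (fun b => ‖∑ i ∈ X ×ˢ X, e ((b : ℝ) / R * (((i.1 * i.2) ^ k : ℕ) : ℝ))‖ ^ (2 * t))
    (fun b => ‖∑ x ∈ range P, e ((b : ℝ) / R * ((x ^ k : ℕ) : ℝ))‖ ^ (2 * z))
    S₁.card (((𝓜 ×ˢ A).card : ℝ) ^ (2 * g)) (((X ×ˢ X).card : ℝ) ^ (2 * t))
    (((range P).card : ℝ) ^ (2 * z)) E C
    (fun b => norm_nonneg _) (fun b => by positivity) (fun b => by positivity)
    (fun b => by positivity)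
    (fun b => Pos_norm_le _ _)
    (fun b => pow_le_pow_left₀ (norm_nonneg _) (Pos_norm_le _ _) _)
    (fun b => pow_le_pow_left₀ (norm_nonneg _) (Pos_norm_le _ _) _)
    (fun b => pow_le_pow_left₀ (norm_nonneg _) (Pos_norm_le _ _) _)
    (by
      rw [mean_col S₁ (fun a => a) R fun i hi => (hS₁lt i hi).trans_le hNR]
      apply mul_le_mul_of_nonneg_left _ hR0.le
      exact_mod_cast Pos_col_id S₁)
    hE hNE hC
    (by
      intro b hb
      have hb0 : (0 : ℝ) ≤ (b : ℝ) / R := by positivity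
      have hb1 : (b : ℝ) / R < 1 := by
        rw [div_lt_one hR0]
        exact_mod_cast hb
      rcases hreg _ hb0 hb1 with h | h | ⟨q, a, h1, h2, h3, h4⟩
      · left
        simp only [e3, card_product]
        push_cast
        rw [← sq]
        exact h
      · right; left
        simp only [e2, card_product]
        push_cast
        exact h
      · right; right
        refine ⟨q, a, h1, h2, h3, ?_⟩
        simp only [e4, card_range]
        exact h4)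
  obtain ⟨T, hT, hNT⟩ := image_large S₁ (𝓜 ×ˢ A) (X ×ˢ X) (range P)
    (fun i => i.1 ^ k * i.2) (fun i => (i.1 * i.2) ^ k) (fun x => x ^ k) g t z N R N
    (2 + 1000 * C) hSne (hMne.product hAne) (hXne.product hXne) ⟨0, mem_range.2 (by omega)⟩
    hS₁lt
    (fun i hi => hM _ (mem_product.1 hi).1 _ (mem_product.1 hi).2)
    (fun i hi => by
      rw [← hPk]
      exact Nat.pow_le_pow_left (hX _ (mem_product.1 hi).1 _ (mem_product.1 hi).2) k)
    (fun i hi => by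
      rw [← hPk]
      exact Nat.pow_le_pow_left (mem_range.1 hi).le k)
    hR hN (by
      refine hreg'.trans (le_of_eq ?_)
      ring)
  have hTsub : T ⊆ sums k (s + g * s + t + z) ((1 + g + t + z) * N) := by
    intro n hn
    obtain ⟨hnR, a, ha, w₂, w₃, w₄, h2, h3, h4, hneq⟩ := hT n hn
    unfold sums
    rw [mem_filter, mem_range, ← hR]
    refine ⟨hnR, ?_⟩
    rw [hneq]
    have i2 := isSum_sum k s g (fun i => (w₂ i).1 ^ k * (w₂ i).2) fun i =>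
      (hA _ (mem_product.1 (h2 i)).2).mul_pow _
    have i3 := isSum_sum k 1 t (fun i => ((w₃ i).1 * (w₃ i).2) ^ k) fun i => isSum_pow k _
    have i4 := isSum_sum k 1 z (fun i => (w₄ i) ^ k) fun i => isSum_pow k _
    rw [mul_one] at i3 i4
    exact (((hS₁sum a ha).add i2).add i3).add i4
  have hcard : T.card ≤ countSums k (s + g * s + t + z) 0 ((1 + g + t + z) * N) := by
    rw [← card_sums]
    exact card_le_card hTsub
  have hcard' : (T.card : ℝ) ≤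
      (countSums k (s + g * s + t + z) 0 ((1 + g + t + z) * N) : ℕ) := by exact_mod_cast hcard
  exact hNT.trans (mul_le_mul_of_nonneg_left hcard' (by positivity))

theorem density_at_scale (κ k s : ℕ) (hk : 2 ≤ k)
    (h : ∃ N₀ : ℕ, ∀ N ≥ N₀, (N : ℝ) ^ (1 - (κ : ℝ) / k) ≤ countSums k s 0 N) :
    ∃ m ≥ k, ∃ c₁ : ℕ, ∃ B₀ : ℕ, ∀ B ≥ B₀, B ^ (64 * (κ + 1) * m * k) ≤
      c₁ * countSums k
        (s + 16 * κ * s + 64 * κ * (κ + 1) * (1 + 128 * (κ + 1)) ^ 2 * k + 8 * k) 0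
        ((1 + 16 * κ + 64 * κ * (κ + 1) * (1 + 128 * (κ + 1)) ^ 2 * k + 8 * k) *
          B ^ (64 * (κ + 1) * m * k)) := by
  classical
  obtain ⟨m, hm, C, hC, B₁, hB₁⟩ := arcs κ k hk
  have hm1 : 1 ≤ m := by omega
  have hKm : 64 * m ≤ 64 * (κ + 1) * m := Nat.mul_le_mul_right _ (by omega)
  obtain ⟨B₂, hB₂⟩ := count_power κ k s (16 * m) (by omega) (by omega) h
  obtain ⟨B₃, hB₃⟩ := count_power κ k s (64 * (κ + 1) * m) (by omega) (by omega) h
  obtain ⟨B₄, hB₄⟩ := primes_many (64 * (κ + 1) * m - 16 * m - 1)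
  refine ⟨m, hm, ⌈2 + 1000 * C⌉₊, max (max B₁ B₂) (max (max B₃ B₄) 2), fun B hB => ?_⟩
  have hb1 : B₁ ≤ B := (le_max_left _ _).trans ((le_max_left _ _).trans hB)
  have hb2 : B₂ ≤ B := (le_max_right _ _).trans ((le_max_left _ _).trans hB)
  have hb3 : B₃ ≤ B :=
    (le_max_left _ _).trans ((le_max_left _ _).trans ((le_max_right _ _).trans hB))
  have hb4 : B₄ ≤ B :=
    (le_max_right _ _).trans ((le_max_left _ _).trans ((le_max_right _ _).trans hB))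
  have hb5 : 2 ≤ B := (le_max_right _ _).trans ((le_max_right _ _).trans hB)
  have hBpos : 0 < B := by omega
  obtain ⟨X, hXne, hX, harc⟩ := hB₁ B hb1
  have hA2 := hB₂ B hb2
  have hA3 := hB₃ B hb3
  have hA4 := hB₄ B hb4
  set A := sums k s (B ^ (16 * m * k)) with hA
  have hAsub : A ⊆ range (B ^ (16 * m * k)) := filter_subset _ _
  have hAne : A.Nonempty := by
    rw [nonempty_iff_ne_empty]
    intro h0
    rw [h0, card_empty, zero_mul] at hA2
    have : 0 < B ^ (16 * m * k) := pow_pos hBpos _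
    omega
  have hSne : (sums k s (B ^ (64 * (κ + 1) * m * k))).Nonempty := by
    rw [nonempty_iff_ne_empty]
    intro h0
    rw [h0, card_empty, zero_mul] at hA3
    have : 0 < B ^ (64 * (κ + 1) * m * k) := pow_pos hBpos _
    omega
  have hMne : (PP B (64 * (κ + 1) * m - 16 * m - 1)).Nonempty := by
    rw [← card_pos]
    exact (pow_pos hBpos _).trans_le hA4
  have hPk : (B ^ (64 * (κ + 1) * m)) ^ k = B ^ (64 * (κ + 1) * m * k) := (pow_mul _ _ _).symm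
  have hcore := Pos_core k s (16 * κ) (64 * κ * (κ + 1) * (1 + 128 * (κ + 1)) ^ 2 * k) (8 * k)
    (B ^ (64 * (κ + 1) * m * k)) (B ^ (64 * (κ + 1) * m))
    (PP B (64 * (κ + 1) * m - 16 * m - 1)) A X C ((B : ℝ) ^ (64 * (κ + 1) * m * κ))
    (pow_pos hBpos _) (pow_pos hBpos _) hPk
    (by
      intro p hp u hu
      have hp1 := (mem_Ioc.1 (mem_filter.1 hp).1).2
      have hu1 := mem_range.1 (hAsub hu)
      have h1 : 64 * (κ + 1) * m - 16 * m - 1 + 1 = 64 * (κ + 1) * m - 16 * m := by omega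
      rw [h1] at hp1
      calc p ^ k * u ≤ (B ^ (64 * (κ + 1) * m - 16 * m)) ^ k * B ^ (16 * m * k) :=
            Nat.mul_le_mul (Nat.pow_le_pow_left hp1 k) hu1.le
        _ = B ^ (64 * (κ + 1) * m * k) := by
            rw [← pow_mul, ← pow_add, ← Nat.add_mul]
            congr 2
            omega)
    (fun u hu => (mem_filter.1 hu).2)
    (by
      intro x hx y hy
      calc x * y ≤ B ^ (32 * (κ + 1) * m) * B ^ (32 * (κ + 1) * m) :=
            Nat.mul_le_mul (hX x hx).2 (hX y hy).2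
        _ = B ^ (64 * (κ + 1) * m) := by
            rw [← pow_add]
            congr 1
            ring)
    hMne hAne hXne hSne (by positivity) (by exact_mod_cast hA3) (by linarith)
    (by
      intro α h0 h1
      have h2 := harc A hAsub hA2 α h0 h1
      push_cast
      exact h2)
  have h5 : ((B ^ (64 * (κ + 1) * m * k) : ℕ) : ℝ) ≤ ((⌈2 + 1000 * C⌉₊ * countSums k
        (s + 16 * κ * s + 64 * κ * (κ + 1) * (1 + 128 * (κ + 1)) ^ 2 * k + 8 * k) 0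
        ((1 + 16 * κ + 64 * κ * (κ + 1) * (1 + 128 * (κ + 1)) ^ 2 * k + 8 * k) *
          B ^ (64 * (κ + 1) * m * k)) : ℕ) : ℝ) := by
    refine hcore.trans ?_
    rw [Nat.cast_mul]
    exact mul_le_mul_of_nonneg_right (Nat.le_ceil _) (Nat.cast_nonneg _)
  exact_mod_cast h5

end Pool.Agent.Lib.MP_570bef_ntP
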