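import Pool.Agent.Lib.MP_570bef_ntP.Bas

/-!
# A pointwise inequality (job Pw)

Let `H = ∑_p h p`.  Case 1: some `p ∈ P` has `‖h p‖ ≥ ‖H‖ / 2`.  Then `‖H‖^(2l) ≤ 4^l ‖h p‖^(2l)`, one term of the first sum; the second sum is
nonnegative.  Case 2: `‖h p‖ < ‖H‖ / 2` for all `p ∈ P`; then `‖H - h p‖ ≥ ‖H‖ / 2`, `‖H‖² ≤ 4 ‖H - h p‖²`.  By the power mean inequality
(`(∑_{p ∈ P} a p)^(n+1) ≤ |P|^n ∑ (a p)^(n+1)` for `a p ≥ 0`: Mathlib `inner_le_nnorm_mul_nnorm` is not what you want, look for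
`pow_sum_div_card_le_sum_pow`: `(∑ i ∈ s, f i) ^ (n + 1) / #s ^ n ≤ ∑ i ∈ s, f i ^ (n + 1)`)
`‖H‖^(2l-2) ≤ (∑ ‖h p‖)^(2l-2) ≤ card^(2l-3) ∑ ‖h p‖^(2l-2)`.  Multiply by `‖H‖²` and use `‖H‖² ≤ 4 ‖H - h p‖²` in each term.
-/

set_option autoImplicit false

namespace Pool.Agent.Lib.MP_570bef_ntP

open Finset
open Pool.Agent.Lib.MP_2a816b_nt (e nn D)

theorem pw_ineq {ι : Type*} (P : Finset ι) (hP : P.Nonempty) (h : ι → ℂ) (l : ℕ) (hl : 2 ≤ l) :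
    ‖∑ p ∈ P, h p‖ ^ (2 * l) ≤ 4 ^ l * ∑ p ∈ P, ‖h p‖ ^ (2 * l) +
      4 * (P.card : ℝ) ^ (2 * l - 3) *
        ∑ p ∈ P, ‖(∑ q ∈ P, h q) - h p‖ ^ 2 * ‖h p‖ ^ (2 * l - 2) := by
  set H : ℂ := ∑ p ∈ P, h p with hH
  have hsnd : 0 ≤ 4 * (P.card : ℝ) ^ (2 * l - 3) *
      ∑ p ∈ P, ‖H - h p‖ ^ 2 * ‖h p‖ ^ (2 * l - 2) := by positivity
  have hfst : 0 ≤ 4 ^ l * ∑ p ∈ P, ‖h p‖ ^ (2 * l) := by positivity
  by_cases hex : ∃ p ∈ P, ‖H‖ / 2 ≤ ‖h p‖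
  · obtain ⟨p, hp, hpH⟩ := hex
    have h1 : ‖H‖ ≤ 2 * ‖h p‖ := by linarith
    have h2 : ‖H‖ ^ (2 * l) ≤ 4 ^ l * ‖h p‖ ^ (2 * l) := by
      calc ‖H‖ ^ (2 * l) ≤ (2 * ‖h p‖) ^ (2 * l) := pow_le_pow_left₀ (norm_nonneg _) h1 _
        _ = 4 ^ l * ‖h p‖ ^ (2 * l) := by
          rw [mul_pow, pow_mul]
          norm_num
    have h3 : ‖h p‖ ^ (2 * l) ≤ ∑ p ∈ P, ‖h p‖ ^ (2 * l) :=
      single_le_sum (f := fun p => ‖h p‖ ^ (2 * l)) (fun _ _ => by positivity) hp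
    have h4 : 4 ^ l * ‖h p‖ ^ (2 * l) ≤ 4 ^ l * ∑ p ∈ P, ‖h p‖ ^ (2 * l) :=
      mul_le_mul_of_nonneg_left h3 (by positivity)
    linarith
  · push Not at hex
    have h1 : ∀ p ∈ P, ‖H‖ ^ 2 ≤ 4 * ‖H - h p‖ ^ 2 := by
      intro p hp
      have h2 := hex p hp
      have h3 : ‖H‖ ≤ ‖H - h p‖ + ‖h p‖ := by
        calc ‖H‖ = ‖(H - h p) + h p‖ := by rw [sub_add_cancel]
          _ ≤ _ := norm_add_le _ _
      have h4 : ‖H‖ ≤ 2 * ‖H - h p‖ := by linarith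
      calc ‖H‖ ^ 2 ≤ (2 * ‖H - h p‖) ^ 2 := pow_le_pow_left₀ (norm_nonneg _) h4 _
        _ = _ := by ring
    have hcard : (0 : ℝ) < P.card := by exact_mod_cast card_pos.2 hP
    have h5 : ‖H‖ ^ (2 * l - 2) ≤ (P.card : ℝ) ^ (2 * l - 3) * ∑ p ∈ P, ‖h p‖ ^ (2 * l - 2) := by
      have h6 : ‖H‖ ≤ ∑ p ∈ P, ‖h p‖ := norm_sum_le _ _
      have h7 := pow_sum_div_card_le_sum_pow (s := P) (f := fun p => ‖h p‖)
        (fun _ _ => norm_nonneg _) (2 * l - 3)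
      rw [div_le_iff₀ (by positivity)] at h7
      have h8 : 2 * l - 3 + 1 = 2 * l - 2 := by omega
      rw [h8] at h7
      calc ‖H‖ ^ (2 * l - 2) ≤ (∑ p ∈ P, ‖h p‖) ^ (2 * l - 2) :=
            pow_le_pow_left₀ (norm_nonneg _) h6 _
        _ ≤ _ := h7
        _ = _ := mul_comm _ _
    have h9 : ‖H‖ ^ (2 * l) ≤ 4 * (P.card : ℝ) ^ (2 * l - 3) *
        ∑ p ∈ P, ‖H - h p‖ ^ 2 * ‖h p‖ ^ (2 * l - 2) := by
      calc ‖H‖ ^ (2 * l) = ‖H‖ ^ 2 * ‖H‖ ^ (2 * l - 2) := by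
            rw [← pow_add]
            congr 1
            omega
        _ ≤ ‖H‖ ^ 2 * ((P.card : ℝ) ^ (2 * l - 3) * ∑ p ∈ P, ‖h p‖ ^ (2 * l - 2)) :=
            mul_le_mul_of_nonneg_left h5 (by positivity)
        _ = (P.card : ℝ) ^ (2 * l - 3) * ∑ p ∈ P, ‖H‖ ^ 2 * ‖h p‖ ^ (2 * l - 2) := by
            rw [← mul_sum]
            ring
        _ ≤ (P.card : ℝ) ^ (2 * l - 3) * ∑ p ∈ P, 4 * ‖H - h p‖ ^ 2 * ‖h p‖ ^ (2 * l - 2) := by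
            apply mul_le_mul_of_nonneg_left _ (by positivity)
            exact sum_le_sum fun p hp => mul_le_mul_of_nonneg_right (h1 p hp) (by positivity)
        _ = _ := by
            have h10 : ∑ p ∈ P, 4 * ‖H - h p‖ ^ 2 * ‖h p‖ ^ (2 * l - 2) =
                4 * ∑ p ∈ P, ‖H - h p‖ ^ 2 * ‖h p‖ ^ (2 * l - 2) := by
              rw [mul_sum]
              exact sum_congr rfl fun p _ => by ring
            rw [h10]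
            ring
    linarith

end Pool.Agent.Lib.MP_570bef_ntP
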