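import Pool.Agent.Lib.MP_570bef_ntP.Bas

/-!
# The number of `k`-th roots of unity modulo `q` (job RhoA)

`rho k q` is the number of `z : ZMod q` with `z ^ k = 1`, i.e. (`k ≥ 1`) the number of units `u` of `ZMod q` with `u ^ k = 1`.
`rho_mul`: Chinese remainder theorem (`ZMod.chineseRemainder`, or `Nat.chineseRemainder`): `z ↦ (z mod a, z mod b)` is a bijection of the two sets (only
`≤` is needed, i.e. injectivity).
`rho_prime_pow`: `p` odd: the unit group is cyclic (`ZMod.isCyclic_units_of_prime_pow`), at most `k` solutions (`IsCyclic.card_pow_eq_one_le`).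
`p = 2`: `a ≤ 1`: one unit (`a ≤ 2`: at most two units).  `a ≥ 3`: by `ZMod.orderOf_five` (`orderOf (5 : ZMod (2^(n+2))) = 2^n`) the subgroup `H` generated by
`5` has index `2` in the units; each of the two cosets `g H` contains at most `k` solutions (if `u₀ ∈ g H` is one, `u / u₀ ∈ H` satisfies `v ^ k = 1` and
`H` is cyclic).  (`ρ` for `a = 0`: `range 1 = {0}`, `rho = 1 ≤ 2 k`.)
-/

set_option autoImplicit false

namespace Pool.Agent.Lib.MP_570bef_ntP

open Finset
open Pool.Agent.Lib.MP_2a816b_nt (e nn D)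

theorem rho_mul (k a b : ℕ) (hk : 1 ≤ k) (ha : 1 ≤ a) (hb : 1 ≤ b) (hab : a.Coprime b) :
    rho k (a * b) ≤ rho k a * rho k b := by
  unfold rho
  rw [← card_product]
  refine card_le_card_of_injOn (fun z => (z % a, z % b)) ?_ ?_
  · intro z hz
    have hz' := mem_filter.1 (mem_coe.1 hz)
    have h1 : z ^ k ≡ 1 [MOD a] := hz'.2.of_dvd (Dvd.intro _ rfl)
    have h2 : z ^ k ≡ 1 [MOD b] := hz'.2.of_dvd (Dvd.intro_left _ rfl)
    refine mem_coe.2 (mem_product.2 ⟨?_, ?_⟩)
    · exact mem_filter.2 ⟨mem_range.2 (Nat.mod_lt _ (by omega)),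
        ((Nat.mod_modEq z a).pow k).trans h1⟩
    · exact mem_filter.2 ⟨mem_range.2 (Nat.mod_lt _ (by omega)),
        ((Nat.mod_modEq z b).pow k).trans h2⟩
  · intro z hz z' hz' h
    have h1 := mem_range.1 (mem_filter.1 (mem_coe.1 hz)).1
    have h2 := mem_range.1 (mem_filter.1 (mem_coe.1 hz')).1
    have h3 : z % a = z' % a := congrArg Prod.fst h
    have h4 : z % b = z' % b := congrArg Prod.snd h
    have h5 : z ≡ z' [MOD a * b] := (Nat.modEq_and_modEq_iff_modEq_mul hab).1 ⟨h3, h4⟩
    exact h5.eq_of_lt_of_lt h1 h2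

private theorem RhoA_le_units (k q : ℕ) (hk : 1 ≤ k) [NeZero q] :
    rho k q ≤ ((univ : Finset (ZMod q)ˣ).filter (fun u => u ^ k = 1)).card := by
  unfold rho
  refine card_le_card_of_surjOn (fun u : (ZMod q)ˣ => (u : ZMod q).val) ?_
  intro z hz
  have hz' := mem_filter.1 (mem_coe.1 hz)
  have hlt := mem_range.1 hz'.1
  have h1 : ((z : ZMod q)) ^ k = 1 := by
    have h2 := (ZMod.natCast_eq_natCast_iff (z ^ k) 1 q).2 hz'.2
    push_cast at h2
    exact h2
  refine ⟨Units.ofPowEqOne (z : ZMod q) k h1 (by omega), ?_, ?_⟩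
  · rw [mem_coe, mem_filter]
    exact ⟨mem_univ _, Units.pow_ofPowEqOne h1 (by omega)⟩
  · show ((Units.ofPowEqOne (z : ZMod q) k h1 (by omega) : (ZMod q)ˣ) : ZMod q).val = z
    rw [Units.val_ofPowEqOne, ZMod.val_natCast, Nat.mod_eq_of_lt hlt]

private theorem RhoA_cyclic (k q : ℕ) (hk : 1 ≤ k) [NeZero q] (h : IsCyclic (ZMod q)ˣ) :
    rho k q ≤ k :=
  (RhoA_le_units k q hk).trans (IsCyclic.card_pow_eq_one_le (by omega))

private theorem RhoA_index_two {G : Type} [CommGroup G] [Fintype G] [DecidableEq G] (g : G)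
    (hg : (Subgroup.zpowers g).index = 2) (k : ℕ) (hk : 1 ≤ k) :
    ((univ : Finset G).filter (fun u => u ^ k = 1)).card ≤ 2 * k := by
  classical
  set H := Subgroup.zpowers g with hH
  set S := (univ : Finset G).filter (fun u => u ^ k = 1) with hS
  have h1 : (S.filter (fun u => u ∈ H)).card ≤ k := by
    have hc : IsCyclic H := by
      rw [hH]
      infer_instance
    refine le_trans ?_ (IsCyclic.card_pow_eq_one_le (α := H) (n := k) (by omega))
    refine card_le_card_of_surjOn (fun u : H => (u : G)) ?_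
    intro u hu
    rw [mem_coe, mem_filter, hS, mem_filter] at hu
    refine ⟨⟨u, hu.2⟩, ?_, rfl⟩
    rw [mem_coe, mem_filter]
    refine ⟨mem_univ _, ?_⟩
    ext
    simpa using hu.1.2
  have h2 : (S.filter (fun u => u ∉ H)).card ≤ (S.filter (fun u => u ∈ H)).card := by
    rcases (S.filter (fun u => u ∉ H)).eq_empty_or_nonempty with h0 | ⟨u₀, hu₀⟩
    · rw [h0]
      simp
    · rw [mem_filter, hS, mem_filter] at hu₀
      refine card_le_card_of_injOn (fun u => u * u₀) ?_ ?_
      · intro u hu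
        rw [mem_coe, mem_filter, hS, mem_filter] at hu
        rw [mem_coe, mem_filter, hS, mem_filter]
        refine ⟨⟨mem_univ _, ?_⟩, ?_⟩
        · show (u * u₀) ^ k = 1
          rw [mul_pow, hu.1.2, hu₀.1.2, one_mul]
        · show u * u₀ ∈ H
          rw [Subgroup.mul_mem_iff_of_index_two hg]
          exact ⟨fun h => absurd h hu.2, fun h => absurd h hu₀.2⟩
      · intro u _ u' _ h
        exact mul_right_cancel h
  have h3 := card_filter_add_card_filter_not (s := S) (fun u => u ∈ H)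
  omega

theorem rho_prime_pow (k p a : ℕ) (hk : 1 ≤ k) (hp : p.Prime) : rho k (p ^ a) ≤ 2 * k := by
  have hq : NeZero (p ^ a) := ⟨(pow_pos hp.pos a).ne'⟩
  by_cases hp2 : p = 2
  · subst hp2
    rcases Nat.lt_or_ge a 3 with ha | ha
    · have h1 := RhoA_cyclic k (2 ^ a) hk ((ZMod.isCyclic_units_two_pow_iff a).2 (by omega))
      omega
    · obtain ⟨n, rfl⟩ : ∃ n, a = n + 2 := ⟨a - 2, by omega⟩
      refine (RhoA_le_units k _ hk).trans ?_
      have h5 : orderOf (5 : ZMod (2 ^ (n + 2))) = 2 ^ n := ZMod.orderOf_five n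
      have h5p : (5 : ZMod (2 ^ (n + 2))) ^ (2 ^ n) = 1 := by
        rw [← h5]
        exact pow_orderOf_eq_one _
      set g : (ZMod (2 ^ (n + 2)))ˣ := Units.ofPowEqOne _ _ h5p (pow_pos two_pos n).ne' with hg
      have hog : orderOf g = 2 ^ n := by
        rw [← orderOf_units, hg, Units.val_ofPowEqOne, h5]
      refine RhoA_index_two g ?_ k hk
      have hcard : Nat.card (ZMod (2 ^ (n + 2)))ˣ = 2 ^ (n + 1) := by
        rw [Nat.card_eq_fintype_card, ZMod.card_units_eq_totient, Nat.totient_prime_pow Nat.prime_two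
          (by omega)]
        simp
      have hmul := (Subgroup.zpowers g).card_mul_index
      rw [Nat.card_zpowers, hog, hcard] at hmul
      exact Nat.eq_of_mul_eq_mul_left (pow_pos two_pos n) (hmul.trans (pow_succ 2 n))
  · have h1 := RhoA_cyclic k (p ^ a) hk (ZMod.isCyclic_units_of_prime_pow p hp hp2 a)
    omega

end Pool.Agent.Lib.MP_570bef_ntP
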