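import Pool.Agent.Lib.MP_570bef_ntP.Four

/-!
# The number of representations (job Rr)

`rr k s X v` = number of pairs `(x, y)` of `s`-tuples with `sk x - sk y = v`.
`rr_support`: `sk k x ≤ s Y^k` for `x ∈ tup s X`, so `|v| ≤ V`.  `rr_sum`: the total number of pairs is `|X|^(2 s)` (`card_tup`), fibres over `v`
(`Finset.card_eq_sum_card_fiberwise`).
`rr_sq`: `∑ rr v ²` is the number of `((x, y), (z, w))` with `sk x - sk y = sk z - sk w`, i.e. `sk x + sk w = sk z + sk y`; the pairs `(x, w)` of `s`-tuples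
correspond to `2 s`-tuples (`Fin.appendEquiv`, or `Fin.append` and `finSumFinEquiv`; `sk` of the appended tuple is the sum): this is `TT k (2 s) X`.
(Alternatively with `mean_col`: both sides times `R` are `∑_b |f (b/R)|^(4 s)`.)
`rr_fourier`: `‖f‖^(2 s) = f^s * conj (f^s)`, `f^s = ∑_{x ∈ tup} e (θ sk x)` (`sum_tup`), expand, and collect the terms by the value of `sk x - sk y`.
-/

set_option autoImplicit false

namespace Pool.Agent.Lib.MP_570bef_ntP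

open Finset
open Pool.Agent.Lib.MP_2a816b_nt (e nn D)

/-- the number of pairs of tuples with the difference `v` -/
noncomputable def rr (k s : ℕ) (X : Finset ℕ) (v : ℤ) : ℕ :=
  ((tup s X ×ˢ tup s X).filter fun w => (sk k w.1 : ℤ) - sk k w.2 = v).card

theorem Rr_sk_le (k s Y : ℕ) (X : Finset ℕ) (hX : ∀ x ∈ X, x ≤ Y) {x : Fin s → ℕ}
    (hx : x ∈ tup s X) : sk k x ≤ s * Y ^ k := by
  unfold tup at hx
  rw [Fintype.mem_piFinset] at hx
  unfold sk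
  calc ∑ i, x i ^ k ≤ ∑ _i : Fin s, Y ^ k :=
        Finset.sum_le_sum fun i _ => Nat.pow_le_pow_left (hX _ (hx i)) k
    _ = s * Y ^ k := by
        rw [Finset.sum_const, Finset.card_univ, Fintype.card_fin, smul_eq_mul]

theorem Rr_mem (k s Y : ℕ) (X : Finset ℕ) (hX : ∀ x ∈ X, x ≤ Y) :
    ∀ w ∈ tup s X ×ˢ tup s X, (sk k w.1 : ℤ) - sk k w.2 ∈
      Icc (-((s * Y ^ k : ℕ) : ℤ)) (s * Y ^ k : ℕ) := by
  intro w hw
  rw [Finset.mem_product] at hw
  have h1 := Rr_sk_le k s Y X hX hw.1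
  have h2 := Rr_sk_le k s Y X hX hw.2
  rw [Finset.mem_Icc]
  constructor <;> omega

theorem rr_sum (k s Y : ℕ) (X : Finset ℕ) (hX : ∀ x ∈ X, x ≤ Y) :
    ∑ v ∈ Icc (-((s * Y ^ k : ℕ) : ℤ)) (s * Y ^ k : ℕ), rr k s X v = X.card ^ (2 * s) := by
  have h := Finset.card_eq_sum_card_fiberwise (Rr_mem k s Y X hX)
  rw [Finset.card_product, card_tup, ← pow_add, ← two_mul] at h
  exact h.symm

/-- two tuples of length `s` as one of length `2 s` -/
def Rr_E (s : ℕ) (p : (Fin s → ℕ) × (Fin s → ℕ)) : Fin (2 * s) → ℕ := fun i =>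
  Fin.append p.1 p.2 (Fin.cast (two_mul s) i)

theorem Rr_sk (k s : ℕ) (p : (Fin s → ℕ) × (Fin s → ℕ)) :
    sk k (Rr_E s p) = sk k p.1 + sk k p.2 := by
  unfold sk Rr_E
  have h := Equiv.sum_comp (finCongr (two_mul s)) (fun i => Fin.append p.1 p.2 i ^ k)
  simp only [finCongr_apply] at h
  rw [h, Fin.sum_univ_add]
  simp only [Fin.append_left, Fin.append_right]

theorem Rr_left (s : ℕ) (p : (Fin s → ℕ) × (Fin s → ℕ)) (i : Fin s) :
    Rr_E s p (Fin.cast (two_mul s).symm (Fin.castAdd s i)) = p.1 i := by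
  unfold Rr_E
  rw [Fin.cast_cast, Fin.cast_eq_self, Fin.append_left]

theorem Rr_right (s : ℕ) (p : (Fin s → ℕ) × (Fin s → ℕ)) (i : Fin s) :
    Rr_E s p (Fin.cast (two_mul s).symm (Fin.natAdd s i)) = p.2 i := by
  unfold Rr_E
  rw [Fin.cast_cast, Fin.cast_eq_self, Fin.append_right]

/-- the halves of a tuple of length `2 s` -/
def Rr_H (s : ℕ) (z : Fin (2 * s) → ℕ) : (Fin s → ℕ) × (Fin s → ℕ) :=
  (fun i => z (Fin.cast (two_mul s).symm (Fin.castAdd s i)),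
    fun i => z (Fin.cast (two_mul s).symm (Fin.natAdd s i)))

theorem Rr_HE (s : ℕ) (p : (Fin s → ℕ) × (Fin s → ℕ)) : Rr_H s (Rr_E s p) = p := by
  unfold Rr_H
  refine Prod.ext (funext fun i => ?_) (funext fun i => ?_)
  · exact Rr_left s p i
  · exact Rr_right s p i

theorem Rr_EH (s : ℕ) (z : Fin (2 * s) → ℕ) : Rr_E s (Rr_H s z) = z := by
  funext i
  obtain ⟨j, rfl⟩ : ∃ j : Fin (s + s), i = Fin.cast (two_mul s).symm j :=
    ⟨Fin.cast (two_mul s) i, by simp⟩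
  unfold Rr_E Rr_H
  rw [Fin.cast_cast, Fin.cast_eq_self]
  refine Fin.addCases (fun l => ?_) (fun l => ?_) j
  · rw [Fin.append_left]
  · rw [Fin.append_right]

theorem Rr_memE (s : ℕ) (X : Finset ℕ) (p : (Fin s → ℕ) × (Fin s → ℕ)) :
    Rr_E s p ∈ tup (2 * s) X ↔ p.1 ∈ tup s X ∧ p.2 ∈ tup s X := by
  unfold tup
  rw [Fintype.mem_piFinset, Fintype.mem_piFinset, Fintype.mem_piFinset]
  constructor
  · intro h
    refine ⟨fun i => ?_, fun i => ?_⟩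
    · rw [← Rr_left s p i]
      exact h _
    · rw [← Rr_right s p i]
      exact h _
  · rintro ⟨h1, h2⟩ i
    unfold Rr_E
    refine Fin.addCases (fun l => ?_) (fun l => ?_) (Fin.cast (two_mul s) i)
    · rw [Fin.append_left]
      exact h1 l
    · rw [Fin.append_right]
      exact h2 l

theorem rr_sq (k s Y : ℕ) (X : Finset ℕ) (hX : ∀ x ∈ X, x ≤ Y) :
    ∑ v ∈ Icc (-((s * Y ^ k : ℕ) : ℤ)) (s * Y ^ k : ℕ), rr k s X v ^ 2 = TT k (2 * s) X := by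
  classical
  set T := tup s X ×ˢ tup s X with hT
  set φ : (Fin s → ℕ) × (Fin s → ℕ) → ℤ := fun w => (sk k w.1 : ℤ) - sk k w.2 with hφ
  set Q := (T ×ˢ T).filter fun w => φ w.1 = φ w.2 with hQ
  have h1 : Q.card = ∑ v ∈ Icc (-((s * Y ^ k : ℕ) : ℤ)) (s * Y ^ k : ℕ), rr k s X v ^ 2 := by
    rw [Finset.card_eq_sum_card_fiberwise (s := Q) (f := fun w => φ w.1)
      (t := Icc (-((s * Y ^ k : ℕ) : ℤ)) (s * Y ^ k : ℕ))
      (fun w hw => Rr_mem k s Y X hX w.1 (Finset.mem_product.1 (Finset.mem_filter.1 hw).1).1)]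
    refine Finset.sum_congr rfl fun v _ => ?_
    have h2 : Q.filter (fun w => φ w.1 = v) =
        (T.filter fun w => φ w = v) ×ˢ (T.filter fun w => φ w = v) := by
      ext w
      simp only [hQ, Finset.mem_filter, Finset.mem_product]
      constructor
      · rintro ⟨⟨⟨h3, h4⟩, h5⟩, h6⟩
        exact ⟨⟨h3, h6⟩, h4, h5 ▸ h6⟩
      · rintro ⟨⟨h3, h4⟩, h5, h6⟩
        exact ⟨⟨⟨h3, h5⟩, h4.trans h6.symm⟩, h4⟩
    rw [h2, Finset.card_product, sq]
    rfl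
  rw [← h1]
  unfold TT col
  refine Finset.card_bij' (fun w _ => (Rr_E s (w.1.1, w.2.2), Rr_E s (w.2.1, w.1.2)))
    (fun z _ => (((Rr_H s z.1).1, (Rr_H s z.2).2), ((Rr_H s z.2).1, (Rr_H s z.1).2))) ?_ ?_ ?_ ?_
  · intro w hw
    rw [hQ, Finset.mem_filter, Finset.mem_product, hT, Finset.mem_product, Finset.mem_product] at hw
    rw [Finset.mem_filter, Finset.mem_product]
    refine ⟨⟨(Rr_memE s X _).2 ⟨hw.1.1.1, hw.1.2.2⟩, (Rr_memE s X _).2 ⟨hw.1.2.1, hw.1.1.2⟩⟩, ?_⟩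
    have h2 := hw.2
    simp only [hφ] at h2
    rw [Rr_sk, Rr_sk]
    dsimp only
    omega
  · intro z hz
    rw [Finset.mem_filter, Finset.mem_product] at hz
    obtain ⟨⟨h2, h3⟩, h4⟩ := hz
    rw [← Rr_EH s z.1, Rr_memE] at h2
    rw [← Rr_EH s z.2, Rr_memE] at h3
    rw [← Rr_EH s z.1, ← Rr_EH s z.2, Rr_sk, Rr_sk] at h4
    rw [hQ, Finset.mem_filter, Finset.mem_product, hT, Finset.mem_product, Finset.mem_product]
    refine ⟨⟨⟨h2.1, h3.2⟩, h3.1, h2.2⟩, ?_⟩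
    simp only [hφ]
    omega
  · intro w _
    simp only [Rr_HE]
  · intro z _
    refine Prod.ext ?_ ?_
    · exact Rr_EH s z.1
    · exact Rr_EH s z.2

theorem rr_fourier (k s Y : ℕ) (X : Finset ℕ) (hX : ∀ x ∈ X, x ≤ Y) (θ : ℝ) :
    ((‖∑ x ∈ X, e (θ * (x : ℝ) ^ k)‖ ^ (2 * s) : ℝ) : ℂ) =
      ∑ v ∈ Icc (-((s * Y ^ k : ℕ) : ℤ)) (s * Y ^ k : ℕ), (rr k s X v : ℂ) * e (θ * v) := by
  have h1 : ((‖∑ x ∈ X, e (θ * (x : ℝ) ^ k)‖ ^ (2 * s) : ℝ) : ℂ) =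
      (∑ x ∈ tup s X, e (θ * (sk k x : ℝ))) * (starRingEnd ℂ) (∑ x ∈ tup s X, e (θ * (sk k x : ℝ))) := by
    rw [Complex.mul_conj', sum_tup, norm_pow]
    push_cast
    ring
  have h2 : ∀ v ∈ Icc (-((s * Y ^ k : ℕ) : ℤ)) (s * Y ^ k : ℕ), (rr k s X v : ℂ) * e (θ * v) =
      ∑ w ∈ (tup s X ×ˢ tup s X).filter (fun w => (sk k w.1 : ℤ) - sk k w.2 = v),
        e (θ * (((sk k w.1 : ℤ) - sk k w.2 : ℤ) : ℝ)) := by
    intro v _
    rw [Finset.sum_congr rfl (g := fun _ => e (θ * v)) fun w hw => by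
      rw [(Finset.mem_filter.1 hw).2], Finset.sum_const, nsmul_eq_mul]
    rfl
  rw [h1, Finset.sum_congr rfl h2, Finset.sum_fiberwise_of_maps_to (Rr_mem k s Y X hX)
    (fun w => e (θ * (((sk k w.1 : ℤ) - sk k w.2 : ℤ) : ℝ))), map_sum, Finset.sum_mul_sum,
    Finset.sum_product]
  refine Finset.sum_congr rfl fun x _ => Finset.sum_congr rfl fun y _ => ?_
  rw [Pool.Agent.Lib.MP_2a816b_nt.conj_e, ← Pool.Agent.Lib.MP_2a816b_nt.e_add]
  congr 1
  push_cast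
  ring

end Pool.Agent.Lib.MP_570bef_ntP
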