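import Pool.Agent.Lib.MP_570bef_ntP.Bas

/-!
# Roots modulo `p ^ k` (job Rt)

If the set is empty there is nothing to prove.  The residues of its elements are units `u` of `ZMod (p ^ k)` with `u ^ k = c`; if `u₀` is one of them, then
`u ↦ u / u₀` is an injection to the set of the units with `v ^ k = 1`, and in a cyclic group this set has at most `k` elements
(`IsCyclic.card_pow_eq_one_le`; the unit group of `ZMod (p ^ k)`, `p` odd, is cyclic: `ZMod.isCyclic_units_of_prime_pow`, file
`Mathlib/RingTheory/ZMod/UnitsCyclic.lean`).  The map from `range (p ^ k)` to `ZMod (p ^ k)` is injective.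
-/

set_option autoImplicit false

namespace Pool.Agent.Lib.MP_570bef_ntP

open Finset
open Pool.Agent.Lib.MP_2a816b_nt (e nn D)

theorem roots_card (p k c : ℕ) (hp : p.Prime) (hp2 : p ≠ 2) (hk : 1 ≤ k) :
    ((range (p ^ k)).filter fun z => z.Coprime p ∧ z ^ k ≡ c [MOD p ^ k]).card ≤ k := by
  classical
  have hpk : 0 < p ^ k := pow_pos hp.pos k
  haveI : NeZero (p ^ k) := ⟨hpk.ne'⟩
  haveI : Fact p.Prime := ⟨hp⟩
  haveI : IsCyclic (ZMod (p ^ k))ˣ := ZMod.isCyclic_units_of_prime_pow p hp hp2 k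
  set S := (range (p ^ k)).filter fun z => z.Coprime p ∧ z ^ k ≡ c [MOD p ^ k] with hS
  rcases S.eq_empty_or_nonempty with h0 | ⟨z₀, hz₀⟩
  · rw [h0]
    simp
  have hcop : ∀ z ∈ S, z.Coprime (p ^ k) := fun z hz => (mem_filter.1 hz).2.1.pow_right k
  have hpow : ∀ z (hz : z ∈ S), (ZMod.unitOfCoprime z (hcop z hz)) ^ k =
      (ZMod.unitOfCoprime z₀ (hcop z₀ hz₀)) ^ k := by
    intro z hz
    apply Units.ext
    rw [Units.val_pow_eq_pow_val, Units.val_pow_eq_pow_val, ZMod.coe_unitOfCoprime,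
      ZMod.coe_unitOfCoprime]
    have h1 : z ^ k ≡ z₀ ^ k [MOD p ^ k] := (mem_filter.1 hz).2.2.trans (mem_filter.1 hz₀).2.2.symm
    have h2 := (ZMod.natCast_eq_natCast_iff _ _ _).2 h1
    push_cast at h2
    exact h2
  let f : ℕ → (ZMod (p ^ k))ˣ := fun z => if hz : z ∈ S then
    ZMod.unitOfCoprime z (hcop z hz) * (ZMod.unitOfCoprime z₀ (hcop z₀ hz₀))⁻¹ else 1
  have hle : S.card ≤ (univ.filter fun u : (ZMod (p ^ k))ˣ => u ^ k = 1).card := by
    apply card_le_card_of_injOn f
    · intro z hz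
      have hz' : z ∈ S := hz
      rw [mem_coe, mem_filter]
      refine ⟨mem_univ _, ?_⟩
      simp only [f, dif_pos hz']
      rw [mul_pow, hpow z hz', inv_pow, mul_inv_cancel]
    · intro z hz w hw hzw
      have hz' : z ∈ S := hz
      have hw' : w ∈ S := hw
      simp only [f, dif_pos hz', dif_pos hw'] at hzw
      have h1 := mul_right_cancel hzw
      have h2 := congrArg Units.val h1
      rw [ZMod.coe_unitOfCoprime, ZMod.coe_unitOfCoprime, ZMod.natCast_eq_natCast_iff] at h2
      exact Nat.ModEq.eq_of_lt_of_lt h2 (mem_range.1 (mem_filter.1 hz').1)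
        (mem_range.1 (mem_filter.1 hw').1)
  exact hle.trans (IsCyclic.card_pow_eq_one_le (by omega))

end Pool.Agent.Lib.MP_570bef_ntP
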