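import Pool.Agent.Lib.MP_570bef_ntP.Four
import Pool.Agent.Lib.MP_570bef_ntP.Rt

/-!
# Shifted equations have fewer solutions (job Shf)

`TT_shift`: let `r a = #{x ∈ tup l X : sk k x = a}`.  The pairs are counted by `∑_{(a, a')} r a * r a'` over the pairs of values `(a, a')` with
`u + c a = u' + c a'`; as `c ≥ 1` each `a` occurs with at most one `a'` and each `a'` with at most one `a`.  `r a * r a' ≤ (r a ^ 2 + r a' ^ 2) / 2`, so the
sum is at most `∑_a r a ^ 2 = TT k l X`.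
(Or with `mean_col`-like Fourier analysis.)
`np_bound`: the pairs `((z, x), (z', x'))` with `z^k + p^k sk x = z'^k + p^k sk x'`.  For each such pair `z'^k ≡ z^k mod p^k`; for given `z` there are
at most `k` such `z' ∈ Z` (`roots_card`, file Rt, with `c = z^k`), and for given `(z, z')` at most `TT k l X` pairs `(x, x')` by `TT_shift`.
-/

set_option autoImplicit false

namespace Pool.Agent.Lib.MP_570bef_ntP

open Finset
open Pool.Agent.Lib.MP_2a816b_nt (e nn D)

private theorem Shf_col {ι : Type*} [DecidableEq ι] (S : Finset ι) (φ : ι → ℕ) :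
    ∑ v ∈ S.image φ, (S.filter fun i => φ i = v).card ^ 2 = col S φ := by
  classical
  unfold col
  have h1 : ∀ w ∈ (S ×ˢ S).filter (fun w => φ w.1 = φ w.2), φ w.1 ∈ S.image φ := by
    intro w hw
    rw [mem_filter, mem_product] at hw
    exact mem_image_of_mem φ hw.1.1
  rw [card_eq_sum_card_fiberwise h1]
  refine sum_congr rfl (fun v _ => ?_)
  rw [sq, ← card_product]
  congr 1
  ext w
  simp only [mem_product, mem_filter]
  constructor
  · rintro ⟨⟨h2, h3⟩, h4, h5⟩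
    exact ⟨⟨⟨h2, h4⟩, by rw [h3, h5]⟩, h3⟩
  · rintro ⟨⟨⟨h2, h3⟩, h4⟩, h5⟩
    exact ⟨⟨h2, h5⟩, h3, by rw [← h4, h5]⟩

theorem TT_shift (k l c u u' : ℕ) (hc : 1 ≤ c) (X : Finset ℕ) :
    ((tup l X ×ˢ tup l X).filter fun w => u + c * sk k w.1 = u' + c * sk k w.2).card ≤
      TT k l X := by
  classical
  set T := tup l X with hT
  set V := T.image (sk k) with hV
  set r : ℕ → ℕ := fun a => (T.filter fun x => sk k x = a).card with hr
  set Mt := (V ×ˢ V).filter (fun w => u + c * w.1 = u' + c * w.2) with hMt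
  set Q := (T ×ˢ T).filter (fun w => u + c * sk k w.1 = u' + c * sk k w.2) with hQ
  have hTT : ∑ a ∈ V, r a ^ 2 = TT k l X := Shf_col T (sk k)
  have hmaps : ∀ w ∈ Q, ((sk k w.1, sk k w.2) : ℕ × ℕ) ∈ Mt := by
    intro w hw
    rw [hQ, mem_filter, mem_product] at hw
    rw [hMt, mem_filter, mem_product]
    exact ⟨⟨mem_image_of_mem _ hw.1.1, mem_image_of_mem _ hw.1.2⟩, hw.2⟩
  have hcard : Q.card = ∑ w ∈ Mt, r w.1 * r w.2 := by
    rw [card_eq_sum_card_fiberwise hmaps]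
    refine sum_congr rfl (fun v hv => ?_)
    rw [hMt, mem_filter, mem_product] at hv
    rw [hr]
    simp only
    rw [← card_product]
    congr 1
    ext w
    simp only [hQ, mem_product, mem_filter, Prod.ext_iff]
    constructor
    · rintro ⟨⟨⟨h2, h3⟩, _⟩, h5, h6⟩
      exact ⟨⟨h2, h5⟩, h3, h6⟩
    · rintro ⟨⟨h2, h3⟩, h4, h5⟩
      exact ⟨⟨⟨h2, h4⟩, by rw [h3, h5]; exact hv.2⟩, h3, h5⟩
  have h1 : ∑ w ∈ Mt, r w.1 ^ 2 ≤ ∑ a ∈ V, r a ^ 2 := by
    have hinj : Set.InjOn (fun w : ℕ × ℕ => w.1) (Mt : Set (ℕ × ℕ)) := by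
      intro w hw w' hw' h
      rw [mem_coe, hMt, mem_filter] at hw hw'
      have h2 := hw.2
      have h3 := hw'.2
      simp only at h
      rw [h] at h2
      have h4 : c * w.2 = c * w'.2 := by omega
      exact Prod.ext h (Nat.eq_of_mul_eq_mul_left (by omega) h4)
    have h2 : ∑ w ∈ Mt, r w.1 ^ 2 = ∑ a ∈ Mt.image (fun w => w.1), r a ^ 2 :=
      (sum_image (f := fun a => r a ^ 2) hinj).symm
    rw [h2]
    refine sum_le_sum_of_subset (fun a ha => ?_)
    obtain ⟨w, hw, rfl⟩ := mem_image.1 ha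
    rw [hMt, mem_filter, mem_product] at hw
    exact hw.1.1
  have h2 : ∑ w ∈ Mt, r w.2 ^ 2 ≤ ∑ a ∈ V, r a ^ 2 := by
    have hinj : Set.InjOn (fun w : ℕ × ℕ => w.2) (Mt : Set (ℕ × ℕ)) := by
      intro w hw w' hw' h
      rw [mem_coe, hMt, mem_filter] at hw hw'
      have h2 := hw.2
      have h3 := hw'.2
      simp only at h
      rw [h] at h2
      have h4 : c * w.1 = c * w'.1 := by omega
      exact Prod.ext (Nat.eq_of_mul_eq_mul_left (by omega) h4) h
    have h2 : ∑ w ∈ Mt, r w.2 ^ 2 = ∑ a ∈ Mt.image (fun w => w.2), r a ^ 2 :=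
      (sum_image (f := fun a => r a ^ 2) hinj).symm
    rw [h2]
    refine sum_le_sum_of_subset (fun a ha => ?_)
    obtain ⟨w, hw, rfl⟩ := mem_image.1 ha
    rw [hMt, mem_filter, mem_product] at hw
    exact hw.1.2
  have h3 : 2 * ∑ w ∈ Mt, r w.1 * r w.2 ≤ ∑ w ∈ Mt, r w.1 ^ 2 + ∑ w ∈ Mt, r w.2 ^ 2 := by
    rw [mul_sum, ← sum_add_distrib]
    refine sum_le_sum (fun w _ => ?_)
    have := two_mul_le_add_sq (r w.1) (r w.2)
    linarith
  rw [← hTT, hcard]
  omega

theorem np_bound (k l p : ℕ) (hp : p.Prime) (hp2 : p ≠ 2) (hk : 1 ≤ k) (Z X : Finset ℕ)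
    (hZ : ∀ z ∈ Z, z.Coprime p ∧ z < p ^ k) :
    col (Z ×ˢ tup l X) (fun w => w.1 ^ k + p ^ k * sk k w.2) ≤ Z.card * k * TT k l X := by
  classical
  have hpk : 1 ≤ p ^ k := Nat.one_le_iff_ne_zero.2 (pow_ne_zero _ hp.ne_zero)
  set R2 := (Z ×ˢ Z).filter (fun v => v.2 ^ k ≡ v.1 ^ k [MOD p ^ k]) with hR2
  have hR2c : R2.card ≤ k * Z.card := by
    refine card_le_mul_card_image_of_maps_to (f := fun v : ℕ × ℕ => v.1) ?_ k ?_
    · intro v hv
      rw [hR2, mem_filter, mem_product] at hv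
      exact hv.1.1
    · intro z hz
      refine le_trans ?_ (roots_card p k (z ^ k) hp hp2 hk)
      refine card_le_card_of_injOn (fun v : ℕ × ℕ => v.2) ?_ ?_
      · intro v hv
        rw [mem_coe, hR2, mem_filter, mem_filter, mem_product] at hv
        rw [mem_coe, mem_filter, mem_range]
        have h1 := hZ v.2 hv.1.1.2
        have h2 := hv.1.2
        rw [hv.2] at h2
        exact ⟨h1.2, h1.1, h2⟩
      · intro v hv v' hv' h
        rw [mem_coe, mem_filter] at hv hv'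
        exact Prod.ext (by rw [hv.2, hv'.2]) h
  unfold col
  set S := (((Z ×ˢ tup l X) ×ˢ (Z ×ˢ tup l X)).filter fun w =>
    w.1.1 ^ k + p ^ k * sk k w.1.2 = w.2.1 ^ k + p ^ k * sk k w.2.2) with hS
  have h1 : S.card ≤ TT k l X * R2.card := by
    refine card_le_mul_card_image_of_maps_to
      (f := fun w : (ℕ × (Fin l → ℕ)) × (ℕ × (Fin l → ℕ)) => ((w.1.1, w.2.1) : ℕ × ℕ)) ?_ _ ?_
    · intro w hw
      rw [hS, mem_filter, mem_product, mem_product, mem_product] at hw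
      rw [hR2, mem_filter, mem_product]
      refine ⟨⟨hw.1.1.1, hw.1.2.1⟩, ?_⟩
      have h2 := hw.2
      have h3 : (w.2.1 ^ k + p ^ k * sk k w.2.2) ≡ w.2.1 ^ k + 0 [MOD p ^ k] :=
        Nat.ModEq.add_left _ (Nat.modEq_zero_iff_dvd.2 (dvd_mul_right _ _))
      have h4 : (w.1.1 ^ k + p ^ k * sk k w.1.2) ≡ w.1.1 ^ k + 0 [MOD p ^ k] :=
        Nat.ModEq.add_left _ (Nat.modEq_zero_iff_dvd.2 (dvd_mul_right _ _))
      rw [h2] at h4
      have h5 := h3.symm.trans h4
      simpa using h5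
    · intro v hv
      refine le_trans ?_ (TT_shift k l (p ^ k) (v.1 ^ k) (v.2 ^ k) hpk X)
      refine card_le_card_of_injOn
        (fun w : (ℕ × (Fin l → ℕ)) × (ℕ × (Fin l → ℕ)) => (w.1.2, w.2.2)) ?_ ?_
      · intro w hw
        rw [mem_coe, mem_filter, hS, mem_filter, mem_product, mem_product, mem_product] at hw
        rw [mem_coe, mem_filter, mem_product]
        obtain ⟨⟨⟨⟨_, h3⟩, _, h5⟩, h6⟩, h7⟩ := hw
        refine ⟨⟨h3, h5⟩, ?_⟩
        rw [← h7]
        exact h6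
      · intro w hw w' hw' h
        rw [mem_coe, mem_filter] at hw hw'
        have h2 : ((w.1.1, w.2.1) : ℕ × ℕ) = (w'.1.1, w'.2.1) := by rw [hw.2, hw'.2]
        have h3 := (Prod.ext_iff.1 h2)
        have h4 := (Prod.ext_iff.1 h)
        exact Prod.ext (Prod.ext h3.1 h4.1) (Prod.ext h3.2 h4.2)
  calc S.card ≤ TT k l X * R2.card := h1
    _ ≤ TT k l X * (k * Z.card) := Nat.mul_le_mul_left _ hR2c
    _ = Z.card * k * TT k l X := by ring

end Pool.Agent.Lib.MP_570bef_ntP
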