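import Pool.Agent.Lib.MP_570bef_ntP.Pos

/-!
# The grid argument with a general set instead of the sums of `s` `k`-th powers below `N`
-/

set_option autoImplicit false

namespace Pool.Agent.Lib.MP_570bef_ntP

open Finset
open Pool.Agent.Lib.MP_2a816b_nt (e nn D norm_e)
open Pool.Agent.Lib.MP_570bef_nt (IsSum countSums isSum_pow)

private theorem SpA_norm_le {ι : Type*} (S : Finset ι) (f : ι → ℝ) :
    ‖∑ i ∈ S, e (f i)‖ ≤ S.card := by
  calc ‖∑ i ∈ S, e (f i)‖ ≤ ∑ i ∈ S, ‖e (f i)‖ := norm_sum_le _ _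
    _ = S.card := by simp [norm_e]

private theorem SpA_col_id (S : Finset ℕ) : col S (fun a => a) ≤ S.card := by
  unfold col
  apply card_le_card_of_injOn fun w => w.1
  · intro w hw
    exact (mem_product.1 (mem_filter.1 (mem_coe.1 hw)).1).1
  · intro w hw w' hw' h
    have h1 : w.1 = w.2 := (mem_filter.1 (mem_coe.1 hw)).2
    have h2 : w'.1 = w'.2 := (mem_filter.1 (mem_coe.1 hw')).2
    have h3 : w.1 = w'.1 := h
    exact Prod.ext h3 (by rw [← h1, ← h2, h3])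

theorem core_general (k s₁ s g t z N P : ℕ) (S₁ 𝓜 A X : Finset ℕ) (C E : ℝ) (hN : 1 ≤ N)
    (hS₁lt : ∀ a ∈ S₁, a < N) (hS₁sum : ∀ a ∈ S₁, IsSum k s₁ a)
    (hP : 1 ≤ P) (hPk : P ^ k = N) (hM : ∀ p ∈ 𝓜, ∀ u ∈ A, p ^ k * u ≤ N)
    (hA : ∀ u ∈ A, IsSum k s u) (hX : ∀ x ∈ X, ∀ y ∈ X, x * y ≤ P) (hMne : 𝓜.Nonempty)
    (hAne : A.Nonempty) (hXne : X.Nonempty) (hSne : S₁.Nonempty) (hE : 0 < E)
    (hNE : (N : ℝ) ≤ S₁.card * E) (hC : 0 ≤ C)
    (hreg : ∀ α : ℝ, 0 ≤ α → α < 1 →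
      ‖∑ x ∈ X, ∑ y ∈ X, e (α * ((x : ℝ) * y) ^ k)‖ ^ (2 * t) * E ≤
          ((X.card : ℝ) ^ 2) ^ (2 * t) ∨
      ‖∑ p ∈ 𝓜, ∑ u ∈ A, e (α * ((p : ℝ) ^ k * u))‖ ^ (2 * g) * E ≤
          ((𝓜.card : ℝ) * A.card) ^ (2 * g) ∨
      ∃ (q : ℕ) (a : ℤ), 1 ≤ q ∧ 0 ≤ a ∧ a ≤ q ∧
        ‖∑ x ∈ range P, e (α * (x : ℝ) ^ k)‖ ^ (2 * z) *
          ((q : ℝ) * (1 + (N : ℝ) * |α - a / q|)) ^ 4 ≤ C * (P : ℝ) ^ (2 * z)) :
    (N : ℝ) ≤ (2 + 1000 * C) * (countSums k (s₁ + g * s + t + z) 0 ((1 + g + t + z) * N) : ℕ) := by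
  classical
  obtain ⟨R, hR⟩ : ∃ R, R = (1 + g + t + z) * N := ⟨_, rfl⟩
  have hNR : N ≤ R := by
    rw [hR]
    exact Nat.le_mul_of_pos_left _ (by omega)
  have hR0 : (0 : ℝ) < R := by exact_mod_cast (by omega : 0 < R)
  have e2 : ∀ b : ℕ, ∑ i ∈ 𝓜 ×ˢ A, e ((b : ℝ) / R * ((i.1 ^ k * i.2 : ℕ) : ℝ)) =
      ∑ p ∈ 𝓜, ∑ u ∈ A, e ((b : ℝ) / R * ((p : ℝ) ^ k * u)) := by
    intro b
    rw [sum_product]
    refine sum_congr rfl fun p _ => sum_congr rfl fun u _ => ?_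
    push_cast
    rfl
  have e3 : ∀ b : ℕ, ∑ i ∈ X ×ˢ X, e ((b : ℝ) / R * (((i.1 * i.2) ^ k : ℕ) : ℝ)) =
      ∑ x ∈ X, ∑ y ∈ X, e ((b : ℝ) / R * ((x : ℝ) * y) ^ k) := by
    intro b
    rw [sum_product]
    refine sum_congr rfl fun p _ => sum_congr rfl fun u _ => ?_
    push_cast
    rfl
  have e4 : ∀ b : ℕ, ∑ x ∈ range P, e ((b : ℝ) / R * ((x ^ k : ℕ) : ℝ)) =
      ∑ x ∈ range P, e ((b : ℝ) / R * (x : ℝ) ^ k) := by
    intro b
    refine sum_congr rfl fun p _ => ?_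
    push_cast
    rfl
  have hreg' := regions R N hN hNR
    (fun b => ‖∑ a ∈ S₁, e ((b : ℝ) / R * a)‖)
    (fun b => ‖∑ i ∈ 𝓜 ×ˢ A, e ((b : ℝ) / R * ((i.1 ^ k * i.2 : ℕ) : ℝ))‖ ^ (2 * g))
    (fun b => ‖∑ i ∈ X ×ˢ X, e ((b : ℝ) / R * (((i.1 * i.2) ^ k : ℕ) : ℝ))‖ ^ (2 * t))
    (fun b => ‖∑ x ∈ range P, e ((b : ℝ) / R * ((x ^ k : ℕ) : ℝ))‖ ^ (2 * z))
    S₁.card (((𝓜 ×ˢ A).card : ℝ) ^ (2 * g)) (((X ×ˢ X).card : ℝ) ^ (2 * t))
    (((range P).card : ℝ) ^ (2 * z)) E C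
    (fun b => norm_nonneg _) (fun b => by positivity) (fun b => by positivity)
    (fun b => by positivity)
    (fun b => SpA_norm_le _ _)
    (fun b => pow_le_pow_left₀ (norm_nonneg _) (SpA_norm_le _ _) _)
    (fun b => pow_le_pow_left₀ (norm_nonneg _) (SpA_norm_le _ _) _)
    (fun b => pow_le_pow_left₀ (norm_nonneg _) (SpA_norm_le _ _) _)
    (by
      rw [mean_col S₁ (fun a => a) R fun i hi => (hS₁lt i hi).trans_le hNR]
      apply mul_le_mul_of_nonneg_left _ hR0.le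
      exact_mod_cast SpA_col_id S₁)
    hE hNE hC
    (by
      intro b hb
      have hb0 : (0 : ℝ) ≤ (b : ℝ) / R := by positivity
      have hb1 : (b : ℝ) / R < 1 := by
        rw [div_lt_one hR0]
        exact_mod_cast hb
      rcases hreg _ hb0 hb1 with h | h | ⟨q, a, h1, h2, h3, h4⟩
      · left
        simp only [e3, card_product]
        push_cast
        rw [← sq]
        exact h
      · right; left
        simp only [e2, card_product]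
        push_cast
        exact h
      · right; right
        refine ⟨q, a, h1, h2, h3, ?_⟩
        simp only [e4, card_range]
        exact h4)
  obtain ⟨T, hT, hNT⟩ := image_large S₁ (𝓜 ×ˢ A) (X ×ˢ X) (range P)
    (fun i => i.1 ^ k * i.2) (fun i => (i.1 * i.2) ^ k) (fun x => x ^ k) g t z N R N
    (2 + 1000 * C) hSne (hMne.product hAne) (hXne.product hXne) ⟨0, mem_range.2 (by omega)⟩
    hS₁lt
    (fun i hi => hM _ (mem_product.1 hi).1 _ (mem_product.1 hi).2)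
    (fun i hi => by
      rw [← hPk]
      exact Nat.pow_le_pow_left (hX _ (mem_product.1 hi).1 _ (mem_product.1 hi).2) k)
    (fun i hi => by
      rw [← hPk]
      exact Nat.pow_le_pow_left (mem_range.1 hi).le k)
    hR hN (by
      refine hreg'.trans (le_of_eq ?_)
      ring)
  have hTsub : T ⊆ sums k (s₁ + g * s + t + z) ((1 + g + t + z) * N) := by
    intro n hn
    obtain ⟨hnR, a, ha, w₂, w₃, w₄, h2, h3, h4, hneq⟩ := hT n hn
    unfold sums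
    rw [mem_filter, mem_range, ← hR]
    refine ⟨hnR, ?_⟩
    rw [hneq]
    have i2 := isSum_sum k s g (fun i => (w₂ i).1 ^ k * (w₂ i).2) fun i =>
      (hA _ (mem_product.1 (h2 i)).2).mul_pow _
    have i3 := isSum_sum k 1 t (fun i => ((w₃ i).1 * (w₃ i).2) ^ k) fun i => isSum_pow k _
    have i4 := isSum_sum k 1 z (fun i => (w₄ i) ^ k) fun i => isSum_pow k _
    rw [mul_one] at i3 i4
    exact (((hS₁sum a ha).add i2).add i3).add i4
  have hcard : T.card ≤ countSums k (s₁ + g * s + t + z) 0 ((1 + g + t + z) * N) := by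
    rw [← card_sums]
    exact card_le_card hTsub
  have hcard' : (T.card : ℝ) ≤
      (countSums k (s₁ + g * s + t + z) 0 ((1 + g + t + z) * N) : ℕ) := by exact_mod_cast hcard
  exact hNT.trans (mul_le_mul_of_nonneg_left hcard' (by positivity))


end Pool.Agent.Lib.MP_570bef_ntP
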