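import Pool.Agent.Lib.MP_570bef_ntP.SpA

/-!
# Sparse scales

From a count `≥ N^(1-κ/k)` for one `N` in every `[X, X^c]` to positive density of sums at one scale in every `[X, X^c']`.
The sums of `s` `k`-th powers below `N₁ ≤ U = B^(16mk)` form the set `A`; the numbers `∑_{i<r} U^i a_i` (`a_i ∈ A`, `U = (B^(16m))^k`) give the set `S₁` at
the larger scale `U^r = B^(64(κ+2)mk)`.
-/

set_option autoImplicit false

namespace Pool.Agent.Lib.MP_570bef_ntP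

open Finset
open Pool.Agent.Lib.MP_570bef_nt (IsSum countSums isSum_pow isSum_zero)

theorem digits (k s r Y : ℕ) (A : Finset ℕ) (hA : ∀ a ∈ A, a < Y ^ k ∧ IsSum k s a) :
    ∃ S : Finset ℕ, S.card = A.card ^ r ∧ ∀ n ∈ S, n < (Y ^ k) ^ r ∧ IsSum k (r * s) n := by
  classical
  induction r with
  | zero =>
    refine ⟨{0}, by simp, ?_⟩
    intro n hn
    rw [mem_singleton] at hn
    subst hn
    refine ⟨by simp, fun _ => 0, ?_⟩
    simp
  | succ r ih =>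
    obtain ⟨S, hS1, hS2⟩ := ih
    refine ⟨(A ×ˢ S).image fun w => w.1 + Y ^ k * w.2, ?_, ?_⟩
    · rw [card_image_of_injOn, card_product, hS1, pow_succ, mul_comm]
      intro w hw w' hw' h
      obtain ⟨h1, h2⟩ := mem_product.1 (mem_coe.1 hw)
      obtain ⟨h1', h2'⟩ := mem_product.1 (mem_coe.1 hw')
      have h3 := (hA _ h1).1
      have h3' := (hA _ h1').1
      have h' : w.1 + Y ^ k * w.2 = w'.1 + Y ^ k * w'.2 := h
      have h4 : w.1 = w'.1 := by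
        have := congrArg (fun n => n % Y ^ k) h'
        simp only [Nat.add_mul_mod_self_left] at this
        rwa [Nat.mod_eq_of_lt h3, Nat.mod_eq_of_lt h3'] at this
      have h5 : w.2 = w'.2 := by
        rw [h4] at h'
        have h6 := Nat.add_left_cancel h'
        exact Nat.eq_of_mul_eq_mul_left (by omega) h6
      exact Prod.ext h4 h5
    · intro n hn
      obtain ⟨w, hw, rfl⟩ := mem_image.1 hn
      obtain ⟨h1, h2⟩ := mem_product.1 hw
      obtain ⟨h3, h4⟩ := hA _ h1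
      obtain ⟨h5, h6⟩ := hS2 _ h2
      refine ⟨?_, ?_⟩
      · calc w.1 + Y ^ k * w.2 < Y ^ k + Y ^ k * w.2 := by omega
          _ = Y ^ k * (w.2 + 1) := by ring
          _ ≤ Y ^ k * (Y ^ k) ^ r := Nat.mul_le_mul_left _ h5
          _ = (Y ^ k) ^ (r + 1) := by ring
      · have := h4.add (h6.mul_pow Y)
        rwa [show s + r * s = (r + 1) * s by ring] at this

/-- the least `B` with `N ≤ B ^ h` -/
theorem exists_root (h N B₀ : ℕ) (hh : 1 ≤ h) (hB₀ : 2 ≤ B₀) (hN : B₀ ^ h < N) :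
    ∃ B, B₀ ≤ B ∧ N ≤ B ^ h ∧ B ^ h ≤ 2 ^ h * N := by
  have hex : ∃ B, N ≤ B ^ h := ⟨N, Nat.le_self_pow (by omega) _⟩
  have h1 := Nat.find_spec hex
  set B := Nat.find hex with hB
  have h2 : B₀ < B := by
    by_contra hcon
    rw [not_lt] at hcon
    have : B ^ h ≤ B₀ ^ h := Nat.pow_le_pow_left hcon h
    omega
  have h3 := Nat.find_min hex (m := B - 1) (by omega)
  rw [not_le] at h3
  refine ⟨B, h2.le, h1, ?_⟩
  calc B ^ h ≤ (2 * (B - 1)) ^ h := Nat.pow_le_pow_left (by omega) h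
    _ = 2 ^ h * (B - 1) ^ h := mul_pow _ _ _
    _ ≤ 2 ^ h * N := Nat.mul_le_mul_left _ h3.le

theorem card_large (κ k m B N : ℕ) (c : ℕ) (hk : 2 ≤ k) (hm : 1 ≤ m) (hB : 2 ^ k ≤ B)
    (hN1 : 1 ≤ N) (hN : N ≤ B ^ (16 * m * k)) (hN2 : B ^ (16 * m * k) ≤ 2 ^ (16 * m * k) * N)
    (hc : (N : ℝ) ^ (1 - (κ : ℝ) / k) ≤ c) :
    B ^ (16 * m * k) ≤ c * B ^ (16 * m * (κ + 1)) := by
  have hk0 : (0 : ℝ) < k := by exact_mod_cast (by omega : 0 < k)
  have hNpos : (0 : ℝ) < N := by exact_mod_cast hN1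
  have hBpos : 0 < B := lt_of_lt_of_le (by positivity) hB
  have hBr : (0 : ℝ) < B := by exact_mod_cast hBpos
  have h1 : (N : ℝ) ^ ((κ : ℝ) / k) ≤ (B : ℝ) ^ (16 * m * κ) := by
    calc (N : ℝ) ^ ((κ : ℝ) / k) ≤ ((B : ℝ) ^ (16 * m * k)) ^ ((κ : ℝ) / k) :=
          Real.rpow_le_rpow hNpos.le (by exact_mod_cast hN) (by positivity)
      _ = (B : ℝ) ^ (16 * m * κ) := by
          rw [← Real.rpow_natCast, ← Real.rpow_mul hBr.le, ← Real.rpow_natCast]
          congr 1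
          push_cast
          field_simp
  have h2 : (N : ℝ) ≤ c * (B : ℝ) ^ (16 * m * κ) := by
    calc (N : ℝ) = (N : ℝ) ^ (1 - (κ : ℝ) / k) * (N : ℝ) ^ ((κ : ℝ) / k) := by
          rw [← Real.rpow_add hNpos]
          simp
      _ ≤ c * (B : ℝ) ^ (16 * m * κ) :=
          mul_le_mul hc h1 (by positivity) (by positivity)
  have h3 : N ≤ c * B ^ (16 * m * κ) := by exact_mod_cast h2
  have h4 : 2 ^ (16 * m * k) ≤ B ^ (16 * m) := by
    calc 2 ^ (16 * m * k) = (2 ^ k) ^ (16 * m) := by rw [← pow_mul]; ring_nf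
      _ ≤ B ^ (16 * m) := Nat.pow_le_pow_left hB _
  calc B ^ (16 * m * k) ≤ 2 ^ (16 * m * k) * N := hN2
    _ ≤ B ^ (16 * m) * (c * B ^ (16 * m * κ)) := Nat.mul_le_mul h4 h3
    _ = c * B ^ (16 * m * (κ + 1)) := by
        rw [show 16 * m * (κ + 1) = 16 * m + 16 * m * κ by ring, pow_add]
        ring

theorem density_sparse (κ k s c : ℕ) (hk : 2 ≤ k) (hc : 1 ≤ c)
    (h : ∃ X₀ : ℕ, ∀ X ≥ X₀, ∃ N, X ≤ N ∧ N ≤ X ^ c ∧
      (N : ℝ) ^ (1 - (κ : ℝ) / k) ≤ countSums k s 0 N) :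
    ∃ c₁ : ℕ, ∃ X₀ : ℕ, ∀ X ≥ X₀, ∃ L, X ≤ L ∧ L ≤ X ^ (4 * c * (κ + 2) + 1) ∧
      L ≤ c₁ * countSums k (4 * (κ + 2) * s + 16 * (κ + 1) * s +
        64 * (κ + 1) * (κ + 2) * (1 + 128 * (κ + 2)) ^ 2 * k + 8 * k) 0 L := by
  classical
  obtain ⟨X₁, hX₁⟩ := h
  obtain ⟨m, hm, C, hC, B₁, hB₁⟩ := arcs (κ + 1) k hk
  have hm1 : 1 ≤ m := by omega
  have e12 : κ + 1 + 1 = κ + 2 := rfl
  rw [e12] at hB₁
  have hKm : 64 * m ≤ 64 * (κ + 2) * m := Nat.mul_le_mul_right _ (by omega)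
  obtain ⟨B₄, hB₄⟩ := primes_many (64 * (κ + 2) * m - 16 * m - 1)
  set t : ℕ := 64 * (κ + 1) * (κ + 2) * (1 + 128 * (κ + 2)) ^ 2 * k with ht
  set B₀ : ℕ := max (max B₁ B₄) (2 ^ k + 2) with hB₀
  have hB₀1 : B₁ ≤ B₀ := (le_max_left _ _).trans (le_max_left _ _)
  have hB₀4 : B₄ ≤ B₀ := (le_max_right _ _).trans (le_max_left _ _)
  have hB₀2 : 2 ^ k + 2 ≤ B₀ := le_max_right _ _
  have h2k : 1 ≤ 2 ^ k := Nat.one_le_two_pow
  have hB₀3 : 2 ≤ B₀ := by omega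
  set W : ℕ := 1 + 16 * (κ + 1) + t + 8 * k with hW
  have h16 : 1 ≤ 16 * m * k := Nat.mul_pos (by omega) (by omega)
  refine ⟨W * ⌈2 + 1000 * C⌉₊,
    max (max X₁ (B₀ ^ (16 * m * k) + 1)) (W * (2 ^ (16 * m * k)) ^ (4 * (κ + 2))), fun X hX => ?_⟩
  have hX1 : X₁ ≤ X := (le_max_left _ _).trans ((le_max_left _ _).trans hX)
  have hX2 : B₀ ^ (16 * m * k) + 1 ≤ X := (le_max_right _ _).trans ((le_max_left _ _).trans hX)
  have hX3 : W * (2 ^ (16 * m * k)) ^ (4 * (κ + 2)) ≤ X := (le_max_right _ _).trans hX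
  obtain ⟨N₁, hN1, hN2, hN3⟩ := hX₁ X hX1
  obtain ⟨B, hBB, hB1, hB2⟩ := exists_root (16 * m * k) N₁ B₀ h16 hB₀3 (by omega)
  have hBpos : 0 < B := by omega
  have hBU : 0 < B ^ (16 * m * k) := pow_pos hBpos _
  obtain ⟨X', hXne, hX', harc⟩ := hB₁ B (hB₀1.trans hBB)
  have hA4 := hB₄ B (hB₀4.trans hBB)
  have hcount := card_large κ k m B N₁ (countSums k s 0 N₁) hk hm1 (by omega) (by omega) hB1 hB2 hN3
  set A := sums k s N₁ with hA
  rw [← card_sums, ← hA] at hcount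
  have hAlt : ∀ a ∈ A, a < N₁ := fun a ha => mem_range.1 (mem_filter.1 ha).1
  have hAsum : ∀ a ∈ A, IsSum k s a := fun a ha => (mem_filter.1 ha).2
  have hAsub : A ⊆ range (B ^ (16 * m * k)) := fun a ha =>
    mem_range.2 ((hAlt a ha).trans_le hB1)
  have hAne : A.Nonempty := by
    rw [nonempty_iff_ne_empty]
    intro h0
    rw [h0, card_empty, zero_mul] at hcount
    omega
  have hMne : (PP B (64 * (κ + 2) * m - 16 * m - 1)).Nonempty := by
    rw [← card_pos]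
    exact (pow_pos hBpos _).trans_le hA4
  have hYk : (B ^ (16 * m)) ^ k = B ^ (16 * m * k) := (pow_mul _ _ _).symm
  obtain ⟨S₁, hS1, hS2⟩ := digits k s (4 * (κ + 2)) (B ^ (16 * m)) A fun a ha =>
    ⟨by rw [hYk]; exact mem_range.1 (hAsub ha), hAsum a ha⟩
  rw [hYk] at hS2
  have hNr : (B ^ (16 * m * k)) ^ (4 * (κ + 2)) = B ^ (64 * (κ + 2) * m * k) := by
    rw [← pow_mul]
    congr 1
    ring
  rw [hNr] at hS2
  have hSne : S₁.Nonempty := by
    rw [← card_pos, hS1]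
    exact pow_pos (card_pos.2 hAne) _
  have hNS : B ^ (64 * (κ + 2) * m * k) ≤ S₁.card * B ^ (64 * (κ + 2) * m * (κ + 1)) := by
    rw [hS1, ← hNr]
    calc (B ^ (16 * m * k)) ^ (4 * (κ + 2))
        ≤ (A.card * B ^ (16 * m * (κ + 1))) ^ (4 * (κ + 2)) := Nat.pow_le_pow_left hcount _
      _ = A.card ^ (4 * (κ + 2)) * B ^ (64 * (κ + 2) * m * (κ + 1)) := by
          rw [mul_pow, ← pow_mul]
          congr 2
          ring
  have hPk : (B ^ (64 * (κ + 2) * m)) ^ k = B ^ (64 * (κ + 2) * m * k) := (pow_mul _ _ _).symm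
  have hcore := core_general k (4 * (κ + 2) * s) s (16 * (κ + 1)) t (8 * k)
    (B ^ (64 * (κ + 2) * m * k)) (B ^ (64 * (κ + 2) * m)) S₁
    (PP B (64 * (κ + 2) * m - 16 * m - 1)) A X' C ((B : ℝ) ^ (64 * (κ + 2) * m * (κ + 1)))
    (pow_pos hBpos _) (fun a ha => (hS2 a ha).1) (fun a ha => (hS2 a ha).2)
    (pow_pos hBpos _) hPk
    (by
      intro p hp u hu
      have hp1 := (mem_Ioc.1 (mem_filter.1 hp).1).2
      have hu1 := mem_range.1 (hAsub hu)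
      have h1 : 64 * (κ + 2) * m - 16 * m - 1 + 1 = 64 * (κ + 2) * m - 16 * m := by omega
      rw [h1] at hp1
      calc p ^ k * u ≤ (B ^ (64 * (κ + 2) * m - 16 * m)) ^ k * B ^ (16 * m * k) :=
            Nat.mul_le_mul (Nat.pow_le_pow_left hp1 k) hu1.le
        _ = B ^ (64 * (κ + 2) * m * k) := by
            rw [← pow_mul, ← pow_add, ← Nat.add_mul]
            congr 2
            omega)
    hAsum
    (by
      intro x hx y hy
      calc x * y ≤ B ^ (32 * (κ + 2) * m) * B ^ (32 * (κ + 2) * m) :=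
            Nat.mul_le_mul (hX' x hx).2 (hX' y hy).2
        _ = B ^ (64 * (κ + 2) * m) := by
            rw [← pow_add]
            congr 1
            ring)
    hMne hAne hXne hSne (by positivity) (by exact_mod_cast hNS) (by linarith)
    (by
      intro α h0 h1
      have h2 := harc A hAsub hcount α h0 h1
      push_cast
      exact h2)
  refine ⟨W * B ^ (64 * (κ + 2) * m * k), ?_, ?_, ?_⟩
  · have a1 : N₁ ≤ B ^ (64 * (κ + 2) * m * k) := by
      rw [← hNr]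
      exact hB1.trans (Nat.le_self_pow (by omega) _)
    calc X ≤ N₁ := hN1
      _ ≤ B ^ (64 * (κ + 2) * m * k) := a1
      _ ≤ W * B ^ (64 * (κ + 2) * m * k) := Nat.le_mul_of_pos_left _ (by omega)
  · calc W * B ^ (64 * (κ + 2) * m * k) = W * (B ^ (16 * m * k)) ^ (4 * (κ + 2)) := by rw [hNr]
      _ ≤ W * (2 ^ (16 * m * k) * N₁) ^ (4 * (κ + 2)) :=
          Nat.mul_le_mul_left _ (Nat.pow_le_pow_left hB2 _)
      _ = W * (2 ^ (16 * m * k)) ^ (4 * (κ + 2)) * N₁ ^ (4 * (κ + 2)) := by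
          rw [mul_pow, ← mul_assoc]
      _ ≤ X * (X ^ c) ^ (4 * (κ + 2)) := Nat.mul_le_mul hX3 (Nat.pow_le_pow_left hN2 _)
      _ = X ^ (4 * c * (κ + 2) + 1) := by
          rw [← pow_mul, ← pow_succ']
          congr 1
          ring
  · have h5 : ((B ^ (64 * (κ + 2) * m * k) : ℕ) : ℝ) ≤ ((⌈2 + 1000 * C⌉₊ * countSums k
        (4 * (κ + 2) * s + 16 * (κ + 1) * s + t + 8 * k) 0
        (W * B ^ (64 * (κ + 2) * m * k)) : ℕ) : ℝ) := by
      refine hcore.trans ?_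
      rw [Nat.cast_mul]
      exact mul_le_mul_of_nonneg_right (Nat.le_ceil _) (Nat.cast_nonneg _)
    have h6 : B ^ (64 * (κ + 2) * m * k) ≤ ⌈2 + 1000 * C⌉₊ * countSums k
        (4 * (κ + 2) * s + 16 * (κ + 1) * s + t + 8 * k) 0
        (W * B ^ (64 * (κ + 2) * m * k)) := by exact_mod_cast h5
    calc W * B ^ (64 * (κ + 2) * m * k) ≤ W * (⌈2 + 1000 * C⌉₊ * countSums k
        (4 * (κ + 2) * s + 16 * (κ + 1) * s + t + 8 * k) 0
        (W * B ^ (64 * (κ + 2) * m * k))) := Nat.mul_le_mul_left _ h6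
      _ = _ := by ring

end Pool.Agent.Lib.MP_570bef_ntP
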