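import Pool.Agent.Lib.MP_570bef_ntP.SpB
import Pool.Agent.Lib.MP_570bef_ntP.Dim

/-!
# Sparse scales: diminishing ranges and the final theorem
-/

set_option autoImplicit false

namespace Pool.Agent.Lib.MP_570bef_ntP

open Finset
open Pool.Agent.Lib.MP_570bef_nt (IsSum countSums isSum_pow isSum_zero)

/-- the least `B` with `M ≤ B ^ h` -/
theorem exists_root' (h M : ℕ) (hh : 1 ≤ h) (hM : 2 ≤ M) :
    ∃ B, 2 ≤ B ∧ M ≤ B ^ h ∧ (B - 1) ^ h < M := by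
  have hex : ∃ B, M ≤ B ^ h := ⟨M, Nat.le_self_pow (by omega) _⟩
  have h1 := Nat.find_spec hex
  set B := Nat.find hex with hB
  have h2 : 2 ≤ B := by
    by_contra hcon
    have : B ^ h ≤ 1 ^ h := Nat.pow_le_pow_left (by omega) h
    rw [one_pow] at this
    omega
  have h3 := Nat.find_min hex (m := B - 1) (by omega)
  exact ⟨B, h2, h1, not_le.1 h3⟩

/-- the choice of the scales -/
theorem scales (k c Dc X : ℕ) (hk : 2 ≤ k) (hX : 2 ≤ X) (hD : 1 ≤ Dc) :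
    ∃ X', X ^ (k - 1) ≤ X' ^ k ∧ X ≤ X' ^ 2 ∧ ∀ N', X' ≤ N' → N' ≤ Dc * X' ^ c →
      ∃ P, 2 ≤ P ∧ N' ≤ P ^ (k - 1) ∧ (P - 1) ^ (k - 1) < N' ∧ X ≤ (2 * P + 1) ^ k ∧
        (2 * P + 1) ^ k ≤ (5 ^ k * Dc ^ k * 2 ^ (k * c)) * X ^ c := by
  obtain ⟨X', h1, h2, h3⟩ := exists_root' k (X ^ (k - 1)) (by omega)
    (hX.trans (Nat.le_self_pow (by omega) _))
  refine ⟨X', h2, ?_, ?_⟩
  · by_contra hcon
    rw [not_le] at hcon
    have h4 : (X' ^ 2) ^ (k - 1) < X ^ (k - 1) := Nat.pow_lt_pow_left hcon (by omega)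
    have h5 : X' ^ k ≤ (X' ^ 2) ^ (k - 1) := by
      rw [← pow_mul]
      exact Nat.pow_le_pow_right (by omega) (by omega)
    omega
  · intro N' hN1 hN2
    obtain ⟨P, hP1, hP2, hP3⟩ := exists_root' (k - 1) N' (by omega) (by omega)
    refine ⟨P, hP1, hP2, hP3, ?_, ?_⟩
    · have h4 : X ≤ P ^ k := by
        by_contra hcon
        rw [not_le] at hcon
        have h5 : (P ^ k) ^ (k - 1) < X ^ (k - 1) := Nat.pow_lt_pow_left hcon (by omega)
        have h6 : X' ^ k ≤ (P ^ (k - 1)) ^ k := Nat.pow_le_pow_left (hN1.trans hP2) k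
        rw [← pow_mul, mul_comm, pow_mul] at h6
        omega
      exact h4.trans (Nat.pow_le_pow_left (by omega) k)
    · have h4 : (2 * P + 1) ^ k ≤ 5 ^ k * (P - 1) ^ k := by
        rw [← mul_pow]
        exact Nat.pow_le_pow_left (by omega) k
      have h5 : X' ^ k ≤ 2 ^ k * X ^ (k - 1) := by
        calc X' ^ k ≤ (2 * (X' - 1)) ^ k := Nat.pow_le_pow_left (by omega) k
          _ = 2 ^ k * (X' - 1) ^ k := mul_pow _ _ _
          _ ≤ _ := Nat.mul_le_mul_left _ h3.le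
      have h6 : ((P - 1) ^ k) ^ (k - 1) ≤ (Dc ^ k * 2 ^ (k * c) * X ^ c) ^ (k - 1) := by
        calc ((P - 1) ^ k) ^ (k - 1) = ((P - 1) ^ (k - 1)) ^ k := by
              rw [← pow_mul, ← pow_mul, mul_comm]
          _ ≤ N' ^ k := Nat.pow_le_pow_left hP3.le k
          _ ≤ (Dc * X' ^ c) ^ k := Nat.pow_le_pow_left hN2 k
          _ = Dc ^ k * (X' ^ k) ^ c := by
              rw [mul_pow, ← pow_mul, ← pow_mul, mul_comm c k]
          _ ≤ Dc ^ k * (2 ^ k * X ^ (k - 1)) ^ c := Nat.mul_le_mul_left _ (Nat.pow_le_pow_left h5 c)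
          _ = (Dc ^ k * 2 ^ (k * c)) * (X ^ c) ^ (k - 1) := by
              rw [mul_pow, ← pow_mul, ← pow_mul, ← pow_mul, mul_comm (k - 1) c]
              ring
          _ ≤ (Dc ^ k * 2 ^ (k * c)) ^ (k - 1) * (X ^ c) ^ (k - 1) := by
              apply Nat.mul_le_mul_right
              exact Nat.le_self_pow (by omega) _
          _ = _ := (mul_pow _ _ _).symm
      have h7 : (P - 1) ^ k ≤ Dc ^ k * 2 ^ (k * c) * X ^ c :=
        le_of_pow_le_pow_left₀ (by omega) (Nat.zero_le _) h6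
      calc (2 * P + 1) ^ k ≤ 5 ^ k * (P - 1) ^ k := h4
        _ ≤ 5 ^ k * (Dc ^ k * 2 ^ (k * c) * X ^ c) := Nat.mul_le_mul_left _ h7
        _ = _ := by ring

/-- the real inequality in one step -/
theorem step_real (k N N' P : ℕ) (δ c₀ : ℝ) (hk : 2 ≤ k) (hδ : 0 ≤ δ) (hc : 0 < c₀) (hP : 2 ≤ P)
    (hN1 : N' ≤ P ^ (k - 1)) (hN2 : (P - 1) ^ (k - 1) < N') (hN : N = (2 * P + 1) ^ k) :
    c₀ / (10 ^ k) * (N : ℝ) ^ (1 - δ * (1 - 1 / (k : ℝ))) ≤
      (P : ℝ) * (c₀ * (N' : ℝ) ^ (1 - δ)) := by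
  have hk0 : (0 : ℝ) < k := by exact_mod_cast (by omega : 0 < k)
  have hk1 : (1 : ℝ) / k ≤ 1 := by
    rw [div_le_one hk0]
    exact_mod_cast (by omega : 1 ≤ k)
  set η : ℝ := 1 - δ * (1 - 1 / (k : ℝ)) with hη
  have hη1 : η ≤ 1 := by
    have : 0 ≤ δ * (1 - 1 / (k : ℝ)) := mul_nonneg hδ (by linarith)
    linarith
  have hPpos : (0 : ℝ) < P := by exact_mod_cast (by omega : 0 < P)
  have hkk : ((k - 1 : ℕ) : ℝ) = k - 1 := by
    rw [Nat.cast_sub (by omega)]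
    simp
  have h5 : (P : ℝ) * ((P : ℝ) ^ (k - 1)) ^ (1 - δ) = ((P : ℝ) ^ k) ^ η := by
    rw [← Real.rpow_natCast, ← Real.rpow_natCast, ← Real.rpow_mul hPpos.le,
      ← Real.rpow_mul hPpos.le, hkk]
    nth_rewrite 1 [← Real.rpow_one (P : ℝ)]
    rw [← Real.rpow_add hPpos]
    congr 1
    rw [hη]
    field_simp
    ring
  have h6 : (N : ℝ) ≤ 5 ^ k * (P : ℝ) ^ k := by
    have h7 : N ≤ (5 * P) ^ k := by
      rw [hN]
      exact Nat.pow_le_pow_left (by omega) _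
    rw [← mul_pow]
    exact_mod_cast h7
  have h8 : (P : ℝ) ^ k ≤ N := by
    have : P ^ k ≤ N := by
      rw [hN]
      exact Nat.pow_le_pow_left (by omega) _
    exact_mod_cast this
  have hNpos : (0 : ℝ) < N := lt_of_lt_of_le (by positivity) h8
  have h7 : (N : ℝ) ^ η ≤ 5 ^ k * ((P : ℝ) ^ k) ^ η := by
    rcases le_or_gt 0 η with h0 | h0
    · calc (N : ℝ) ^ η ≤ (5 ^ k * (P : ℝ) ^ k) ^ η := Real.rpow_le_rpow hNpos.le h6 h0
        _ = (5 ^ k : ℝ) ^ η * ((P : ℝ) ^ k) ^ η := Real.mul_rpow (by positivity) (by positivity)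
        _ ≤ 5 ^ k * ((P : ℝ) ^ k) ^ η := by
            apply mul_le_mul_of_nonneg_right _ (by positivity)
            calc (5 ^ k : ℝ) ^ η ≤ (5 ^ k : ℝ) ^ (1 : ℝ) :=
                  Real.rpow_le_rpow_of_exponent_le (one_le_pow₀ (by norm_num)) hη1
              _ = 5 ^ k := Real.rpow_one _
    · calc (N : ℝ) ^ η ≤ ((P : ℝ) ^ k) ^ η :=
            Real.rpow_le_rpow_of_nonpos (by positivity) h8 h0.le
        _ ≤ 5 ^ k * ((P : ℝ) ^ k) ^ η :=
            le_mul_of_one_le_left (by positivity) (one_le_pow₀ (by norm_num))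
  have hN'pos : (0 : ℝ) < N' := by exact_mod_cast (by omega : 0 < N')
  have hN'1 : (N' : ℝ) ≤ (P : ℝ) ^ (k - 1) := by exact_mod_cast hN1
  have hN'2 : (P : ℝ) ^ (k - 1) ≤ 2 ^ k * N' := by
    have h9 : P ^ (k - 1) ≤ 2 ^ k * N' := by
      calc P ^ (k - 1) ≤ (2 * (P - 1)) ^ (k - 1) := Nat.pow_le_pow_left (by omega) _
        _ = 2 ^ (k - 1) * (P - 1) ^ (k - 1) := mul_pow _ _ _
        _ ≤ 2 ^ k * N' := Nat.mul_le_mul (Nat.pow_le_pow_right (by norm_num) (by omega)) hN2.le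
    exact_mod_cast h9
  have h9 : ((P : ℝ) ^ (k - 1)) ^ (1 - δ) ≤ 2 ^ k * (N' : ℝ) ^ (1 - δ) := by
    rcases le_or_gt 0 (1 - δ) with h0 | h0
    · calc ((P : ℝ) ^ (k - 1)) ^ (1 - δ) ≤ (2 ^ k * (N' : ℝ)) ^ (1 - δ) :=
            Real.rpow_le_rpow (by positivity) hN'2 h0
        _ = (2 ^ k : ℝ) ^ (1 - δ) * (N' : ℝ) ^ (1 - δ) :=
            Real.mul_rpow (by positivity) (by positivity)
        _ ≤ 2 ^ k * (N' : ℝ) ^ (1 - δ) := by
            apply mul_le_mul_of_nonneg_right _ (by positivity)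
            calc (2 ^ k : ℝ) ^ (1 - δ) ≤ (2 ^ k : ℝ) ^ (1 : ℝ) :=
                  Real.rpow_le_rpow_of_exponent_le (one_le_pow₀ (by norm_num)) (by linarith)
              _ = 2 ^ k := Real.rpow_one _
    · calc ((P : ℝ) ^ (k - 1)) ^ (1 - δ) ≤ (N' : ℝ) ^ (1 - δ) :=
            Real.rpow_le_rpow_of_nonpos hN'pos hN'1 h0.le
        _ ≤ 2 ^ k * (N' : ℝ) ^ (1 - δ) :=
            le_mul_of_one_le_left (by positivity) (one_le_pow₀ (by norm_num))
  have h10 : (10 : ℝ) ^ k = 5 ^ k * 2 ^ k := by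
    rw [← mul_pow]
    norm_num
  calc c₀ / (10 ^ k) * (N : ℝ) ^ η ≤ c₀ / (10 ^ k) * (5 ^ k * ((P : ℝ) ^ k) ^ η) :=
        mul_le_mul_of_nonneg_left h7 (by positivity)
    _ = c₀ / (10 ^ k) * (5 ^ k * ((P : ℝ) * ((P : ℝ) ^ (k - 1)) ^ (1 - δ))) := by rw [h5]
    _ ≤ c₀ / (10 ^ k) * (5 ^ k * ((P : ℝ) * (2 ^ k * (N' : ℝ) ^ (1 - δ)))) := by
        apply mul_le_mul_of_nonneg_left _ (by positivity)
        apply mul_le_mul_of_nonneg_left _ (by positivity)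
        exact mul_le_mul_of_nonneg_left h9 hPpos.le
    _ = (P : ℝ) * (c₀ * (N' : ℝ) ^ (1 - δ)) := by
        rw [h10]
        field_simp

/-- the sparse counting hypothesis -/
def Sparse (k s c : ℕ) (δ : ℝ) : Prop :=
  ∃ c₀ : ℝ, 0 < c₀ ∧ ∃ Dc : ℕ, 1 ≤ Dc ∧ ∃ X₀ : ℕ, ∀ X ≥ X₀, ∃ N, X ≤ N ∧ N ≤ Dc * X ^ c ∧
    c₀ * (N : ℝ) ^ (1 - δ) ≤ countSums k s 0 N

theorem sparse_step (k s c : ℕ) (δ : ℝ) (hk : 2 ≤ k) (hδ : 0 ≤ δ) (h : Sparse k s c δ) :
    Sparse k (1 + s) c (δ * (1 - 1 / (k : ℝ))) := by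
  obtain ⟨c₀, hc₀, Dc, hDc, X₀, hX₀⟩ := h
  refine ⟨c₀ / 10 ^ k, by positivity, 5 ^ k * Dc ^ k * 2 ^ (k * c), Nat.pos_of_ne_zero
    (by positivity), max 2 (X₀ ^ 2), fun X hX => ?_⟩
  have hX1 : 2 ≤ X := (le_max_left _ _).trans hX
  have hX2 : X₀ ^ 2 ≤ X := (le_max_right _ _).trans hX
  obtain ⟨X', hX'1, hX'2, hX'3⟩ := scales k c Dc X hk hX1 hDc
  have hX'4 : X₀ ≤ X' := by
    by_contra hcon
    rw [not_le] at hcon
    have : X' ^ 2 < X₀ ^ 2 := Nat.pow_lt_pow_left hcon (by norm_num)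
    omega
  obtain ⟨N', hN'1, hN'2, hN'3⟩ := hX₀ X' hX'4
  obtain ⟨P, hP1, hP2, hP3, hP4, hP5⟩ := hX'3 N' hN'1 hN'2
  refine ⟨(2 * P + 1) ^ k, hP4, hP5, ?_⟩
  have h1 := count_step k s P (by omega)
  have h2 := count_mono k s _ _ hP2
  calc c₀ / 10 ^ k * (((2 * P + 1) ^ k : ℕ) : ℝ) ^ (1 - δ * (1 - 1 / (k : ℝ)))
      ≤ (P : ℝ) * (c₀ * (N' : ℝ) ^ (1 - δ)) :=
        step_real k _ N' P δ c₀ hk hδ hc₀ hP1 hP2 hP3 rfl
    _ ≤ (P : ℝ) * (countSums k s 0 N' : ℕ) :=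
        mul_le_mul_of_nonneg_left hN'3 (Nat.cast_nonneg _)
    _ ≤ (P : ℝ) * (countSums k s 0 (P ^ (k - 1)) : ℕ) :=
        mul_le_mul_of_nonneg_left (by exact_mod_cast h2) (Nat.cast_nonneg _)
    _ ≤ (countSums k (1 + s) 0 ((2 * P + 1) ^ k) : ℕ) := by exact_mod_cast h1

theorem sparse_iterate (k s c : ℕ) (δ : ℝ) (hk : 2 ≤ k) (hδ : 0 ≤ δ) (h : Sparse k s c δ)
    (j : ℕ) : Sparse k (j + s) c (δ * (1 - 1 / (k : ℝ)) ^ j) := by
  induction j with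
  | zero => simpa using h
  | succ j ih =>
    have hk0 : (0 : ℝ) < k := by exact_mod_cast (by omega : 0 < k)
    have hk1 : (1 : ℝ) / k ≤ 1 := by
      rw [div_le_one hk0]
      exact_mod_cast (by omega : 1 ≤ k)
    have h1 := sparse_step k (j + s) c (δ * (1 - 1 / (k : ℝ)) ^ j) hk
      (mul_nonneg hδ (pow_nonneg (by linarith) j)) ih
    rw [mul_assoc, ← pow_succ] at h1
    rwa [show 1 + (j + s) = j + 1 + s by ring] at h1

theorem power_density_sparse (κ k s c : ℕ) (hk : 2 ≤ k) (hc : 1 ≤ c)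
    (h : ∃ X₀ : ℕ, ∀ X ≥ X₀, ∃ N, X ≤ N ∧ N ≤ X ^ c ∧
      (N : ℝ) ^ (1 - (κ : ℝ) / k) ≤ countSums k s 0 N) :
    ∃ n₀, ∀ n ≥ n₀, IsSum k (2 * (4 * (κ + 2) * s + 16 * (κ + 1) * s +
      64 * (κ + 1) * (κ + 2) * (1 + 128 * (κ + 2)) ^ 2 * k + 8 * k) +
        (10 + Nat.log 2 (4 * c * (κ + 2) + 1 + 1)) * k) n := by
  obtain ⟨Ω, hΩ, -, hmain, -⟩ := Pool.Agent.Lib.MP_570bef_nt.main
  obtain ⟨c₁, X₀, hX⟩ := density_sparse κ k s c hk hc h
  obtain ⟨N₂, hN₂⟩ := Filter.tendsto_atTop_atTop.1 (hΩ k) c₁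
  apply hmain (4 * c * (κ + 2) + 1) k _ (by omega)
  refine ⟨max X₀ N₂, fun X hXX => ?_⟩
  obtain ⟨L, h1, h2, h3⟩ := hX X ((le_max_left _ _).trans hXX)
  refine ⟨0, L, h1, by rw [zero_add]; exact h2, h3.trans (Nat.mul_le_mul_right _ ?_)⟩
  exact hN₂ L (((le_max_right _ _).trans hXX).trans h1)

theorem power_density_sparse_log (k s c : ℕ) (δ : ℝ) (hk : 1 ≤ k) (hc : 1 ≤ c) (hδ : 0 ≤ δ)
    (h : ∃ X₀ : ℕ, ∀ X ≥ X₀, ∃ N : ℕ, X ≤ N ∧ N ≤ X ^ c ∧
      (N : ℝ) ^ (1 - δ) ≤ countSums k s 0 N) (t : ℕ)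
    (ht : 1000000000 * ((s : ℝ) + k * (1 + Real.log (1 + k * δ) + Real.log c)) ≤ t) :
    ∃ n₀, ∀ n ≥ n₀, IsSum k t n := by
  have hk0 : (0 : ℝ) < k := by exact_mod_cast hk
  have hlog : 0 ≤ Real.log (1 + k * δ) := Real.log_nonneg (by nlinarith)
  have hcr : (1 : ℝ) ≤ c := by exact_mod_cast hc
  have hlogc : 0 ≤ Real.log c := Real.log_nonneg hcr
  rcases Nat.lt_or_ge k 2 with hk2 | hk2
  · have hk1 : k = 1 := by omega
    subst hk1
    refine ⟨0, fun n _ => ?_⟩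
    have h1 : IsSum 1 1 n := ⟨fun _ => n, by simp⟩
    refine h1.mono le_rfl ?_
    have h2 : (1 : ℝ) ≤ t := by
      have h3 : (0 : ℝ) ≤ s := Nat.cast_nonneg s
      push_cast at ht hlog
      nlinarith
    exact_mod_cast h2
  · obtain ⟨X₀, hX₀⟩ := h
    set j : ℕ := ⌈k * Real.log (1 + k * δ)⌉₊ with hj
    have hj1 : k * Real.log (1 + k * δ) ≤ j := Nat.le_ceil _
    have hj2 : (j : ℝ) < k * Real.log (1 + k * δ) + 1 := Nat.ceil_lt_add_one (by positivity)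
    have hS : Sparse k s c δ := ⟨1, one_pos, 1, le_rfl, X₀, fun X hX => by
      obtain ⟨N, h1, h2, h3⟩ := hX₀ X hX
      exact ⟨N, h1, by rw [one_mul]; exact h2, by rw [one_mul]; exact h3⟩⟩
    obtain ⟨c₀, hc₀, Dc, hDc, X₁, hX₁⟩ := sparse_iterate k s c δ hk2 hδ hS j
    have h1 : δ * (1 - 1 / (k : ℝ)) ^ j ≤ 1 / k := by
      have hk1 : (1 : ℝ) / k ≤ 1 := by
        rw [div_le_one hk0]
        exact_mod_cast hk
      have h2 : (1 - 1 / (k : ℝ)) ^ j ≤ Real.exp (-(j / k)) := by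
        have h3 : 1 - 1 / (k : ℝ) ≤ Real.exp (-(1 / k)) := by
          have := Real.add_one_le_exp (-(1 / (k : ℝ)))
          linarith
        calc (1 - 1 / (k : ℝ)) ^ j ≤ (Real.exp (-(1 / k))) ^ j :=
              pow_le_pow_left₀ (by linarith) h3 j
          _ = Real.exp (-(j / k)) := by
              rw [← Real.exp_nat_mul]
              congr 1
              ring
      have h4 : Real.exp (-(j / k)) ≤ 1 / (1 + k * δ) := by
        have h5 : Real.log (1 + k * δ) ≤ j / k := by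
          rw [le_div_iff₀ hk0]
          linarith
        have h6 : 0 < 1 + k * δ := by positivity
        calc Real.exp (-(j / k)) ≤ Real.exp (-(Real.log (1 + k * δ))) :=
              Real.exp_le_exp.2 (by linarith)
          _ = 1 / (1 + k * δ) := by rw [Real.exp_neg, Real.exp_log h6, one_div]
      have h7 : 0 < 1 + k * δ := by positivity
      calc δ * (1 - 1 / (k : ℝ)) ^ j ≤ δ * (1 / (1 + k * δ)) :=
            mul_le_mul_of_nonneg_left (h2.trans h4) hδ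
        _ ≤ 1 / k := by
            rw [mul_one_div, div_le_div_iff₀ h7 hk0]
            nlinarith
    have h2 : ∃ X₂ : ℕ, ∀ X ≥ X₂, ∃ N, X ≤ N ∧ N ≤ X ^ (c + 1) ∧
        (N : ℝ) ^ (1 - ((2 : ℕ) : ℝ) / k) ≤ countSums k (j + s) 0 N := by
      have htend : Filter.Tendsto (fun N : ℕ => (N : ℝ) ^ ((1 : ℝ) / k)) Filter.atTop
          Filter.atTop := (tendsto_rpow_atTop (by positivity)).comp tendsto_natCast_atTop_atTop
      obtain ⟨N₂, hN₂⟩ := Filter.eventually_atTop.1 (htend.eventually_ge_atTop (1 / c₀))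
      refine ⟨max (max X₁ N₂) (max 1 Dc), fun X hX => ?_⟩
      have a1 : X₁ ≤ X := (le_max_left _ _).trans ((le_max_left _ _).trans hX)
      have a2 : N₂ ≤ X := (le_max_right _ _).trans ((le_max_left _ _).trans hX)
      have a3 : 1 ≤ X := (le_max_left _ _).trans ((le_max_right _ _).trans hX)
      have a0 : Dc ≤ X := (le_max_right _ _).trans ((le_max_right _ _).trans hX)
      obtain ⟨N, b1, b2, b3⟩ := hX₁ X a1
      refine ⟨N, b1, ?_, ?_⟩
      · calc N ≤ Dc * X ^ c := b2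
          _ ≤ X * X ^ c := Nat.mul_le_mul_right _ a0
          _ = X ^ (c + 1) := by ring
      have a3r : (1 : ℝ) ≤ N := by exact_mod_cast a3.trans b1
      have hNpos : (0 : ℝ) < N := by linarith
      refine le_trans ?_ b3
      have a4 : (N : ℝ) ^ (1 - 1 / (k : ℝ)) ≤ (N : ℝ) ^ (1 - δ * (1 - 1 / (k : ℝ)) ^ j) :=
        Real.rpow_le_rpow_of_exponent_le a3r (by linarith)
      have a5 : 1 ≤ c₀ * (N : ℝ) ^ ((1 : ℝ) / k) := by
        have := hN₂ N (a2.trans b1)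
        rw [div_le_iff₀ hc₀] at this
        linarith
      calc (N : ℝ) ^ (1 - ((2 : ℕ) : ℝ) / k)
          ≤ (c₀ * (N : ℝ) ^ ((1 : ℝ) / k)) * (N : ℝ) ^ (1 - ((2 : ℕ) : ℝ) / k) :=
            le_mul_of_one_le_left (by positivity) a5
        _ = c₀ * (N : ℝ) ^ (1 - 1 / (k : ℝ)) := by
            rw [mul_assoc, ← Real.rpow_add hNpos]
            congr 2
            push_cast
            ring
        _ ≤ c₀ * (N : ℝ) ^ (1 - δ * (1 - 1 / (k : ℝ)) ^ j) :=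
            mul_le_mul_of_nonneg_left a4 hc₀.le
    obtain ⟨n₀, hn₀⟩ := power_density_sparse 2 k (j + s) (c + 1) hk2 (by omega) h2
    refine ⟨n₀, fun n hn => (hn₀ n hn).mono hk ?_⟩
    have h3 : ((Nat.log 2 (4 * (c + 1) * (2 + 2) + 1 + 1) : ℕ) : ℝ) ≤ 6 + 2 * Real.log c := by
      have e1 : 4 * (c + 1) * (2 + 2) + 1 + 1 ≤ 34 * c := by omega
      have e2 : 2 ^ Nat.log 2 (4 * (c + 1) * (2 + 2) + 1 + 1) ≤ 34 * c :=
        (Nat.pow_log_le_self 2 (by omega)).trans e1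
      have e3 : (2 : ℝ) ^ Nat.log 2 (4 * (c + 1) * (2 + 2) + 1 + 1) ≤ 34 * c := by
        exact_mod_cast e2
      have e4 := Real.log_le_log (by positivity) e3
      rw [Real.log_pow, Real.log_mul (by norm_num) (by linarith)] at e4
      have e5 : Real.log 34 ≤ 6 * Real.log 2 := by
        rw [← Real.log_rpow (by norm_num)]
        apply Real.log_le_log (by norm_num)
        norm_num
      have e6 : 0.69 < Real.log 2 := by linarith [Real.log_two_gt_d9]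
      by_contra hcon
      rw [not_le] at hcon
      have e7 : (6 + 2 * Real.log c) * Real.log 2 <
          (Nat.log 2 (4 * (c + 1) * (2 + 2) + 1 + 1) : ℕ) * Real.log 2 :=
        mul_lt_mul_of_pos_right hcon (by linarith)
      nlinarith
    have h4 : ((2 * (4 * (2 + 2) * (j + s) + 16 * (2 + 1) * (j + s) +
      64 * (2 + 1) * (2 + 2) * (1 + 128 * (2 + 2)) ^ 2 * k + 8 * k) +
        (10 + Nat.log 2 (4 * (c + 1) * (2 + 2) + 1 + 1)) * k : ℕ) : ℝ) ≤ t := by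
      push_cast
      push_cast at h3
      have hs0 : (0 : ℝ) ≤ s := Nat.cast_nonneg s
      have hk1 : (1 : ℝ) ≤ k := by exact_mod_cast hk
      have h5 : ((10 : ℝ) + (Nat.log 2 (4 * (c + 1) * (2 + 2) + 1 + 1) : ℕ)) * k ≤
          (16 + 2 * Real.log c) * k := by
        apply mul_le_mul_of_nonneg_right _ hk0.le
        linarith
      have h6 : 0 ≤ (k : ℝ) * Real.log c := by positivity
      have h7 : 0 ≤ (k : ℝ) * Real.log (1 + k * δ) := by positivity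
      nlinarith
    exact_mod_cast h4

end Pool.Agent.Lib.MP_570bef_ntP
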