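import Pool.Agent.Lib.MP_570bef_ntP.Shf
import Pool.Agent.Lib.MP_570bef_ntP.Pw

/-!
# One step of the `p`-adic iteration (job Step)

`card_prodset`: the map `(p, x) ↦ p x` is injective on `P × X`: if `p x = p' x'` then `p ∣ p' x'`, `p` is coprime to `x'`, so `p ∣ p'`, `p = p'`, `x = x'`.
`step`: `h θ = ∑_{z ∈ prodset} e (θ z^k) = ∑_{p ∈ P} h_p θ`, `h_p θ = ∑_{x ∈ X} e (θ p^k x^k)` (injectivity).  Let `R` be larger than all values of the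
sums below, e.g. `R = 2 * l * (∑_{z ∈ prodset} z^k) + 1`.  By `mean_col` and `sum_tup`
`R * TT k l (prodset P X) = ∑_b ‖h (b/R)‖^(2l)`.  Apply `pw_ineq` for every `θ = b/R`.
First sum: `∑_b ‖h_p (b/R)‖^(2l) = R * col (tup l X) (p^k sk) = R * TT k l X` (`col_mul`).
Second sum: `‖h - h_p‖² ‖h_p‖^(2l-2) = ‖∑_{z ∈ Z_p, x ∈ tup (l-1) X} e (θ (z^k + p^k sk x))‖²` with `Z_p = prodset (P.erase p) X`, so its sum over `b` is
`R * col (Z_p ×ˢ tup (l-1) X) (...) ≤ R * (|P| |X|) * k * TT k (l-1) X` (`np_bound`; the elements `q x` of `Z_p`, `q ≠ p` prime, are coprime to `p` and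
`< p ^ k`).  Sum over `p ∈ P`: `4 |P|^(2l-3) * |P| * |P| |X| k TT = 4 k |P|^(2l-1) |X| TT k (l-1) X`.
-/

set_option autoImplicit false

namespace Pool.Agent.Lib.MP_570bef_ntP

open Finset
open Pool.Agent.Lib.MP_2a816b_nt (e nn D e_add)

theorem Step_inj (P X : Finset ℕ) (hP : ∀ p ∈ P, p.Prime)
    (hc : ∀ p ∈ P, ∀ x ∈ X, x.Coprime p) :
    Set.InjOn (fun w : ℕ × ℕ => w.1 * w.2) ((P ×ˢ X : Finset (ℕ × ℕ)) : Set (ℕ × ℕ)) := by
  rintro ⟨p, x⟩ h1 ⟨q, y⟩ h2 h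
  rw [mem_coe, mem_product] at h1 h2
  have h3 : p * x = q * y := h
  have h4 : p ∣ q * y := ⟨x, h3.symm⟩
  have h5 : p ∣ q := (hc p h1.1 y h2.2).symm.dvd_of_dvd_mul_right h4
  have h6 : p = q := (Nat.prime_dvd_prime_iff_eq (hP p h1.1) (hP q h2.1)).1 h5
  subst h6
  have h7 : x = y := Nat.eq_of_mul_eq_mul_left (hP p h1.1).pos h3
  rw [h7]

theorem Step_sum {A : Type*} [AddCommMonoid A] (P X : Finset ℕ) (hP : ∀ p ∈ P, p.Prime)
    (hc : ∀ p ∈ P, ∀ x ∈ X, x.Coprime p) (f : ℕ → A) :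
    ∑ z ∈ prodset P X, f z = ∑ p ∈ P, ∑ x ∈ X, f (p * x) := by
  unfold prodset
  rw [sum_image (Step_inj P X hP hc), sum_product]

theorem card_prodset (P X : Finset ℕ) (hP : ∀ p ∈ P, p.Prime) (hX : ∀ x ∈ X, 1 ≤ x)
    (hc : ∀ p ∈ P, ∀ x ∈ X, x.Coprime p) : (prodset P X).card = P.card * X.card := by
  unfold prodset
  rw [card_image_of_injOn (Step_inj P X hP hc), card_product]

/-- the values of `sk` on tuples are bounded -/
theorem Step_sk_le (k n T : ℕ) (X : Finset ℕ) (c : ℕ) (hT : ∀ x ∈ X, c * x ^ k ≤ T)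
    (x : Fin n → ℕ) (hx : x ∈ tup n X) : c * sk k x ≤ n * T := by
  have hx' : ∀ i, x i ∈ X := Fintype.mem_piFinset.1 hx
  unfold sk
  rw [mul_sum]
  calc ∑ i, c * x i ^ k ≤ ∑ _i : Fin n, T := sum_le_sum fun i _ => hT _ (hx' i)
    _ = n * T := by rw [sum_const, card_univ, Fintype.card_fin, smul_eq_mul]

/-- the `2 l`-th moment of a dilated sum -/
theorem Step_moment (k l c : ℕ) (X : Finset ℕ) (R : ℕ)
    (hR : ∀ x ∈ tup l X, c ^ k * sk k x < R) (hc : 1 ≤ c) :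
    ∑ b ∈ range R, ‖∑ x ∈ X, e ((b : ℝ) / R * (((c * x) ^ k : ℕ) : ℝ))‖ ^ (2 * l) =
      R * TT k l X := by
  have h1 := mean_col (tup l X) (fun x => c ^ k * sk k x) R hR
  rw [col_mul _ _ _ (Nat.one_le_pow _ _ hc)] at h1
  have h2 : ∀ b ∈ range R, ‖∑ x ∈ X, e ((b : ℝ) / R * (((c * x) ^ k : ℕ) : ℝ))‖ ^ (2 * l) =
      ‖∑ i ∈ tup l X, e ((b : ℝ) / R * ((c ^ k * sk k i : ℕ) : ℝ))‖ ^ 2 := by
    intro b _
    have h3 := sum_tup k l X ((b : ℝ) / R * (c : ℝ) ^ k)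
    have h4 : ∑ i ∈ tup l X, e ((b : ℝ) / R * ((c ^ k * sk k i : ℕ) : ℝ)) =
        ∑ x ∈ tup l X, e ((b : ℝ) / R * (c : ℝ) ^ k * (sk k x : ℝ)) := by
      refine sum_congr rfl fun x _ => ?_
      congr 1
      push_cast
      ring
    have h5 : ∑ x ∈ X, e ((b : ℝ) / R * (((c * x) ^ k : ℕ) : ℝ)) =
        ∑ x ∈ X, e ((b : ℝ) / R * (c : ℝ) ^ k * (x : ℝ) ^ k) := by
      refine sum_congr rfl fun x _ => ?_
      congr 1
      push_cast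
      ring
    rw [h4, h5, h3, norm_pow, ← pow_mul, mul_comm l 2]
  rw [sum_congr rfl h2]
  exact h1

/-- the mixed moment -/
theorem Step_mixed (k l p : ℕ) (hp : p.Prime) (hp2 : p ≠ 2) (hk : 1 ≤ k) (Z X : Finset ℕ)
    (hZ : ∀ z ∈ Z, z.Coprime p ∧ z < p ^ k) (R : ℕ)
    (hR : ∀ w ∈ Z ×ˢ tup l X, w.1 ^ k + p ^ k * sk k w.2 < R) :
    ∑ b ∈ range R, ‖∑ z ∈ Z, e ((b : ℝ) / R * ((z ^ k : ℕ) : ℝ))‖ ^ 2 *
      ‖∑ x ∈ X, e ((b : ℝ) / R * (((p * x) ^ k : ℕ) : ℝ))‖ ^ (2 * l) ≤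
      R * ((Z.card : ℝ) * k * TT k l X) := by
  have h1 := mean_col (Z ×ˢ tup l X) (fun w => w.1 ^ k + p ^ k * sk k w.2) R hR
  have h0 := np_bound k l p hp hp2 hk Z X hZ
  have h2 : ∀ b ∈ range R, ‖∑ z ∈ Z, e ((b : ℝ) / R * ((z ^ k : ℕ) : ℝ))‖ ^ 2 *
      ‖∑ x ∈ X, e ((b : ℝ) / R * (((p * x) ^ k : ℕ) : ℝ))‖ ^ (2 * l) =
      ‖∑ i ∈ Z ×ˢ tup l X, e ((b : ℝ) / R * ((i.1 ^ k + p ^ k * sk k i.2 : ℕ) : ℝ))‖ ^ 2 := by
    intro b _
    have h3 := sum_tup k l X ((b : ℝ) / R * (p : ℝ) ^ k)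
    have h4 : ∑ i ∈ Z ×ˢ tup l X, e ((b : ℝ) / R * ((i.1 ^ k + p ^ k * sk k i.2 : ℕ) : ℝ)) =
        (∑ z ∈ Z, e ((b : ℝ) / R * ((z ^ k : ℕ) : ℝ))) *
          ∑ x ∈ tup l X, e ((b : ℝ) / R * (p : ℝ) ^ k * (sk k x : ℝ)) := by
      rw [sum_mul_sum, sum_product]
      refine sum_congr rfl fun z _ => sum_congr rfl fun x _ => ?_
      rw [← e_add]
      congr 1
      push_cast
      ring
    have h5 : ∑ x ∈ X, e ((b : ℝ) / R * (((p * x) ^ k : ℕ) : ℝ)) =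
        ∑ x ∈ X, e ((b : ℝ) / R * (p : ℝ) ^ k * (x : ℝ) ^ k) := by
      refine sum_congr rfl fun x _ => ?_
      congr 1
      push_cast
      ring
    rw [h4, h5, h3, norm_mul, norm_pow, mul_pow, ← pow_mul, mul_comm l 2]
  rw [sum_congr rfl h2, h1]
  refine mul_le_mul_of_nonneg_left ?_ (Nat.cast_nonneg R)
  exact_mod_cast h0

theorem step (k l : ℕ) (hk : 1 ≤ k) (hl : 2 ≤ l) (P X : Finset ℕ) (hPne : P.Nonempty)
    (hP : ∀ p ∈ P, p.Prime ∧ p ≠ 2) (hX : ∀ x ∈ X, 1 ≤ x) (hc : ∀ p ∈ P, ∀ x ∈ X, x.Coprime p)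
    (hb : ∀ p ∈ P, ∀ q ∈ P, ∀ x ∈ X, q * x < p ^ k) :
    (TT k l (prodset P X) : ℝ) ≤ 4 ^ l * P.card * TT k l X +
      4 * k * (P.card : ℝ) ^ (2 * l - 1) * X.card * TT k (l - 1) X := by
  classical
  have hPp : ∀ p ∈ P, p.Prime := fun p hp => (hP p hp).1
  set T : ℕ := ∑ z ∈ prodset P X, z ^ k with hT
  set R : ℕ := l * T + 1 with hRdef
  have hR0 : (0 : ℝ) < R := by
    rw [hRdef]
    positivity
  have hTz : ∀ z ∈ prodset P X, z ^ k ≤ T := fun z hz =>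
    single_le_sum (f := fun z => z ^ k) (fun _ _ => Nat.zero_le _) hz
  have hmem : ∀ p ∈ P, ∀ x ∈ X, p * x ∈ prodset P X := by
    intro p hp x hx
    exact mem_image.2 ⟨(p, x), mem_product.2 ⟨hp, hx⟩, rfl⟩
  have hTp : ∀ p ∈ P, ∀ x ∈ X, p ^ k * x ^ k ≤ T := by
    intro p hp x hx
    rw [← mul_pow]
    exact hTz _ (hmem p hp x hx)
  -- the three sums
  have hA : ∑ b ∈ range R, ‖∑ z ∈ prodset P X, e ((b : ℝ) / R * ((z ^ k : ℕ) : ℝ))‖ ^ (2 * l) =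
      R * TT k l (prodset P X) := by
    have h1 := Step_moment k l 1 (prodset P X) R (by
      intro x hx
      have h2 := Step_sk_le k l T (prodset P X) (1 ^ k) (by
        intro z hz
        rw [one_pow, one_mul]
        exact hTz z hz) x hx
      omega) le_rfl
    simp only [one_mul] at h1
    exact h1
  have hB : ∀ p ∈ P, ∑ b ∈ range R,
      ‖∑ x ∈ X, e ((b : ℝ) / R * (((p * x) ^ k : ℕ) : ℝ))‖ ^ (2 * l) = R * TT k l X := by
    intro p hp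
    refine Step_moment k l p X R ?_ (hPp p hp).pos
    intro x hx
    have h2 := Step_sk_le k l T X (p ^ k) (hTp p hp) x hx
    omega
  have hsplit : ∀ b : ℕ, ∑ z ∈ prodset P X, e ((b : ℝ) / R * ((z ^ k : ℕ) : ℝ)) =
      ∑ p ∈ P, ∑ x ∈ X, e ((b : ℝ) / R * (((p * x) ^ k : ℕ) : ℝ)) := fun b =>
    Step_sum P X hPp hc _
  have herase : ∀ p ∈ P, ∀ b : ℕ,
      (∑ q ∈ P, ∑ x ∈ X, e ((b : ℝ) / R * (((q * x) ^ k : ℕ) : ℝ))) -
        ∑ x ∈ X, e ((b : ℝ) / R * (((p * x) ^ k : ℕ) : ℝ)) =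
      ∑ z ∈ prodset (P.erase p) X, e ((b : ℝ) / R * ((z ^ k : ℕ) : ℝ)) := by
    intro p hp b
    rw [Step_sum (P.erase p) X (fun q hq => hPp q (mem_of_mem_erase hq))
      (fun q hq => hc q (mem_of_mem_erase hq)) (fun z => e ((b : ℝ) / R * ((z ^ k : ℕ) : ℝ))),
      ← sum_erase_add P _ hp]
    ring
  have hC : ∀ p ∈ P, ∑ b ∈ range R,
      ‖(∑ q ∈ P, ∑ x ∈ X, e ((b : ℝ) / R * (((q * x) ^ k : ℕ) : ℝ))) -
        ∑ x ∈ X, e ((b : ℝ) / R * (((p * x) ^ k : ℕ) : ℝ))‖ ^ 2 *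
      ‖∑ x ∈ X, e ((b : ℝ) / R * (((p * x) ^ k : ℕ) : ℝ))‖ ^ (2 * l - 2) ≤
      R * ((P.card : ℝ) * X.card * k * TT k (l - 1) X) := by
    intro p hp
    have h1 := Step_mixed k (l - 1) p (hPp p hp) (hP p hp).2 hk (prodset (P.erase p) X) X (by
      intro z hz
      obtain ⟨⟨q, x⟩, hw, rfl⟩ := mem_image.1 hz
      rw [mem_product] at hw
      obtain ⟨hq, hx⟩ := hw
      have hqP : q ∈ P := mem_of_mem_erase hq
      have hqp : q ≠ p := (mem_erase.1 hq).1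
      refine ⟨Nat.Coprime.mul_left ?_ (hc p hp x hx), hb p hp q hqP x hx⟩
      exact (Nat.coprime_primes (hPp q hqP) (hPp p hp)).2 hqp) R (by
      rintro ⟨z, x⟩ hw
      rw [mem_product] at hw
      obtain ⟨hz, hx⟩ := hw
      have hz' : z ∈ prodset P X := by
        obtain ⟨⟨q, y⟩, hw', rfl⟩ := mem_image.1 hz
        rw [mem_product] at hw'
        exact hmem q (mem_of_mem_erase hw'.1) y hw'.2
      have h2 := hTz z hz'
      have h3 := Step_sk_le k (l - 1) T X (p ^ k) (hTp p hp) x hx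
      have h4 : T + (l - 1) * T = l * T := by
        obtain ⟨l', rfl⟩ : ∃ l', l = l' + 1 := ⟨l - 1, by omega⟩
        rw [Nat.add_sub_cancel]
        ring
      show z ^ k + p ^ k * sk k x < R
      omega)
    have h5 : 2 * (l - 1) = 2 * l - 2 := by omega
    rw [h5] at h1
    have h6 : ∀ b ∈ range R,
        ‖(∑ q ∈ P, ∑ x ∈ X, e ((b : ℝ) / R * (((q * x) ^ k : ℕ) : ℝ))) -
          ∑ x ∈ X, e ((b : ℝ) / R * (((p * x) ^ k : ℕ) : ℝ))‖ ^ 2 *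
        ‖∑ x ∈ X, e ((b : ℝ) / R * (((p * x) ^ k : ℕ) : ℝ))‖ ^ (2 * l - 2) =
        ‖∑ z ∈ prodset (P.erase p) X, e ((b : ℝ) / R * ((z ^ k : ℕ) : ℝ))‖ ^ 2 *
        ‖∑ x ∈ X, e ((b : ℝ) / R * (((p * x) ^ k : ℕ) : ℝ))‖ ^ (2 * l - 2) := by
      intro b _
      rw [herase p hp b]
    rw [sum_congr rfl h6]
    refine h1.trans (mul_le_mul_of_nonneg_left ?_ hR0.le)
    have h7 : ((prodset (P.erase p) X).card : ℝ) ≤ (P.card : ℝ) * X.card := by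
      have h8 : (prodset (P.erase p) X).card ≤ P.card * X.card := by
        rw [card_prodset (P.erase p) X (fun q hq => hPp q (mem_of_mem_erase hq)) hX
          (fun q hq => hc q (mem_of_mem_erase hq))]
        exact Nat.mul_le_mul_right _ (card_erase_le)
      exact_mod_cast h8
    have h9 := mul_le_mul_of_nonneg_right h7
      (by positivity : (0 : ℝ) ≤ (k : ℝ) * TT k (l - 1) X)
    calc ((prodset (P.erase p) X).card : ℝ) * k * TT k (l - 1) X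
        = ((prodset (P.erase p) X).card : ℝ) * (k * TT k (l - 1) X) := by ring
      _ ≤ (P.card : ℝ) * X.card * (k * TT k (l - 1) X) := h9
      _ = _ := by ring
  -- summation of the pointwise inequality
  have hpw : ∀ b ∈ range R,
      ‖∑ z ∈ prodset P X, e ((b : ℝ) / R * ((z ^ k : ℕ) : ℝ))‖ ^ (2 * l) ≤
      4 ^ l * ∑ p ∈ P, ‖∑ x ∈ X, e ((b : ℝ) / R * (((p * x) ^ k : ℕ) : ℝ))‖ ^ (2 * l) +
      4 * (P.card : ℝ) ^ (2 * l - 3) * ∑ p ∈ P,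
        ‖(∑ q ∈ P, ∑ x ∈ X, e ((b : ℝ) / R * (((q * x) ^ k : ℕ) : ℝ))) -
          ∑ x ∈ X, e ((b : ℝ) / R * (((p * x) ^ k : ℕ) : ℝ))‖ ^ 2 *
        ‖∑ x ∈ X, e ((b : ℝ) / R * (((p * x) ^ k : ℕ) : ℝ))‖ ^ (2 * l - 2) := by
    intro b _
    rw [hsplit b]
    exact pw_ineq P hPne _ l hl
  have hsum := sum_le_sum hpw
  rw [hA, sum_add_distrib, ← mul_sum, ← mul_sum, sum_comm, sum_comm (s := range R) (t := P),
    sum_congr rfl hB] at hsum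
  have hC' := sum_le_sum hC
  rw [sum_const, nsmul_eq_mul] at hC' hsum
  have hfin : (R : ℝ) * TT k l (prodset P X) ≤ R * (4 ^ l * P.card * TT k l X +
      4 * k * (P.card : ℝ) ^ (2 * l - 1) * X.card * TT k (l - 1) X) := by
    refine hsum.trans ?_
    have h1 := mul_le_mul_of_nonneg_left hC'
      (by positivity : (0 : ℝ) ≤ 4 * (P.card : ℝ) ^ (2 * l - 3))
    have h2 : (P.card : ℝ) ^ (2 * l - 1) = (P.card : ℝ) ^ (2 * l - 3) * (P.card : ℝ) ^ 2 := by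
      rw [← pow_add]
      congr 1
      omega
    rw [h2]
    calc _ ≤ 4 ^ l * ((P.card : ℝ) * (R * TT k l X)) + 4 * (P.card : ℝ) ^ (2 * l - 3) *
          ((P.card : ℝ) * (R * ((P.card : ℝ) * X.card * k * TT k (l - 1) X))) := by
          exact add_le_add le_rfl h1
      _ = _ := by ring
  exact le_of_mul_le_mul_left hfin hR0

end Pool.Agent.Lib.MP_570bef_ntP
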