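import Pool.Agent.Lib.MP_570bef_ntP.Bas
import Pool.Agent.Lib.MP_50b5e1_nt.X.KL

/-!
# The sum over a residue class: saving in `β` (job Tb)

Facts: `2 q ≤ √P` (i.e. `4 q² ≤ P`) and `x₀ ≥ √P ≥ 2 q`: `1 / |β| = x₀^k`, `(P^k |β|)² ≤ P` so `x₀^k √P ≥ P^k`, `√P ≤ √P ^ k`, `(x₀ √P)^k ≥ P^k`, `x₀ √P ≥ P`.
WLOG `0 < β` (conjugate otherwise, `conj_e`).  The elements of the class are `r' + q j`, `r' = r % q`, `j < J`.
The terms with `x < x₀`: at most `x₀ / q + 1 ≤ 2 x₀ / q` of them.  The terms with `x ≥ x₀`: these are `j₀ ≤ j < J`.  If there is at most one, the sum is `≤ 1 ≤ x₀ / q`.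
Otherwise put `F i = - β (r' + q (J - 1 - i))^k` for `i < J - j₀` (reversed order, negative sign: the sum of `e (F i)` is the conjugate of our sum).
`F (i+1) - F i = β (y^k - (y - q)^k)`, `y = r' + q (J - 1 - i)`, which is nonincreasing in `i` (convexity of `x^k`, `(y+q)^k - y^k` is nondecreasing in `y`), at
least `β k q x₀^(k-1) ≥ q / x₀ =: θ ≤ 1/2` (as `y - q ≥ x₀`, `β x₀^k = 1`) and at most `β k q P^(k-1) ≤ k √P / P ≤ 1/2` (`4 k² ≤ P`, `q P^k β ≤ √P`).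
`kusmin_landau` (namespace `Pool.Agent.Lib.MP_50b5e1_nt...`, see the import; its `e` is the same as ours or differs by unfolding, check) gives `≤ 2 / θ = 2 x₀ / q`.
-/

set_option autoImplicit false

namespace Pool.Agent.Lib.MP_570bef_ntP

open Finset
open Pool.Agent.Lib.MP_2a816b_nt (e nn D)

private theorem Tb_low (z q : ℝ) (hz : 0 ≤ z) (hq : 0 ≤ q) (m : ℕ) :
    z ^ (m + 1) + ((m : ℝ) + 1) * q * z ^ m ≤ (z + q) ^ (m + 1) := by
  induction m with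
  | zero => simp
  | succ m ih =>
    have h1 : (z + q) * (z ^ (m + 1) + ((m : ℝ) + 1) * q * z ^ m) ≤ (z + q) * (z + q) ^ (m + 1) :=
      mul_le_mul_of_nonneg_left ih (by linarith)
    have h2 : (z + q) * (z + q) ^ (m + 1) = (z + q) ^ (m + 1 + 1) := by ring
    have h3 : (z + q) * (z ^ (m + 1) + ((m : ℝ) + 1) * q * z ^ m) =
        z ^ (m + 1 + 1) + (((m + 1 : ℕ) : ℝ) + 1) * q * z ^ (m + 1) + ((m : ℝ) + 1) * q ^ 2 * z ^ m := by
      push_cast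
      ring
    have h4 : 0 ≤ ((m : ℝ) + 1) * q ^ 2 * z ^ m := by positivity
    linarith

private theorem Tb_up (z q : ℝ) (hz : 0 ≤ z) (hq : 0 ≤ q) (m : ℕ) :
    (z + q) ^ (m + 1) ≤ z ^ (m + 1) + ((m : ℝ) + 1) * q * (z + q) ^ m := by
  induction m with
  | zero => simp
  | succ m ih =>
    have h1 : z * (z + q) ^ (m + 1) ≤ z * (z ^ (m + 1) + ((m : ℝ) + 1) * q * (z + q) ^ m) :=
      mul_le_mul_of_nonneg_left ih hz
    have h2 : (z + q) ^ (m + 1 + 1) = z * (z + q) ^ (m + 1) + q * (z + q) ^ (m + 1) := by ring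
    have h3 : z * (z ^ (m + 1) + ((m : ℝ) + 1) * q * (z + q) ^ m) =
        z ^ (m + 1 + 1) + ((m : ℝ) + 1) * q * (z + q) ^ (m + 1) - ((m : ℝ) + 1) * q ^ 2 * (z + q) ^ m := by
      ring
    have h4 : 0 ≤ ((m : ℝ) + 1) * q ^ 2 * (z + q) ^ m := by positivity
    have h5 : z ^ (m + 1 + 1) + (((m + 1 : ℕ) : ℝ) + 1) * q * (z + q) ^ (m + 1) =
        z ^ (m + 1 + 1) + ((m : ℝ) + 1) * q * (z + q) ^ (m + 1) + q * (z + q) ^ (m + 1) := by
      push_cast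
      ring
    linarith

private theorem Tb_conv (z q : ℝ) (hz : 0 ≤ z) (hq : 0 ≤ q) (k : ℕ) :
    2 * (z + q) ^ k ≤ z ^ k + (z + q + q) ^ k := by
  induction k with
  | zero => norm_num
  | succ k ih =>
    have h1 := mul_le_mul_of_nonneg_left ih (by linarith : 0 ≤ z + q)
    have h2 : z ^ k ≤ (z + q + q) ^ k := pow_le_pow_left₀ hz (by linarith) k
    have h3 := mul_le_mul_of_nonneg_left h2 hq
    have e1 : z ^ (k + 1) + (z + q + q) ^ (k + 1) =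
        (z + q) * (z ^ k + (z + q + q) ^ k) + (q * (z + q + q) ^ k - q * z ^ k) := by ring
    have e2 : 2 * (z + q) ^ (k + 1) = (z + q) * (2 * (z + q) ^ k) := by ring
    linarith

private theorem Tb_class (q r P : ℕ) (hq : 1 ≤ q) (_hP : q ≤ P) : ∃ (r' J : ℕ), r' < q ∧
    (∀ j, j < J ↔ r' + q * j < P) ∧ ∀ G : ℕ → ℂ,
      ∑ x ∈ (range P).filter (fun x => x ≡ r [MOD q]), G x = ∑ j ∈ range J, G (r' + q * j) := by
  have hr : r % q < q := Nat.mod_lt _ (by omega)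
  have hJ : ∀ j, j < (P - r % q + (q - 1)) / q ↔ r % q + q * j < P := by
    intro j
    rw [Nat.lt_iff_add_one_le, Nat.le_div_iff_mul_le (by omega)]
    have e1 : (j + 1) * q = q * j + q := by ring
    rw [e1]
    generalize q * j = m
    omega
  refine ⟨r % q, (P - r % q + (q - 1)) / q, hr, hJ, fun G => ?_⟩
  symm
  refine Finset.sum_bij (fun j _ => r % q + q * j) ?_ ?_ ?_ ?_
  · intro j hj
    rw [mem_range, hJ] at hj
    rw [mem_filter, mem_range]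
    refine ⟨hj, ?_⟩
    unfold Nat.ModEq
    rw [Nat.add_mul_mod_self_left, Nat.mod_mod]
  · intro j _ j' _ h
    have h1 : q * j = q * j' := by simpa using h
    exact Nat.eq_of_mul_eq_mul_left (by omega) h1
  · intro x hx
    rw [mem_filter, mem_range] at hx
    have h1 : x % q = r % q := hx.2
    have h2 := Nat.mod_add_div x q
    refine ⟨x / q, ?_, ?_⟩
    · rw [mem_range, hJ, ← h1, h2]
      exact hx.1
    · rw [← h1, h2]
  · intro j _
    rfl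

private theorem Tb_KL (B x₀ : ℝ) (k P q r' J j₀ : ℕ) (hB : 0 < B) (hk : 1 ≤ k) (hq : 1 ≤ q)
    (hx0 : 0 < x₀) (h2q : 2 * (q : ℝ) ≤ x₀) (hx : B * x₀ ^ k = 1) (hJ : ∀ j, j < J → r' + q * j < P)
    (hj : j₀ ≤ J) (hlow : ∀ j, j₀ ≤ j → x₀ ≤ (r' + q * j : ℕ))
    (hup : (k : ℝ) * q * (B * (P : ℝ) ^ (k - 1)) ≤ 1 / 2) :
    ‖∑ j ∈ Ico j₀ J, e (-B * ((r' + q * j : ℕ) : ℝ) ^ k)‖ ≤ 2 * x₀ / q := by
  obtain ⟨m, rfl⟩ : ∃ m, k = m + 1 := ⟨k - 1, by omega⟩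
  have hqR : (0 : ℝ) < q := by exact_mod_cast (by omega : 0 < q)
  rcases Nat.eq_zero_or_pos J with h0 | hJ0
  · rw [h0, Finset.Ico_eq_empty (by omega), Finset.sum_empty, norm_zero]
    positivity
  have hrefl := Finset.sum_Ico_reflect (fun j => e (-B * ((r' + q * j : ℕ) : ℝ) ^ (m + 1))) 0
    (show J - j₀ ≤ J - 1 + 1 by omega)
  rw [show J - 1 + 1 - (J - j₀) = j₀ by omega, show J - 1 + 1 - 0 = J by omega] at hrefl
  rw [← hrefl]
  have hstep : ∀ n, n + 1 < J - j₀ → r' + q * (J - 1 - n) = (r' + q * (J - 1 - (n + 1))) + q := by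
    intro n hn
    have e1 : J - 1 - n = (J - 1 - (n + 1)) + 1 := by omega
    rw [e1]
    ring
  have hdiff : ∀ n, n + 1 < J - j₀ →
      -B * ((r' + q * (J - 1 - (n + 1)) : ℕ) : ℝ) ^ (m + 1) - -B * ((r' + q * (J - 1 - n) : ℕ) : ℝ) ^ (m + 1) =
      B * ((((r' + q * (J - 1 - (n + 1)) : ℕ) : ℝ) + q) ^ (m + 1) -
        ((r' + q * (J - 1 - (n + 1)) : ℕ) : ℝ) ^ (m + 1)) := by
    intro n hn
    rw [hstep n hn]
    push_cast
    ring
  have hθ : (q : ℝ) / x₀ ≤ 1 / 2 := by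
    rw [div_le_iff₀ hx0]
    linarith
  have hBx : B * x₀ ^ m = 1 / x₀ := by
    rw [eq_div_iff hx0.ne', ← hx]
    ring
  have hkl := Pool.Agent.Lib.MP_50b5e1_nt.kusmin_landau
    (fun i => -B * ((r' + q * (J - 1 - i) : ℕ) : ℝ) ^ (m + 1)) 0 (J - j₀) ((q : ℝ) / x₀)
    (by positivity) hθ ?_ ?_ ?_
  · refine hkl.trans (le_of_eq ?_)
    field_simp
  · intro n _ hn
    show _ ≤ _ - _
    rw [hdiff n hn]
    obtain ⟨w, hw⟩ : ∃ w : ℝ, w = ((r' + q * (J - 1 - (n + 1)) : ℕ) : ℝ) := ⟨_, rfl⟩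
    have hwx : x₀ ≤ w := by
      rw [hw]
      exact hlow _ (by omega)
    rw [← hw]
    have h1 := Tb_low w q (by linarith) hqR.le m
    have h2 : x₀ ^ m ≤ w ^ m := pow_le_pow_left₀ hx0.le hwx m
    have h3 : B * ((q : ℝ) * x₀ ^ m) ≤ B * ((w + q) ^ (m + 1) - w ^ (m + 1)) := by
      refine mul_le_mul_of_nonneg_left ?_ hB.le
      have h4 : (q : ℝ) * x₀ ^ m ≤ ((m : ℝ) + 1) * q * w ^ m := by
        have h5 : (q : ℝ) * x₀ ^ m ≤ q * w ^ m := mul_le_mul_of_nonneg_left h2 hqR.le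
        have h6 : 0 ≤ (m : ℝ) * q * w ^ m := by
          have : 0 ≤ w := by linarith
          positivity
        linarith
      linarith
    have h7 : B * ((q : ℝ) * x₀ ^ m) = q / x₀ := by
      have : B * ((q : ℝ) * x₀ ^ m) = q * (B * x₀ ^ m) := by ring
      rw [this, hBx]
      ring
    linarith
  · intro n _ hn
    show _ - _ ≤ _
    rw [hdiff n hn]
    obtain ⟨w, hw⟩ : ∃ w : ℝ, w = ((r' + q * (J - 1 - (n + 1)) : ℕ) : ℝ) := ⟨_, rfl⟩
    have hw0 : 0 ≤ w := by rw [hw]; positivity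
    have hwP : w + q ≤ P := by
      have h1 := hJ (J - 1 - n) (by omega)
      rw [hstep n hn] at h1
      rw [hw]
      exact_mod_cast h1.le
    rw [← hw]
    have h1 := Tb_up w q hw0 hqR.le m
    have h2 : (w + q) ^ m ≤ (P : ℝ) ^ m := pow_le_pow_left₀ (by linarith) hwP m
    have h3 : B * ((w + q) ^ (m + 1) - w ^ (m + 1)) ≤ B * (((m : ℝ) + 1) * q * (P : ℝ) ^ m) := by
      refine mul_le_mul_of_nonneg_left ?_ hB.le
      have h4 : ((m : ℝ) + 1) * q * (w + q) ^ m ≤ ((m : ℝ) + 1) * q * (P : ℝ) ^ m :=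
        mul_le_mul_of_nonneg_left h2 (by positivity)
      linarith
    have h5 : B * (((m : ℝ) + 1) * q * (P : ℝ) ^ m) = ((m + 1 : ℕ) : ℝ) * q * (B * (P : ℝ) ^ (m + 1 - 1)) := by
      rw [Nat.add_sub_cancel]
      push_cast
      ring
    linarith
  · intro n _ hn
    show _ - _ ≤ _ - _
    have e2 : n + 1 + 1 < J - j₀ := hn
    rw [show n + 2 = n + 1 + 1 by rfl, hdiff (n + 1) e2, hdiff n (by omega), hstep (n + 1) e2]
    obtain ⟨w, hw⟩ : ∃ w : ℝ, w = ((r' + q * (J - 1 - (n + 1 + 1)) : ℕ) : ℝ) := ⟨_, rfl⟩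
    have hw0 : 0 ≤ w := by rw [hw]; positivity
    have e3 : ((r' + q * (J - 1 - (n + 1 + 1)) + q : ℕ) : ℝ) = w + q := by
      rw [hw]
      push_cast
      ring
    rw [e3, ← hw]
    refine mul_le_mul_of_nonneg_left ?_ hB.le
    have := Tb_conv w q hw0 hqR.le (m + 1)
    linarith

theorem t_beta (k P q r : ℕ) (β x₀ : ℝ) (hk : 1 ≤ k) (hP : 4 * k ^ 2 ≤ P) (hq : 1 ≤ q)
    (hQ : (q * (1 + (P : ℝ) ^ k * |β|)) ^ 2 ≤ P) (hβ : 1 ≤ (P : ℝ) ^ k * |β|) (hx0 : 0 < x₀)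
    (hx : |β| * x₀ ^ k = 1) :
    ‖∑ x ∈ (range P).filter (fun x => x ≡ r [MOD q]), e (β * (x : ℝ) ^ k)‖ ≤ 16 * x₀ / q := by
  have hqR : (1 : ℝ) ≤ q := by exact_mod_cast hq
  have hkR : (1 : ℝ) ≤ k := by exact_mod_cast hk
  have hPR : 4 * (k : ℝ) ^ 2 ≤ P := by exact_mod_cast hP
  have hP1 : (1 : ℝ) ≤ P := by nlinarith
  have hB : 0 < |β| := by
    rcases (abs_nonneg β).eq_or_lt with h | h
    · rw [← h, zero_mul] at hx
      norm_num at hx
    · exact h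
  obtain ⟨B, hBd⟩ : ∃ B, B = |β| := ⟨_, rfl⟩
  obtain ⟨s, hs⟩ : ∃ s : ℝ, s = √P := ⟨_, rfl⟩
  have hs0 : 0 ≤ s := by rw [hs]; exact Real.sqrt_nonneg _
  have hs2 : s ^ 2 = P := by rw [hs]; exact Real.sq_sqrt (by linarith)
  have hs1 : 1 ≤ s := by nlinarith
  have hQs : q * (1 + (P : ℝ) ^ k * |β|) ≤ s := by
    have h1 : 0 ≤ q * (1 + (P : ℝ) ^ k * |β|) := by positivity
    have h2 : (q * (1 + (P : ℝ) ^ k * |β|)) ^ 2 ≤ s ^ 2 := by rw [hs2]; exact hQ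
    exact (sq_le_sq₀ h1 hs0).1 h2
  rw [← hBd] at hx hβ hQs hB
  have h2q : 2 * (q : ℝ) ≤ s := by
    have h1 : (q : ℝ) * 1 ≤ q * ((P : ℝ) ^ k * B) := mul_le_mul_of_nonneg_left hβ (by linarith)
    linarith
  have hL : (P : ℝ) ^ k * B ≤ s := by
    have h1 : 1 * ((P : ℝ) ^ k * B) ≤ q * ((P : ℝ) ^ k * B) :=
      mul_le_mul_of_nonneg_right hqR (by positivity)
    linarith
  have hqL : q * ((P : ℝ) ^ k * B) ≤ s := by linarith
  have hsx : s ≤ x₀ := by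
    by_contra hcon
    rw [not_le] at hcon
    have h1 : x₀ ^ k * s ^ k < (s ^ 2) ^ k := by
      have h2 : x₀ ^ k < s ^ k := pow_lt_pow_left₀ hcon hx0.le (by omega)
      have h3 : (0 : ℝ) < s ^ k := by positivity
      have h4 := mul_lt_mul_of_pos_right h2 h3
      have h5 : s ^ k * s ^ k = (s ^ 2) ^ k := by rw [← pow_mul, ← pow_add]; ring_nf
      rwa [h5] at h4
    rw [hs2] at h1
    have h6 : B * (x₀ ^ k * s ^ k) < B * (P : ℝ) ^ k := mul_lt_mul_of_pos_left h1 hB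
    have h7 : B * (x₀ ^ k * s ^ k) = s ^ k := by rw [← mul_assoc, hx, one_mul]
    have h8 : s ≤ s ^ k := le_self_pow₀ hs1 (by omega)
    linarith
  have hqP : q ≤ P := by
    have h1 : (q : ℝ) ≤ P := by nlinarith
    exact_mod_cast h1
  obtain ⟨r', J, hr', hJ, hsum⟩ := Tb_class q r P hq hqP
  have hconj : ‖∑ x ∈ (range P).filter (fun x => x ≡ r [MOD q]), e (β * (x : ℝ) ^ k)‖ =
      ‖∑ x ∈ (range P).filter (fun x => x ≡ r [MOD q]), e (-B * (x : ℝ) ^ k)‖ := by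
    rcases le_or_gt 0 β with h | h
    · rw [← Complex.norm_conj, map_sum]
      congr 1
      refine Finset.sum_congr rfl fun x _ => ?_
      rw [Pool.Agent.Lib.MP_2a816b_nt.conj_e, hBd, abs_of_nonneg h]
      congr 1
      ring
    · rw [hBd, abs_of_neg h, neg_neg]
  rw [hconj, hsum]
  have hup : (k : ℝ) * q * (B * (P : ℝ) ^ (k - 1)) ≤ 1 / 2 := by
    have e1 : (P : ℝ) ^ k = P ^ (k - 1) * P := by
      rw [← pow_succ]
      congr 1
      omega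
    have hP0 : (0 : ℝ) < P := by linarith
    have h1 : (k : ℝ) * q * (B * (P : ℝ) ^ (k - 1)) = k * (q * ((P : ℝ) ^ k * B)) / P := by
      rw [e1]
      field_simp
    rw [h1, div_le_iff₀ hP0]
    have h2 : (k : ℝ) * (q * ((P : ℝ) ^ k * B)) ≤ k * s :=
      mul_le_mul_of_nonneg_left hqL (by linarith)
    have h3 : 2 * (k : ℝ) ≤ s := by
      have h4 : (2 * (k : ℝ)) ^ 2 ≤ s ^ 2 := by rw [hs2]; linarith
      exact (sq_le_sq₀ (by positivity) hs0).1 h4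
    have h5 : 2 * (k : ℝ) * s ≤ s * s := mul_le_mul_of_nonneg_right h3 hs0
    have h6 : s * s = P := by rw [← hs2]; ring
    linarith
  obtain ⟨j₀, hj₀⟩ : ∃ j₀ : ℕ, j₀ = ⌈x₀ / q⌉₊ := ⟨_, rfl⟩
  have hq0 : (0 : ℝ) < q := by linarith
  have hj1 : (j₀ : ℝ) ≤ 2 * x₀ / q := by
    have h1 : (j₀ : ℝ) < x₀ / q + 1 := by
      rw [hj₀]
      exact Nat.ceil_lt_add_one (by positivity)
    have h2 : 1 ≤ x₀ / q := by
      rw [le_div_iff₀ hq0]
      linarith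
    have h3 : 2 * x₀ / q = x₀ / q + x₀ / q := by ring
    linarith
  have hlow : ∀ j, j₀ ≤ j → x₀ ≤ ((r' + q * j : ℕ) : ℝ) := by
    intro j hj
    have h1 : x₀ / q ≤ j := by
      refine (Nat.le_ceil _).trans ?_
      rw [← hj₀]
      exact_mod_cast hj
    rw [div_le_iff₀ hq0] at h1
    push_cast
    have h2 : (0 : ℝ) ≤ r' := Nat.cast_nonneg _
    linarith
  have hfin : 16 * x₀ / q = 8 * (2 * x₀ / q) := by ring
  have hpos : 0 ≤ 2 * x₀ / q := by positivity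
  have htriv : ∀ m : ℕ, ‖∑ j ∈ range m, e (-B * ((r' + q * j : ℕ) : ℝ) ^ k)‖ ≤ m := by
    intro m
    refine (norm_sum_le _ _).trans (le_of_eq ?_)
    simp [Pool.Agent.Lib.MP_2a816b_nt.norm_e]
  rcases le_or_gt J j₀ with h | h
  · have h1 : (J : ℝ) ≤ j₀ := by exact_mod_cast h
    refine (htriv J).trans ?_
    rw [hfin]
    linarith
  · have h1 := Tb_KL B x₀ k P q r' J j₀ hB hk hq hx0 (by linarith) hx (fun j hj => (hJ j).1 hj) h.le
      hlow hup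
    rw [← Finset.sum_range_add_sum_Ico _ h.le]
    refine (norm_add_le _ _).trans ?_
    have h2 := htriv j₀
    rw [hfin]
    linarith

end Pool.Agent.Lib.MP_570bef_ntP
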