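import Pool.Agent.Lib.MP_570bef_ntP.Bas

/-!
# Vinogradov's lemma (job Vin)

`vin_block`: let `t = ⌊q θ⌋`, `θ = (t + δ) / q`, `0 ≤ δ < 1`, and `β = α - a / q`.  For `j < q` let `s j ∈ range q` be the residue of `t + a j` modulo `q`;
`s` is a permutation of `range q` (`a` is a unit modulo `q`; injectivity suffices).  `θ + α j = (t + a j)/q + δ/q + j β`, and `0 ≤ δ / q ≤ 1/q`,
`|j β| ≤ q / q² = 1/q`.  So `nn (θ + α j) ≥ nn (s j / q) - 2/q = (min (s j) (q - s j) - 2) / q` (`nn_sub_le`, `nn_add_int`; `nn (s/q) ≥ min(s, q-s)/q`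
for `0 ≤ s < q`).
Let `g s = V` if `s ≤ 2` or `q ≤ s + 2`, and `g s = q / (2 (s - 2)) + q / (2 (q - s - 2))` otherwise.  Then `mm V (θ + α j) ≤ g (s j)` (`mm_le`,
`mm_le_inv`).  Sum over the permutation: at most `5 V + 2 * (q / 2) * ∑_{i=1}^{q} 1 / i ≤ 5 V + q (1 + log q)` (`harmonic_le_one_add_log`), at most the
right side.
`vin`: `range W` is covered by the blocks `[i q, (i+1) q)`, `i ≤ W / q`; apply `vin_block` with `θ = α (w₀ + i q)` (`mm` is nonnegative).
-/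

set_option autoImplicit false

namespace Pool.Agent.Lib.MP_570bef_ntP

open Finset
open Pool.Agent.Lib.MP_2a816b_nt (e nn D)

private theorem Vin_harm (q : ℕ) (S : Finset ℕ) (φ : ℕ → ℕ) (hφ : Set.InjOn φ S)
    (hm : ∀ s ∈ S, 1 ≤ φ s ∧ φ s ≤ q) : ∑ s ∈ S, 1 / (φ s : ℝ) ≤ 1 + Real.log q := by
  have h1 : ∑ s ∈ S, 1 / (φ s : ℝ) = ∑ i ∈ S.image φ, 1 / (i : ℝ) :=
    (Finset.sum_image (f := fun i : ℕ => 1 / (i : ℝ)) (fun x hx y hy h => hφ hx hy h)).symm
  have h2 : ∑ i ∈ S.image φ, 1 / (i : ℝ) ≤ ∑ i ∈ Icc 1 q, 1 / (i : ℝ) := by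
    refine Finset.sum_le_sum_of_subset_of_nonneg ?_ (fun i _ _ => by positivity)
    intro i hi
    obtain ⟨s, hs, rfl⟩ := Finset.mem_image.1 hi
    exact Finset.mem_Icc.2 (hm s hs)
  have h3 : ∑ i ∈ Icc 1 q, 1 / (i : ℝ) = ((harmonic q : ℚ) : ℝ) := by
    rw [harmonic_eq_sum_Icc]
    push_cast
    exact Finset.sum_congr rfl fun i _ => one_div _
  rw [h1]
  exact h2.trans (h3.le.trans (harmonic_le_one_add_log q))

private theorem Vin_nn (q s : ℕ) (hq : 1 ≤ q) (_hs : s < q) :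
    (s : ℝ) / q ≤ nn ((s : ℝ) / q) ∨ ((q : ℝ) - s) / q ≤ nn ((s : ℝ) / q) := by
  have hq0 : (0 : ℝ) < q := by exact_mod_cast hq
  unfold nn
  rcases le_or_gt (round ((s : ℝ) / q)) 0 with h | h
  · left
    have h1 : ((round ((s : ℝ) / q) : ℤ) : ℝ) ≤ 0 := by exact_mod_cast h
    refine le_trans ?_ (le_abs_self _)
    linarith
  · right
    have h1 : (1 : ℝ) ≤ ((round ((s : ℝ) / q) : ℤ) : ℝ) := by exact_mod_cast h
    refine le_trans ?_ (neg_le_abs _)
    rw [sub_div, div_self hq0.ne']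
    linarith

/-- the bound at the residue `s` -/
private noncomputable def Vin_g (V : ℝ) (q s : ℕ) : ℝ :=
  (if s ≤ 2 ∨ q ≤ s + 2 then V else 0) + (if 2 < s then q / 2 * (1 / ((s - 2 : ℕ) : ℝ)) else 0)
    + (if s + 2 < q then q / 2 * (1 / ((q - s - 2 : ℕ) : ℝ)) else 0)

private theorem Vin_g_nonneg (V : ℝ) (q s : ℕ) (hV : 0 ≤ V) : 0 ≤ Vin_g V q s := by
  unfold Vin_g
  have h1 : 0 ≤ (if s ≤ 2 ∨ q ≤ s + 2 then V else 0) := by split_ifs <;> [exact hV; exact le_rfl]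
  have h2 : 0 ≤ (if 2 < s then (q : ℝ) / 2 * (1 / ((s - 2 : ℕ) : ℝ)) else 0) := by
    split_ifs <;> positivity
  have h3 : 0 ≤ (if s + 2 < q then (q : ℝ) / 2 * (1 / ((q - s - 2 : ℕ) : ℝ)) else 0) := by
    split_ifs <;> positivity
  linarith

private theorem Vin_mm (V x : ℝ) (q s : ℕ) (hq : 1 ≤ q) (hs : s < q) (hV : 0 ≤ V)
    (hx : nn ((s : ℝ) / q) ≤ nn x + 2 / q) : mm V x ≤ Vin_g V q s := by
  have hq0 : (0 : ℝ) < q := by exact_mod_cast hq
  by_cases hc : s ≤ 2 ∨ q ≤ s + 2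
  · refine (mm_le V x hV).trans ?_
    unfold Vin_g
    rw [if_pos hc]
    have h2 : 0 ≤ (if 2 < s then (q : ℝ) / 2 * (1 / ((s - 2 : ℕ) : ℝ)) else 0) := by
      split_ifs <;> positivity
    have h3 : 0 ≤ (if s + 2 < q then (q : ℝ) / 2 * (1 / ((q - s - 2 : ℕ) : ℝ)) else 0) := by
      split_ifs <;> positivity
    linarith
  · unfold Vin_g
    rw [if_neg hc, if_pos (by omega), if_pos (by omega)]
    have e1 : ((s - 2 : ℕ) : ℝ) = (s : ℝ) - 2 := by
      rw [Nat.cast_sub (by omega)]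
      norm_num
    have e2 : ((q - s - 2 : ℕ) : ℝ) = (q : ℝ) - s - 2 := by
      rw [Nat.cast_sub (by omega), Nat.cast_sub (by omega)]
      norm_num
    have p1 : (0 : ℝ) < (s : ℝ) - 2 := by
      rw [← e1]
      have : 0 < s - 2 := by omega
      exact_mod_cast this
    have p2 : (0 : ℝ) < (q : ℝ) - s - 2 := by
      rw [← e2]
      have : 0 < q - s - 2 := by omega
      exact_mod_cast this
    rw [e1, e2]
    have key : ∀ u : ℝ, 0 < u → (u + 2) / q ≤ nn ((s : ℝ) / q) → mm V x ≤ q / 2 * (1 / u) := by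
      intro u hu h
      have h1 : u / q ≤ nn x := by
        rw [add_div] at h
        linarith
      have h2 : 0 < nn x := lt_of_lt_of_le (by positivity) h1
      refine (mm_le_inv V x h2).trans ?_
      have h3 : (q : ℝ) / 2 * (1 / u) = 1 / (2 * (u / q)) := by
        field_simp
      rw [h3]
      exact one_div_le_one_div_of_le (by positivity) (by linarith)
    have q1 : 0 ≤ (q : ℝ) / 2 * (1 / ((s : ℝ) - 2)) := by positivity
    have q2 : 0 ≤ (q : ℝ) / 2 * (1 / ((q : ℝ) - s - 2)) := by positivity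
    rcases Vin_nn q s hq hs with h | h
    · have := key ((s : ℝ) - 2) p1 (by rwa [sub_add_cancel])
      linarith
    · have := key ((q : ℝ) - s - 2) p2 (by rwa [sub_add_cancel])
      linarith

private theorem Vin_sum (V : ℝ) (q : ℕ) (hV : 0 ≤ V) :
    ∑ s ∈ range q, Vin_g V q s ≤ 5 * V + q * (1 + Real.log q) := by
  unfold Vin_g
  rw [Finset.sum_add_distrib, Finset.sum_add_distrib]
  have h1 : ∑ s ∈ range q, (if s ≤ 2 ∨ q ≤ s + 2 then V else 0) ≤ 5 * V := by
    rw [← Finset.sum_filter, Finset.sum_const, nsmul_eq_mul]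
    refine mul_le_mul_of_nonneg_right ?_ hV
    have h2 : (range q).filter (fun s => s ≤ 2 ∨ q ≤ s + 2) ⊆ range 3 ∪ Ico (q - 2) q := by
      intro s hs
      rw [Finset.mem_filter, Finset.mem_range] at hs
      rw [Finset.mem_union, Finset.mem_range, Finset.mem_Ico]
      omega
    have h3 := (Finset.card_le_card h2).trans (Finset.card_union_le _ _)
    rw [Finset.card_range, Nat.card_Ico] at h3
    have h4 : ((range q).filter (fun s => s ≤ 2 ∨ q ≤ s + 2)).card ≤ 5 := by omega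
    exact_mod_cast h4
  have h2 : ∑ s ∈ range q, (if 2 < s then (q : ℝ) / 2 * (1 / ((s - 2 : ℕ) : ℝ)) else 0)
      ≤ q / 2 * (1 + Real.log q) := by
    rw [← Finset.sum_filter, ← Finset.mul_sum]
    refine mul_le_mul_of_nonneg_left (Vin_harm q _ (fun s => s - 2) ?_ ?_) (by positivity)
    · intro x hx y hy h
      rw [Finset.mem_coe, Finset.mem_filter] at hx hy
      have h5 : x - 2 = y - 2 := h
      omega
    · intro s hs
      rw [Finset.mem_filter, Finset.mem_range] at hs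
      omega
  have h3 : ∑ s ∈ range q, (if s + 2 < q then (q : ℝ) / 2 * (1 / ((q - s - 2 : ℕ) : ℝ)) else 0)
      ≤ q / 2 * (1 + Real.log q) := by
    rw [← Finset.sum_filter, ← Finset.mul_sum]
    refine mul_le_mul_of_nonneg_left (Vin_harm q _ (fun s => q - s - 2) ?_ ?_) (by positivity)
    · intro x hx y hy h
      rw [Finset.mem_coe, Finset.mem_filter] at hx hy
      have h5 : q - x - 2 = q - y - 2 := h
      omega
    · intro s hs
      rw [Finset.mem_filter, Finset.mem_range] at hs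
      omega
  have h4 : (q : ℝ) * (1 + Real.log q) = q / 2 * (1 + Real.log q) + q / 2 * (1 + Real.log q) := by ring
  linarith

theorem vin_block (α θ V : ℝ) (a : ℤ) (q : ℕ) (hq : 1 ≤ q) (haq : IsCoprime a (q : ℤ))
    (h : |α - a / q| ≤ 1 / (q : ℝ) ^ 2) (hV : 0 ≤ V) :
    ∑ j ∈ range q, mm V (θ + α * j) ≤ 8 * V + 8 * q * (1 + Real.log q) := by
  have hq0 : (0 : ℝ) < q := by exact_mod_cast hq
  have hqz : (0 : ℤ) < q := by exact_mod_cast hq
  have hlog : 0 ≤ Real.log q := Real.log_nonneg (by exact_mod_cast hq)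
  obtain ⟨t, ht⟩ : ∃ t : ℤ, t = ⌊(q : ℝ) * θ⌋ := ⟨_, rfl⟩
  have ht1 : (t : ℝ) ≤ q * θ := by rw [ht]; exact Int.floor_le _
  have ht2 : (q : ℝ) * θ < t + 1 := by rw [ht]; exact Int.lt_floor_add_one _
  obtain ⟨s, hs⟩ : ∃ s : ℕ → ℕ, s = fun j : ℕ => ((t + a * (j : ℤ)) % (q : ℤ)).toNat := ⟨_, rfl⟩
  have hsz : ∀ j, ((s j : ℕ) : ℤ) = (t + a * (j : ℤ)) % (q : ℤ) := by
    intro j
    rw [hs]
    exact Int.toNat_of_nonneg (Int.emod_nonneg _ hqz.ne')
  have hslt : ∀ j, s j < q := by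
    intro j
    have h1 := hsz j
    have h2 := Int.emod_lt_of_pos (t + a * (j : ℤ)) hqz
    omega
  have hinj : Set.InjOn s (range q : Finset ℕ) := by
    intro x hx y hy hxy
    rw [Finset.mem_coe, Finset.mem_range] at hx hy
    have h1 : (t + a * (x : ℤ)) % (q : ℤ) = (t + a * (y : ℤ)) % (q : ℤ) := by
      rw [← hsz, ← hsz, hxy]
    have h2 : (q : ℤ) ∣ (t + a * (y : ℤ)) - (t + a * (x : ℤ)) := Int.ModEq.dvd h1
    have h3 : (t + a * (y : ℤ)) - (t + a * (x : ℤ)) = a * ((y : ℤ) - x) := by ring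
    rw [h3] at h2
    have h4 := haq.symm.dvd_of_dvd_mul_left h2
    have h5 := Int.eq_zero_of_abs_lt_dvd h4 (by rw [abs_lt]; constructor <;> omega)
    omega
  have hmain : ∀ j ∈ range q, mm V (θ + α * j) ≤ Vin_g V q (s j) := by
    intro j hj
    rw [Finset.mem_range] at hj
    refine Vin_mm V _ q (s j) hq (hslt j) hV ?_
    have h1 : ((t + a * (j : ℤ) : ℤ) : ℝ) = ((t + a * (j : ℤ)) / (q : ℤ) : ℤ) * q + (s j : ℝ) := by
      have h2 := Int.mul_ediv_add_emod (t + a * (j : ℤ)) (q : ℤ)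
      rw [← hsz] at h2
      have h3 : (((q : ℤ) * ((t + a * (j : ℤ)) / (q : ℤ)) + (s j : ℤ) : ℤ) : ℝ)
          = ((t + a * (j : ℤ) : ℤ) : ℝ) := by rw [h2]
      rw [← h3]
      push_cast
      ring
    obtain ⟨m, hm⟩ : ∃ m : ℤ, m = (t + a * (j : ℤ)) / (q : ℤ) := ⟨_, rfl⟩
    rw [← hm] at h1
    push_cast at h1
    have h4 : θ + α * j = ((s j : ℝ) / q + ((q * θ - t) / q + (α - a / q) * j)) + m := by
      have h5 : (s j : ℝ) = t + a * j - m * q := by linarith
      rw [h5]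
      field_simp
      ring
    rw [h4, nn_add_int]
    refine (nn_sub_le ((s j : ℝ) / q) ((s j : ℝ) / q + ((q * θ - t) / q + (α - a / q) * j))).trans ?_
    have h6 : |(s j : ℝ) / q - ((s j : ℝ) / q + ((q * θ - t) / q + (α - a / q) * j))| ≤ 2 / q := by
      have h7 : (s j : ℝ) / q - ((s j : ℝ) / q + ((q * θ - t) / q + (α - a / q) * j))
          = -((q * θ - t) / q + (α - a / q) * j) := by ring
      rw [h7, abs_neg]
      refine (abs_add_le _ _).trans ?_
      have h8 : |(q * θ - t) / q| ≤ 1 / q := by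
        rw [abs_of_nonneg (div_nonneg (by linarith) hq0.le)]
        exact div_le_div_of_nonneg_right (by linarith) hq0.le
      have h9 : |(α - a / q) * j| ≤ 1 / q := by
        rw [abs_mul, Nat.abs_cast]
        have hjq : (j : ℝ) ≤ q := by exact_mod_cast hj.le
        calc |α - a / q| * (j : ℝ) ≤ 1 / (q : ℝ) ^ 2 * q :=
              mul_le_mul h hjq (Nat.cast_nonneg _) (by positivity)
          _ = 1 / q := by field_simp
      have h10 : (2 : ℝ) / q = 1 / q + 1 / q := by ring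
      linarith
    linarith
  have h1 : ∑ j ∈ range q, Vin_g V q (s j) ≤ ∑ s ∈ range q, Vin_g V q s := by
    rw [← Finset.sum_image (f := Vin_g V q) (fun x hx y hy h => hinj hx hy h)]
    refine Finset.sum_le_sum_of_subset_of_nonneg ?_ (fun i _ _ => Vin_g_nonneg V q i hV)
    intro i hi
    obtain ⟨j, -, rfl⟩ := Finset.mem_image.1 hi
    exact Finset.mem_range.2 (hslt j)
  refine (Finset.sum_le_sum hmain).trans (h1.trans ((Vin_sum V q hV).trans ?_))
  have h2 : 0 ≤ (q : ℝ) * (1 + Real.log q) := by positivity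
  have h3 : 8 * (q : ℝ) * (1 + Real.log q) = 8 * (q * (1 + Real.log q)) := by ring
  rw [h3]
  linarith

theorem vin (α V : ℝ) (a : ℤ) (q : ℕ) (hq : 1 ≤ q) (haq : IsCoprime a (q : ℤ))
    (h : |α - a / q| ≤ 1 / (q : ℝ) ^ 2) (hV : 0 ≤ V) (w₀ : ℤ) (W : ℕ) :
    ∑ j ∈ range W, mm V (α * ((w₀ : ℝ) + j)) ≤
      ((W : ℝ) / q + 1) * (8 * V + 8 * q * (1 + Real.log q)) := by
  have hlog : 0 ≤ Real.log q := Real.log_nonneg (by exact_mod_cast hq)
  have hM : 0 ≤ 8 * V + 8 * q * (1 + Real.log q) := by positivity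
  obtain ⟨M, hM'⟩ : ∃ M : ℝ, M = 8 * V + 8 * q * (1 + Real.log q) := ⟨_, rfl⟩
  rw [← hM'] at hM ⊢
  have key : ∀ n : ℕ, ∑ j ∈ range (n * q), mm V (α * ((w₀ : ℝ) + j)) ≤ n * M := by
    intro n
    induction n with
    | zero => simp
    | succ n ih =>
      rw [Nat.succ_mul, Finset.sum_range_add]
      have h1 := vin_block α (α * ((w₀ : ℝ) + ((n * q : ℕ) : ℝ))) V a q hq haq h hV
      rw [← hM'] at h1
      have h2 : ∑ j ∈ range q, mm V (α * ((w₀ : ℝ) + ((n * q + j : ℕ) : ℝ)))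
          = ∑ j ∈ range q, mm V (α * ((w₀ : ℝ) + ((n * q : ℕ) : ℝ)) + α * j) := by
        refine Finset.sum_congr rfl fun j _ => ?_
        congr 1
        push_cast
        ring
      rw [h2]
      push_cast at ih h1 ⊢
      linarith
  have h1 : W ≤ (W / q + 1) * q := by
    have h2 := Nat.div_add_mod W q
    have h3 := Nat.mod_lt W hq
    have h4 : (W / q + 1) * q = q * (W / q) + q := by ring
    omega
  have h2 : ∑ j ∈ range W, mm V (α * ((w₀ : ℝ) + j)) ≤
      ∑ j ∈ range ((W / q + 1) * q), mm V (α * ((w₀ : ℝ) + j)) :=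
    Finset.sum_le_sum_of_subset_of_nonneg (Finset.range_mono h1) fun i _ _ => mm_nonneg V _ hV
  refine h2.trans ((key _).trans (mul_le_mul_of_nonneg_right ?_ hM))
  push_cast
  have h3 : ((W / q : ℕ) : ℝ) ≤ (W : ℝ) / q := Nat.cast_div_le
  linarith

end Pool.Agent.Lib.MP_570bef_ntP
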